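import Pool.Agent.SYS.GW.StrA
import Pool.Agent.SYS.Lib.Cyl
import Pool.Agent.SYS.Lib.Alt
import Pool.Agent.SYS.Lib.Rch

/-!
# SYSS-GRW-StrT: strategies in a triangulation, regions with one hole
-/

namespace SYS.GW

open Classical SST SYS.Num Str

variable {n g b N p F p' F' : ℕ} {A : Type} {T : Tri (Fin (6 * n))} {s : Str (Fin (6 * n)) A} {Z Z₁ Z₂ Z' : Part (Fin (6 * n))}
  {a a' : A} {d : Fin (6 * n)}

/-- Number of triangulations over a region. -/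
noncomputable def ex (g : ℕ) (Z : Part (Fin (6 * n))) : ℝ := (({T | T ∈ Z.Ext g ∧ Z.HConn T}.ncard : ℕ) : ℝ)

private theorem strt_union {ι α : Type} [Finite α] (I : Finset ι) (A : Set α) (B : ι → Set α)
    (h : ∀ t ∈ A, ∃ i ∈ I, t ∈ B i) : ((A.ncard : ℕ) : ℝ) ≤ ∑ i ∈ I, (((B i).ncard : ℕ) : ℝ) := by
  have h1 : A.ncard ≤ ∑ i ∈ I, (B i).ncard := by
    have h2 : (Set.toFinite A).toFinset ⊆ I.biUnion fun i => (Set.toFinite (B i)).toFinset := by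
      intro t ht
      rw [Set.Finite.mem_toFinset] at ht
      obtain ⟨i, hi, hB⟩ := h t ht
      exact Finset.mem_biUnion.2 ⟨i, hi, (Set.Finite.mem_toFinset _).2 hB⟩
    have h3 := (Finset.card_le_card h2).trans Finset.card_biUnion_le
    rw [Set.ncard_eq_toFinset_card A (Set.toFinite A)]
    refine h3.trans (le_of_eq (Finset.sum_congr rfl fun i _ => ?_))
    rw [Set.ncard_eq_toFinset_card (B i) (Set.toFinite (B i))]
  calc ((A.ncard : ℕ) : ℝ) ≤ ((∑ i ∈ I, (B i).ncard : ℕ) : ℝ) := Nat.cast_le.2 h1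
    _ = _ := by push_cast; rfl

private theorem strt_disj {ι α : Type} [Finite α] (I : Finset ι) (A : Set α) (B : ι → Set α)
    (h : ∀ i ∈ I, ∀ t ∈ B i, t ∈ A) (hd : ∀ i ∈ I, ∀ j ∈ I, ∀ t, t ∈ B i → t ∈ B j → i = j) :
    ∑ i ∈ I, (((B i).ncard : ℕ) : ℝ) ≤ ((A.ncard : ℕ) : ℝ) := by
  have h1 : ∑ i ∈ I, (B i).ncard ≤ A.ncard := by
    have h2 : (I.biUnion fun i => (Set.toFinite (B i)).toFinset) ⊆ (Set.toFinite A).toFinset := by
      intro t ht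
      obtain ⟨i, hi, hB⟩ := Finset.mem_biUnion.1 ht
      rw [Set.Finite.mem_toFinset] at hB ⊢
      exact h i hi t hB
    have h3 := Finset.card_le_card h2
    rw [Finset.card_biUnion (by
      intro i hi j hj hij
      refine Finset.disjoint_left.2 ?_
      intro t h4 h5
      exact hij (hd i hi j hj t ((Set.Finite.mem_toFinset _).1 h4) ((Set.Finite.mem_toFinset _).1 h5)))] at h3
    rw [Set.ncard_eq_toFinset_card A (Set.toFinite A)]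
    refine (le_of_eq (Finset.sum_congr rfl fun i _ => ?_)).trans h3
    rw [Set.ncard_eq_toFinset_card (B i) (Set.toFinite (B i))]
  calc ∑ i ∈ I, (((B i).ncard : ℕ) : ℝ) = ((∑ i ∈ I, (B i).ncard : ℕ) : ℝ) := by push_cast; rfl
    _ ≤ _ := Nat.cast_le.2 h1

theorem oh_typ (h : OH Z p F) (hd : d ∈ Z.B) : Z.Typ [d] [p] F 0 := by
  obtain ⟨z, hz⟩ := h
  obtain ⟨e, he, hs⟩ := hz.hl.2.2 d hd
  rw [List.mem_singleton] at he
  subst he
  exact Part.typ_repl hz hd hs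

theorem oh_pz (h : OH Z p F) : pz Z = p ∧ fz Z = F ∧ 1 ≤ p := by
  obtain ⟨z, hz⟩ := h
  have h1 := Part.hl_card hz.hl
  have h2 := hz.vol
  rw [Nat.card_fin] at h2
  have h3 : Z.per z = p := by
    have := hz.per
    rw [List.map_singleton, List.cons.injEq] at this
    exact this.1
  rw [List.map_singleton, List.sum_singleton, h3] at h1
  refine ⟨h1, ?_, ?_⟩
  · unfold fz
    omega
  · rw [← h1]
    have hzB : z ∈ Z.B := hz.hl.1 z (List.mem_singleton_self z)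
    exact (Set.ncard_pos (Set.toFinite _)).2 ⟨z, hzB⟩

theorem ss_oh (h : OH Z p F) (hs : SS b Z d Z') : ∃ p' F', OH Z' p' F' ∧ p' ≤ p + 1 ∧ F' ≤ F ∧ F ≤ F' + (b + 1) ∧ Z.Sub Z' ∧ d ∈ Z.B := by
  obtain ⟨s, z, hst, hsm⟩ := hs
  obtain ⟨h1, h2, h3⟩ := Part.st_sub hst
  obtain ⟨hok, F', hF', ht⟩ := Part.st_typ (oh_typ h h2) hst
  refine ⟨s.nx p, F', ⟨z, ht⟩, ?_, ?_, ?_, h1, h2⟩
  · cases s with
    | T => exact le_rfl
    | L k a =>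
      show p - (k + 2) ≤ p + 1
      omega
    | R k a =>
      show p - (k + 2) ≤ p + 1
      omega
  · omega
  · cases s with
    | T =>
      have h4 : F' + 1 = F := hF'
      omega
    | L k a =>
      have h4 : F' + a = F := hF'
      have h5 : k + a < b := hsm
      omega
    | R k a =>
      have h4 : F' + a = F := hF'
      have h5 : k + a < b := hsm
      omega

theorem lf_oh (h : OH Z p F) (hN : s.Dep N) (hL : Lf b s Z a Z') :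
    ∃ p' F', OH Z' p' F' ∧ p' ≤ p + N ∧ F' ≤ F ∧ F ≤ F' + N * (b + 1) ∧ Z.Sub Z' := by
  induction s generalizing Z p F N with
  | ret a₀ =>
    obtain ⟨_, rfl⟩ := hL
    exact ⟨p, F, h, by omega, le_rfl, by omega, Part.sub_refl _⟩
  | peel d f ih =>
    obtain ⟨M, rfl, hM⟩ := hN
    obtain ⟨Z₁, h1, h2⟩ := hL
    obtain ⟨p₁, F₁, g1, g2, g3, g4, g5, -⟩ := ss_oh h h1
    obtain ⟨p₂, F₂, k1, k2, k3, k4, k5⟩ := ih Z₁ g1 (hM Z₁) h2
    refine ⟨p₂, F₂, k1, by omega, by omega, ?_, Part.sub_trans g5 k5⟩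
    have h3 : (M + 1) * (b + 1) = M * (b + 1) + (b + 1) := by ring
    omega

theorem in_back (hs : SS b Z d Z') (h : In T Z') : In T Z := by
  obtain ⟨s, z, hst, hsm⟩ := hs
  exact ⟨Part.sub_le (Part.st_sub hst).1 h.1, Part.st_hconn hst h.1 h.2⟩

theorem ss_unique (hT : T ∈ Trn n g) (hg : 1 ≤ g) (h : OH Z p F) (h₁ : SS b Z d Z₁) (i₁ : In T Z₁) (h₂ : SS b Z d Z₂) (i₂ : In T Z₂) :
    Z₁ = Z₂ := by
  have hin := in_back h₁ i₁
  obtain ⟨s₁, z₁, hst₁, -⟩ := h₁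
  obtain ⟨s₂, z₂, hst₂, -⟩ := h₂
  have ht := oh_typ h (Part.st_sub hst₁).2.1
  have hs : s₁ = s₂ := Part.stt_unique ht ⟨hT, hin.1⟩ (Or.inl (by omega)) ⟨Z₁, z₁, hst₁, i₁.1, i₁.2⟩
    ⟨Z₂, z₂, hst₂, i₂.1, i₂.2⟩
  subst hs
  exact (Part.st_unique hst₁ hst₂ (U := Part.ofTri T) ((Part.le_iff_sub _ T).1 i₁.1) ((Part.le_iff_sub _ T).1 i₂.1)).1

theorem run_unique (hT : T ∈ Trn n g) (hg : 1 ≤ g) (h : OH Z p F) (h₁ : Run b T s Z a Z₁) (h₂ : Run b T s Z a' Z₂) : a = a' ∧ Z₁ = Z₂ := by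
  induction s generalizing Z p F with
  | ret a₀ =>
    obtain ⟨e1, e2⟩ := h₁
    obtain ⟨e3, e4⟩ := h₂
    exact ⟨e1.trans e3.symm, e2.trans e4.symm⟩
  | peel d f ih =>
    obtain ⟨Y₁, a1, a2, a3⟩ := h₁
    obtain ⟨Y₂, b1, b2, b3⟩ := h₂
    obtain rfl := ss_unique hT hg h a1 a2 b1 b2
    obtain ⟨p₁, F₁, g1, -⟩ := ss_oh h a1
    exact ih Y₁ g1 a3 b3

theorem run_in (h : In T Z) (h₁ : Run b T s Z a Z₁) : In T Z₁ := by
  induction s generalizing Z with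
  | ret a₀ =>
    obtain ⟨_, rfl⟩ := h₁
    exact h
  | peel d f ih =>
    obtain ⟨Y₁, a1, a2, a3⟩ := h₁
    exact ih Y₁ a2 a3

theorem run_back (h₁ : Run b T s Z a Z₁) (h : In T Z₁) : In T Z := by
  cases s with
  | ret a₀ =>
    obtain ⟨_, rfl⟩ := h₁
    exact h
  | peel d f =>
    obtain ⟨Y₁, a1, a2, a3⟩ := h₁
    exact in_back a1 a2

theorem runP_of (hT : T ∈ Trn n g) (hg : 1 ≤ g) (h : OH Z p F) {P : Part (Fin (6 * n)) → Fin (6 * n) → Part (Fin (6 * n)) → Prop}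
    {P' : Part (Fin (6 * n)) → Fin (6 * n) → Part (Fin (6 * n)) → Prop} (h₁ : RunP b T P s Z a Z₁) (h₂ : RunP b T P' s Z a' Z₂) :
    RunP b T (fun Y d Y' => P Y d Y' ∧ P' Y d Y') s Z a Z₁ := by
  induction s generalizing Z p F with
  | ret a₀ => exact h₁
  | peel d f ih =>
    obtain ⟨Y₁, a1, a2, a3, a4⟩ := h₁
    obtain ⟨Y₂, b1, b2, b3, b4⟩ := h₂
    obtain rfl := ss_unique hT hg h a1 a2 b1 b2
    obtain ⟨p₁, F₁, g1, -⟩ := ss_oh h a1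
    exact ⟨Y₁, a1, a2, ⟨a3, b3⟩, ih Y₁ g1 a4 b4⟩

theorem cnt_le (g b : ℕ) (P : Tri (Fin (6 * n)) → A → Part (Fin (6 * n)) → Prop) (s : Str (Fin (6 * n)) A) (Z : Part (Fin (6 * n))) :
    (({T | T ∈ Z.Ext g ∧ Z.HConn T ∧ ∃ a Z', Run b T s Z a Z' ∧ P T a Z'}.ncard : ℕ) : ℝ) ≤
      LS b (fun a Z' => (({T | T ∈ Z'.Ext g ∧ Z'.HConn T ∧ P T a Z'}.ncard : ℕ) : ℝ)) s Z := by
  induction s generalizing Z with
  | ret a₀ =>
    show _ ≤ (({T | T ∈ Z.Ext g ∧ Z.HConn T ∧ P T a₀ Z}.ncard : ℕ) : ℝ)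
    refine Nat.cast_le.2 (Set.ncard_le_ncard ?_ (Set.toFinite _))
    rintro T ⟨h1, h2, a, Z', ⟨rfl, rfl⟩, h3⟩
    exact ⟨h1, h2, h3⟩
  | peel d f ih =>
    have h1 := strt_union (ι := Part (Fin (6 * n))) (Finset.univ.filter fun Z₁ => SS b Z d Z₁)
      {T | T ∈ Z.Ext g ∧ Z.HConn T ∧ ∃ a Z', Run b T (.peel d f) Z a Z' ∧ P T a Z'}
      (fun Z₁ => {T | T ∈ Z₁.Ext g ∧ Z₁.HConn T ∧ ∃ a Z', Run b T (f Z₁) Z₁ a Z' ∧ P T a Z'}) (by
        rintro T ⟨h1, h2, a, Z', ⟨Z₁, h3, h4, h5⟩, h6⟩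
        exact ⟨Z₁, Finset.mem_filter.2 ⟨Finset.mem_univ _, h3⟩, ⟨h1.1, h4.1⟩, h4.2, a, Z', h5, h6⟩)
    refine h1.trans ?_
    rw [Finset.sum_filter]
    show _ ≤ ∑ Z₁ : Part (Fin (6 * n)), if SS b Z d Z₁ then LS b _ (f Z₁) Z₁ else 0
    refine Finset.sum_le_sum fun Z₁ _ => ?_
    by_cases hs : SS b Z d Z₁
    · rw [if_pos hs, if_pos hs]
      exact ih Z₁ Z₁
    · rw [if_neg hs, if_neg hs]

theorem ext_sum (hg : 1 ≤ g) (h : OH Z p F) : ∑ Z₁ : Part (Fin (6 * n)), (if SS b Z d Z₁ then ex g Z₁ else 0) ≤ ex g Z := by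
  have h1 := strt_disj (ι := Part (Fin (6 * n))) (Finset.univ.filter fun Z₁ => SS b Z d Z₁)
    {T | T ∈ Z.Ext g ∧ Z.HConn T} (fun Z₁ => {T | T ∈ Z₁.Ext g ∧ Z₁.HConn T}) (by
      rintro Z₁ hZ₁ T ⟨h1, h2⟩
      have h3 := in_back (Finset.mem_filter.1 hZ₁).2 ⟨h1.2, h2⟩
      exact ⟨⟨h1.1, h3.1⟩, h3.2⟩) (by
      intro Z₁ hZ₁ Z₂ hZ₂ T h1 h2
      exact ss_unique h1.1.1 hg h (Finset.mem_filter.1 hZ₁).2 ⟨h1.1.2, h1.2⟩ (Finset.mem_filter.1 hZ₂).2 ⟨h2.1.2, h2.2⟩)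
  rw [Finset.sum_filter] at h1
  exact h1

theorem ext_ls (hg : 1 ≤ g) (h : OH Z p F) (s : Str (Fin (6 * n)) A) : LS b (fun _ Z' => ex g Z') s Z ≤ ex g Z := by
  induction s generalizing Z p F with
  | ret a₀ => exact le_rfl
  | peel d f ih =>
    refine le_trans ?_ (ext_sum (b := b) (d := d) hg h)
    show (∑ Z₁ : Part (Fin (6 * n)), if SS b Z d Z₁ then LS b (fun _ Z' => ex g Z') (f Z₁) Z₁ else 0) ≤ _
    refine Finset.sum_le_sum fun Z₁ _ => ?_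
    by_cases hs : SS b Z d Z₁
    · rw [if_pos hs, if_pos hs]
      obtain ⟨p₁, F₁, g1, -⟩ := ss_oh h hs
      exact ih Z₁ g1
    · rw [if_neg hs, if_neg hs]

end SYS.GW
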