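import Pool.Agent.SYS.GW.DefB
import Pool.Agent.SYS.GW.StrT
import Pool.Agent.SYS.BK.Out
import Pool.Agent.SYS.NS.Pair

/-!
# SYSS-GRW-BOkB: the block `bk (prmQ Λ μ Q)` satisfies the assumptions `BOk`, `DOk`

Window `2 W + 2` (a local run with window `W + 1` is a local run with the window `2 W + 2`).
-/

namespace SYS.GW

open Classical SST SYS.Num

section
variable {D : Type} [Finite D]

private theorem nw_mono {S S₁ : Part D} {x : D} {K K' : ℕ} (h : K ≤ K') : Part.NW S S₁ x K ⊆ Part.NW S S₁ x K' := by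
  rintro d (hd | ⟨m, hm, rfl⟩)
  · exact Or.inl hd
  · exact Or.inr ⟨m, hm.trans (by exact_mod_cast h), rfl⟩

private theorem locs_mono {S S₁ : Part D} {x d : D} {K K' : ℕ} (h : K ≤ K') {s : Stp} (hs : Part.LocS S S₁ x K d s) :
    Part.LocS S S₁ x K' d s := by
  cases s with
  | T => trivial
  | R k a => exact fun i hi => nw_mono h (hs i hi)
  | L k a => exact ⟨nw_mono h hs.1, fun i hi => nw_mono h (hs.2 i hi)⟩

private theorem lbr_mono {b : Part D → Option D} {S : Part D} {x : D} {K K' : ℕ} (h : K ≤ K') {w : List Stp} {Z Z' : Part D} {z z' : D}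
    (hr : Part.LBR b S x K Z z w Z' z') : Part.LBR b S x K' Z z w Z' z' := by
  induction w generalizing Z z with
  | nil => exact hr
  | cons s w ih =>
    obtain ⟨d, Z₁, z₁, h1, h2, h3⟩ := hr
    exact ⟨d, Z₁, z₁, h1, ⟨h2.1, locs_mono h h2.2⟩, ih h3⟩

end

private theorem dok_gen {P : BK.Prm} (hP : P.Ok) {L : ℕ} (hL : P.M + P.q + 1 ≤ L) : DOk (BK.bk P) L (3 * P.R0) := by
  intro n g T Z X' f e _ _ hf _ hE he he'
  obtain ⟨Y, _, h2, h3, h4, h5, h6, h7⟩ := BK.bk_exit hP hf hE he he'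
  exact ⟨Y, h2, h3, h4, h5, h6.trans hL, h7⟩

variable {x μ : ℝ} {Λ Q W v : ℕ} {ε ε₁ : ℝ}

theorem dok_of (hΛ : 96 ≤ Λ) (hQ : 2 ≤ Q) (hμ : 0 < μ) (hμ1 : μ ≤ 1) :
    DOk (BK.bk (NS.prmQ Λ μ Q)) (Λ * Q + Q) (3 * (NS.prmQ Λ μ Q).R0) :=
  dok_gen (NS.prmQ_ok hμ hμ1 hΛ hQ).1 (by
    show Λ * Q + (Q - 1) + 1 ≤ Λ * Q + Q
    omega)

theorem bok_of (hΛ : 96 ≤ Λ) (hQ : 2 ≤ Q) (hμ : 0 < μ) (hμ1 : μ ≤ 1) (h : NS.LT x Λ μ Q W v ε ε₁) :
    BOk (BK.bk (NS.prmQ Λ μ Q)) x (2 * W + 2) v (NS.gQ x Λ μ Q - ε) ε₁ := by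
  have hP := (NS.prmQ_ok hμ hμ1 hΛ hQ).1
  refine ⟨(BK.bk_ok hP).1, (BK.bk_ok hP).2, ?_, ?_, ?_⟩
  · intro D _ Z Y f y d w hf hr hne hd
    obtain ⟨h1, _, h3⟩ := BK.bk_gate hf hr hd
    refine ⟨h1, ?_⟩
    rcases h3 with ⟨_, h4, _⟩ | ⟨_, h4⟩
    · exact absurd h4 hne
    · exact h4
  · intro n Z f p F hO hf hp hv
    obtain ⟨U, hU, hU'⟩ := (h (oh_typ hO hf) (by omega) (by simpa using hv)).1
    exact ⟨U, fun q hq => ⟨lbr_mono (by omega) (hU q hq).1, (hU q hq).2⟩, hU'⟩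
  · intro n Z f p F hO hf hp hv U hU
    refine (h (oh_typ hO hf) (by omega) (by simpa using hv)).2 U fun q hq => ⟨(hU q hq).1, fun hn => ?_⟩
    exact (hU q hq).2 ⟨q.1, q.2.2, lbr_mono (by omega) hn.1, (hU q hq).1.2, hn.2⟩

end SYS.GW
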