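import Pool.Agent.SYS.GW.Fin
import Pool.Agent.SYS.GW.BOkB
import Pool.Agent.SYS.NS.Pair

/-!
# SYSS-GRW-Out: the output of block GRW in the form `NS.GrwB`

`b₀ := ⌊gQ / (32 (W + 1))⌋ + 1`, window `2 W + 2`.
-/

namespace SYS.GW

open Classical SST SYS.Num Filter

private theorem out_num {g β : ℝ} {W M : ℕ} (hg : 64 * ((W : ℝ) + 1) ≤ g) (hβ : (M : ℝ) / Real.log (g / (32 * ((W : ℝ) + 1))) < β) :
    ∃ b₀ : ℕ, 3 ≤ b₀ ∧ (b₀ : ℝ) * (2 * ((2 * W + 2 : ℕ) : ℝ) + 4) < (g - 1) - (1 + (g - 1)) * (1 / 16) ∧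
      ∀ e : ℝ, 0 < e → e < 1 / 2 → (1 - 19 / 10 * e) * M / Real.log b₀ < β := by
  have hW : (0 : ℝ) < 32 * ((W : ℝ) + 1) := by positivity
  obtain ⟨r, hr⟩ : ∃ r, r = g / (32 * ((W : ℝ) + 1)) := ⟨_, rfl⟩
  rw [← hr] at hβ
  have hr2 : 2 ≤ r := by
    rw [hr, le_div_iff₀ hW]
    linarith
  have hgr : g = r * (32 * ((W : ℝ) + 1)) := by
    rw [hr]
    field_simp
  have hf1 : (⌊r⌋₊ : ℝ) ≤ r := Nat.floor_le (by linarith)
  have hf2 : r < (⌊r⌋₊ : ℝ) + 1 := Nat.lt_floor_add_one r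
  have hf3 : 2 ≤ ⌊r⌋₊ := by
    rw [Nat.le_floor_iff (by linarith)]
    exact_mod_cast hr2
  refine ⟨⌊r⌋₊ + 1, by omega, ?_, ?_⟩
  · push_cast
    have hW0 : (0 : ℝ) ≤ W := Nat.cast_nonneg _
    have h1 : ((⌊r⌋₊ : ℝ) + 1) * (2 * (2 * (W : ℝ) + 2) + 4) ≤ (r + 1) * (2 * (2 * (W : ℝ) + 2) + 4) :=
      mul_le_mul_of_nonneg_right (by linarith) (by positivity)
    have h2 : (r + 1) * (2 * (2 * (W : ℝ) + 2) + 4) ≤ (r + 1) * (8 * ((W : ℝ) + 1)) :=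
      mul_le_mul_of_nonneg_left (by linarith) (by linarith)
    have h3 : (r + 1) * (8 * ((W : ℝ) + 1)) ≤ (3 / 2 * r) * (8 * ((W : ℝ) + 1)) :=
      mul_le_mul_of_nonneg_right (by linarith) (by positivity)
    have h4 : (3 / 2 * r) * (8 * ((W : ℝ) + 1)) = 3 / 8 * g := by
      rw [hgr]
      ring
    have h5 : 64 ≤ g := by nlinarith
    linarith
  · intro e he he'
    have hlog : 0 < Real.log r := Real.log_pos (by linarith)
    have hle : Real.log r ≤ Real.log ((⌊r⌋₊ + 1 : ℕ) : ℝ) := by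
      apply Real.log_le_log (by linarith)
      push_cast
      linarith
    have hM : (0 : ℝ) ≤ M := Nat.cast_nonneg _
    refine lt_of_le_of_lt ?_ hβ
    have h1 : (1 - 19 / 10 * e) * M / Real.log ((⌊r⌋₊ + 1 : ℕ) : ℝ) ≤ M / Real.log ((⌊r⌋₊ + 1 : ℕ) : ℝ) := by
      apply div_le_div_of_nonneg_right _ (by linarith)
      nlinarith
    refine h1.trans ?_
    exact div_le_div_of_nonneg_left hM hlog hle

/-- Block GRW. -/
theorem grwB {θ x : ℝ} (h : Num.Par θ x) : NS.GrwB θ x 1 (1 / 16) := by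
  intro μ Λ Q W v β hμ hμ1 hΛ hQ hLT hg hβ
  obtain ⟨b₀, hb, h1, h2⟩ := out_num hg hβ
  have hB := bok_of hΛ hQ hμ hμ1 (fun {n} {S} {x} {l} {p} {P} {F} {κ} hS hp hv => hLT hS hp hv)
  have hD : DOk (BK.bk (NS.prmQ Λ μ Q)) (Λ * Q + Q) (3 * (NS.prmQ Λ μ Q).R0) := dok_of hΛ hQ hμ hμ1
  exact ⟨_, fun e he he' => grw_main h hB hD (by norm_num) (by norm_num) hb h1 he he' (h2 e he he')⟩

end SYS.GW
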