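import Pool.Agent.SYS.GW.Mom

/-!
# SYSS-GRW-BI: the inequality for one block (second order expansion of the exponential)
-/

namespace SYS.GW

open Classical SST SYS.Num Str

/-- a local run is a run (one hole) -/
private theorem bi_lbr {D : Type} [Finite D] {b : Part D → Option D} {S : Part D} {x : D} {W : ℕ}
    (w : List Stp) : ∀ (Z : Part D) (z : D) (p F : ℕ) (Z' : Part D) (z' : D), Z.Typ [z] [p] F 0 →
      Part.LBR b S x W Z z w Z' z' → Part.BR b Z z w Z' z' := by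
  induction w with
  | nil =>
    intro Z z p F Z' z' _ h
    exact h
  | cons s w ih =>
    rintro Z z p F Z' z' hZ ⟨d, Z₁, z₁, hb, ⟨hst, -⟩, hl⟩
    have hd : d ∈ Z.B := by
      cases s with
      | T =>
        obtain ⟨t0, t1, t2, hx, _⟩ := hst
        exact hx
      | L k a =>
        obtain ⟨y, u, v, w, hx, _⟩ := hst
        exact hx
      | R k a =>
        obtain ⟨y, u, v, w, hx, _⟩ := hst
        exact hx
    have hz : Z.s.SameCycle z d := by
      obtain ⟨e, he, h⟩ := hZ.hl.2.2 d hd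
      rw [List.mem_singleton] at he
      rwa [he] at h
    obtain ⟨-, F₁, -, hT⟩ := Part.st_typ (Part.typ_repl hZ hd hz) hst
    exact ⟨d, Z₁, z₁, hb, hd, hz, hst, ih Z₁ z₁ _ _ _ _ hT hl⟩

private theorem bi_exp (u : ℝ) : Real.exp u ≤ 1 + u + u ^ 2 * Real.exp |u| := by
  have h1 := Real.add_one_le_exp (-u)
  have h2 : Real.exp (-u) * Real.exp u = 1 := by rw [← Real.exp_add]; simp
  have h4 := Real.exp_pos u
  rcases le_or_gt 0 u with h | h
  · rw [abs_of_nonneg h]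
    have h3 : (1 - u) * Real.exp u ≤ 1 := by
      rw [← h2]
      exact mul_le_mul_of_nonneg_right (by linarith) h4.le
    have h5 : (1 + u) * ((1 - u) * Real.exp u) ≤ (1 + u) * 1 :=
      mul_le_mul_of_nonneg_left h3 (by linarith)
    linarith [h5]
  · rw [abs_of_neg h]
    have h3 : (1 - u) * Real.exp u ≤ 1 := by
      rw [← h2]
      exact mul_le_mul_of_nonneg_right (by linarith) h4.le
    have h5 : 1 ≤ Real.exp (-u) := Real.one_le_exp (by linarith)
    have h6 : u ^ 2 * 1 ≤ u ^ 2 * Real.exp (-u) := mul_le_mul_of_nonneg_left h5 (sq_nonneg u)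
    have h7 : Real.exp u ≤ 1 + u + u ^ 2 := by
      have h8 : Real.exp u ≤ 1 / (1 - u) := by
        rw [le_div_iff₀ (by linarith)]
        linarith
      refine h8.trans ?_
      rw [div_le_iff₀ (by linarith)]
      have h9 : 0 ≤ (-u) ^ 3 := pow_nonneg (by linarith) 3
      nlinarith [h9]
    linarith

/-- the pointwise bound -/
private theorem bi_pt {e t A z u : ℝ} (he : 0 < e) (hz : 0 ≤ z) (htA : t * A ≤ e / 2) (hu : |u| ≤ t * A * (1 + z)) :
    Real.exp u ≤ 1 + u + t ^ 2 * (A ^ 2 * (8 / e ^ 2) * Real.exp e) * Real.exp (e * z) := by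
  refine (bi_exp u).trans ?_
  have h0 : 0 ≤ |u| := abs_nonneg u
  have h1 : u ^ 2 ≤ (t * A * (1 + z)) ^ 2 := by
    rw [← sq_abs]
    exact pow_le_pow_left₀ h0 hu 2
  have h2 : Real.exp |u| ≤ Real.exp (e / 2 * (1 + z)) := by
    rw [Real.exp_le_exp]
    exact hu.trans (mul_le_mul_of_nonneg_right htA (by linarith))
  have h3 : (1 + z) ^ 2 ≤ 8 / e ^ 2 * Real.exp (e / 2 * (1 + z)) := by
    have h4 := Real.quadratic_le_exp_of_nonneg (x := e / 2 * (1 + z)) (by positivity)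
    have h5 : (e / 2 * (1 + z)) ^ 2 / 2 ≤ Real.exp (e / 2 * (1 + z)) := by
      have : 0 ≤ e / 2 * (1 + z) := by positivity
      linarith
    have h6 : (1 + z) ^ 2 = 8 / e ^ 2 * ((e / 2 * (1 + z)) ^ 2 / 2) := by
      field_simp
      ring
    rw [h6]
    exact mul_le_mul_of_nonneg_left h5 (by positivity)
  have h7 : u ^ 2 * Real.exp |u| ≤
      t ^ 2 * (A ^ 2 * (8 / e ^ 2) * Real.exp e) * Real.exp (e * z) := by
    calc u ^ 2 * Real.exp |u| ≤ (t * A * (1 + z)) ^ 2 * Real.exp (e / 2 * (1 + z)) :=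
          mul_le_mul h1 h2 (Real.exp_pos _).le (sq_nonneg _)
      _ = (t * A) ^ 2 * ((1 + z) ^ 2 * Real.exp (e / 2 * (1 + z))) := by ring
      _ ≤ (t * A) ^ 2 * (8 / e ^ 2 * Real.exp (e / 2 * (1 + z)) * Real.exp (e / 2 * (1 + z))) :=
          mul_le_mul_of_nonneg_left (mul_le_mul_of_nonneg_right h3 (Real.exp_pos _).le)
            (sq_nonneg _)
      _ = t ^ 2 * (A ^ 2 * (8 / e ^ 2)) * (Real.exp (e / 2 * (1 + z)) *
            Real.exp (e / 2 * (1 + z))) := by ring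
      _ = t ^ 2 * (A ^ 2 * (8 / e ^ 2)) * (Real.exp e * Real.exp (e * z)) := by
          rw [← Real.exp_add, ← Real.exp_add]
          congr 2
          ring
      _ = _ := by ring
  linarith

private theorem bi_WZ {n : ℕ} {x : ℝ} (Z : Part (Fin (6 * n))) : 0 ≤ WZ x Z := by
  unfold WZ Nm
  have h1 : 0 < AA x := lt_of_le_of_lt (by norm_num) (AA_gt x)
  have h2 := yy_pos x
  positivity

theorem bi {W v : ℕ} {x γ ε₁ : ℝ} {B : CH.Blk} (hx : 0 < x) (hB : BOk B x W v γ ε₁) {α S η : ℝ} (hα : 0 ≤ α) (hS : 0 ≤ S) (hη : 0 < η) :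
    ∃ t ε₀ : ℝ, 0 < t ∧ 0 < ε₀ ∧ ∀ (ε : ℝ), 0 ≤ ε → ε ≤ ε₀ → ∀ (n b p F : ℕ) (Z : Part (Fin (6 * n))) (f : Fin (6 * n)), OH Z p F → f ∈ Z.B →
      2 * W + 1 < p → v ≤ F →
        LS b (fun Z' _ => WZ x Z' * Real.exp (-(t * α) * xg B W v Z f Z' + t * S * kb B W v Z f Z' + ε * xi Z Z')) (blkS B Z f B.K Z) Z ≤
          WZ x Z * Real.exp (-t * (α * γ - S * ε₁ - η)) := by
  obtain ⟨e, R, he, hR, hmom⟩ := blk_mom hx B.K
  obtain ⟨A, hA⟩ : ∃ A, A = 2 * α + S + 1 := ⟨_, rfl⟩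
  have hA1 : 1 ≤ A := by rw [hA]; linarith
  have hA0 : 0 < A := by linarith
  obtain ⟨C, hC⟩ : ∃ C, C = A ^ 2 * (8 / e ^ 2) * Real.exp e * R + R / e := ⟨_, rfl⟩
  have hC0 : 0 < C := by
    rw [hC]
    have := Real.exp_pos e
    positivity
  obtain ⟨t, ht0, ht1, ht2, ht3⟩ : ∃ t : ℝ, 0 < t ∧ t ≤ 1 ∧ t * A ≤ e / 2 ∧ t * C ≤ η := by
    refine ⟨min 1 (min (e / (2 * A)) (η / C)), by positivity, min_le_left _ _, ?_, ?_⟩
    · have h1 : min 1 (min (e / (2 * A)) (η / C)) ≤ e / (2 * A) :=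
        (min_le_right _ _).trans (min_le_left _ _)
      calc _ ≤ e / (2 * A) * A := mul_le_mul_of_nonneg_right h1 hA0.le
        _ = e / 2 := by field_simp
    · have h1 : min 1 (min (e / (2 * A)) (η / C)) ≤ η / C :=
        (min_le_right _ _).trans (min_le_right _ _)
      calc _ ≤ η / C * C := mul_le_mul_of_nonneg_right h1 hC0.le
        _ = η := by field_simp
  refine ⟨t, t ^ 2, ht0, by positivity, ?_⟩
  intro ε hε0 hε n b p F Z f h hf hp hv
  obtain ⟨Q₀, hQ₀, hγ⟩ := hB.low Z f p F h hf hp hv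
  have hE₀ : ∀ q ∈ Q₀, Part.BEnd (B.nxt Z f) Z f q := fun q hq =>
    ⟨bi_lbr q.1 Z f p F _ _ (oh_typ h hf) (hQ₀ q hq).1, (hQ₀ q hq).2.1⟩
  obtain ⟨Q, hQQ, hQE, hLS⟩ := blk_ls (b := b) hx hB h hf Q₀ hE₀
  refine (hLS (fun Y => Real.exp (-(t * α) * xg B W v Z f Y + t * S * kb B W v Z f Y + ε * xi Z Y))
    (fun Y => (Real.exp_pos _).le)).trans ?_
  refine mul_le_mul_of_nonneg_left ?_ (bi_WZ Z)
  have hN : ∀ w, 0 ≤ Part.nwt x F w := fun w => Part.nwt_nonneg hx F w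
  -- the facts about an end
  have hfac : ∀ q ∈ Q, (xg B W v Z f q.2.1 : ℝ) ≤ 2 * q.1.length ∧
      (kb B W v Z f q.2.1 : ℝ) ≤ Part.wk q.1 + 1 ∧ 0 ≤ xi Z q.2.1 ∧
      xi Z q.2.1 ≤ q.1.length + Part.wk q.1 + wvol q.1 := by
    intro q hq
    have hE := (hQE q hq).1
    obtain ⟨h1, h2⟩ := xi_le h hE
    refine ⟨?_, ?_, h1, h2⟩
    · have h3 := exn_le h hE
      have h4 : xg B W v Z f q.2.1 ≤ 2 * q.1.length := by
        unfold xg
        split_ifs
        · exact h3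
        · exact Nat.zero_le _
      exact_mod_cast h4
    · have h3 := kb_le hB h hf hE
      have h4 : kb B W v Z f q.2.1 ≤ Part.wk q.1 + 1 := by
        unfold kb
        split_ifs
        · exact Nat.zero_le _
        · exact h3
      exact_mod_cast h4
  have hpt : ∀ q ∈ Q, Part.nwt x F q.1 * Real.exp (-(t * α) * xg B W v Z f q.2.1 +
      t * S * kb B W v Z f q.2.1 + ε * xi Z q.2.1) ≤
      Part.nwt x F q.1 + (-(t * α)) * (Part.nwt x F q.1 * xg B W v Z f q.2.1) +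
      t * S * (Part.nwt x F q.1 * kb B W v Z f q.2.1) + ε * (Part.nwt x F q.1 * xi Z q.2.1) +
      t ^ 2 * (A ^ 2 * (8 / e ^ 2) * Real.exp e) *
      (Part.nwt x F q.1 * Real.exp (e * ((q.1.length : ℝ) + Part.wk q.1 + wvol q.1))) := by
    intro q hq
    obtain ⟨f1, f2, f3, f4⟩ := hfac q hq
    obtain ⟨z, hz⟩ : ∃ z, z = (q.1.length : ℝ) + Part.wk q.1 + wvol q.1 := ⟨_, rfl⟩
    rw [← hz] at f4 ⊢
    have hl0 : (0 : ℝ) ≤ q.1.length := Nat.cast_nonneg _
    have hw0 : (0 : ℝ) ≤ Part.wk q.1 := Nat.cast_nonneg _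
    have hv0 : (0 : ℝ) ≤ wvol q.1 := Nat.cast_nonneg _
    have hx0 : (0 : ℝ) ≤ xg B W v Z f q.2.1 := Nat.cast_nonneg _
    have hk0 : (0 : ℝ) ≤ kb B W v Z f q.2.1 := Nat.cast_nonneg _
    have hz0 : 0 ≤ z := by rw [hz]; positivity
    have hu : |-(t * α) * xg B W v Z f q.2.1 + t * S * kb B W v Z f q.2.1 + ε * xi Z q.2.1| ≤
        t * A * (1 + z) := by
      have g1 : t * α * xg B W v Z f q.2.1 ≤ t * α * (2 * (1 + z)) :=
        mul_le_mul_of_nonneg_left (by rw [hz]; linarith) (by positivity)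
      have g2 : t * S * kb B W v Z f q.2.1 ≤ t * S * (1 + z) :=
        mul_le_mul_of_nonneg_left (by rw [hz]; linarith) (by positivity)
      have g3 : ε * xi Z q.2.1 ≤ t * (1 + z) := by
        have g4 : ε ≤ t := hε.trans (by nlinarith)
        calc ε * xi Z q.2.1 ≤ t * xi Z q.2.1 := mul_le_mul_of_nonneg_right g4 f3
          _ ≤ t * (1 + z) := mul_le_mul_of_nonneg_left (by linarith) ht0.le
      have g5 : 0 ≤ t * α * xg B W v Z f q.2.1 := by positivity
      have g6 : 0 ≤ t * S * kb B W v Z f q.2.1 := by positivity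
      have g7 : 0 ≤ ε * xi Z q.2.1 := mul_nonneg hε0 f3
      have g8 : 0 ≤ t * S * (1 + z) := by positivity
      have g9 : 0 ≤ t * (1 + z) := by positivity
      have g10 : 0 ≤ t * α * (2 * (1 + z)) := by positivity
      have g11 : t * A * (1 + z) = t * α * (2 * (1 + z)) + t * S * (1 + z) + t * (1 + z) := by
        rw [hA]; ring
      rw [g11, abs_le]
      constructor <;> linarith
    have hb := bi_pt he hz0 ht2 hu
    have hb2 := mul_le_mul_of_nonneg_left hb (hN q.1)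
    refine hb2.trans (le_of_eq ?_)
    ring
  have hsum := Finset.sum_le_sum hpt
  rw [Finset.sum_add_distrib, Finset.sum_add_distrib, Finset.sum_add_distrib,
    Finset.sum_add_distrib, ← Finset.mul_sum, ← Finset.mul_sum, ← Finset.mul_sum,
    ← Finset.mul_sum] at hsum
  have hm := hmom n p F W v γ ε₁ B hB rfl Z f h hf Q hQE
  have h1 := blk_mass hx hB h hf Q hQE
  have h2 : γ ≤ ∑ q ∈ Q, Part.nwt x F q.1 * (xg B W v Z f q.2.1 : ℝ) := by
    refine hγ.trans ?_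
    calc ∑ q ∈ Q₀, Part.nwt x F q.1 * (Part.exn Z q.2.1 : ℝ) =
          ∑ q ∈ Q₀, Part.nwt x F q.1 * (xg B W v Z f q.2.1 : ℝ) := by
          refine Finset.sum_congr rfl fun q hq => ?_
          have hG : GE B W v Z f q.2.1 := ⟨q.1, q.2.2, hQ₀ q hq⟩
          unfold xg
          rw [if_pos hG]
      _ ≤ _ := Finset.sum_le_sum_of_subset_of_nonneg hQQ
          fun q _ _ => mul_nonneg (hN _) (Nat.cast_nonneg _)
  have h3 : ∑ q ∈ Q, Part.nwt x F q.1 * (kb B W v Z f q.2.1 : ℝ) ≤ ε₁ := by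
    have h4 := hB.tail Z f p F h hf hp hv (Q.filter fun q => ¬ GE B W v Z f q.2.1)
      (fun q hq => ⟨hQE q (Finset.mem_filter.1 hq).1, (Finset.mem_filter.1 hq).2⟩)
    refine le_trans ?_ h4
    rw [Finset.sum_filter]
    refine Finset.sum_le_sum fun q hq => ?_
    obtain ⟨f1, f2, f3, f4⟩ := hfac q hq
    by_cases hG : GE B W v Z f q.2.1
    · rw [if_neg (not_not.2 hG)]
      unfold kb
      rw [if_pos hG, Nat.cast_zero, mul_zero]
    · rw [if_pos hG]
      exact mul_le_mul_of_nonneg_left f2 (hN _)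
  have h5 : ∑ q ∈ Q, Part.nwt x F q.1 * xi Z q.2.1 ≤ R / e := by
    rw [le_div_iff₀ he, Finset.sum_mul]
    refine le_trans (Finset.sum_le_sum fun q hq => ?_) hm
    obtain ⟨f1, f2, f3, f4⟩ := hfac q hq
    rw [mul_assoc]
    refine mul_le_mul_of_nonneg_left ?_ (hN _)
    have g1 := Real.add_one_le_exp (e * ((q.1.length : ℝ) + Part.wk q.1 + wvol q.1))
    have g2 : e * xi Z q.2.1 ≤ e * ((q.1.length : ℝ) + Part.wk q.1 + wvol q.1) :=
      mul_le_mul_of_nonneg_left f4 he.le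
    linarith
  have h6 : 0 ≤ ∑ q ∈ Q, Part.nwt x F q.1 * xi Z q.2.1 :=
    Finset.sum_nonneg fun q hq => mul_nonneg (hN _) (hfac q hq).2.2.1
  have k1 : -(t * α) * ∑ q ∈ Q, Part.nwt x F q.1 * (xg B W v Z f q.2.1 : ℝ) ≤ -(t * α) * γ := by
    have : t * α * γ ≤ t * α * ∑ q ∈ Q, Part.nwt x F q.1 * (xg B W v Z f q.2.1 : ℝ) :=
      mul_le_mul_of_nonneg_left h2 (by positivity)
    linarith
  have k2 : t * S * ∑ q ∈ Q, Part.nwt x F q.1 * (kb B W v Z f q.2.1 : ℝ) ≤ t * S * ε₁ :=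
    mul_le_mul_of_nonneg_left h3 (by positivity)
  have k3 : ε * ∑ q ∈ Q, Part.nwt x F q.1 * xi Z q.2.1 ≤ t ^ 2 * (R / e) :=
    mul_le_mul hε h5 h6 (by positivity)
  have k4 : t ^ 2 * (A ^ 2 * (8 / e ^ 2) * Real.exp e) *
      ∑ q ∈ Q, (Part.nwt x F q.1 *
        Real.exp (e * ((q.1.length : ℝ) + Part.wk q.1 + wvol q.1))) ≤
      t ^ 2 * (A ^ 2 * (8 / e ^ 2) * Real.exp e) * R := by
    have := Real.exp_pos e
    exact mul_le_mul_of_nonneg_left hm (by positivity)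
  refine hsum.trans ?_
  have k5 : t ^ 2 * C ≤ t * η := by
    calc t ^ 2 * C = t * (t * C) := by ring
      _ ≤ t * η := mul_le_mul_of_nonneg_left ht3 ht0.le
  have k6 : t ^ 2 * (A ^ 2 * (8 / e ^ 2) * Real.exp e) * R + t ^ 2 * (R / e) = t ^ 2 * C := by
    rw [hC]; ring
  have k7 := Real.add_one_le_exp (-t * (α * γ - S * ε₁ - η))
  have k8 : -t * (α * γ - S * ε₁ - η) = -(t * α) * γ + t * S * ε₁ + t * η := by ring
  rw [k8] at k7 ⊢
  linarith

end SYS.GW
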