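import Pool.Agent.SYS.GW.RegL
import Pool.Agent.SYS.Lib.Evt
import Pool.Agent.SYS.UP.SepC
import Pool.Agent.SYS.TC.Sep

/-!
# SYSS-GRW-BadL: the number of triangulations in which a strategy meets a bad step

PROOF. `clo_one`: union bound over the cases of `alt` (`cyl_le`, `ns_card`, `sep0`); `bad_le`: structural induction, `one_num`, `VV_succ`.
-/


namespace SYS.GW

open Classical SST SYS.Num Str

variable {n g b N p F : ℕ} {A : Type} {s : Str (Fin (6 * n)) A} {Z : Part (Fin (6 * n))} {d : Fin (6 * n)}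

private theorem bd_union {α ι : Type} [Finite α] (I : Finset ι) (M : ι → Set α) (c : ι → ℝ)
    (h : ∀ i ∈ I, (((M i).ncard : ℕ) : ℝ) ≤ c i) :
    (((⋃ i ∈ I, M i).ncard : ℕ) : ℝ) ≤ ∑ i ∈ I, c i := by
  have h1 : (⋃ i ∈ I, M i).ncard ≤ ∑ i ∈ I, (M i).ncard := Finset.set_ncard_biUnion_le _ _
  have h2 : (((⋃ i ∈ I, M i).ncard : ℕ) : ℝ) ≤ ∑ i ∈ I, (((M i).ncard : ℕ) : ℝ) := by exact_mod_cast h1
  exact h2.trans (Finset.sum_le_sum h)

/-- the triangulations with the planar step `s` at `d` -/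
private def bdM (g : ℕ) (Z : Part (Fin (6 * n))) (d : Fin (6 * n)) (s : Stp) : Set (Tri (Fin (6 * n))) :=
  {T | T ∈ Z.Ext g ∧ Z.Stt T d s}

open SYS.Part in
private theorem bd_st (hd : Z.Typ [d] [p] F 0) (s : Stp) (g : ℕ) :
    (((bdM g Z d s).ncard : ℕ) : ℝ) ≤ ((3 * F).factorial : ℝ) * (s.wt 1 W * muG {s.nx p} (F - s.vol) g) := by
  have hv : wvol [s] = s.vol := by rw [wvol_cons, wvol_nil, Nat.add_zero]
  have h1 := cyl_le (g := g) (ρ := fun _ => 0) (h := []) (w := [s]) hd (fun _ _ _ => True)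
    (c := muG {s.nx p} (F - s.vol) g) (muG_nonneg _ _ _) (by
      intro S' x' hr
      obtain ⟨_, F', hF, hT⟩ := rch_typ hd hr
      have h2 := typ_card (h := g) hT
      rw [Nat.add_zero] at h2
      have h3 : F' = F - wvol [s] := by omega
      rw [h3] at h2
      have h4 : {T | T ∈ S'.Ext g ∧ S'.HConn T ∧ True} = {T | T ∈ S'.Ext g ∧ S'.HConn T} := by
        simp only [and_true]
      rw [h4, h2, hv]
      exact le_refl _)
  rw [wwt_cons, wwt_nil, mul_one, mul_assoc] at h1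
  have h2 : bdM g Z d s ⊆ {T | T ∈ Z.Ext g ∧ ∃ S' x', Rch (fun _ => 0) [] Z d [s] S' x' ∧ S'.Le T ∧ S'.HConn T ∧ True} := by
    rintro T ⟨hT, S', z, hst, hle, hcn⟩
    exact ⟨hT, S', z, ⟨S', z, hst, rfl, rfl⟩, hle, hcn, trivial⟩
  have h3 := Set.ncard_le_ncard h2 (Set.toFinite _)
  exact le_trans (by exact_mod_cast h3) h1

private theorem bd_nonneg_ll (q1 q2 F g : ℕ) : 0 ≤ LL 1 {q1} {q2} F g := by
  unfold LL
  refine Finset.sum_nonneg fun f _ => Finset.sum_nonneg fun e _ => ?_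
  split_ifs
  · exact mul_nonneg (muG_nonneg _ _ _) (muG_nonneg _ _ _)
  · exact le_refl _

private theorem bd_sep (p F g : ℕ) :
    SEP p 0 F g = ∑ x ∈ Finset.HasAntidiagonal.antidiagonal (p - 2), LL 1 {x.1} {x.2} F g := by
  unfold SEP LL
  refine Finset.sum_congr rfl fun x _ => Finset.sum_congr rfl fun y _ => Finset.sum_congr rfl fun z _ => ?_
  rw [SYS.A.conv_zero]
  unfold muN
  rw [Multiset.card_singleton, Multiset.card_singleton]
  by_cases h1 : z.1 = 0
  · rw [if_pos ⟨rfl, h1⟩, zero_mul, if_neg (by omega)]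
  · by_cases h2 : z.2 = 0
    · rw [if_pos (⟨rfl, h2⟩ : (0 : Multiset ℕ) = 0 ∧ z.2 = 0), mul_zero, if_neg (by omega)]
    · rw [if_neg (fun h => h1 h.2), if_neg (fun h => h2 h.2), if_pos (by omega)]
      rfl

theorem clo_nn (b g p F : ℕ) : 0 ≤ clo b g p F := by
  unfold clo
  refine add_nonneg (add_nonneg (NS_nonneg _ _ _ _) (SEP_nonneg _ _ _ _)) (mul_nonneg zero_le_two ?_)
  refine Finset.sum_nonneg fun k _ => Finset.sum_nonneg fun a _ => ?_
  split_ifs
  · exact mul_nonneg (muG_nonneg _ _ _) (muG_nonneg _ _ _)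
  · exact le_refl _

theorem clo_one (hg : 1 ≤ g) (h : OH Z p F) (hd : d ∈ Z.B) :
    (({T | T ∈ Z.Ext g ∧ Z.HConn T ∧ ¬ ∃ Z₁, SS b Z d Z₁ ∧ In T Z₁}.ncard : ℕ) : ℝ) ≤ ((3 * F).factorial : ℝ) * clo b g p F := by
  have hT := oh_typ h hd
  have hper : Z.per d = p := by
    have h3 := hT.per
    rw [List.map_cons] at h3
    exact (List.cons.inj h3).1
  have hlen := Part.hw_length Z hd
  rw [hper] at hlen
  let MA : ℕ × ℕ → Set (Tri (Fin (6 * n))) := fun x =>
    {T | T ∈ Z.Ext g ∧ Z.HConn T ∧ ∃ u v, Z.NSt T d u v ∧ u.length = x.1 ∧ v.length = x.2}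
  let MB : ℕ × ℕ → Set (Tri (Fin (6 * n))) := fun x =>
    {T | T ∈ Z.Ext g ∧ Z.HConn T ∧ ∃ u v, Z.Sep T d u v ∧ u.length = x.1 ∧ v.length = x.2}
  let ML : ℕ × ℕ → Set (Tri (Fin (6 * n))) := fun y => if b ≤ y.1 + y.2 then bdM g Z d (.L y.1 y.2) else ∅
  let MR : ℕ × ℕ → Set (Tri (Fin (6 * n))) := fun y => if b ≤ y.1 + y.2 then bdM g Z d (.R y.1 y.2) else ∅
  have hcov : {T | T ∈ Z.Ext g ∧ Z.HConn T ∧ ¬ ∃ Z₁, SS b Z d Z₁ ∧ In T Z₁} ⊆
      ((⋃ x ∈ Finset.HasAntidiagonal.antidiagonal (p - 2), MA x) ∪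
        (⋃ x ∈ Finset.HasAntidiagonal.antidiagonal (p - 2), MB x)) ∪
      ((⋃ y ∈ Finset.range (p - 2) ×ˢ Finset.range (F + 1), ML y) ∪
        (⋃ y ∈ Finset.range (p - 2) ×ˢ Finset.range (F + 1), MR y)) := by
    rintro T ⟨hT1, hc, hno⟩
    rcases Part.alt hT hT1 hc (Or.inl hg) with ⟨s, hs⟩ | ⟨u, v, hs⟩ | ⟨u, v, hs⟩ | hs
    · right
      have hs' := hs
      obtain ⟨S', z, hst, hle, hcn⟩ := hs'
      have hns : ¬ Sml b s := fun h => hno ⟨S', ⟨s, z, hst, h⟩, hle, hcn⟩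
      obtain ⟨hok, F', hF', -⟩ := Part.st_typ hT hst
      cases s with
      | T => exact absurd trivial hns
      | L k a =>
        left
        have hok' : k + 3 ≤ p := hok
        have hF'' : F' + a = F := hF'
        have hb : b ≤ k + a := not_lt.1 hns
        refine Set.mem_iUnion₂.2 ⟨(k, a), ?_, ?_⟩
        · rw [Finset.mem_product, Finset.mem_range, Finset.mem_range]
          constructor
          · show k < p - 2
            omega
          · show a < F + 1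
            omega
        · show T ∈ (if b ≤ k + a then bdM g Z d (.L k a) else ∅)
          rw [if_pos hb]
          exact ⟨hT1, hs⟩
      | R k a =>
        right
        have hok' : k + 3 ≤ p := hok
        have hF'' : F' + a = F := hF'
        have hb : b ≤ k + a := not_lt.1 hns
        refine Set.mem_iUnion₂.2 ⟨(k, a), ?_, ?_⟩
        · rw [Finset.mem_product, Finset.mem_range, Finset.mem_range]
          constructor
          · show k < p - 2
            omega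
          · show a < F + 1
            omega
        · show T ∈ (if b ≤ k + a then bdM g Z d (.R k a) else ∅)
          rw [if_pos hb]
          exact ⟨hT1, hs⟩
    · left
      left
      have h3 := hs.2.2.1
      rw [h3, List.length_cons, List.length_append, List.length_cons] at hlen
      refine Set.mem_iUnion₂.2 ⟨(u.length, v.length), ?_, hT1, hc, u, v, hs, rfl, rfl⟩
      rw [Finset.HasAntidiagonal.mem_antidiagonal]
      show u.length + v.length = p - 2
      omega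
    · left
      right
      have h3 := hs.2.2.1
      rw [h3, List.length_cons, List.length_append, List.length_cons] at hlen
      refine Set.mem_iUnion₂.2 ⟨(u.length, v.length), ?_, hT1, hc, u, v, hs, rfl, rfl⟩
      rw [Finset.HasAntidiagonal.mem_antidiagonal]
      show u.length + v.length = p - 2
      omega
    · exfalso
      obtain ⟨e, he, hsc⟩ := hT.hl.2.2 (T.a d) hs.1
      rw [List.mem_singleton] at he
      rw [he] at hsc
      exact hs.2 hsc
  have hA : ∀ x ∈ Finset.HasAntidiagonal.antidiagonal (p - 2), (((MA x).ncard : ℕ) : ℝ) ≤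
      ((3 * F).factorial : ℝ) * muG (x.1 ::ₘ x.2 ::ₘ 0) F (g - 1) := by
    intro x hx
    rw [Finset.HasAntidiagonal.mem_antidiagonal] at hx
    by_cases h0 : x.1 = 0 ∨ x.2 = 0
    · have h4 : MA x = ∅ := by
        refine Set.eq_empty_of_forall_notMem ?_
        rintro T ⟨_, _, u, v, hs, hu, hv⟩
        rcases h0 with h0 | h0
        · exact hs.1 (List.length_eq_zero_iff.1 (hu.trans h0))
        · exact hs.2.1 (List.length_eq_zero_iff.1 (hv.trans h0))
      rw [h4, Set.ncard_empty, Nat.cast_zero]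
      exact mul_nonneg (Nat.cast_nonneg _) (muG_nonneg _ _ _)
    · exact le_of_eq (Part.ns_card (g := g) (h := g - 1) hT (q1 := x.1) (q2 := x.2) (by omega) (by omega) (by omega) (by omega))
  have hB : ∀ x ∈ Finset.HasAntidiagonal.antidiagonal (p - 2), (((MB x).ncard : ℕ) : ℝ) ≤
      ((3 * F).factorial : ℝ) * LL 1 {x.1} {x.2} F g := by
    intro x hx
    rw [Finset.HasAntidiagonal.mem_antidiagonal] at hx
    by_cases h0 : x.1 = 0 ∨ x.2 = 0
    · have h4 : MB x = ∅ := by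
        refine Set.eq_empty_of_forall_notMem ?_
        rintro T ⟨_, _, u, v, hs, hu, hv⟩
        rcases h0 with h0 | h0
        · exact hs.1 (List.length_eq_zero_iff.1 (hu.trans h0))
        · exact hs.2.1 (List.length_eq_zero_iff.1 (hv.trans h0))
      rw [h4, Set.ncard_empty, Nat.cast_zero]
      exact mul_nonneg (Nat.cast_nonneg _) (bd_nonneg_ll _ _ _ _)
    · exact SYS.TC.sep0 (g := g) hT (by omega) (by omega) (by omega)
  have hL : ∀ y ∈ Finset.range (p - 2) ×ˢ Finset.range (F + 1), (((ML y).ncard : ℕ) : ℝ) ≤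
      ((3 * F).factorial : ℝ) * (if b ≤ y.1 + y.2 then W y.1 y.2 * muG {p - 2 - y.1} (F - y.2) g else 0) := by
    intro y _
    have e1 : p - 2 - y.1 = p - (y.1 + 2) := by omega
    by_cases hb : b ≤ y.1 + y.2
    · have h4 : ML y = bdM g Z d (.L y.1 y.2) := if_pos hb
      rw [if_pos hb, h4, e1]
      exact bd_st hT (.L y.1 y.2) g
    · have h4 : ML y = ∅ := if_neg hb
      rw [if_neg hb, h4, Set.ncard_empty, Nat.cast_zero, mul_zero]
  have hR : ∀ y ∈ Finset.range (p - 2) ×ˢ Finset.range (F + 1), (((MR y).ncard : ℕ) : ℝ) ≤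
      ((3 * F).factorial : ℝ) * (if b ≤ y.1 + y.2 then W y.1 y.2 * muG {p - 2 - y.1} (F - y.2) g else 0) := by
    intro y _
    have e1 : p - 2 - y.1 = p - (y.1 + 2) := by omega
    by_cases hb : b ≤ y.1 + y.2
    · have h4 : MR y = bdM g Z d (.R y.1 y.2) := if_pos hb
      rw [if_pos hb, h4, e1]
      exact bd_st hT (.R y.1 y.2) g
    · have h4 : MR y = ∅ := if_neg hb
      rw [if_neg hb, h4, Set.ncard_empty, Nat.cast_zero, mul_zero]
  have h1 := (Set.ncard_le_ncard hcov (Set.toFinite _)).trans ((Set.ncard_union_le _ _).trans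
    (add_le_add (Set.ncard_union_le _ _) (Set.ncard_union_le _ _)))
  have h2 : ((({T | T ∈ Z.Ext g ∧ Z.HConn T ∧ ¬ ∃ Z₁, SS b Z d Z₁ ∧ In T Z₁}.ncard : ℕ) : ℝ)) ≤
      ((((⋃ x ∈ Finset.HasAntidiagonal.antidiagonal (p - 2), MA x).ncard : ℕ) : ℝ) +
        (((⋃ x ∈ Finset.HasAntidiagonal.antidiagonal (p - 2), MB x).ncard : ℕ) : ℝ)) +
      ((((⋃ y ∈ Finset.range (p - 2) ×ˢ Finset.range (F + 1), ML y).ncard : ℕ) : ℝ) +
        (((⋃ y ∈ Finset.range (p - 2) ×ˢ Finset.range (F + 1), MR y).ncard : ℕ) : ℝ)) := by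
    exact_mod_cast h1
  have h3 := h2.trans (add_le_add (add_le_add (bd_union _ _ _ hA) (bd_union _ _ _ hB))
    (add_le_add (bd_union _ _ _ hL) (bd_union _ _ _ hR)))
  refine h3.trans (le_of_eq ?_)
  rw [← Finset.mul_sum, ← Finset.mul_sum, ← Finset.mul_sum, ← bd_sep, Finset.sum_product]
  unfold clo NS
  rw [if_neg (by omega : ¬ g = 0)]
  ring

theorem bad_le (hg : 1 ≤ g) (h : OH Z p F) (hG : Gat b s Z) (hN : s.Dep N) :
    (({T | T ∈ Z.Ext g ∧ Z.HConn T ∧ Bad b T s Z}.ncard : ℕ) : ℝ) ≤ ((3 * F).factorial : ℝ) * VV b (clo b g) N p F := by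
  induction s generalizing Z p F N with
  | ret a =>
    have h1 : {T | T ∈ Z.Ext g ∧ Z.HConn T ∧ Bad b T (.ret a) Z} = ∅ := by
      refine Set.eq_empty_of_forall_notMem ?_
      rintro T ⟨_, _, h2⟩
      exact h2
    rw [h1, Set.ncard_empty, Nat.cast_zero]
    exact mul_nonneg (Nat.cast_nonneg _) (Finset.sum_nonneg fun i _ => VE_nn (clo_nn b g) i p F)
  | peel d f ih =>
    obtain ⟨M, rfl, hM⟩ := hN
    obtain ⟨hd, hG'⟩ := hG
    have hVV : ∀ p F, 0 ≤ VV b (clo b g) M p F := fun p F =>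
      Finset.sum_nonneg fun i _ => VE_nn (clo_nn b g) i p F
    let MC : Part (Fin (6 * n)) → Set (Tri (Fin (6 * n))) := fun Z₁ =>
      if SS b Z d Z₁ then {T | T ∈ Z₁.Ext g ∧ Z₁.HConn T ∧ Bad b T (f Z₁) Z₁} else ∅
    have hcov : {T | T ∈ Z.Ext g ∧ Z.HConn T ∧ Bad b T (.peel d f) Z} ⊆
        {T | T ∈ Z.Ext g ∧ Z.HConn T ∧ ¬ ∃ Z₁, SS b Z d Z₁ ∧ In T Z₁} ∪ ⋃ Z₁ ∈ Finset.univ, MC Z₁ := by
      rintro T ⟨hT, hc, hbad⟩
      rcases hbad with hbad | ⟨Z₁, hs, hin, hbad⟩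
      · exact Or.inl ⟨hT, hc, hbad⟩
      · right
        refine Set.mem_iUnion₂.2 ⟨Z₁, Finset.mem_univ _, ?_⟩
        show T ∈ (if SS b Z d Z₁ then {T | T ∈ Z₁.Ext g ∧ Z₁.HConn T ∧ Bad b T (f Z₁) Z₁} else ∅)
        rw [if_pos hs]
        exact ⟨⟨hT.1, hin.1⟩, hin.2, hbad⟩
    have hC : ∀ Z₁ ∈ Finset.univ, (((MC Z₁).ncard : ℕ) : ℝ) ≤
        (if SS b Z d Z₁ then ((3 * fz Z₁).factorial : ℝ) * VV b (clo b g) M (pz Z₁) (fz Z₁) else 0) := by
      intro Z₁ _
      by_cases hs : SS b Z d Z₁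
      · have h4 : MC Z₁ = {T | T ∈ Z₁.Ext g ∧ Z₁.HConn T ∧ Bad b T (f Z₁) Z₁} := if_pos hs
        rw [if_pos hs, h4]
        obtain ⟨p', F', h', -⟩ := ss_oh h hs
        obtain ⟨e1, e2, -⟩ := oh_pz h'
        rw [e1, e2]
        exact ih Z₁ h' (hG' Z₁ hs) (hM Z₁)
      · have h4 : MC Z₁ = ∅ := if_neg hs
        rw [if_neg hs, h4, Set.ncard_empty, Nat.cast_zero]
    have h1 := (Set.ncard_le_ncard hcov (Set.toFinite _)).trans (Set.ncard_union_le _ _)
    have h2 : ((({T | T ∈ Z.Ext g ∧ Z.HConn T ∧ Bad b T (.peel d f) Z}.ncard : ℕ) : ℝ)) ≤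
        (({T | T ∈ Z.Ext g ∧ Z.HConn T ∧ ¬ ∃ Z₁, SS b Z d Z₁ ∧ In T Z₁}.ncard : ℕ) : ℝ) +
          (((⋃ Z₁ ∈ Finset.univ, MC Z₁).ncard : ℕ) : ℝ) := by
      exact_mod_cast h1
    rw [VV_succ, mul_add]
    exact h2.trans (add_le_add (clo_one hg h hd) ((bd_union _ _ _ hC).trans (one_num h hd hVV)))

end SYS.GW
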