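import Pool.Agent.SYS.GW.Defs

/-!
# SYSS-GRW-DefB: blocks, nodes, branches (definitions).  DO NOT CHANGE.

`B : CH.Blk` = rule of the blocks.
* `blkS B S f k Z`: the block with the base `S` and the gate `f`, at the moment at the region `Z`, at most `k` more steps.  `GE B W v Z f Z'`: `Z'` is a good
  end of the block at `Z, f` (local with window `W`, volume at most `v`).  `xg` = number of exits if good, `kb` = number of absorbed darts if not good.
* `Frs Z₀ W Z f`: the window of radius `W + 1` around `f` in `Z₀` is untouched in `Z`.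
* `nodeS B W v Z₀ G Z X κ N`: run of the blocks at the gates of the list `G` (those which are fresh); value = (region, number of good exits `X`, number `κ` of darts
  absorbed by bad blocks, number `N` of blocks).
* `Nd`: a node: region `Z`, a boundary dart `o`, a number `c`, the gates at the positions `g` of the boundary, counted from `o`; `arc` = the darts at the
  positions `c, .., p - 1`, `cor` = the darts at the positions `0, .., c - 1`.  `NdOk W μ m nd`: `m` gates, distance at least `2 W + 3`, margins `μ`.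
* `ChOk W μ m b nd Z' ch`: `ch 0, .., ch (b - 1)` are the children of the node `nd` with the end `Z'` (parameters of the children: `W, μ, m`).
* `chd`: a choice of the children.  `Lev` = parameters `(m, μ, b)` of a level.  `brS`: run of a branch with a given address, started at a node of level `i`.
* `DOk B L V`: dual connected sets of faces for the exits.  `BOk`: probabilistic input.
-/

namespace SYS.GW

open Classical SST SYS.Num SYS.XP Str

section
variable {D : Type} [Finite D]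

/-- The block. -/
noncomputable def blkS (B : CH.Blk) (S : Part D) (f : D) : ℕ → Part D → Str D (Part D)
  | 0, Z => .ret Z
  | k + 1, Z => match B.nxt S f Z with
    | none => .ret Z
    | some d => if d ∈ Z.B then .peel d (fun Z' => blkS B S f k Z') else .ret Z

/-- Good ends. -/
def GE (B : CH.Blk) (W v : ℕ) (Z : Part D) (f : D) (Z' : Part D) : Prop :=
  ∃ (w : List Stp) (z' : D), Part.LBR (B.nxt Z f) Z f W Z f w Z' z' ∧ B.nxt Z f Z' = none ∧ wvol w ≤ v

noncomputable def xg (B : CH.Blk) (W v : ℕ) (Z : Part D) (f : D) (Z' : Part D) : ℕ := if GE B W v Z f Z' then Part.exn Z Z' else 0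

noncomputable def kb (B : CH.Blk) (W v : ℕ) (Z : Part D) (f : D) (Z' : Part D) : ℕ :=
  if GE B W v Z f Z' then 0 else (Z.B \ Z'.B).ncard

/-- The window is fresh. -/
def Frs (Z₀ : Part D) (W : ℕ) (Z : Part D) (f : D) : Prop := ∀ j : ℤ, |j| ≤ W + 1 → Z₀.bs f j ∈ Z.B

/-- The run of a node. -/
noncomputable def nodeS (B : CH.Blk) (W v : ℕ) (Z₀ : Part D) : List D → Part D → ℕ → ℕ → ℕ → Str D (Part D × ℕ × ℕ × ℕ)
  | [], Z, X, κ, N => .ret (Z, X, κ, N)
  | f :: G, Z, X, κ, N => if Frs Z₀ W Z f then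
      (blkS B Z f B.K Z).bind (fun Z' => nodeS B W v Z₀ G Z' (X + xg B W v Z f Z') (κ + kb B W v Z f Z') (N + 1))
    else nodeS B W v Z₀ G Z X κ N

end

/-- Nodes. -/
structure Nd (D : Type) where
  Z : Part D
  o : D
  c : ℕ
  g : List ℕ

section
variable {D : Type} [Finite D]

/-- The boundary dart at the position `i`. -/
noncomputable def Nd.ps (nd : Nd D) (i : ℕ) : D := (nd.Z.nx ^ i) nd.o

/-- The gates. -/
noncomputable def Nd.gts (nd : Nd D) : List D := nd.g.map nd.ps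

/-- The arc and the rest of the boundary. -/
noncomputable def Nd.arc (nd : Nd D) : List D := (nd.Z.hw nd.o).drop nd.c
noncomputable def Nd.cor (nd : Nd D) : List D := (nd.Z.hw nd.o).take nd.c

structure NdOk (W μ m : ℕ) (nd : Nd D) : Prop where
  oh : ∃ p F, OH nd.Z p F
  o : nd.o ∈ nd.Z.B
  len : nd.g.length = m
  pos : ∀ i ∈ nd.g, nd.c + μ + W + 1 ≤ i ∧ i + μ + W + 1 < pz nd.Z
  gap : nd.g.Pairwise fun i j => i + (2 * W + 3) ≤ j

structure ChOk (W μ m b : ℕ) (nd : Nd D) (Z' : Part D) (ch : ℕ → Nd D) : Prop where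
  Z : ∀ j < b, (ch j).Z = Z'
  ok : ∀ j < b, NdOk W μ m (ch j)
  c1 : ∀ j < b, 1 ≤ (ch j).c
  new : ∀ j < b, ∀ e ∈ (ch j).gts, e ∉ nd.Z.R
  dis : ∀ i < b, ∀ j < b, i ≠ j → ∀ e ∈ (ch i).arc, e ∉ (ch j).arc
  odd : ∀ j < b, ∃ w, (ch j).arc.length = 2 * w + 1
  nest : ∀ j < b, ∀ t, Z'.hw nd.o = nd.cor ++ t → nd.o ∈ Z'.B → 1 ≤ nd.c →
    ∃ u₁ u₂, Z'.hw nd.o = nd.cor ++ (u₁ ++ (ch j).arc ++ u₂) ∧ (ch j).cor = u₂ ++ nd.cor ++ u₁

/-- The children of the node with the end `Z'`. -/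
noncomputable def chd (W μ m b : ℕ) (nd : Nd D) (Z' : Part D) : ℕ → Nd D :=
  if h : ∃ ch, ChOk W μ m b nd Z' ch then h.choose else fun _ => ⟨Z', nd.o, 0, []⟩

end

/-- Parameters of the levels: `m i` gates, margins `μ i`, `b i` children of a node of the level `i`. -/
structure Lev where
  m : ℕ → ℕ
  μ : ℕ → ℕ
  b : ℕ → ℕ

section
variable {D : Type} [Finite D]

/-- The children of a node of the level `i`. -/
noncomputable def Lev.ch (P : Lev) (W i : ℕ) (nd : Nd D) (Z' : Part D) : ℕ → Nd D := chd W (P.μ (i + 1)) (P.m (i + 1)) (P.b i) nd Z'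

/-- The run of a branch. -/
noncomputable def brS (B : CH.Blk) (W v : ℕ) (P : Lev) : ℕ → List ℕ → Nd D → Str D (Nd D)
  | _, [], nd => .ret nd
  | i, a :: u, nd => (nodeS B W v nd.Z nd.gts nd.Z 0 0 0).bind fun r => brS B W v P (i + 1) u (P.ch W i nd r.1 a)

end

/-- Sets of faces for the exits. -/
def DOk (B : CH.Blk) (L V : ℕ) : Prop := ∀ {n g : ℕ} (T : Tri (Fin (6 * n))) (Z X' : Part (Fin (6 * n))) (f e : Fin (6 * n)),
  T ∈ Trn n g → (∃ p F, OH Z p F) → f ∈ Z.B → In T Z → CH.PE B T Z f X' → e ∈ X'.B → e ∉ Z.B →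
    ∃ Y : Set (Fin (6 * n)), Fs T Y ∧ DC T Y ∧ T.a f ∈ Y ∧ e ∈ Y ∧ (bdy T Y).ncard ≤ L ∧ Y.ncard ≤ V

/-- Probabilistic input. -/
structure BOk (B : CH.Blk) (x : ℝ) (W v : ℕ) (γ ε₁ : ℝ) : Prop where
  st : ∀ {D : Type} [Finite D] (X : Part D) (f : D), f ∈ X.B → B.nxt X f X = some f
  len : ∀ {D : Type} [Finite D] (X : Part D) (f : D) (q : List Stp × Part D × D) (d : D), f ∈ X.B → CH.Act B X f q d → q.1.length < B.K
  new : ∀ {D : Type} [Finite D] (Z Y : Part D) (f y d : D) (w : List Stp), f ∈ Z.B → Part.BR (B.nxt Z f) Z f w Y y → Y ≠ Z →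
    B.nxt Z f Y = some d → d ∈ Y.B ∧ d ∉ Z.R
  low : ∀ {n : ℕ} (Z : Part (Fin (6 * n))) (f : Fin (6 * n)) (p F : ℕ), OH Z p F → f ∈ Z.B → 2 * W + 1 < p → v ≤ F →
    ∃ Q : Finset (List Stp × Part (Fin (6 * n)) × Fin (6 * n)),
      (∀ q ∈ Q, Part.LBR (B.nxt Z f) Z f W Z f q.1 q.2.1 q.2.2 ∧ B.nxt Z f q.2.1 = none ∧ wvol q.1 ≤ v) ∧
      γ ≤ ∑ q ∈ Q, Part.nwt x F q.1 * Part.exn Z q.2.1
  tail : ∀ {n : ℕ} (Z : Part (Fin (6 * n))) (f : Fin (6 * n)) (p F : ℕ), OH Z p F → f ∈ Z.B → 2 * W + 1 < p → v ≤ F →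
    ∀ Q : Finset (List Stp × Part (Fin (6 * n)) × Fin (6 * n)),
      (∀ q ∈ Q, Part.BEnd (B.nxt Z f) Z f q ∧ ¬ GE B W v Z f q.2.1) → ∑ q ∈ Q, Part.nwt x F q.1 * (Part.wk q.1 + 1) ≤ ε₁

end SYS.GW
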