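import Pool.Agent.SYS.GW.NumW
import Pool.Agent.SYS.PL.RwB
import Pool.Agent.SYS.PL.LawB

/-!
# SYSS-GRW-FailN: expected number of visits with exponential weights

The sum over `VV` is a sum over words; group the words by their end and use `visits`.
-/

namespace SYS.GW

open Classical SST SYS.Num

private theorem vis_inj {r : ℝ} (h0 : 0 ≤ r) (h1 : r < 1) (E : Finset ℕ) (f : ℕ → ℕ)
    (hf : Set.InjOn f E) : ∑ e ∈ E, r ^ f e ≤ 1 / (1 - r) := by
  have h2 : ∑ e ∈ E, r ^ f e = ∑ n ∈ E.image f, r ^ n := (Finset.sum_image hf).symm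
  rw [h2, one_div, ← tsum_geometric_of_lt_one h0 h1]
  exact (summable_geometric_of_lt_one h0 h1).sum_le_tsum _ (fun i _ => pow_nonneg h0 i)

private theorem vis_two {δ : ℝ} (hδ : 0 < δ) (s : ℕ) (E : Finset ℕ) :
    ∑ e ∈ E, Real.exp (-(δ * |(e : ℝ) - s|)) ≤ 2 / (1 - Real.exp (-δ)) := by
  have h0 : 0 ≤ Real.exp (-δ) := (Real.exp_pos _).le
  have h1 : Real.exp (-δ) < 1 := by
    rw [Real.exp_lt_one_iff]
    linarith
  rw [← Finset.sum_filter_add_sum_filter_not E (fun e => s ≤ e)]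
  have hA : ∑ e ∈ E.filter (fun e => s ≤ e), Real.exp (-(δ * |(e : ℝ) - s|)) ≤ 1 / (1 - Real.exp (-δ)) := by
    refine le_trans (le_of_eq (Finset.sum_congr rfl fun e he => ?_))
      (vis_inj h0 h1 (E.filter (fun e => s ≤ e)) (fun e => e - s) ?_)
    · have h2 : s ≤ e := (Finset.mem_filter.1 he).2
      have h3 : (0 : ℝ) ≤ (e : ℝ) - s := by
        have : (s : ℝ) ≤ e := Nat.cast_le.2 h2
        linarith
      rw [abs_of_nonneg h3, ← Real.exp_nat_mul, Nat.cast_sub h2]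
      congr 1
      ring
    · intro a ha b hb hab
      have h2 : s ≤ a := (Finset.mem_filter.1 (Finset.mem_coe.1 ha)).2
      have h3 : s ≤ b := (Finset.mem_filter.1 (Finset.mem_coe.1 hb)).2
      have h4 : a - s = b - s := hab
      omega
  have hB : ∑ e ∈ E.filter (fun e => ¬ s ≤ e), Real.exp (-(δ * |(e : ℝ) - s|)) ≤ 1 / (1 - Real.exp (-δ)) := by
    refine le_trans (le_of_eq (Finset.sum_congr rfl fun e he => ?_))
      (vis_inj h0 h1 (E.filter (fun e => ¬ s ≤ e)) (fun e => s - e) ?_)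
    · have h2 : e ≤ s := (not_le.1 (Finset.mem_filter.1 he).2).le
      have h3 : (e : ℝ) - s ≤ 0 := by
        have : (e : ℝ) ≤ s := Nat.cast_le.2 h2
        linarith
      rw [abs_of_nonpos h3, ← Real.exp_nat_mul, Nat.cast_sub h2]
      congr 1
      ring
    · intro a ha b hb hab
      have h2 : a < s := not_le.1 (Finset.mem_filter.1 (Finset.mem_coe.1 ha)).2
      have h3 : b < s := not_le.1 (Finset.mem_filter.1 (Finset.mem_coe.1 hb)).2
      have h4 : s - a = s - b := hab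
      omega
  calc _ ≤ 1 / (1 - Real.exp (-δ)) + 1 / (1 - Real.exp (-δ)) := add_le_add hA hB
    _ = _ := by ring

theorem vis_sum {x : ℝ} (hx : 0 < x) {ε₀ : ℝ} (hε : 0 < ε₀) : ∃ C ε₁ : ℝ, 0 < C ∧ 0 < ε₁ ∧ ∀ (ε : ℝ) (b N s F : ℕ), 0 ≤ ε → ε ≤ ε₁ → 1 ≤ s →
    VV b (fun p F' => AA x ^ p / √(yy x) ^ (F' + p) * Real.exp (ε * ((F : ℝ) - F') - ε₀ * |(p : ℝ) - s|)) N s F ≤
      C * (AA x ^ s / √(yy x) ^ (F + s)) := by
  obtain ⟨C, c, ε₂, hC, hc, hε₂, hvis⟩ := visits hx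
  have hA : 0 < AA x := by
    have := AA_gt x
    linarith
  have hy : 0 < √(yy x) := Real.sqrt_pos.2 (Num.yy_pos x)
  have hr : Real.exp (-(ε₀ / 2)) < 1 := by
    rw [Real.exp_lt_one_iff]
    linarith
  have hr' : 0 < 1 - Real.exp (-(ε₀ / 2)) := by linarith
  refine ⟨C * (2 / (1 - Real.exp (-(ε₀ / 2)))), min ε₂ (ε₀ / (2 * C)), by positivity,
    lt_min hε₂ (by positivity), ?_⟩
  intro ε b N s F hε0 hε1 _
  have he2 : ε ≤ ε₂ := hε1.trans (min_le_left _ _)
  have he3 : C * ε ≤ ε₀ / 2 := by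
    have h := hε1.trans (min_le_right _ _)
    rw [le_div_iff₀ (by positivity)] at h
    linarith
  obtain ⟨S, hS, hV⟩ := vv_words b (fun p F' => AA x ^ p / √(yy x) ^ (F' + p) *
    Real.exp (ε * ((F : ℝ) - F') - ε₀ * |(p : ℝ) - s|)) N s F
  rw [hV]
  have hterm : ∀ w ∈ S, wwt 1 W w * (AA x ^ wend s w / √(yy x) ^ ((F - wvol w) + wend s w) *
      Real.exp (ε * ((F : ℝ) - ((F - wvol w : ℕ) : ℝ)) - ε₀ * |((wend s w : ℕ) : ℝ) - s|)) =
      (PRW x w * Real.exp (ε * wvol w)) * Real.exp (-(ε₀ * |((wend s w : ℕ) : ℝ) - s|)) *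
        (AA x ^ s / √(yy x) ^ (F + s)) := by
    intro w hw
    obtain ⟨h1, _, h3, _⟩ := hS w hw
    have h4 := PRW_eq x s w h1
    have h5 : (F : ℝ) - ((F - wvol w : ℕ) : ℝ) = wvol w := by
      rw [Nat.cast_sub h3]
      ring
    have h6 : √(yy x) ^ ((F - wvol w) + wend s w) * √(yy x) ^ (wvol w + s) =
        √(yy x) ^ (F + s) * √(yy x) ^ wend s w := by
      rw [← pow_add, ← pow_add]
      congr 1
      omega
    have h7 : wwt 1 W w * (AA x ^ wend s w / √(yy x) ^ ((F - wvol w) + wend s w)) =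
        PRW x w * (AA x ^ s / √(yy x) ^ (F + s)) := by
      rw [mul_div_assoc', mul_div_assoc', div_eq_div_iff (pow_pos hy _).ne' (pow_pos hy _).ne']
      have h8 : 0 < √(yy x) ^ (wvol w + s) := pow_pos hy _
      have h9 : 0 < √(yy x) ^ wend s w := pow_pos hy _
      apply mul_right_cancel₀ h8.ne'
      calc wwt 1 W w * AA x ^ wend s w * √(yy x) ^ (F + s) * √(yy x) ^ (wvol w + s)
          = (wwt 1 W w * AA x ^ wend s w * √(yy x) ^ (wvol w + s)) * √(yy x) ^ (F + s) := by ring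
        _ = (PRW x w * AA x ^ s * √(yy x) ^ wend s w) * √(yy x) ^ (F + s) := by rw [h4]
        _ = PRW x w * AA x ^ s * (√(yy x) ^ (F + s) * √(yy x) ^ wend s w) := by ring
        _ = PRW x w * AA x ^ s * (√(yy x) ^ ((F - wvol w) + wend s w) * √(yy x) ^ (wvol w + s)) := by rw [h6]
        _ = _ := by ring
    have h10 : Real.exp (ε * ((F : ℝ) - ((F - wvol w : ℕ) : ℝ)) - ε₀ * |((wend s w : ℕ) : ℝ) - s|) =
        Real.exp (ε * wvol w) * Real.exp (-(ε₀ * |((wend s w : ℕ) : ℝ) - s|)) := by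
      rw [h5, ← Real.exp_add]
      rfl
    rw [h10, ← mul_assoc, h7]
    ring
  rw [Finset.sum_congr rfl hterm, ← Finset.sum_mul]
  refine mul_le_mul_of_nonneg_right ?_ (by positivity)
  rw [← Finset.sum_fiberwise_of_maps_to (g := fun w => wend s w) (t := S.image (fun w => wend s w))
    (fun w hw => Finset.mem_image_of_mem _ hw)]
  have hfib : ∀ e ∈ S.image (fun w => wend s w),
      ∑ w ∈ S.filter (fun w => wend s w = e), PRW x w * Real.exp (ε * wvol w) *
        Real.exp (-(ε₀ * |((wend s w : ℕ) : ℝ) - s|)) ≤ C * Real.exp (-(ε₀ / 2 * |(e : ℝ) - s|)) := by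
    intro e _
    have h1 : ∑ w ∈ S.filter (fun w => wend s w = e), PRW x w * Real.exp (ε * wvol w) *
        Real.exp (-(ε₀ * |((wend s w : ℕ) : ℝ) - s|)) =
        (∑ w ∈ S.filter (fun w => wend s w = e), PRW x w * Real.exp (ε * wvol w)) *
          Real.exp (-(ε₀ * |(e : ℝ) - s|)) := by
      rw [Finset.sum_mul]
      refine Finset.sum_congr rfl fun w hw => ?_
      rw [(Finset.mem_filter.1 hw).2]
    rw [h1]
    have h2 := hvis ε hε0 he2 s e (S.filter (fun w => wend s w = e)) (fun w hw =>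
      ⟨(hS w (Finset.mem_filter.1 hw).1).1, (Finset.mem_filter.1 hw).2⟩)
    refine (mul_le_mul_of_nonneg_right h2 (Real.exp_pos _).le).trans ?_
    rw [mul_assoc, ← Real.exp_add]
    refine mul_le_mul_of_nonneg_left (Real.exp_le_exp.2 ?_) hC.le
    have h3 : ((e - s : ℕ) : ℝ) ≤ |(e : ℝ) - s| := by
      rcases le_total s e with h | h
      · rw [Nat.cast_sub h]
        exact le_abs_self _
      · rw [Nat.sub_eq_zero_of_le h, Nat.cast_zero]
        exact abs_nonneg _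
    have h4 : (0 : ℝ) ≤ ((e - s : ℕ) : ℝ) := Nat.cast_nonneg _
    have h5 : (0 : ℝ) ≤ c * ((s - e : ℕ) : ℝ) := mul_nonneg hc.le (Nat.cast_nonneg _)
    have h6 : C * ε * ((e - s : ℕ) : ℝ) ≤ ε₀ / 2 * |(e : ℝ) - s| :=
      mul_le_mul he3 h3 h4 (by linarith)
    linarith
  refine (Finset.sum_le_sum hfib).trans ?_
  rw [← Finset.mul_sum]
  exact mul_le_mul_of_nonneg_left (vis_two (by linarith) s _) hC.le

end SYS.GW
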