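import Pool.Agent.SYS.GW.RegL
import Pool.Agent.SYS.GW.FailN
import Pool.Agent.SYS.VI.Ub

/-!
# SYSS-GRW-FailL: from the weights (RW level) to the numbers of triangulations

`s` = strategy before the last part, `t a` = the last part, started at the end `Z` of `s`; `fl a a'` = the last part fails.  If the weight of the failure is at most `κ` times the weight of `Z`, with the factor `exp (ε₀ ξ)`, then the number of triangulations is at most `K (N + 3) κ` times the number of all.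
Proof: `ub` at the ends with larger perimeter; first hit of the perimeter `q` and `ls_num`, `vis_sum` for the others.
-/

namespace SYS.GW

open Classical SST SYS.Num Str

/-- Distance of the types. -/
noncomputable def xi {n : ℕ} (Z Z' : Part (Fin (6 * n))) : ℝ := |(pz Z' : ℝ) - pz Z| + ((fz Z : ℝ) - fz Z')

theorem oh_par {n p F : ℕ} {Z : Part (Fin (6 * n))} (h : OH Z p F) : Even (p + F) := by
  obtain ⟨z, hz⟩ := h
  have h1 := hz.vol
  have h2 := hz.eul
  rw [Nat.card_fin] at h1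
  rw [List.length_singleton, List.sum_singleton] at h2
  rw [Nat.even_iff]
  omega

theorem ex_wz {n p F g : ℕ} {x : ℝ} (hx : 0 < x) {Z : Part (Fin (6 * n))} (h : OH Z p F) : ex g Z = WZ x Z * UU x 0 g p F := by
  obtain ⟨h1, h2, -⟩ := oh_pz h
  obtain ⟨z, hz⟩ := h
  have h3 := Part.typ_card (h := g) hz
  have h4 : (([p] : List ℕ) : Multiset ℕ) = p ::ₘ 0 := rfl
  rw [h4] at h3
  have h5 : ex g Z = ((3 * F).factorial : ℝ) * muG (p ::ₘ 0) F g := h3
  have hA : (0 : ℝ) < AA x := by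
    have := AA_gt x
    linarith
  have hr : 0 < √(yy x) := Real.sqrt_pos.2 (yy_pos x)
  have hAp : AA x ^ p ≠ 0 := (pow_pos hA p).ne'
  have hrp : √(yy x) ^ (F + p) ≠ 0 := (pow_pos hr _).ne'
  rw [h5]
  unfold WZ Nm UU
  rw [h1, h2]
  field_simp

private theorem fl_A (x : ℝ) : (0 : ℝ) < AA x := by
  have := AA_gt x
  linarith

private theorem fl_r (x : ℝ) : 0 < √(yy x) := Real.sqrt_pos.2 (yy_pos x)

private theorem fl_WZ {n : ℕ} (x : ℝ) (Z : Part (Fin (6 * n))) : 0 ≤ WZ x Z := by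
  have h1 := fl_A x
  have h2 := fl_r x
  unfold WZ Nm
  positivity

private theorem fl_ex {n : ℕ} (g : ℕ) (Z : Part (Fin (6 * n))) : 0 ≤ ex g Z := Nat.cast_nonneg _

/-- the hypotheses on the last part -/
private def FlOk {n : ℕ} (b N : ℕ) (x ε₀ κ : ℝ) {A A' : Type} (t : A → Str (Fin (6 * n)) A') (fl : A → A' → Prop) (a : A)
    (Z : Part (Fin (6 * n))) : Prop :=
  Gat b (t a) Z ∧ (t a).Dep N ∧
    LS b (fun a' Z' => if fl a a' then WZ x Z' * Real.exp (ε₀ * xi Z Z') else 0) (t a) Z ≤ κ * WZ x Z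

private noncomputable def flQ {n : ℕ} (b g q : ℕ) {A A' : Type} (t : A → Str (Fin (6 * n)) A') (fl : A → A' → Prop) (a : A)
    (Z : Part (Fin (6 * n))) : ℝ :=
  LS b (fun a' Z' => if fl a a' ∧ pz Z' = q ∧ q < pz Z then ex g Z' else 0) (t a) Z

private theorem fl_zero {n b g q : ℕ} {A A' : Type} {t : A → Str (Fin (6 * n)) A'} {fl : A → A' → Prop} {a : A}
    {Z : Part (Fin (6 * n))} (h : ¬ q < pz Z) : flQ b g q t fl a Z ≤ 0 := by
  have h1 : flQ b g q t fl a Z ≤ LS b (fun a' Z' => 0 * (fun _ _ => (0 : ℝ)) a' Z') (t a) Z := by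
    unfold flQ
    refine ls_le fun a' Z' _ => ?_
    rw [if_neg (fun hc => h hc.2.2), zero_mul]
  rw [ls_mul, zero_mul] at h1
  exact h1

/-- the local bound -/
private theorem fl_loc {n b g N N' q p F : ℕ} {x ε₀ ε κ C K : ℝ} {A A' : Type} {t : A → Str (Fin (6 * n)) A'}
    {fl : A → A' → Prop} (hx : 0 < x) (hε₀ : 0 < ε₀) (hε : 0 ≤ ε) (hεε : ε ≤ ε₀) (hκ : 0 ≤ κ) (hK : 0 ≤ K)
    (hvis : ∀ (b N s : ℕ), 1 ≤ s →
      VV b (fun p F' => AA x ^ p / √(yy x) ^ (F' + p) * Real.exp (ε * ((F : ℝ) - F') - ε₀ * |(p : ℝ) - s|)) N s F ≤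
        C * (AA x ^ s / √(yy x) ^ (F + s)))
    {Y : Part (Fin (6 * n))} (hY : OH Y p F) (hpq : p = q ∨ (p = 3 ∧ q ≤ 2))
    (hub : ∀ v, v ≤ F → Even (p + q + v) → 1 ≤ q → UU x 0 g q (F - v) ≤ K * Real.exp (ε * v) * UU x 0 g p F)
    (s : Str (Fin (6 * n)) A) (hG : Gat b s Y) (hN : s.Dep N') (hend : ∀ a Z, Lf b s Y a Z → FlOk b N x ε₀ κ t fl a Z) :
    LS b (flQ b g q t fl) s Y ≤ K * C * Real.exp (2 * ε₀) * κ * ex g Y := by
  obtain ⟨y1, y2, y3⟩ := oh_pz hY
  have hU0 := UU_nonneg x 0 g p F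
  -- pointwise
  have hpt : ∀ a Z, Lf b s Y a Z → flQ b g q t fl a Z ≤ (K * UU x 0 g p F * κ * Real.exp (2 * ε₀)) *
      (((3 * fz Z).factorial : ℝ) * (AA x ^ (pz Z) / √(yy x) ^ (fz Z + pz Z) *
        Real.exp (ε * ((F : ℝ) - fz Z) - ε₀ * |(pz Z : ℝ) - p|))) := by
    intro a Z hL
    obtain ⟨pZ, FZ, hZ, -, hFZ, -, -⟩ := lf_oh hY hN hL
    obtain ⟨z1, z2, z3⟩ := oh_pz hZ
    have hWZ : ((3 * fz Z).factorial : ℝ) * (AA x ^ (pz Z) / √(yy x) ^ (fz Z + pz Z)) = WZ x Z := by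
      unfold WZ Nm
      ring
    have hW0 := fl_WZ x Z
    rw [← mul_assoc (((3 * fz Z).factorial : ℝ)), hWZ]
    by_cases hq : q < pz Z
    · obtain ⟨hGt, hNt, hκt⟩ := hend a Z hL
      have hqR : (q : ℝ) < pz Z := by exact_mod_cast hq
      have h1 : flQ b g q t fl a Z ≤ LS b (fun a' Z' => (K * UU x 0 g p F *
          Real.exp (ε * ((F : ℝ) - fz Z) - ε₀ * ((pz Z : ℝ) - q))) *
            (fun a' Z' => if fl a a' then WZ x Z' * Real.exp (ε₀ * xi Z Z') else 0) a' Z') (t a) Z := by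
        unfold flQ
        refine ls_le fun a' Z' hL' => ?_
        show _ ≤ (K * UU x 0 g p F * Real.exp (ε * ((F : ℝ) - fz Z) - ε₀ * ((pz Z : ℝ) - q))) *
          (if fl a a' then WZ x Z' * Real.exp (ε₀ * xi Z Z') else 0)
        obtain ⟨p', F', hZ', -, hF', -, -⟩ := lf_oh hZ hNt hL'
        obtain ⟨w1, w2, w3⟩ := oh_pz hZ'
        have hW' := fl_WZ x Z'
        by_cases hc : fl a a' ∧ pz Z' = q ∧ q < pz Z
        · rw [if_pos hc, if_pos hc.1]
          have hp'q : p' = q := by rw [← w1, hc.2.1]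
          have hv : F - F' ≤ F := Nat.sub_le _ _
          have hFF : F - (F - F') = F' := by omega
          have hev : Even (p + q + (F - F')) := by
            have e1 := oh_par hY
            have e2 := oh_par hZ'
            rw [Nat.even_iff] at e1 e2 ⊢
            omega
          have h2 := hub (F - F') hv hev (by rw [← hp'q]; exact w3)
          rw [hFF] at h2
          have h3 : ex g Z' = WZ x Z' * UU x 0 g q F' := by
            rw [ex_wz hx hZ', hp'q]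
          have hvR : ((F - F' : ℕ) : ℝ) = ((F : ℝ) - fz Z) + ((fz Z : ℝ) - fz Z') := by
            rw [Nat.cast_sub (hF'.trans hFZ), w2]
            ring
          have hd : (0 : ℝ) ≤ (fz Z : ℝ) - fz Z' := by
            rw [z2, w2, sub_nonneg]
            exact_mod_cast hF'
          have hxi : xi Z Z' = ((pz Z : ℝ) - q) + ((fz Z : ℝ) - fz Z') := by
            unfold xi
            rw [hc.2.1, abs_sub_comm, abs_of_pos (sub_pos.2 hqR)]
          have h4 : Real.exp (ε * ((F - F' : ℕ) : ℝ)) ≤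
              Real.exp (ε * ((F : ℝ) - fz Z) - ε₀ * ((pz Z : ℝ) - q)) * Real.exp (ε₀ * xi Z Z') := by
            rw [← Real.exp_add]
            apply Real.exp_le_exp.2
            rw [hvR, hxi]
            have := mul_le_mul_of_nonneg_right hεε hd
            linarith
          rw [h3]
          calc WZ x Z' * UU x 0 g q F' ≤ WZ x Z' * (K * Real.exp (ε * ((F - F' : ℕ) : ℝ)) * UU x 0 g p F) :=
                mul_le_mul_of_nonneg_left h2 hW'
            _ = (WZ x Z' * K * UU x 0 g p F) * Real.exp (ε * ((F - F' : ℕ) : ℝ)) := by ring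
            _ ≤ (WZ x Z' * K * UU x 0 g p F) * (Real.exp (ε * ((F : ℝ) - fz Z) - ε₀ * ((pz Z : ℝ) - q)) *
                  Real.exp (ε₀ * xi Z Z')) := mul_le_mul_of_nonneg_left h4 (by positivity)
            _ = _ := by ring
        · rw [if_neg hc]
          split_ifs <;> positivity
      rw [ls_mul] at h1
      have h5 : Real.exp (ε * ((F : ℝ) - fz Z) - ε₀ * ((pz Z : ℝ) - q)) ≤
          Real.exp (2 * ε₀) * Real.exp (ε * ((F : ℝ) - fz Z) - ε₀ * |(pz Z : ℝ) - p|) := by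
        rw [← Real.exp_add]
        apply Real.exp_le_exp.2
        have h6 : |(pz Z : ℝ) - p| ≤ ((pz Z : ℝ) - q) + 2 := by
          rcases hpq with h7 | ⟨h7, h8⟩
          · rw [h7, abs_of_pos (sub_pos.2 hqR)]
            linarith
          · rw [h7, abs_le]
            have h9 : (q : ℝ) ≤ 2 := by exact_mod_cast h8
            have h10 : (1 : ℝ) ≤ pz Z := by rw [z1]; exact_mod_cast z3
            constructor
            · push_cast
              linarith
            · push_cast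
              linarith
        have := mul_le_mul_of_nonneg_left h6 hε₀.le
        linarith
      calc flQ b g q t fl a Z ≤ (K * UU x 0 g p F * Real.exp (ε * ((F : ℝ) - fz Z) - ε₀ * ((pz Z : ℝ) - q))) *
            (κ * WZ x Z) := h1.trans (mul_le_mul_of_nonneg_left hκt (by positivity))
        _ = (K * UU x 0 g p F * κ * WZ x Z) * Real.exp (ε * ((F : ℝ) - fz Z) - ε₀ * ((pz Z : ℝ) - q)) := by ring
        _ ≤ (K * UU x 0 g p F * κ * WZ x Z) * (Real.exp (2 * ε₀) *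
              Real.exp (ε * ((F : ℝ) - fz Z) - ε₀ * |(pz Z : ℝ) - p|)) :=
            mul_le_mul_of_nonneg_left h5 (by positivity)
        _ = _ := by ring
    · refine (fl_zero hq).trans ?_
      positivity
  have h1 := ls_le (ψ := flQ b g q t fl) (φ := fun a Z => (K * UU x 0 g p F * κ * Real.exp (2 * ε₀)) *
    (fun _ Z => ((3 * fz Z).factorial : ℝ) * (fun (p' F' : ℕ) => AA x ^ p' / √(yy x) ^ (F' + p') *
      Real.exp (ε * ((F : ℝ) - F') - ε₀ * |(p' : ℝ) - p|)) (pz Z) (fz Z)) a Z) hpt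
  rw [ls_mul] at h1
  have hφ : ∀ p' F' : ℕ, (0 : ℝ) ≤ (fun (p' F' : ℕ) => AA x ^ p' / √(yy x) ^ (F' + p') *
      Real.exp (ε * ((F : ℝ) - F') - ε₀ * |(p' : ℝ) - p|)) p' F' := by
    intro p' F'
    have h2 := fl_A x
    have h3 := fl_r x
    show (0 : ℝ) ≤ AA x ^ p' / √(yy x) ^ (F' + p') * Real.exp (ε * ((F : ℝ) - F') - ε₀ * |(p' : ℝ) - p|)
    positivity
  have h2 := ls_num hY hG hN hφ
  have h3 := hvis b (N' + 1) p y3
  have h4 : ((3 * F).factorial : ℝ) * (C * (AA x ^ p / √(yy x) ^ (F + p))) = C * WZ x Y := by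
    unfold WZ Nm
    rw [y1, y2]
    ring
  have h5 := h2.trans (mul_le_mul_of_nonneg_left h3 (Nat.cast_nonneg _))
  rw [h4] at h5
  calc LS b (flQ b g q t fl) s Y ≤ (K * UU x 0 g p F * κ * Real.exp (2 * ε₀)) * (C * WZ x Y) :=
        h1.trans (mul_le_mul_of_nonneg_left h5 (by positivity))
    _ = K * C * Real.exp (2 * ε₀) * κ * (WZ x Y * UU x 0 g p F) := by ring
    _ = K * C * Real.exp (2 * ε₀) * κ * ex g Y := by rw [ex_wz hx hY]

/-- first hit of the perimeter `q` -/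
private theorem fl_hit {n b g N q F₀ : ℕ} {x ε₀ ε κ C K : ℝ} {A A' : Type} {t : A → Str (Fin (6 * n)) A'}
    {fl : A → A' → Prop} (hg : 1 ≤ g) (hx : 0 < x) (hε₀ : 0 < ε₀) (hε : 0 ≤ ε) (hεε : ε ≤ ε₀) (hκ : 0 ≤ κ) (hK : 0 ≤ K)
    (hC : 0 ≤ C)
    (hvis : ∀ (F b N s : ℕ), 1 ≤ s →
      VV b (fun p F' => AA x ^ p / √(yy x) ^ (F' + p) * Real.exp (ε * ((F : ℝ) - F') - ε₀ * |(p : ℝ) - s|)) N s F ≤
        C * (AA x ^ s / √(yy x) ^ (F + s)))
    (hub : ∀ F, F ≤ F₀ → F₀ ≤ F + N * (b + 1) → ∀ v, v ≤ F → Even (q + q + v) → 1 ≤ q →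
      UU x 0 g q (F - v) ≤ K * Real.exp (ε * v) * UU x 0 g q F)
    (s : Str (Fin (6 * n)) A) : ∀ (Y : Part (Fin (6 * n))) (p F N' k : ℕ), OH Y p F → p < q → Gat b s Y → s.Dep N' →
      F ≤ F₀ → F₀ ≤ F + k * (b + 1) → k + N' ≤ N → (∀ a Z, Lf b s Y a Z → FlOk b N x ε₀ κ t fl a Z) →
      LS b (flQ b g q t fl) s Y ≤ K * C * Real.exp (2 * ε₀) * κ * ex g Y := by
  induction s with
  | ret a =>
    intro Y p F N' k hY hpq _ _ _ _ _ _
    have h1 : ¬ q < pz Y := by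
      rw [(oh_pz hY).1]
      omega
    have h2 := fl_ex g Y
    refine le_trans (b := 0) (fl_zero h1) ?_
    positivity
  | peel d f ih =>
    intro Y p F N' k hY hpq hG hN hF hF₀ hk hend
    obtain ⟨hd, hG⟩ := hG
    obtain ⟨M, rfl, hM⟩ := hN
    have h1 : ∀ Z₁, SS b Y d Z₁ → LS b (flQ b g q t fl) (f Z₁) Z₁ ≤ K * C * Real.exp (2 * ε₀) * κ * ex g Z₁ := by
      intro Z₁ hs
      obtain ⟨p₁, F₁, hZ₁, hp₁, hF₁, hFb, -, -⟩ := ss_oh hY hs
      have hend₁ : ∀ a Z, Lf b (f Z₁) Z₁ a Z → FlOk b N x ε₀ κ t fl a Z := fun a Z hL => hend a Z ⟨Z₁, hs, hL⟩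
      have hF₀₁ : F₀ ≤ F₁ + (k + 1) * (b + 1) := by
        have : (k + 1) * (b + 1) = k * (b + 1) + (b + 1) := by ring
        omega
      rcases Nat.lt_or_ge p₁ q with h2 | h2
      · exact ih Z₁ Z₁ p₁ F₁ M (k + 1) hZ₁ h2 (hG Z₁ hs) (hM Z₁) (by omega) hF₀₁ (by omega) hend₁
      · have h3 : p₁ = q := by omega
        have h4 : F₀ ≤ F₁ + N * (b + 1) := by
          have : (k + 1) * (b + 1) ≤ N * (b + 1) := Nat.mul_le_mul_right _ (by omega)
          omega
        refine fl_loc (N := N) hx hε₀ hε hεε hκ hK (fun b N s => hvis F₁ b N s) hZ₁ (Or.inl h3) ?_ (f Z₁) (hG Z₁ hs) (hM Z₁) hend₁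
        intro v hv hev hq
        rw [h3] at hev ⊢
        exact hub F₁ (by omega) h4 v hv hev hq
    show (∑ Z₁ : Part (Fin (6 * n)), if SS b Y d Z₁ then LS b (flQ b g q t fl) (f Z₁) Z₁ else 0) ≤ _
    calc (∑ Z₁ : Part (Fin (6 * n)), if SS b Y d Z₁ then LS b (flQ b g q t fl) (f Z₁) Z₁ else 0)
        ≤ ∑ Z₁ : Part (Fin (6 * n)), (K * C * Real.exp (2 * ε₀) * κ) * (if SS b Y d Z₁ then ex g Z₁ else 0) := by
          refine Finset.sum_le_sum fun Z₁ _ => ?_
          split_ifs with hs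
          · exact h1 Z₁ hs
          · rw [mul_zero]
      _ = (K * C * Real.exp (2 * ε₀) * κ) * ∑ Z₁ : Part (Fin (6 * n)), (if SS b Y d Z₁ then ex g Z₁ else 0) := by
          rw [Finset.mul_sum]
      _ ≤ (K * C * Real.exp (2 * ε₀) * κ) * ex g Y :=
          mul_le_mul_of_nonneg_left (ext_sum hg hY) (by positivity)

/-- ends with larger perimeter -/
private theorem fl_big {n b g N p F : ℕ} {x ε₀ κ K : ℝ} {A A' : Type} {t : A → Str (Fin (6 * n)) A'}
    {fl : A → A' → Prop} {a : A} {Z : Part (Fin (6 * n))} (hx : 0 < x) (hK : 0 ≤ K) (hZ : OH Z p F)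
    (hub : ∀ p' v, p ≤ p' → p' ≤ p + N → v ≤ F → Even (p + p' + v) →
      UU x 0 g p' (F - v) ≤ K * Real.exp (ε₀ * ((p' - p : ℕ) + v)) * UU x 0 g p F)
    (hend : FlOk b N x ε₀ κ t fl a Z) :
    LS b (fun a' Z' => if fl a a' ∧ pz Z ≤ pz Z' then ex g Z' else 0) (t a) Z ≤ K * κ * ex g Z := by
  obtain ⟨z1, z2, z3⟩ := oh_pz hZ
  obtain ⟨hGt, hNt, hκt⟩ := hend
  have hU0 := UU_nonneg x 0 g p F
  have h1 : LS b (fun a' Z' => if fl a a' ∧ pz Z ≤ pz Z' then ex g Z' else 0) (t a) Z ≤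
      LS b (fun a' Z' => (K * UU x 0 g p F) *
        (fun a' Z' => if fl a a' then WZ x Z' * Real.exp (ε₀ * xi Z Z') else 0) a' Z') (t a) Z := by
    refine ls_le fun a' Z' hL' => ?_
    show _ ≤ (K * UU x 0 g p F) * (if fl a a' then WZ x Z' * Real.exp (ε₀ * xi Z Z') else 0)
    obtain ⟨p', F', hZ', hp', hF', -, -⟩ := lf_oh hZ hNt hL'
    obtain ⟨w1, w2, w3⟩ := oh_pz hZ'
    have hW' := fl_WZ x Z'
    by_cases hc : fl a a' ∧ pz Z ≤ pz Z'
    · rw [if_pos hc, if_pos hc.1]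
      have hpp : p ≤ p' := by
        have := hc.2
        rwa [z1, w1] at this
      have hFF : F - (F - F') = F' := by omega
      have hev : Even (p + p' + (F - F')) := by
        have e1 := oh_par hZ
        have e2 := oh_par hZ'
        rw [Nat.even_iff] at e1 e2 ⊢
        omega
      have h2 := hub p' (F - F') hpp hp' (Nat.sub_le _ _) hev
      rw [hFF] at h2
      have hxi : (((p' - p : ℕ) : ℝ) + ((F - F' : ℕ) : ℝ)) = xi Z Z' := by
        unfold xi
        rw [Nat.cast_sub hF', Nat.cast_sub hpp, z1, z2, w1, w2, abs_of_nonneg]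
        rw [sub_nonneg]
        exact_mod_cast hpp
      rw [hxi] at h2
      rw [ex_wz hx hZ']
      calc WZ x Z' * UU x 0 g p' F' ≤ WZ x Z' * (K * Real.exp (ε₀ * xi Z Z') * UU x 0 g p F) :=
            mul_le_mul_of_nonneg_left h2 hW'
        _ = _ := by ring
    · rw [if_neg hc]
      split_ifs <;> positivity
  rw [ls_mul] at h1
  calc LS b (fun a' Z' => if fl a a' ∧ pz Z ≤ pz Z' then ex g Z' else 0) (t a) Z ≤ (K * UU x 0 g p F) * (κ * WZ x Z) :=
        h1.trans (mul_le_mul_of_nonneg_left hκt (by positivity))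
    _ = K * κ * (WZ x Z * UU x 0 g p F) := by ring
    _ = K * κ * ex g Z := by rw [ex_wz hx hZ]

theorem fail_le {θ x : ℝ} (h : Par θ x) {ε₀ : ℝ} (hε : 0 < ε₀) : ∃ (K δ : ℝ) (M : ℕ), 0 < K ∧ 0 < δ ∧
    ∀ (n g b N F : ℕ) (S : Part (Fin (6 * n))), OH S 3 F → Win θ δ M {3} F g → ((N : ℝ) + 3) * (b + 1) ≤ δ * F → 1 ≤ g →
      ∀ {A A' : Type} (s : Str (Fin (6 * n)) A) (t : A → Str (Fin (6 * n)) A') (fl : A → A' → Prop) (κ : ℝ), 0 ≤ κ →
        Gat b s S → s.Dep N → (∀ a Z, Lf b s S a Z → Gat b (t a) Z ∧ (t a).Dep N) →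
        (∀ a Z, Lf b s S a Z → LS b (fun a' Z' => if fl a a' then WZ x Z' * Real.exp (ε₀ * xi Z Z') else 0) (t a) Z ≤ κ * WZ x Z) →
        LS b (fun a Z => LS b (fun a' Z' => if fl a a' then ex g Z' else 0) (t a) Z) s S ≤ K * ((N : ℝ) + 3) * κ * ex g S := by
  obtain ⟨hθ, hθ1, hx, -⟩ := id h
  obtain ⟨K₁, δ₁, M₁, hK₁, hδ₁, hub₁⟩ := ub h hε
  obtain ⟨C, ε₁, hC, hε₁, hvis⟩ := vis_sum hx hε
  obtain ⟨ε, hεd⟩ : ∃ ε : ℝ, ε = min ε₀ ε₁ := ⟨_, rfl⟩
  have hε0 : 0 < ε := by rw [hεd]; exact lt_min hε hε₁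
  have hεa : ε ≤ ε₀ := by rw [hεd]; exact min_le_left _ _
  have hεb : ε ≤ ε₁ := by rw [hεd]; exact min_le_right _ _
  obtain ⟨K₂, δ₂, M₂, hK₂, hδ₂, hub₂⟩ := ub h hε0
  obtain ⟨K₃, δ₃, M₃, hK₃, hδ₃, hub₃⟩ := ub_low h hε0 2
  obtain ⟨δ', hδ'd⟩ : ∃ δ' : ℝ, δ' = min (min δ₁ δ₂) (min δ₃ 1) := ⟨_, rfl⟩
  have hδ'0 : 0 < δ' := by rw [hδ'd]; exact lt_min (lt_min hδ₁ hδ₂) (lt_min hδ₃ one_pos)
  have hδ'1 : δ' ≤ δ₁ := by rw [hδ'd]; exact (min_le_left _ _).trans (min_le_left _ _)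
  have hδ'2 : δ' ≤ δ₂ := by rw [hδ'd]; exact (min_le_left _ _).trans (min_le_right _ _)
  have hδ'3 : δ' ≤ δ₃ := by rw [hδ'd]; exact (min_le_right _ _).trans (min_le_left _ _)
  have hδ'4 : δ' ≤ 1 := by rw [hδ'd]; exact (min_le_right _ _).trans (min_le_right _ _)
  obtain ⟨M', hM'⟩ : ∃ M' : ℕ, M' = max (max M₁ M₂) M₃ := ⟨_, rfl⟩
  have hM'1 : M₁ ≤ M' := by rw [hM']; exact (le_max_left _ _).trans (le_max_left _ _)
  have hM'2 : M₂ ≤ M' := by rw [hM']; exact (le_max_right _ _).trans (le_max_left _ _)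
  have hM'3 : M₃ ≤ M' := by rw [hM']; exact le_max_right _ _
  obtain ⟨K, hKd⟩ : ∃ K : ℝ, K = max K₂ K₃ := ⟨_, rfl⟩
  have hKa : K₂ ≤ K := by rw [hKd]; exact le_max_left _ _
  have hKb : K₃ ≤ K := by rw [hKd]; exact le_max_right _ _
  have hK : 0 < K := lt_of_lt_of_le hK₂ hKa
  refine ⟨K₁ + K * C * Real.exp (2 * ε₀), δ' / 8, 2 * M', by positivity, by positivity, ?_⟩
  intro n g b N F S hS hW hNb hg A A' s t fl κ hκ hG hN hT hL
  have hFR : (0 : ℝ) ≤ F := Nat.cast_nonneg F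
  have hδF : 0 ≤ δ' / 8 * F := by positivity
  have hNR : (0 : ℝ) ≤ N := Nat.cast_nonneg N
  have hbR : (0 : ℝ) ≤ b := Nat.cast_nonneg b
  have hNb1 : (N : ℝ) * (b + 1) ≤ δ' / 8 * F := by
    have : (N : ℝ) * (b + 1) ≤ ((N : ℝ) + 3) * (b + 1) := by nlinarith
    linarith
  have hN3 : (N : ℝ) + 3 ≤ δ' / 8 * F := by
    have : (N : ℝ) + 3 ≤ ((N : ℝ) + 3) * (b + 1) := by nlinarith
    linarith
  have hwin : ∀ q FY : ℕ, 1 ≤ q → q ≤ 2 * N + 3 → FY ≤ F → F ≤ FY + N * (b + 1) → Win θ δ' M' (q ::ₘ 0) FY g := by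
    intro q FY hq1 hq2 hFY hF
    have h1 : Win θ (δ' / 4) (2 * M') {3} F g := hW.mono (by linarith) le_rfl
    have hFR' : (F : ℝ) ≤ FY + N * (b + 1) := by exact_mod_cast hF
    have hFYR : (FY : ℝ) ≤ F := by exact_mod_cast hFY
    refine h1.shift hθ.le hθ1.le hδ'0.le hδ'4 ?_ ?_ ?_ ?_
    · linarith
    · linarith
    · have h2 : ((q ::ₘ (0 : Multiset ℕ)).sum : ℝ) = (q : ℝ) := by
        rw [Multiset.sum_cons, Multiset.sum_zero, add_zero]
      have h2' : (((q ::ₘ (0 : Multiset ℕ)).sum : ℕ) : ℝ) = (q : ℝ) := by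
        rw [Multiset.sum_cons, Multiset.sum_zero, add_zero]
      rw [h2']
      have h3 : (q : ℝ) ≤ 2 * N + 3 := by exact_mod_cast hq2
      linarith
    · intro q' hq'
      rcases Multiset.mem_cons.1 hq' with h2 | h2
      · omega
      · exact absurd h2 (Multiset.notMem_zero _)
  have hend : ∀ a Z, Lf b s S a Z → FlOk b N x ε₀ κ t fl a Z := fun a Z hLf => ⟨(hT a Z hLf).1, (hT a Z hLf).2, hL a Z hLf⟩
  have hexS := fl_ex g S
  -- part 1
  have hbig : ∀ a Z, Lf b s S a Z →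
      LS b (fun a' Z' => if fl a a' ∧ pz Z ≤ pz Z' then ex g Z' else 0) (t a) Z ≤ K₁ * κ * ex g Z := by
    intro a Z hLf
    obtain ⟨pZ, FZ, hZ, hpZ, hFZ, hFZ', -⟩ := lf_oh hS hN hLf
    refine fl_big hx hK₁.le hZ ?_ (hend a Z hLf)
    intro p' v hpp hp' hv hev
    have h1 := (oh_pz hZ).2.2
    exact hub₁ 0 FZ g pZ p' v h1 hpp hv hev
      ((hwin p' FZ (by omega) (by omega) hFZ hFZ').mono hδ'1 hM'1)
  -- part 2
  have hsmall : ∀ q ∈ Finset.range (N + 3), LS b (flQ b g q t fl) s S ≤ K * C * Real.exp (2 * ε₀) * κ * ex g S := by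
    intro q hq
    have hqN := Finset.mem_range.1 hq
    have hvis' : ∀ (F b N s : ℕ), 1 ≤ s →
      VV b (fun p F' => AA x ^ p / √(yy x) ^ (F' + p) * Real.exp (ε * ((F : ℝ) - F') - ε₀ * |(p : ℝ) - s|)) N s F ≤
        C * (AA x ^ s / √(yy x) ^ (F + s)) := fun F b N s hs => hvis ε b N s F hε0.le hεb hs
    have hubq : ∀ F', F' ≤ F → F ≤ F' + N * (b + 1) → ∀ v, v ≤ F' → Even (q + q + v) → 1 ≤ q →
        UU x 0 g q (F' - v) ≤ K * Real.exp (ε * v) * UU x 0 g q F' := by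
      intro F' hF' hF'' v hv hev hq1
      have h1 := hub₂ 0 F' g q q v hq1 le_rfl hv hev ((hwin q F' hq1 (by omega) hF' hF'').mono hδ'2 hM'2)
      rw [Nat.sub_self, Nat.cast_zero, zero_add] at h1
      refine h1.trans ?_
      have := UU_nonneg x 0 g q F'
      gcongr
    rcases Nat.lt_or_ge 3 q with h3 | h3
    · exact fl_hit hg hx hε hε0.le hεa hκ hK.le hC.le hvis' hubq s S 3 F N 0 hS h3 hG hN le_rfl (by omega) (by omega) hend
    · rcases Nat.lt_or_ge q 3 with h4 | h4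
      · refine fl_loc (N := N) hx hε hε0.le hεa hκ hK.le (fun b N s => hvis' F b N s) hS (Or.inr ⟨rfl, by omega⟩) ?_ s hG hN hend
        intro v hv hev hq1
        have h1 := hub₃ 0 F g 3 q v hq1 (by omega) (by omega) hv hev
          ((hwin q F hq1 (by omega) le_rfl (by omega)).mono hδ'3 hM'3)
        refine h1.trans ?_
        have := UU_nonneg x 0 g 3 F
        gcongr
      · have h5 : q = 3 := by omega
        subst h5
        refine fl_loc (N := N) hx hε hε0.le hεa hκ hK.le (fun b N s => hvis' F b N s) hS (Or.inl rfl) ?_ s hG hN hend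
        intro v hv hev hq1
        exact hubq F le_rfl (by omega) v hv hev hq1
  -- assembly
  have hsplit : LS b (fun a Z => LS b (fun a' Z' => if fl a a' then ex g Z' else 0) (t a) Z) s S ≤
      LS b (fun a Z => (fun a Z => (K₁ * κ) * (fun _ Z => ex g Z) a Z) a Z +
        (fun a Z => ∑ q ∈ Finset.range (N + 3), flQ b g q t fl a Z) a Z) s S := by
    refine ls_le fun a Z hLf => ?_
    obtain ⟨pZ, FZ, hZ, hpZ, hFZ, hFZ', -⟩ := lf_oh hS hN hLf
    have hNt := (hT a Z hLf).2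
    have h1 : LS b (fun a' Z' => if fl a a' then ex g Z' else 0) (t a) Z ≤
        LS b (fun a' Z' => (fun a' Z' => if fl a a' ∧ pz Z ≤ pz Z' then ex g Z' else 0) a' Z' +
          (fun a' Z' => ∑ q ∈ Finset.range (N + 3), (fun q a' Z' => if fl a a' ∧ pz Z' = q ∧ q < pz Z then ex g Z' else 0) q a' Z')
            a' Z') (t a) Z := by
      refine ls_le fun a' Z' hL' => ?_
      show (if fl a a' then ex g Z' else 0) ≤ (if fl a a' ∧ pz Z ≤ pz Z' then ex g Z' else 0) +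
        ∑ q ∈ Finset.range (N + 3), if fl a a' ∧ pz Z' = q ∧ q < pz Z then ex g Z' else 0
      have hex' := fl_ex g Z'
      have hs0 : (0 : ℝ) ≤ ∑ q ∈ Finset.range (N + 3), (if fl a a' ∧ pz Z' = q ∧ q < pz Z then ex g Z' else 0) :=
        Finset.sum_nonneg fun q _ => by split_ifs <;> [exact hex'; exact le_rfl]
      by_cases hfl : fl a a'
      · rw [if_pos hfl]
        rcases Nat.lt_or_ge (pz Z') (pz Z) with h2 | h2
        · have h3 : pz Z' ∈ Finset.range (N + 3) := by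
            rw [Finset.mem_range]
            have := (oh_pz hZ).1
            omega
          have h4 := Finset.single_le_sum (f := fun q => if fl a a' ∧ pz Z' = q ∧ q < pz Z then ex g Z' else 0)
            (fun q _ => by split_ifs <;> [exact hex'; exact le_rfl]) h3
          have h5 : (if fl a a' ∧ pz Z' = pz Z' ∧ pz Z' < pz Z then ex g Z' else 0) = ex g Z' :=
            if_pos ⟨hfl, rfl, h2⟩
          rw [h5] at h4
          have h6 : (0 : ℝ) ≤ (if fl a a' ∧ pz Z ≤ pz Z' then ex g Z' else 0) := by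
            split_ifs <;> [exact hex'; exact le_rfl]
          linarith
        · rw [if_pos ⟨hfl, h2⟩]
          linarith
      · rw [if_neg hfl]
        have h6 : (0 : ℝ) ≤ (if fl a a' ∧ pz Z ≤ pz Z' then ex g Z' else 0) := by
          split_ifs <;> [exact hex'; exact le_rfl]
        linarith
    rw [ls_add, ls_sum] at h1
    have h2 := hbig a Z hLf
    refine h1.trans ?_
    show _ ≤ (K₁ * κ) * ex g Z + ∑ q ∈ Finset.range (N + 3), flQ b g q t fl a Z
    exact add_le_add h2 le_rfl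
  rw [ls_add, ls_mul, ls_sum] at hsplit
  have h1 := ext_ls (b := b) hg hS s
  have h2 : (K₁ * κ) * LS b (fun _ Z => ex g Z) s S ≤ (K₁ * κ) * ex g S := mul_le_mul_of_nonneg_left h1 (by positivity)
  have h3 : ∑ q ∈ Finset.range (N + 3), LS b (flQ b g q t fl) s S ≤
      ((N : ℝ) + 3) * (K * C * Real.exp (2 * ε₀) * κ * ex g S) := by
    refine (Finset.sum_le_card_nsmul _ _ _ hsmall).trans ?_
    rw [Finset.card_range, nsmul_eq_mul]
    push_cast
    exact le_rfl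
  have h4 : (K₁ * κ) * ex g S ≤ ((N : ℝ) + 3) * ((K₁ * κ) * ex g S) := by
    have : 0 ≤ (K₁ * κ) * ex g S := by positivity
    nlinarith
  calc LS b (fun a Z => LS b (fun a' Z' => if fl a a' then ex g Z' else 0) (t a) Z) s S
      ≤ (K₁ * κ) * LS b (fun _ Z => ex g Z) s S + ∑ q ∈ Finset.range (N + 3), LS b (flQ b g q t fl) s S := hsplit
    _ ≤ ((N : ℝ) + 3) * ((K₁ * κ) * ex g S) + ((N : ℝ) + 3) * (K * C * Real.exp (2 * ε₀) * κ * ex g S) := by
        linarith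
    _ = (K₁ + K * C * Real.exp (2 * ε₀)) * ((N : ℝ) + 3) * κ * ex g S := by ring

end SYS.GW
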