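import Pool.Agent.SYS.GW.StrT
import Pool.Agent.SYS.GW.DefB
import Pool.Agent.SYS.PX.Nwe
import Pool.Agent.SYS.GW.FailL

/-!
# SYSS-GRW-BlkC: the strategy of a block and the ends of the block

Runs of the block as a strategy; the sum over the ends of the strategy is a sum over the ends of the block.
-/

namespace SYS.GW

open Classical SST SYS.Num Str

variable {n g b p F W v k : ℕ} {x γ ε₁ : ℝ} {B : CH.Blk} {T : Tri (Fin (6 * n))} {Z Z' Z'' : Part (Fin (6 * n))} {f : Fin (6 * n)}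

private theorem bc_none {D : Type} [Finite D] {B : CH.Blk} {S Y : Part D} {f : D} {k : ℕ} (hn : B.nxt S f Y = none) :
    blkS B S f k Y = .ret Y := by
  cases k with
  | zero => rfl
  | succ k => simp only [blkS, hn]

private theorem bc_some {D : Type} [Finite D] {B : CH.Blk} {S Y : Part D} {f d : D} {k : ℕ} (hn : B.nxt S f Y = some d)
    (hd : d ∈ Y.B) : blkS B S f (k + 1) Y = .peel d (fun Z' => blkS B S f k Z') := by
  simp only [blkS, hn, if_pos hd]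

private theorem bc_out {D : Type} [Finite D] {B : CH.Blk} {S Y : Part D} {f d : D} {k : ℕ} (hn : B.nxt S f Y = some d)
    (hd : d ∉ Y.B) : blkS B S f (k + 1) Y = .ret Y := by
  simp only [blkS, hn, if_neg hd]

private theorem bc_ne {D : Type} [Finite D] {nb : Part D → Option D} {Z Y : Part D} {z y : D} {w : List Stp}
    (hr : Part.BR nb Z z w Y y) (hw : w ≠ []) : Y ≠ Z := by
  cases w with
  | nil => exact absurd rfl hw
  | cons s w =>
    obtain ⟨d, Z₁, z₁, hb, hd, hz, hst, hr⟩ := hr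
    obtain ⟨h1, h2⟩ := Part.st_strict hst
    intro h
    have h3 := (Part.br_sub hr).2 d h2
    rw [h, h1] at h3
    exact h2 h3.symm

private theorem bc_snoc {D : Type} [Finite D] {nb : Part D → Option D} {Z Y Z₁ : Part D} {z y d z₁ : D} {u : List Stp} {s : Stp}
    (hr : Part.BR nb Z z u Y y) (hb : nb Y = some d) (hd : d ∈ Y.B) (hy : Y.s.SameCycle y d) (hst : Y.St d s Z₁ z₁) :
    Part.BR nb Z z (u ++ [s]) Z₁ z₁ :=
  Part.br_append.2 ⟨Y, y, hr, d, Z₁, z₁, hb, hd, hy, hst, rfl, rfl⟩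

private theorem bc_gate (hB : BOk B x W v γ ε₁) (h : OH Z p F) (hf : f ∈ Z.B) {Y : Part (Fin (6 * n))} {y d : Fin (6 * n)}
    {u : List Stp} (hr : Part.BR (B.nxt Z f) Z f u Y y) (hd : B.nxt Z f Y = some d) : d ∈ Y.B ∧ Y.s.SameCycle y d := by
  obtain ⟨-, F', -, hY⟩ := Part.br_typ (oh_typ h hf) hr
  have hdB : d ∈ Y.B := by
    by_cases hu : u = []
    · subst hu
      obtain ⟨rfl, rfl⟩ := hr
      rw [hB.st _ _ hf] at hd
      obtain rfl := Option.some.inj hd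
      exact hf
    · exact (hB.new Z Y f y d u hf hr (bc_ne hr hu) hd).1
  refine ⟨hdB, ?_⟩
  obtain ⟨e, he, h1⟩ := hY.hl.2.2 d hdB
  rw [List.mem_singleton] at he
  subst he
  exact h1

private theorem bc_end (hB : BOk B x W v γ ε₁) (h : OH Z p F) (hf : f ∈ Z.B) {Y : Part (Fin (6 * n))} {y : Fin (6 * n)}
    {u : List Stp} (hr : Part.BR (B.nxt Z f) Z f u Y y) (hu : u.length = B.K) : B.nxt Z f Y = none := by
  rcases hd : B.nxt Z f Y with _ | d
  · rfl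
  · exfalso
    obtain ⟨h1, h2⟩ := bc_gate hB h hf hr hd
    have h3 := hB.len Z f (u, Y, y) d hf ⟨hr, hd, h1, h2⟩
    have h4 : u.length < B.K := h3
    omega

private theorem bc_lf (hB : BOk B x W v γ ε₁) (h : OH Z p F) (hf : f ∈ Z.B) : ∀ (k : ℕ) (Y : Part (Fin (6 * n)))
    (y : Fin (6 * n)) (u : List Stp), Part.BR (B.nxt Z f) Z f u Y y → u.length + k = B.K → Lf b (blkS B Z f k Y) Y Z' Z'' →
      Z'' = Z' ∧ ∃ w z', Part.BR (B.nxt Z f) Y y w Z' z' ∧ B.nxt Z f Z' = none ∧ SmW b w ∧ w.length ≤ k := by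
  intro k
  induction k with
  | zero =>
    intro Y y u hr hu hL
    have hn := bc_end hB h hf hr (by omega)
    obtain ⟨h1, h2⟩ : Z' = Y ∧ Z'' = Y := hL
    subst h1
    exact ⟨h2, [], y, ⟨rfl, rfl⟩, hn, fun s hs => absurd hs List.not_mem_nil, le_rfl⟩
  | succ k ih =>
    intro Y y u hr hu hL
    rcases hd : B.nxt Z f Y with _ | d
    · rw [bc_none hd] at hL
      obtain ⟨h1, h2⟩ : Z' = Y ∧ Z'' = Y := hL
      subst h1
      exact ⟨h2, [], y, ⟨rfl, rfl⟩, hd, fun s hs => absurd hs List.not_mem_nil, Nat.zero_le _⟩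
    · obtain ⟨h1, h2⟩ := bc_gate hB h hf hr hd
      rw [bc_some hd h1] at hL
      obtain ⟨Z₁, ⟨s, z₁, hst, hsm⟩, hL'⟩ := hL
      obtain ⟨h3, w, z', h4, h5, h6, h7⟩ := ih Z₁ z₁ (u ++ [s]) (bc_snoc hr hd h1 h2 hst)
        (by rw [List.length_append, List.length_singleton]; omega) hL'
      refine ⟨h3, s :: w, z', ⟨d, Z₁, z₁, hd, h1, h2, hst, h4⟩, h5, ?_, ?_⟩
      · intro s' hs'
        rcases List.mem_cons.1 hs' with rfl | hs'
        · exact hsm
        · exact h6 s' hs'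
      · rw [List.length_cons]
        omega

theorem blk_lf (hB : BOk B x W v γ ε₁) (h : OH Z p F) (hf : f ∈ Z.B) (hL : Lf b (blkS B Z f B.K Z) Z Z' Z'') :
    Z'' = Z' ∧ ∃ w z', Part.BEnd (B.nxt Z f) Z f (w, Z', z') ∧ SmW b w ∧ w.length ≤ B.K := by
  obtain ⟨h1, w, z', h2, h3, h4, h5⟩ := bc_lf hB h hf B.K Z f [] ⟨rfl, rfl⟩ (by simp) hL
  exact ⟨h1, w, z', ⟨h2, h3⟩, h4, h5⟩

private theorem bc_gat (b : ℕ) (B : CH.Blk) (Z : Part (Fin (6 * n))) (f : Fin (6 * n)) : ∀ (k : ℕ) (Y : Part (Fin (6 * n))),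
    Gat b (blkS B Z f k Y) Y ∧ (blkS B Z f k Y).Dep k := by
  intro k
  induction k with
  | zero => exact fun Y => ⟨trivial, trivial⟩
  | succ k ih =>
    intro Y
    rcases hd : B.nxt Z f Y with _ | d
    · rw [bc_none hd]
      exact ⟨trivial, trivial⟩
    · by_cases h1 : d ∈ Y.B
      · rw [bc_some hd h1]
        exact ⟨⟨h1, fun Z' _ => (ih Z').1⟩, k, rfl, fun Z' => (ih Z').2⟩
      · rw [bc_out hd h1]
        exact ⟨trivial, trivial⟩

theorem blk_gat (hB : BOk B x W v γ ε₁) (h : OH Z p F) (hf : f ∈ Z.B) : Gat b (blkS B Z f B.K Z) Z ∧ (blkS B Z f B.K Z).Dep B.K :=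
  bc_gat b B Z f B.K Z

theorem blk_run (hB : BOk B x W v γ ε₁) (h : OH Z p F) (hf : f ∈ Z.B) (hL : Run b T (blkS B Z f B.K Z) Z Z' Z'') (hT : In T Z) :
    Z'' = Z' ∧ CH.PE B T Z f Z' := by
  obtain ⟨h1, w, z', h2, -, -⟩ := blk_lf hB h hf (run_lf hL)
  have h3 := run_in hT hL
  rw [h1] at h3
  exact ⟨h1, w, z', h2, h3.1, h3.2⟩

private theorem bc_list {D : Type} [Finite D] (l : List D) : {e | e ∈ l}.ncard ≤ l.length := by
  have h1 : {e | e ∈ l} = (l.toFinset : Set D) := by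
    ext e
    simp
  rw [h1, Set.ncard_coe_finset]
  exact List.toFinset_card_le l

private theorem bc_df {D : Type} [Finite D] {U U' : Part D} {m : List D} {a : ℕ} (hf : U.DiscFill U' m a) :
    U'.B ⊆ U.B ∧ ∀ e ∈ U.B, e ∉ m → e ∈ U'.B := by
  rcases hf with ⟨_, _, rfl⟩ | ⟨_, V, _, hf⟩
  · exact ⟨subset_rfl, fun e he _ => he⟩
  · rw [hf.B]
    exact ⟨fun e he => he.1, fun e he hm => ⟨he, hm⟩⟩

private theorem bc_gl {D : Type} [Finite D] {U U' : Part D} {x y : D} {u v m : List D} {a : ℕ} (hx : x ∈ U.B) (hy : y ∈ U.B)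
    (hw : U.hw x = x :: (u ++ y :: v)) (hf : (U.glue x y hx hy).DiscFill U' m a) :
    (U.B \ U'.B).ncard ≤ m.length + 2 ∧ U'.B ⊆ U.B := by
  have hxy : x ≠ y := by
    have hn := U.hw_nodup hx
    rw [hw, List.nodup_cons] at hn
    rintro rfl
    apply hn.1
    rw [List.mem_append, List.mem_cons]
    tauto
  obtain ⟨h1, h2⟩ := bc_df hf
  rw [Part.glue_B _ _ _ hxy] at h1 h2
  refine ⟨?_, fun e he => (h1 he).1⟩
  have h3 : U.B \ U'.B ⊆ {e | e ∈ x :: y :: m} := by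
    rintro e ⟨he, he'⟩
    rw [Set.mem_ofPred_eq, List.mem_cons, List.mem_cons]
    by_contra h4
    push Not at h4
    refine he' (h2 e ⟨he, ?_⟩ h4.2.2)
    rw [Set.mem_insert_iff, Set.mem_singleton_iff]
    tauto
  refine (Set.ncard_le_ncard h3 (Set.toFinite _)).trans ((bc_list _).trans ?_)
  rw [List.length_cons, List.length_cons]

private theorem bc_st {D : Type} [Finite D] {Y Y₁ : Part D} {d z : D} {s : Stp} (hst : Y.St d s Y₁ z) :
    (Y₁.B \ Y.B).ncard ≤ 2 ∧ (Y.B \ Y₁.B ⊆ {d} ∨ (Y.B \ Y₁.B).ncard ≤ Part.wk [s]) := by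
  cases s with
  | T =>
    obtain ⟨t0, t1, t2, hx, h0, h1, h2, h01, h12, h20, rfl, rfl⟩ := hst
    rw [Part.face_B]
    refine ⟨?_, Or.inl ?_⟩
    · have h3 : ((Y.B \ {d}) ∪ {z, t2}) \ Y.B ⊆ {z, t2} := by
        rintro e ⟨he | he, he'⟩
        · exact absurd he.1 he'
        · exact he
      refine (Set.ncard_le_ncard h3 (Set.toFinite _)).trans ?_
      exact (Set.ncard_insert_le _ _).trans (by rw [Set.ncard_singleton])
    · rintro e ⟨he, he'⟩
      by_contra h4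
      exact he' (Or.inl ⟨he, h4⟩)
  | L k a =>
    obtain ⟨y, u, v, w, hx, hy, hw, hk, hu, hf⟩ := hst
    obtain ⟨h2, h3⟩ := bc_gl hx hy hw hf
    rw [hk] at h2
    refine ⟨?_, Or.inr ?_⟩
    · rw [Set.sdiff_eq_empty.2 h3, Set.ncard_empty]
      omega
    · simpa [Part.wk] using h2
  | R k a =>
    obtain ⟨y, u, v, w, hx, hy, hw, hk, hv, hf⟩ := hst
    obtain ⟨h2, h3⟩ := bc_gl hx hy hw hf
    rw [hk] at h2
    refine ⟨?_, Or.inr ?_⟩
    · rw [Set.sdiff_eq_empty.2 h3, Set.ncard_empty]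
      omega
    · simpa [Part.wk] using h2

private theorem bc_wk (s : Stp) (w : List Stp) : Part.wk (s :: w) = Part.wk [s] + Part.wk w := by
  unfold Part.wk
  rw [List.map_cons, List.sum_cons, List.map_cons, List.sum_cons, List.map_nil, List.sum_nil, add_zero]

private theorem bc_exn {D : Type} [Finite D] {nb : Part D → Option D} {Z Z' : Part D} : ∀ (w : List Stp) (Y : Part D) (y z' : D),
    Part.BR nb Y y w Z' z' → (Z'.B \ Z.B).ncard ≤ (Y.B \ Z.B).ncard + 2 * w.length := by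
  intro w
  induction w with
  | nil =>
    intro Y y z' hr
    obtain ⟨rfl, rfl⟩ := hr
    omega
  | cons s w ih =>
    intro Y y z' hr
    obtain ⟨d, Z₁, z₁, hb, hd, hz, hst, hr⟩ := hr
    have h1 := ih Z₁ z₁ z' hr
    have h2 := (bc_st hst).1
    have h3 : Z₁.B \ Z.B ⊆ (Z₁.B \ Y.B) ∪ (Y.B \ Z.B) := by
      rintro e ⟨he, he'⟩
      by_cases h : e ∈ Y.B
      · exact Or.inr ⟨h, he'⟩
      · exact Or.inl ⟨he, h⟩
    have h4 := (Set.ncard_le_ncard h3 (Set.toFinite _)).trans (Set.ncard_union_le _ _)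
    rw [List.length_cons]
    omega

theorem exn_le (h : OH Z p F) {w : List Stp} {z' : Fin (6 * n)} (hE : Part.BR (B.nxt Z f) Z f w Z' z') : Part.exn Z Z' ≤ 2 * w.length := by
  have h1 := bc_exn (Z := Z) w Z f z' hE
  rw [Set.sdiff_self, Set.ncard_empty, zero_add] at h1
  exact h1

private theorem bc_sub3 {D : Type} [Finite D] {Z Y Y₁ : Part D} :
    (Z.B \ Y₁.B).ncard ≤ (Z.B \ Y.B).ncard + (Z.B ∩ (Y.B \ Y₁.B)).ncard := by
  have h3 : Z.B \ Y₁.B ⊆ (Z.B \ Y.B) ∪ (Z.B ∩ (Y.B \ Y₁.B)) := by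
    rintro e ⟨he, he'⟩
    by_cases h : e ∈ Y.B
    · exact Or.inr ⟨he, h, he'⟩
    · exact Or.inl ⟨he, h⟩
  exact (Set.ncard_le_ncard h3 (Set.toFinite _)).trans (Set.ncard_union_le _ _)

private theorem bc_tail (hB : BOk B x W v γ ε₁) (hf : f ∈ Z.B) : ∀ (w : List Stp) (Y : Part (Fin (6 * n))) (y z' : Fin (6 * n))
    (u : List Stp), u ≠ [] → Part.BR (B.nxt Z f) Z f u Y y → Part.BR (B.nxt Z f) Y y w Z' z' →
      (Z.B \ Z'.B).ncard ≤ (Z.B \ Y.B).ncard + Part.wk w := by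
  intro w
  induction w with
  | nil =>
    intro Y y z' u hu hru hr
    obtain ⟨rfl, rfl⟩ := hr
    omega
  | cons s w ih =>
    intro Y y z' u hu hru hr
    obtain ⟨d, Z₁, z₁, hb, hd, hz, hst, hr⟩ := hr
    have h1 := ih Z₁ z₁ z' (u ++ [s]) (by simp) (bc_snoc hru hb hd hz hst) hr
    have hdR := (hB.new Z Y f y d u hf hru (bc_ne hru hu) hb).2
    have h2 := bc_sub3 (Z := Z) (Y := Y) (Y₁ := Z₁)
    have h3 : (Z.B ∩ (Y.B \ Z₁.B)).ncard ≤ Part.wk [s] := by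
      rcases (bc_st hst).2 with h4 | h4
      · have h5 : Z.B ∩ (Y.B \ Z₁.B) = ∅ := by
          rw [Set.eq_empty_iff_forall_notMem]
          rintro e ⟨he, he'⟩
          have h6 : e = d := h4 he'
          rw [h6] at he
          exact hdR he.1
        rw [h5, Set.ncard_empty]
        exact Nat.zero_le _
      · exact (Set.ncard_le_ncard Set.inter_subset_right (Set.toFinite _)).trans h4
    rw [bc_wk]
    omega

theorem kb_le (hB : BOk B x W v γ ε₁) (h : OH Z p F) (hf : f ∈ Z.B) {w : List Stp} {z' : Fin (6 * n)} (hE : Part.BR (B.nxt Z f) Z f w Z' z') :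
    (Z.B \ Z'.B).ncard ≤ Part.wk w + 1 := by
  cases w with
  | nil =>
    obtain ⟨rfl, rfl⟩ := hE
    rw [Set.sdiff_self, Set.ncard_empty]
    exact Nat.zero_le _
  | cons s w =>
    obtain ⟨d, Z₁, z₁, hb, hd, hz, hst, hr⟩ := hE
    have h1 := bc_tail hB hf w Z₁ z₁ z' [s] (by simp) ⟨d, Z₁, z₁, hb, hd, hz, hst, rfl, rfl⟩ hr
    have h2 : (Z.B \ Z₁.B).ncard ≤ Part.wk [s] + 1 := by
      rcases (bc_st hst).2 with h4 | h4
      · have := Set.ncard_le_ncard h4 (Set.toFinite _)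
        rw [Set.ncard_singleton] at this
        omega
      · omega
    rw [bc_wk]
    omega

private theorem bc_num : ∀ (w : List Stp) (p : ℕ), wend p w ≤ p + w.length ∧ p ≤ wend p w + Part.wk w := by
  intro w
  induction w with
  | nil =>
    intro p
    rw [wend_nil]
    simp [Part.wk]
  | cons s w ih =>
    intro p
    rw [wend_cons, List.length_cons, bc_wk]
    obtain ⟨h1, h2⟩ := ih (s.nx p)
    have h3 : s.nx p ≤ p + 1 ∧ p ≤ s.nx p + Part.wk [s] := by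
      cases s with
      | T => simp [Stp.nx, Part.wk]
      | L k a =>
        show p - (k + 2) ≤ p + 1 ∧ p ≤ p - (k + 2) + Part.wk [.L k a]
        have : Part.wk [Stp.L k a] = k + 2 := by simp [Part.wk]
        omega
      | R k a =>
        show p - (k + 2) ≤ p + 1 ∧ p ≤ p - (k + 2) + Part.wk [.R k a]
        have : Part.wk [Stp.R k a] = k + 2 := by simp [Part.wk]
        omega
    omega

private theorem bc_vol : ∀ (w : List Stp) (p : ℕ), wend p w ≤ p + wvol w := by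
  intro w
  induction w with
  | nil => exact fun p => Nat.le_add_right _ _
  | cons s w ih =>
    intro p
    rw [wend_cons, wvol_cons]
    have h1 := ih (s.nx p)
    have h2 : s.nx p ≤ p + s.vol := by
      cases s with
      | T => exact le_rfl
      | L k a => exact (Nat.sub_le _ _).trans (Nat.le_add_right _ _)
      | R k a => exact (Nat.sub_le _ _).trans (Nat.le_add_right _ _)
    omega

private theorem bc_oh (h : OH Z p F) {nb : Part (Fin (6 * n)) → Option (Fin (6 * n))} {w : List Stp} {z' : Fin (6 * n)}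
    (hE : Part.BR nb Z f w Z' z') : ∃ F', F' + wvol w = F ∧ OH Z' (wend p w) F' := by
  cases w with
  | nil =>
    obtain ⟨rfl, rfl⟩ := hE
    exact ⟨F, rfl, h⟩
  | cons s w =>
    obtain ⟨d, Z₁, z₁, hb, hd, hz, hst, hr⟩ := hE
    have hE' : Part.BR nb Z d (s :: w) Z' z' :=
      ⟨d, Z₁, z₁, hb, hd, Equiv.Perm.SameCycle.refl _ _, hst, hr⟩
    obtain ⟨-, F', h1, h2⟩ := Part.br_typ (oh_typ h hd) hE'
    exact ⟨F', h1, z', h2⟩

theorem xi_le (h : OH Z p F) {w : List Stp} {z' : Fin (6 * n)} (hE : Part.BR (B.nxt Z f) Z f w Z' z') :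
    0 ≤ xi Z Z' ∧ xi Z Z' ≤ w.length + Part.wk w + wvol w := by
  obtain ⟨F', h1, h2⟩ := bc_oh h hE
  obtain ⟨a1, a2, -⟩ := oh_pz h
  obtain ⟨a3, a4, -⟩ := oh_pz h2
  obtain ⟨b1, b2⟩ := bc_num w p
  have c1 : (wend p w : ℝ) ≤ p + w.length := by exact_mod_cast b1
  have c2 : (p : ℝ) ≤ wend p w + Part.wk w := by exact_mod_cast b2
  have c3 : (F' : ℝ) + wvol w = F := by exact_mod_cast h1
  have c4 : (0 : ℝ) ≤ (w.length : ℝ) := Nat.cast_nonneg _
  have c5 : (0 : ℝ) ≤ (Part.wk w : ℝ) := Nat.cast_nonneg _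
  have c6 : (0 : ℝ) ≤ (wvol w : ℝ) := Nat.cast_nonneg _
  unfold xi
  rw [a1, a2, a3, a4]
  constructor
  · have := abs_nonneg ((wend p w : ℝ) - p)
    linarith
  · have : |(wend p w : ℝ) - p| ≤ w.length + Part.wk w := abs_le.2 ⟨by linarith, by linarith⟩
    linarith

theorem nwt_WZ (hx : 0 < x) (h : OH Z p F) {w : List Stp} {z' : Fin (6 * n)} (hf : f ∈ Z.B) (hE : Part.BR (B.nxt Z f) Z f w Z' z') :
    WZ x Z * Part.nwt x F w = WZ x Z' := by
  obtain ⟨F', h1, h2⟩ := bc_oh h hE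
  obtain ⟨a1, a2, -⟩ := oh_pz h
  obtain ⟨a3, a4, -⟩ := oh_pz h2
  have hr := Part.br_rchg (h := []) hE
  have hf' := (Part.rb_rul (B.nxt Z f) [] Z f hf).1
  have hT := oh_typ h hf'
  have k1 := Part.nwt_cl hx (Part.rb_rul _) hT hr
  have k2 := Part.rchg_par (Part.rb_rul _) hT hr
  have k3 := bc_vol w p
  have hy : 0 < yy x := yy_pos x
  have hs : 0 < √(yy x) := Real.sqrt_pos.2 hy
  have hs2 : √(yy x) ^ 2 = yy x := Real.sq_sqrt hy.le
  have hfac : (((3 * F').factorial : ℕ) : ℝ) * (((3 * F).descFactorial (3 * wvol w) : ℕ) : ℝ) = ((3 * F).factorial : ℕ) := by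
    have k4 := Nat.factorial_mul_descFactorial (n := 3 * F) (k := 3 * wvol w) (by omega)
    have k5 : 3 * F - 3 * wvol w = 3 * F' := by omega
    rw [k5] at k4
    exact_mod_cast k4
  have hpow : √(yy x) ^ (F + p) = √(yy x) ^ (F' + wend p w) * yy x ^ ((wvol w + p - wend p w) / 2) := by
    rw [← hs2, ← pow_mul, hs2, ← pow_add]
    congr 1
    rw [Nat.even_iff] at k2
    omega
  unfold WZ Nm
  rw [a1, a2, a3, a4, hpow, ← hfac]
  have hne1 : √(yy x) ^ (F' + wend p w) ≠ 0 := (pow_pos hs _).ne'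
  have hne2 : yy x ^ ((wvol w + p - wend p w) / 2) ≠ 0 := (pow_pos hy _).ne'
  calc (((3 * F').factorial : ℕ) : ℝ) * (((3 * F).descFactorial (3 * wvol w) : ℕ) : ℝ) * AA x ^ p /
        (√(yy x) ^ (F' + wend p w) * yy x ^ ((wvol w + p - wend p w) / 2)) * Part.nwt x F w =
      (((3 * F').factorial : ℕ) : ℝ) * (Part.nwt x F w * AA x ^ p * (((3 * F).descFactorial (3 * wvol w) : ℕ) : ℝ)) /
        (√(yy x) ^ (F' + wend p w) * yy x ^ ((wvol w + p - wend p w) / 2)) := by ring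
    _ = (((3 * F').factorial : ℕ) : ℝ) * (AA x ^ wend p w * yy x ^ ((wvol w + p - wend p w) / 2)) /
        (√(yy x) ^ (F' + wend p w) * yy x ^ ((wvol w + p - wend p w) / 2)) := by rw [k1]
    _ = _ := by rw [← mul_assoc, mul_div_mul_right _ _ hne2]

private theorem bc_WZ (x : ℝ) (Z : Part (Fin (6 * n))) : 0 ≤ WZ x Z := by
  have hA : 0 ≤ AA x := by
    have := AA_gt x
    linarith
  unfold WZ Nm
  positivity

private theorem bc_ls (x : ℝ) (b : ℕ) {γ ε₁ : ℝ} (hB : BOk B x W v γ ε₁) (h : OH Z p F) (hf : f ∈ Z.B) : ∀ (k : ℕ)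
    (Y : Part (Fin (6 * n))) (y : Fin (6 * n)) (u : List Stp), Part.BR (B.nxt Z f) Z f u Y y → u.length + k = B.K →
      ∃ Q : Finset (List Stp × Part (Fin (6 * n)) × Fin (6 * n)),
        (∀ q ∈ Q, Part.BR (B.nxt Z f) Y y q.1 q.2.1 q.2.2 ∧ B.nxt Z f q.2.1 = none) ∧
        ∀ Φ : Part (Fin (6 * n)) → ℝ, (∀ Y, 0 ≤ Φ Y) →
          LS b (fun Z' _ => WZ x Z' * Φ Z') (blkS B Z f k Y) Y ≤ ∑ q ∈ Q, WZ x q.2.1 * Φ q.2.1 := by
  intro k
  induction k with
  | zero =>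
    intro Y y u hr hu
    have hn := bc_end hB h hf hr (by omega)
    refine ⟨{([], Y, y)}, ?_, fun Φ _ => ?_⟩
    · intro q hq
      rw [Finset.mem_singleton] at hq
      subst hq
      exact ⟨⟨rfl, rfl⟩, hn⟩
    · rw [Finset.sum_singleton]
      exact le_rfl
  | succ k ih =>
    intro Y y u hr hu
    rcases hd : B.nxt Z f Y with _ | d
    · refine ⟨{([], Y, y)}, ?_, fun Φ _ => ?_⟩
      · intro q hq
        rw [Finset.mem_singleton] at hq
        subst hq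
        exact ⟨⟨rfl, rfl⟩, hd⟩
      · rw [bc_none hd, Finset.sum_singleton]
        exact le_rfl
    · obtain ⟨h1, h2⟩ := bc_gate hB h hf hr hd
      have key : ∀ Z₁ : Part (Fin (6 * n)), ∃ (s : Stp) (z₁ : Fin (6 * n)) (Q : Finset (List Stp × Part (Fin (6 * n)) × Fin (6 * n))),
          SS b Y d Z₁ → Y.St d s Z₁ z₁ ∧ (∀ q ∈ Q, Part.BR (B.nxt Z f) Z₁ z₁ q.1 q.2.1 q.2.2 ∧ B.nxt Z f q.2.1 = none) ∧
            ∀ Φ : Part (Fin (6 * n)) → ℝ, (∀ Y, 0 ≤ Φ Y) →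
              LS b (fun Z' _ => WZ x Z' * Φ Z') (blkS B Z f k Z₁) Z₁ ≤ ∑ q ∈ Q, WZ x q.2.1 * Φ q.2.1 := by
        intro Z₁
        by_cases hS : SS b Y d Z₁
        · obtain ⟨s, z₁, hst, hsm⟩ := id hS
          obtain ⟨Q, hQ1, hQ2⟩ := ih Z₁ z₁ (u ++ [s]) (bc_snoc hr hd h1 h2 hst)
            (by rw [List.length_append, List.length_singleton]; omega)
          exact ⟨s, z₁, Q, fun _ => ⟨hst, hQ1, hQ2⟩⟩
        · exact ⟨.T, d, ∅, fun h' => absurd h' hS⟩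
      choose s z₁ Q hQ using key
      set I : Finset (Part (Fin (6 * n))) := Finset.univ.filter fun Z₁ => SS b Y d Z₁ with hI
      set g : (Σ _ : Part (Fin (6 * n)), List Stp × Part (Fin (6 * n)) × Fin (6 * n)) →
          List Stp × Part (Fin (6 * n)) × Fin (6 * n) := fun a => (s a.1 :: a.2.1, a.2.2.1, a.2.2.2) with hg
      have hinj : Set.InjOn g (I.sigma Q : Finset _) := by
        rintro ⟨Z₁, w₁, X₁, x₁⟩ ha ⟨Z₂, w₂, X₂, x₂⟩ ha' hgg
        rw [Finset.mem_coe, Finset.mem_sigma] at ha ha'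
        obtain ⟨hZ₁, hq₁⟩ := ha
        obtain ⟨hZ₂, hq₂⟩ := ha'
        have hS₁ : SS b Y d Z₁ := (Finset.mem_filter.1 hZ₁).2
        have hS₂ : SS b Y d Z₂ := (Finset.mem_filter.1 hZ₂).2
        have e1 : s Z₁ :: w₁ = s Z₂ :: w₂ := congrArg Prod.fst hgg
        have e2 : X₁ = X₂ := congrArg (fun q => q.2.1) hgg
        have e3 : x₁ = x₂ := congrArg (fun q => q.2.2) hgg
        rw [List.cons_eq_cons] at e1
        obtain ⟨e4, e5⟩ := e1
        subst e2 e3 e5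
        have b1 := Part.br_sub ((hQ Z₁ hS₁).2.1 _ hq₁).1
        have b2 := Part.br_sub ((hQ Z₂ hS₂).2.1 _ hq₂).1
        have st1 := (hQ Z₁ hS₁).1
        have st2 := (hQ Z₂ hS₂).1
        rw [← e4] at st2
        obtain ⟨e6, -⟩ := Part.st_unique st1 st2 b1 b2
        subst e6
        rfl
      refine ⟨(I.sigma Q).image g, ?_, fun Φ hΦ => ?_⟩
      · intro q hq
        obtain ⟨⟨Z₁, q'⟩, ha, rfl⟩ := Finset.mem_image.1 hq
        obtain ⟨hZ₁, hq₁⟩ := Finset.mem_sigma.1 ha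
        have hS₁ : SS b Y d Z₁ := (Finset.mem_filter.1 hZ₁).2
        obtain ⟨c1, c2, -⟩ := hQ Z₁ hS₁
        obtain ⟨c3, c4⟩ := c2 q' hq₁
        exact ⟨⟨d, Z₁, z₁ Z₁, hd, h1, h2, c1, c3⟩, c4⟩
      · rw [Finset.sum_image hinj, Finset.sum_sigma, bc_some hd h1]
        show ∑ Z₁ : Part (Fin (6 * n)), (if SS b Y d Z₁ then
          LS b (fun Z' _ => WZ x Z' * Φ Z') (blkS B Z f k Z₁) Z₁ else 0) ≤ _
        rw [← Finset.sum_filter]
        refine Finset.sum_le_sum fun Z₁ hZ₁ => ?_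
        exact (hQ Z₁ (Finset.mem_filter.1 hZ₁).2).2.2 Φ hΦ

theorem blk_ls (hx : 0 < x) (hB : BOk B x W v γ ε₁) (h : OH Z p F) (hf : f ∈ Z.B)
    (Q₀ : Finset (List Stp × Part (Fin (6 * n)) × Fin (6 * n))) (hQ₀ : ∀ q ∈ Q₀, Part.BEnd (B.nxt Z f) Z f q) :
    ∃ Q : Finset (List Stp × Part (Fin (6 * n)) × Fin (6 * n)), Q₀ ⊆ Q ∧ (∀ q ∈ Q, Part.BEnd (B.nxt Z f) Z f q) ∧
      ∀ Φ : Part (Fin (6 * n)) → ℝ, (∀ Y, 0 ≤ Φ Y) →
        LS b (fun Z' _ => WZ x Z' * Φ Z') (blkS B Z f B.K Z) Z ≤ WZ x Z * ∑ q ∈ Q, Part.nwt x F q.1 * Φ q.2.1 := by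
  obtain ⟨Q₁, hQ₁, h1⟩ := bc_ls x b hB h hf B.K Z f [] ⟨rfl, rfl⟩ (by simp)
  have hQ₁' : ∀ q ∈ Q₁, Part.BEnd (B.nxt Z f) Z f q := fun q hq => hQ₁ q hq
  refine ⟨Q₁ ∪ Q₀, Finset.subset_union_right, ?_, fun Φ hΦ => ?_⟩
  · intro q hq
    rcases Finset.mem_union.1 hq with hq | hq
    · exact hQ₁' q hq
    · exact hQ₀ q hq
  · refine (h1 Φ hΦ).trans ?_
    rw [Finset.mul_sum]
    have h2 : ∑ q ∈ Q₁, WZ x q.2.1 * Φ q.2.1 = ∑ q ∈ Q₁, WZ x Z * (Part.nwt x F q.1 * Φ q.2.1) := by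
      refine Finset.sum_congr rfl fun q hq => ?_
      rw [← nwt_WZ hx h hf (hQ₁ q hq).1]
      ring
    rw [h2]
    refine Finset.sum_le_sum_of_subset_of_nonneg Finset.subset_union_left fun q _ _ => ?_
    exact mul_nonneg (bc_WZ x Z) (mul_nonneg (Part.nwt_nonneg hx F q.1) (hΦ _))

end SYS.GW
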