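import Pool.Agent.SYS.GW.WordS

/-!
# SYSS-GRW-NodeD: the run of a successful node stays deep in its territory
-/

namespace SYS.GW

open Classical SST SYS.Num Str

variable {n b W v μ m κ : ℕ} {x γ ε₁ : ℝ} {B : CH.Blk} {T : Tri (Fin (6 * n))} {Z' : Part (Fin (6 * n))} {nd : Nd (Fin (6 * n))}

/-! ### positions -/

private theorem ndd_hw (h : NdOk W μ m nd) : nd.Z.hw nd.o = (List.range (pz nd.Z)).map nd.ps := by
  obtain ⟨p, F, hO⟩ := h.oh
  have h1 := (oh_typ hO h.o).per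
  have h2 : nd.Z.per nd.o = p := by simpa using h1
  rw [(oh_pz hO).1, ← h2]
  rfl

private theorem ndd_take (h : NdOk W μ m nd) {e : Fin (6 * n)} {k : ℕ} (he : e ∈ (nd.Z.hw nd.o).take k) :
    ∃ i, i < k ∧ i < pz nd.Z ∧ e = nd.ps i := by
  rw [ndd_hw h] at he
  obtain ⟨i, hi, rfl⟩ := List.mem_take_iff_getElem.1 he
  rw [List.length_map, List.length_range] at hi
  refine ⟨i, by omega, by omega, ?_⟩
  rw [List.getElem_map, List.getElem_range]

private theorem ndd_drop (h : NdOk W μ m nd) {e : Fin (6 * n)} {k : ℕ} (he : e ∈ (nd.Z.hw nd.o).drop k) :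
    ∃ i, k ≤ i ∧ i < pz nd.Z ∧ e = nd.ps i := by
  rw [ndd_hw h] at he
  obtain ⟨i, hi, rfl⟩ := List.mem_drop_iff_getElem.1 he
  rw [List.length_map, List.length_range] at hi
  refine ⟨k + i, by omega, by omega, ?_⟩
  rw [List.getElem_map, List.getElem_range]

private theorem ndd_len (h : NdOk W μ m nd) : nd.arc.length = pz nd.Z - nd.c := by
  unfold Nd.arc
  rw [List.length_drop, ndd_hw h, List.length_map, List.length_range]

/-- left margin and right margin -/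
private noncomputable def Lm (μ : ℕ) (nd : Nd (Fin (6 * n))) : List (Fin (6 * n)) := nd.arc.take μ
private noncomputable def Rm (μ : ℕ) (nd : Nd (Fin (6 * n))) : List (Fin (6 * n)) := nd.arc.drop (nd.arc.length - μ)

private theorem ndd_cor (h : NdOk W μ m nd) {e : Fin (6 * n)} (he : e ∈ nd.cor) : ∃ i, i < nd.c ∧ i < pz nd.Z ∧ e = nd.ps i :=
  ndd_take h he

private theorem ndd_Lm (h : NdOk W μ m nd) {e : Fin (6 * n)} (he : e ∈ Lm μ nd) :
    ∃ i, i < nd.c + μ ∧ i < pz nd.Z ∧ e = nd.ps i := by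
  unfold Lm Nd.arc at he
  rw [List.take_drop] at he
  exact ndd_take h (List.mem_of_mem_drop he)

private theorem ndd_Rm (h : NdOk W μ m nd) {e : Fin (6 * n)} (he : e ∈ Rm μ nd) :
    ∃ i, pz nd.Z ≤ i + μ ∧ i < pz nd.Z ∧ e = nd.ps i := by
  unfold Rm at he
  have hl := ndd_len h
  unfold Nd.arc at he hl
  rw [List.drop_drop] at he
  obtain ⟨i, h1, h2, h3⟩ := ndd_drop h he
  exact ⟨i, by omega, h2, h3⟩

/-- positions in the middle -/
private theorem ndd_mid (h : NdOk W μ m nd) {i : ℕ} (h1 : nd.c + μ ≤ i) (h2 : i + μ < pz nd.Z) :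
    nd.ps i ∉ nd.cor ∧ nd.ps i ∉ Lm μ nd ∧ nd.ps i ∉ Rm μ nd := by
  refine ⟨fun he => ?_, fun he => ?_, fun he => ?_⟩
  · obtain ⟨j, h3, h4, h5⟩ := ndd_cor h he
    have h6 := nd_inj h (by omega) h4 h5
    omega
  · obtain ⟨j, h3, h4, h5⟩ := ndd_Lm h he
    have h6 := nd_inj h (by omega) h4 h5
    omega
  · obtain ⟨j, h3, h4, h5⟩ := ndd_Rm h he
    have h6 := nd_inj h (by omega) h4 h5
    omega

private theorem ndd_psB (h : NdOk W μ m nd) (i : ℕ) : nd.ps i ∈ nd.Z.B := (Part.nx_pow_same nd.Z h.o i).1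

/-- the margins are old darts -/
private theorem ndd_old (h : NdOk W μ m nd) {e : Fin (6 * n)} (he : e ∈ nd.cor ∨ e ∈ Lm μ nd ∨ e ∈ Rm μ nd) :
    e ∈ nd.Z.R := by
  rcases he with he | he | he
  · obtain ⟨i, -, -, rfl⟩ := ndd_cor h he
    exact (ndd_psB h i).1
  · obtain ⟨i, -, -, rfl⟩ := ndd_Lm h he
    exact (ndd_psB h i).1
  · obtain ⟨i, -, -, rfl⟩ := ndd_Rm h he
    exact (ndd_psB h i).1

/-! ### the invariant -/

private structure Iv (nd : Nd (Fin (6 * n))) (μ a : ℕ) (l r : List (Fin (6 * n))) (V : Part (Fin (6 * n))) : Prop where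
  o : nd.o ∈ V.B
  sub : nd.Z.Sub V
  oh : ∃ p F, OH V p F
  w : ∃ s, V.hw nd.o = nd.cor ++ (l ++ s ++ r) ∧ ∀ e ∈ s, e ∉ Lm μ nd ∧ e ∉ Rm μ nd
  hl : l <+: Lm μ nd
  hr : r <:+ Rm μ nd
  al : μ ≤ l.length + a
  ar : μ ≤ r.length + a

private theorem ndd_same {V : Part (Fin (6 * n))} {p F : ℕ} (h : OH V p F) {d e : Fin (6 * n)} (hd : d ∈ V.B) (he : e ∈ V.B) :
    V.s.SameCycle d e := by
  obtain ⟨e', he', h1⟩ := (oh_typ h hd).hl.2.2 e he
  rw [List.mem_singleton] at he'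
  rw [← he']
  exact h1

private theorem ndd_mem {V : Part (Fin (6 * n))} {p F : ℕ} (h : OH V p F) {o d : Fin (6 * n)} (ho : o ∈ V.B) :
    d ∈ V.hw o ↔ d ∈ V.B := by
  rw [Part.mem_hw V ho]
  exact ⟨fun h1 => h1.1, fun h1 => ⟨h1, ndd_same h ho h1⟩⟩

/-- a boundary dart which is not in the margins is in the middle part -/
private theorem ndd_in {a : ℕ} {l r : List (Fin (6 * n))} {V : Part (Fin (6 * n))} (hI : Iv nd μ a l r V) {d : Fin (6 * n)}
    (hd : d ∈ V.B) (h1 : d ∉ nd.cor) (h2 : d ∉ Lm μ nd) (h3 : d ∉ Rm μ nd) :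
    ∃ s₁ s₂, V.hw nd.o = nd.cor ++ (l ++ (s₁ ++ d :: s₂) ++ r) ∧ ∀ e, e ∈ s₁ ∨ e ∈ s₂ → e ∉ Lm μ nd ∧ e ∉ Rm μ nd := by
  obtain ⟨p, F, hO⟩ := hI.oh
  obtain ⟨s, hw, hs⟩ := hI.w
  have h4 := (ndd_mem hO hI.o).2 hd
  rw [hw, List.mem_append, List.mem_append, List.mem_append] at h4
  have h5 : d ∈ s := by
    rcases h4 with h4 | (h4 | h4) | h4
    · exact absurd h4 h1
    · exact absurd (hI.hl.subset h4) h2
    · exact h4
    · exact absurd (hI.hr.subset h4) h3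
  obtain ⟨s₁, s₂, rfl⟩ := List.append_of_mem h5
  refine ⟨s₁, s₂, hw, fun e he => hs e ?_⟩
  rw [List.mem_append, List.mem_cons]
  tauto

private theorem ndd_cor_ne (h : NdOk W μ m nd) (hc : 1 ≤ nd.c) : nd.cor ≠ [] := by
  obtain ⟨u, hu⟩ := nd.Z.hw_cons h.o
  unfold Nd.cor
  rw [hu]
  obtain ⟨c, hc'⟩ : ∃ c, nd.c = c + 1 := ⟨nd.c - 1, by omega⟩
  rw [hc', List.take_succ_cons]
  exact List.cons_ne_nil _ _

/-- one step -/
private theorem ndd_step (h : NdOk W μ m nd) (hc : 1 ≤ nd.c) {a : ℕ} {l r : List (Fin (6 * n))} {V V' : Part (Fin (6 * n))}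
    (hI : Iv nd μ a l r V) (ha : a + (b + 2) ≤ μ) {d : Fin (6 * n)}
    (hd : d ∈ V.B) (h1 : d ∉ nd.cor) (h2 : d ∉ Lm μ nd) (h3 : d ∉ Rm μ nd) (hs : SS b V d V') :
    Dp b nd V d V' ∧ ∃ l' r', l' <+: l ∧ r' <:+ r ∧ Iv nd μ (a + b) l' r' V' := by
  obtain ⟨p, F, hO⟩ := hI.oh
  obtain ⟨s₁, s₂, hw, hm⟩ := ndd_in hI hd h1 h2 h3
  have hal := hI.al
  have har := hI.ar
  obtain ⟨ho, l', s', r', hw', hl', hr', h4, h5, h6⟩ :=
    step_marg hO hI.o (ndd_cor_ne h hc) hw (by omega) (by omega) hs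
  refine ⟨⟨hI.o, l ++ s₁, s₂ ++ r, ?_, ?_, ?_⟩, l', r', hl', hr', ?_⟩
  · rw [hw]
    simp
  · rw [List.length_append]
    omega
  · rw [List.length_append]
    omega
  · obtain ⟨p', F', hO', -, -, -, hsub, -⟩ := ss_oh hO hs
    refine ⟨ho, Part.sub_trans hI.sub hsub, ⟨p', F', hO'⟩, ⟨s', hw', fun e he => ?_⟩, hl'.trans hI.hl, hr'.trans hI.hr,
      by omega, by omega⟩
    rcases h6 e he with h7 | h7 | h7
    · exact hm e (Or.inl h7)
    · exact hm e (Or.inr h7)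
    · exact ⟨fun h8 => h7 (hI.sub.R_sub (ndd_old h (Or.inr (Or.inl h8)))),
        fun h8 => h7 (hI.sub.R_sub (ndd_old h (Or.inr (Or.inr h8))))⟩

/-! ### blocks -/

private theorem nb_none {D : Type} [Finite D] {B : CH.Blk} {S Y : Part D} {f : D} {k : ℕ} (hn : B.nxt S f Y = none) :
    blkS B S f k Y = .ret Y := by
  cases k with
  | zero => rfl
  | succ k => simp only [blkS, hn]

private theorem nb_some {D : Type} [Finite D] {B : CH.Blk} {S Y : Part D} {f d : D} {k : ℕ} (hn : B.nxt S f Y = some d)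
    (hd : d ∈ Y.B) : blkS B S f (k + 1) Y = .peel d (fun Z' => blkS B S f k Z') := by
  simp only [blkS, hn, if_pos hd]

private theorem nb_ne {D : Type} [Finite D] {nb : Part D → Option D} {Z Y : Part D} {z y : D} {w : List Stp}
    (hr : Part.BR nb Z z w Y y) (hw : w ≠ []) : Y ≠ Z := by
  cases w with
  | nil => exact absurd rfl hw
  | cons s w =>
    obtain ⟨d, Z₁, z₁, hb, hd, hz, hst, hr⟩ := hr
    obtain ⟨h1, h2⟩ := Part.st_strict hst
    intro h
    have h3 := (Part.br_sub hr).2 d h2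
    rw [h, h1] at h3
    exact h2 h3.symm

private theorem nb_snoc {D : Type} [Finite D] {nb : Part D → Option D} {Z Y Z₁ : Part D} {z y d z₁ : D} {u : List Stp} {s : Stp}
    (hr : Part.BR nb Z z u Y y) (hb : nb Y = some d) (hd : d ∈ Y.B) (hy : Y.s.SameCycle y d) (hst : Y.St d s Z₁ z₁) :
    Part.BR nb Z z (u ++ [s]) Z₁ z₁ :=
  Part.br_append.2 ⟨Y, y, hr, d, Z₁, z₁, hb, hd, hy, hst, rfl, rfl⟩

/-- the gates of a block -/
private theorem nb_gate (hB : BOk B x W v γ ε₁) {S : Part (Fin (6 * n))} {f : Fin (6 * n)} {p F : ℕ} (h : OH S p F) (hf : f ∈ S.B)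
    {Y : Part (Fin (6 * n))} {y d : Fin (6 * n)}
    {u : List Stp} (hr : Part.BR (B.nxt S f) S f u Y y) (hd : B.nxt S f Y = some d) :
    d ∈ Y.B ∧ Y.s.SameCycle y d ∧ (d = f ∨ d ∉ S.R) := by
  obtain ⟨-, F', -, hY⟩ := Part.br_typ (oh_typ h hf) hr
  have hdB : d ∈ Y.B ∧ (d = f ∨ d ∉ S.R) := by
    by_cases hu : u = []
    · subst hu
      obtain ⟨rfl, rfl⟩ := hr
      rw [hB.st _ _ hf] at hd
      obtain rfl := Option.some.inj hd
      exact ⟨hf, Or.inl rfl⟩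
    · have h1 := hB.new S Y f y d u hf hr (nb_ne hr hu) hd
      exact ⟨h1.1, Or.inr h1.2⟩
  refine ⟨hdB.1, ?_, hdB.2⟩
  obtain ⟨e, he, h1⟩ := hY.hl.2.2 d hdB.1
  rw [List.mem_singleton] at he
  subst he
  exact h1

private theorem nb_deep (hB : BOk B x W v γ ε₁) (h : NdOk W μ m nd) (hc : 1 ≤ nd.c) {S : Part (Fin (6 * n))} {f : Fin (6 * n)}
    {p F a : ℕ} {l₀ r₀ : List (Fin (6 * n))} (hO : OH S p F) (hf : f ∈ S.B) (hS : nd.Z.Sub S) (h1 : f ∉ nd.cor) (h2 : f ∉ Lm μ nd)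
    (h3 : f ∉ Rm μ nd) (ha : a + B.K * b + (b + 2) ≤ μ) {Z₁ Z₂ : Part (Fin (6 * n))} :
    ∀ (k : ℕ) (Y : Part (Fin (6 * n))) (y : Fin (6 * n)) (u : List Stp) (l r : List (Fin (6 * n))),
      Part.BR (B.nxt S f) S f u Y y → u.length + k = B.K → l <+: l₀ → r <:+ r₀ → Iv nd μ (a + u.length * b) l r Y →
      Run b T (blkS B S f k Y) Y Z₁ Z₂ → RunP b T (Dp b nd) (blkS B S f k Y) Y Z₁ Z₂ ∧
        ∃ l' r', l' <+: l₀ ∧ r' <:+ r₀ ∧ Iv nd μ (a + B.K * b) l' r' Z₂ := by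
  intro k
  have hmono : ∀ {Y : Part (Fin (6 * n))} {u : List Stp} {l r : List (Fin (6 * n))}, u.length ≤ B.K →
      Iv nd μ (a + u.length * b) l r Y → Iv nd μ (a + B.K * b) l r Y := by
    intro Y u l r hu hI
    have h4 := Nat.mul_le_mul_right b hu
    exact ⟨hI.o, hI.sub, hI.oh, hI.w, hI.hl, hI.hr, by have := hI.al; omega, by have := hI.ar; omega⟩
  induction k with
  | zero =>
    intro Y y u l r hr hu hl hr' hI hR
    obtain ⟨e1, e2⟩ : Z₁ = Y ∧ Z₂ = Y := hR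
    subst e1
    subst e2
    exact ⟨⟨rfl, rfl⟩, l, r, hl, hr', hmono (by omega) hI⟩
  | succ k ih =>
    intro Y y u l r hr hu hl hr' hI hR
    rcases hd : B.nxt S f Y with _ | d
    · rw [nb_none hd] at hR ⊢
      obtain ⟨e1, e2⟩ : Z₁ = Y ∧ Z₂ = Y := hR
      subst e1
      subst e2
      exact ⟨⟨rfl, rfl⟩, l, r, hl, hr', hmono (by omega) hI⟩
    · obtain ⟨g1, g2, g3⟩ := nb_gate hB hO hf hr hd
      rw [nb_some hd g1] at hR ⊢
      obtain ⟨Y₁, hs, hin, hR'⟩ := hR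
      have hold : ∀ e : Fin (6 * n), e ∉ S.R → e ∉ nd.cor ∧ e ∉ Lm μ nd ∧ e ∉ Rm μ nd := by
        intro e he
        exact ⟨fun h8 => he (hS.R_sub (ndd_old h (Or.inl h8))),
          fun h8 => he (hS.R_sub (ndd_old h (Or.inr (Or.inl h8)))),
          fun h8 => he (hS.R_sub (ndd_old h (Or.inr (Or.inr h8))))⟩
      have hdm : d ∉ nd.cor ∧ d ∉ Lm μ nd ∧ d ∉ Rm μ nd := by
        rcases g3 with rfl | g3
        · exact ⟨h1, h2, h3⟩
        · exact hold d g3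
      have hub : u.length * b ≤ B.K * b := Nat.mul_le_mul_right b (by omega)
      obtain ⟨hD, l', r', hl1, hr1, hI'⟩ := ndd_step (b := b) h hc hI (by omega) g1 hdm.1 hdm.2.1 hdm.2.2 hs
      obtain ⟨s, z₁, hst, hsm⟩ := hs
      have hu1 : (u ++ [s]).length = u.length + 1 := by
        rw [List.length_append, List.length_singleton]
      have he : a + u.length * b + b = a + (u ++ [s]).length * b := by
        rw [hu1]
        ring
      rw [he] at hI'
      obtain ⟨hP, hE⟩ := ih Y₁ z₁ (u ++ [s]) l' r' (nb_snoc hr hd g1 g2 hst) (by omega) (hl1.trans hl) (hr1.trans hr') hI' hR'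
      exact ⟨⟨Y₁, ⟨s, z₁, hst, hsm⟩, hin, hD, hP⟩, hE⟩

/-! ### the end of a block -/

private theorem nb_cardP {D : Type} [Finite D] {l' l : List D} (hl : l' <+: l) (hn : l.Nodup) {A : Set D}
    (hA : ∀ e ∈ l, e ∉ l' → e ∈ A) : l.length ≤ l'.length + A.ncard := by
  obtain ⟨t, rfl⟩ := hl
  rw [List.nodup_append] at hn
  obtain ⟨n1, n2, n3⟩ := hn
  rw [List.length_append, ← List.toFinset_card_of_nodup n2, ← Set.ncard_coe_finset]
  refine Nat.add_le_add_left (Set.ncard_le_ncard ?_ (Set.toFinite _)) _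
  intro e he
  have he' : e ∈ t := by
    rw [Finset.mem_coe, List.mem_toFinset] at he
    exact he
  exact hA e (List.mem_append_right _ he') fun h => n3 e h e he' rfl

private theorem nb_cardS {D : Type} [Finite D] {l' l : List D} (hl : l' <:+ l) (hn : l.Nodup) {A : Set D}
    (hA : ∀ e ∈ l, e ∉ l' → e ∈ A) : l.length ≤ l'.length + A.ncard := by
  obtain ⟨t, rfl⟩ := hl
  rw [List.nodup_append] at hn
  obtain ⟨n1, n2, n3⟩ := hn
  rw [List.length_append, ← List.toFinset_card_of_nodup n1, ← Set.ncard_coe_finset, add_comm]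
  refine Nat.add_le_add_left (Set.ncard_le_ncard ?_ (Set.toFinite _)) _
  intro e he
  have he' : e ∈ t := by
    rw [Finset.mem_coe, List.mem_toFinset] at he
    exact he
  exact hA e (List.mem_append_left _ he') fun h => n3 e he' e h rfl

/-- the darts of the margins which are lost are absorbed -/
private theorem nb_lost {a a' : ℕ} {l r l' r' : List (Fin (6 * n))} {S S' : Part (Fin (6 * n))} (hI : Iv nd μ a l r S)
    (hI' : Iv nd μ a' l' r' S') (hl : l' <+: l) (hr : r' <:+ r) :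
    (∀ e ∈ l, e ∉ l' → e ∈ S.B \ S'.B) ∧ (∀ e ∈ r, e ∉ r' → e ∈ S.B \ S'.B) ∧ l.Nodup ∧ r.Nodup := by
  obtain ⟨p, F, hO⟩ := hI.oh
  obtain ⟨p', F', hO'⟩ := hI'.oh
  obtain ⟨s, hw, hs⟩ := hI.w
  obtain ⟨s', hw', hs'⟩ := hI'.w
  have hn := S.hw_nodup hI.o
  rw [hw, List.nodup_append, List.nodup_append, List.nodup_append] at hn
  obtain ⟨n1, ⟨⟨n2, n3, n4⟩, n5, n6⟩, n7⟩ := hn
  refine ⟨fun e he he' => ⟨?_, fun hB => ?_⟩, fun e he he' => ⟨?_, fun hB => ?_⟩, n2, n5⟩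
  · rw [← ndd_mem hO hI.o, hw]
    simp [he]
  · rw [← ndd_mem hO' hI'.o, hw', List.mem_append, List.mem_append, List.mem_append] at hB
    rcases hB with h1 | (h1 | h1) | h1
    · exact n7 e h1 e (by simp [he]) rfl
    · exact he' h1
    · exact (hs' e h1).1 (hI.hl.subset he)
    · exact n6 e (by simp [he]) e (hr.subset h1) rfl
  · rw [← ndd_mem hO hI.o, hw]
    simp [he]
  · rw [← ndd_mem hO' hI'.o, hw', List.mem_append, List.mem_append, List.mem_append] at hB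
    rcases hB with h1 | (h1 | h1) | h1
    · exact n7 e h1 e (by simp [he]) rfl
    · exact n6 e (by simp [hl.subset h1]) e he rfl
    · exact (hs' e h1).2 (hI.hr.subset he)
    · exact he' h1

/-- the number κ is monotone -/
private theorem nb_kap (Z₀ : Part (Fin (6 * n))) {r : Part (Fin (6 * n)) × ℕ × ℕ × ℕ} (G : List (Fin (6 * n))) :
    ∀ (Z Y : Part (Fin (6 * n))) (X k N : ℕ), Lf b (nodeS B W v Z₀ G Z X k N) Y r Z' → k ≤ r.2.2.1 := by
  induction G with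
  | nil =>
    rintro Z Y X k N ⟨rfl, -⟩
    exact le_rfl
  | cons f G ih =>
    intro Z Y X k N hL
    rw [nodeS] at hL
    split_ifs at hL with hF
    · obtain ⟨a, Z₁, hL1, hL2⟩ := lf_bind.1 hL
      exact (Nat.le_add_right _ _).trans (ih _ _ _ _ _ hL2)
    · exact ih Z Y X k N hL

private theorem nb_zero {D : Type} [Finite D] (S : Part D) (x : D) : S.bs x 0 = x := by
  show (S.nx ^ (0 : ℤ)) x = x
  rw [zpow_zero]
  rfl

private theorem nb_node (hB : BOk B x W v γ ε₁) (h : NdOk W μ m nd) (hc : 1 ≤ nd.c) (hμ : κ + (B.K + 1) * (b + 3) ≤ μ)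
    {rr : Part (Fin (6 * n)) × ℕ × ℕ × ℕ} (hκ : rr.2.2.1 ≤ κ) (g₂ : List ℕ) :
    ∀ (Z : Part (Fin (6 * n))) (X k N : ℕ) (l r : List (Fin (6 * n))), (∀ i ∈ g₂, i ∈ nd.g) → Iv nd μ k l r Z →
      Run b T (nodeS B W v nd.Z (g₂.map nd.ps) Z X k N) Z rr Z' →
      RunP b T (Dp b nd) (nodeS B W v nd.Z (g₂.map nd.ps) Z X k N) Z rr Z' ∧ ∃ a l r, Iv nd μ a l r Z' := by
  induction g₂ with
  | nil =>
    intro Z X k N l r hg hI hR
    rw [List.map_nil] at hR ⊢
    refine ⟨hR, ?_⟩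
    obtain ⟨h1, h2⟩ := hR
    rw [h2]
    exact ⟨k, l, r, hI⟩
  | cons i g₂ ih =>
    intro Z X k N l r hg hI hR
    have hi : i ∈ nd.g := hg i List.mem_cons_self
    have hk := (nb_kap (b := b) nd.Z ((i :: g₂).map nd.ps) Z Z X k N (run_lf hR)).trans hκ
    rw [List.map_cons, nodeS] at hR ⊢
    split_ifs at hR ⊢ with hF
    · obtain ⟨a, Z₁, hR1, hR2⟩ := run_bind.1 hR
      obtain ⟨p, F, hO⟩ := hI.oh
      have hfB : nd.ps i ∈ Z.B := by
        have h1 := hF 0 (by rw [abs_zero]; omega)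
        rw [nb_zero] at h1
        exact h1
      obtain ⟨h1, w, z', h2, -, -⟩ := blk_lf hB hO hfB (run_lf hR1)
      subst h1
      obtain ⟨q1, q2, q3, q4⟩ := nd_gate h hi (j := 0) (by rw [abs_zero]; omega)
      have q5 : ((i : ℤ) + 0).toNat = i := by omega
      rw [q5] at q3 q4
      obtain ⟨m1, m2, m3⟩ := ndd_mid h q3 q4
      have hKb : (B.K + 1) * (b + 3) = B.K * b + (3 * B.K + b + 3) := by ring
      obtain ⟨hP, l', r', hl', hr', hI'⟩ := nb_deep (b := b) hB h hc (a := k) (l₀ := l) (r₀ := r) hO hfB hI.sub m1 m2 m3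
        (by omega) B.K Z (nd.ps i) [] l r ⟨rfl, rfl⟩ (by simp) (List.prefix_refl l) (List.suffix_refl r) (by simpa using hI) hR1
      obtain ⟨t1, t2, t3, t4⟩ := nb_lost hI hI' hl' hr'
      -- the number of lost darts
      have hlost : l.length ≤ l'.length + kb B W v Z (nd.ps i) Z₁ ∧ r.length ≤ r'.length + kb B W v Z (nd.ps i) Z₁ := by
        by_cases hG : GE B W v Z (nd.ps i) Z₁
        · have hab : ∀ e ∈ Z.B \ Z₁.B, e ∉ Lm μ nd ∧ e ∉ Rm μ nd := by
            rintro e ⟨he, he1⟩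
            obtain ⟨j, hj, hej⟩ := ge_abs hB hO hfB hG he he1
            rw [bs_out (K := W + 1) hI.sub (ndd_psB h i) (fun j hj => hF j (by exact_mod_cast hj))
              (hj.trans (by push_cast; omega))] at hej
            obtain ⟨u1, u2, u3, u4⟩ := nd_gate h hi (j := j) (hj.trans (by omega))
            rw [hej, u1]
            exact (ndd_mid h u3 u4).2
          have hk0 : kb B W v Z (nd.ps i) Z₁ = (∅ : Set (Fin (6 * n))).ncard := by
            rw [Set.ncard_empty]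
            exact if_pos hG
          rw [hk0]
          exact ⟨nb_cardP hl' t3 fun e he he' => absurd (hI.hl.subset he) (hab e (t1 e he he')).1,
            nb_cardS hr' t4 fun e he he' => absurd (hI.hr.subset he) (hab e (t2 e he he')).2⟩
        · have hk1 : kb B W v Z (nd.ps i) Z₁ = (Z.B \ Z₁.B).ncard := if_neg hG
          rw [hk1]
          exact ⟨nb_cardP hl' t3 t1, nb_cardS hr' t4 t2⟩
      have hI2 : Iv nd μ (k + kb B W v Z (nd.ps i) Z₁) l' r' Z₁ := by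
        refine ⟨hI'.o, hI'.sub, hI'.oh, hI'.w, hI'.hl, hI'.hr, ?_, ?_⟩
        · have h3 := hI.al
          have h4 := hlost.1
          omega
        · have h3 := hI.ar
          have h4 := hlost.2
          omega
      obtain ⟨hP2, hE⟩ := ih Z₁ _ _ _ l' r' (fun i' hi' => hg i' (List.mem_cons_of_mem _ hi')) hI2 hR2
      exact ⟨runP_bind.2 ⟨Z₁, Z₁, hP, hP2⟩, hE⟩
    · exact ih Z X k N l r (fun i' hi' => hg i' (List.mem_cons_of_mem _ hi')) hI hR

/-- the invariant at the start -/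
private theorem nb_start (h : NdOk W μ m nd) (hg : nd.g ≠ []) : Iv nd μ 0 (Lm μ nd) (Rm μ nd) nd.Z := by
  obtain ⟨i, hi⟩ := List.exists_mem_of_ne_nil _ hg
  have h1 := h.pos i hi
  have h2 := ndd_len h
  have h3 : (Lm μ nd).length = μ := by
    unfold Lm
    rw [List.length_take]
    omega
  have h4 : (Rm μ nd).length = μ := by
    unfold Rm
    rw [List.length_drop]
    omega
  have h5 : nd.arc = Lm μ nd ++ (nd.arc.drop μ).take (nd.arc.length - μ - μ) ++ Rm μ nd := by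
    unfold Lm Rm
    have h6 : nd.arc.drop (nd.arc.length - μ) = (nd.arc.drop μ).drop (nd.arc.length - μ - μ) := by
      rw [List.drop_drop]
      congr 1
      omega
    rw [h6, List.append_assoc, List.take_append_drop, List.take_append_drop]
  refine ⟨h.o, Part.sub_refl _, h.oh, ⟨(nd.arc.drop μ).take (nd.arc.length - μ - μ), ?_, ?_⟩, List.prefix_refl _,
    List.suffix_refl _, by omega, by omega⟩
  · rw [← h5]
    exact (List.take_append_drop nd.c _).symm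
  · intro e he
    have hn := nd.Z.hw_nodup h.o
    have h7 : nd.Z.hw nd.o = nd.cor ++ nd.arc := (List.take_append_drop nd.c _).symm
    rw [h7, h5, List.nodup_append, List.nodup_append, List.nodup_append] at hn
    obtain ⟨n1, ⟨⟨n2, n3, n4⟩, n5, n6⟩, n7⟩ := hn
    exact ⟨fun h8 => n4 e h8 e he rfl, fun h8 => n6 e (List.mem_append_right _ he) e h8 rfl⟩

theorem node_deep (hB : BOk B x W v γ ε₁) (h : NdOk W μ m nd) (hc : 1 ≤ nd.c) (hμ : κ + (B.K + 1) * (b + 3) ≤ μ)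
    {r : Part (Fin (6 * n)) × ℕ × ℕ × ℕ} (hκ : r.2.2.1 ≤ κ) (hT : In T nd.Z) (hR : Run b T (nodeS B W v nd.Z nd.gts nd.Z 0 0 0) nd.Z r Z') :
    RunP b T (Dp b nd) (nodeS B W v nd.Z nd.gts nd.Z 0 0 0) nd.Z r Z' ∧ nd.o ∈ Z'.B ∧ ∃ t, Z'.hw nd.o = nd.cor ++ t := by
  by_cases hg : nd.g = []
  · have h1 : nd.gts = [] := by
      unfold Nd.gts
      rw [hg, List.map_nil]
    rw [h1] at hR ⊢
    refine ⟨hR, ?_⟩
    obtain ⟨-, rfl⟩ := hR
    exact ⟨h.o, nd.arc, (List.take_append_drop nd.c _).symm⟩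
  · obtain ⟨h1, a, l, r', hI⟩ := nb_node hB h hc hμ hκ nd.g nd.Z 0 0 0 _ _ (fun i hi => hi) (nb_start h hg) hR
    obtain ⟨s, hw, -⟩ := hI.w
    exact ⟨h1, hI.o, _, hw⟩

end SYS.GW
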