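import Pool.Agent.SYS.GW.GrpD
import Pool.Agent.SYS.GW.NodeD

/-!
# SYSS-GRW-BrA: runs of branches, success
-/

namespace SYS.GW

open Classical SST SYS.Num Str

variable {n b g W v K R k i : ℕ} {x γ ε₁ γ₂ ε₂ : ℝ} {B : CH.Blk} {T : Tri (Fin (6 * n))} {Z' : Part (Fin (6 * n))} {nd nd' nd'' : Nd (Fin (6 * n))}
  {P : Lev} {u u' : List ℕ} {m μ : ℕ}

private theorem bra_adr0 {a : ℕ} (hu : Adr P i (a :: u)) : a < P.b i := by
  have h := hu 0 (Nat.succ_pos _)
  exact h

private theorem bra_adr1 {a : ℕ} (hu : Adr P i (a :: u)) : Adr P (i + 1) u := by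
  intro j hj
  have h := hu (j + 1) (Nat.succ_lt_succ hj)
  have h1 : i + 1 + j = i + (j + 1) := by omega
  rw [h1]
  exact h

private theorem bra_blk {D : Type} [Finite D] (B : CH.Blk) (S : Part D) (f : D) (k : ℕ) (Y : Part D) : (blkS B S f k Y).Dep k := by
  induction k generalizing Y with
  | zero => exact trivial
  | succ k ih =>
    rw [blkS]
    split
    · exact trivial
    · split_ifs
      · exact ⟨k, rfl, fun Z => ih Z⟩
      · exact trivial

private theorem bra_node {D : Type} [Finite D] (B : CH.Blk) (W v : ℕ) (Z₀ : Part D) (G : List D) (Z : Part D) (X κ N : ℕ) :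
    (nodeS B W v Z₀ G Z X κ N).Dep (G.length * B.K) := by
  induction G generalizing Z X κ N with
  | nil => exact trivial
  | cons f G ih =>
    have h1 : (f :: G).length * B.K = B.K + G.length * B.K := by
      rw [List.length_cons]
      ring
    rw [nodeS, h1]
    split_ifs
    · exact dep_bind (bra_blk B Z f B.K Z) fun Z' => ih Z' _ _ _
    · exact dep_mono (ih Z X κ N) (Nat.le_add_left _ _)

/-- The child, or the default value. -/
private theorem bra_chd {D : Type} [Finite D] (P : Lev) (W i : ℕ) (nd : Nd D) (Z' : Part D) {a : ℕ} (ha : a < P.b i) :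
    (P.ch W i nd Z' a).Z = Z' ∧ (NdOk W (P.μ (i + 1)) (P.m (i + 1)) (P.ch W i nd Z' a) ∨ (P.ch W i nd Z' a).g = []) := by
  unfold Lev.ch chd
  split_ifs with h
  · exact ⟨h.choose_spec.Z a ha, Or.inl (h.choose_spec.ok a ha)⟩
  · exact ⟨rfl, Or.inr rfl⟩

private theorem bra_dep {D : Type} [Finite D] (B : CH.Blk) (W v : ℕ) (P : Lev) (u : List ℕ) : ∀ (i : ℕ) (nd : Nd D), Adr P i u →
    nd.g.length ≤ P.m i → (brS B W v P i u nd).Dep (∑ j ∈ Finset.range u.length, P.m (i + j) * B.K) := by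
  induction u with
  | nil => exact fun i nd _ _ => trivial
  | cons a u ih =>
    intro i nd hu hl
    have h0 : ∑ j ∈ Finset.range (a :: u).length, P.m (i + j) * B.K =
        P.m i * B.K + ∑ j ∈ Finset.range u.length, P.m (i + 1 + j) * B.K := by
      rw [List.length_cons, Finset.sum_range_succ', Nat.add_zero]
      rw [Nat.add_comm (P.m i * B.K)]
      congr 1
      refine Finset.sum_congr rfl fun j _ => ?_
      have h2 : i + (j + 1) = i + 1 + j := by omega
      rw [h2]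
    rw [brS, h0]
    refine dep_bind (dep_mono (bra_node B W v nd.Z nd.gts nd.Z 0 0 0) ?_) fun r => ?_
    · unfold Nd.gts
      rw [List.length_map]
      exact Nat.mul_le_mul_right _ hl
    · obtain ⟨-, h2⟩ := bra_chd P W i nd r.1 (bra_adr0 hu)
      refine ih (i + 1) _ (bra_adr1 hu) ?_
      rcases h2 with h2 | h2
      · exact h2.len.le
      · rw [h2]
        exact Nat.zero_le _

/-- The run of a node with gates, or without gates. -/
private theorem bra_any (hB : BOk B x W v γ ε₁) (h : NdOk W μ m nd ∨ (nd.g = [] ∧ ∃ p F, OH nd.Z p F)) :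
    Gat b (nodeS B W v nd.Z nd.gts nd.Z 0 0 0) nd.Z ∧ ∀ r Z', Lf b (nodeS B W v nd.Z nd.gts nd.Z 0 0 0) nd.Z r Z' →
      r.1 = Z' ∧ ∃ p F, OH Z' p F := by
  rcases h with h | ⟨h, hO⟩
  · obtain ⟨h1, h2⟩ := node_gat (b := b) hB h
    obtain ⟨p, F, hO⟩ := h.oh
    refine ⟨h1, fun r Z' hL => ⟨(node_geo hB h hL).1, ?_⟩⟩
    obtain ⟨p', F', h3, -⟩ := lf_oh hO h2 hL
    exact ⟨p', F', h3⟩
  · have h1 : nd.gts = [] := by
      unfold Nd.gts
      rw [h, List.map_nil]
    rw [h1, nodeS]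
    refine ⟨trivial, fun r Z' hL => ?_⟩
    obtain ⟨rfl, rfl⟩ := hL
    exact ⟨rfl, hO⟩

theorem node_ch (hB : BOk B x W v γ ε₁) (hP : LevOk P W B.K b γ₂ ε₂ R k) (hi : i < R + k) (h : NdOk W (P.μ i) (P.m i) nd)
    {r : Part (Fin (6 * n)) × ℕ × ℕ × ℕ} (hR : Run b T (nodeS B W v nd.Z nd.gts nd.Z 0 0 0) nd.Z r Z') (hF : ¬ Fai γ₂ ε₂ (P.m i) r) :
    r.1 = Z' ∧ ChOk W (P.μ (i + 1)) (P.m (i + 1)) (P.b i) nd Z' (P.ch W i nd Z') := by
  have hL := run_lf hR
  obtain ⟨h1, -, -, h2⟩ := node_geo hB h hL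
  obtain ⟨p, F, hO⟩ := h.oh
  obtain ⟨p', F', h3, -, -, -, h4⟩ := lf_oh hO (node_gat (b := b) hB h).2 hL
  refine ⟨h1, ?_⟩
  unfold Fai at hF
  push Not at hF
  have h5 := hP.size i hi
  have h6 : ((r.2.1 : ℕ) : ℝ) ≤ ((r.2.2.1 + (Z'.B \ nd.Z.B).ncard : ℕ) : ℝ) := Nat.cast_le.2 h2
  rw [Nat.cast_add] at h6
  have h7 : ((P.b i * (P.m (i + 1) * (2 * W + 3) + 2 * (P.μ (i + 1) + W + 2) + 2) + 2 : ℕ) : ℝ) ≤
      (((Z'.B \ nd.Z.B).ncard : ℕ) : ℝ) := by
    refine h5.trans ?_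
    have h8 := hF.1
    linarith
  have h9 := Nat.cast_le.1 h7
  unfold Lev.ch
  exact chd_ok h h3 h4 (by omega)

theorem br_gat (hB : BOk B x W v γ ε₁) (u : List ℕ) (i : ℕ) (hu : Adr P i u) (h : NdOk W (P.μ i) (P.m i) nd ∨ (nd.g = [] ∧ ∃ p F, OH nd.Z p F)) :
    Gat b (brS B W v P i u nd) nd.Z ∧ (brS B W v P i u nd).Dep (∑ j ∈ Finset.range u.length, P.m (i + j) * B.K) ∧
      ∀ nd' Z', Lf b (brS B W v P i u nd) nd.Z nd' Z' → nd'.Z = Z' ∧ (NdOk W (P.μ (i + u.length)) (P.m (i + u.length)) nd' ∨ nd'.g = []) := by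
  have hd : nd.g.length ≤ P.m i := by
    rcases h with h | ⟨h, -⟩
    · exact h.len.le
    · rw [h]
      exact Nat.zero_le _
  have key : Gat b (brS B W v P i u nd) nd.Z ∧
      ∀ nd' Z', Lf b (brS B W v P i u nd) nd.Z nd' Z' → nd'.Z = Z' ∧ (NdOk W (P.μ (i + u.length)) (P.m (i + u.length)) nd' ∨ nd'.g = []) := by
    clear hd
    induction u generalizing i nd with
    | nil =>
      refine ⟨trivial, fun nd' Z' hL => ?_⟩
      obtain ⟨rfl, rfl⟩ := hL
      refine ⟨rfl, ?_⟩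
      rcases h with h | ⟨h, -⟩
      · exact Or.inl h
      · exact Or.inr h
    | cons a u ih =>
      obtain ⟨h1, h2⟩ := bra_any (b := b) hB h
      have hs : ∀ (r : Part (Fin (6 * n)) × ℕ × ℕ × ℕ) (Z' : Part (Fin (6 * n))),
          Lf b (nodeS B W v nd.Z nd.gts nd.Z 0 0 0) nd.Z r Z' →
          Gat b (brS B W v P (i + 1) u (P.ch W i nd r.1 a)) Z' ∧
            ∀ nd' Z'', Lf b (brS B W v P (i + 1) u (P.ch W i nd r.1 a)) Z' nd' Z'' →
              nd'.Z = Z'' ∧ (NdOk W (P.μ (i + 1 + u.length)) (P.m (i + 1 + u.length)) nd' ∨ nd'.g = []) := by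
        intro r Z' hL
        obtain ⟨h3, h4⟩ := h2 r Z' hL
        rw [h3]
        obtain ⟨h5, h6⟩ := bra_chd P W i nd Z' (bra_adr0 hu)
        have h7 := ih (i := i + 1) (nd := P.ch W i nd Z' a) (bra_adr1 hu) (by
          rcases h6 with h6 | h6
          · exact Or.inl h6
          · refine Or.inr ⟨h6, ?_⟩
            rw [h5]
            exact h4)
        rw [h5] at h7
        exact h7
      have he : i + (a :: u).length = i + 1 + u.length := by
        rw [List.length_cons]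
        omega
      rw [he]
      constructor
      · rw [brS]
        exact gat_bind.2 ⟨h1, fun r Z' hL => (hs r Z' hL).1⟩
      · intro nd' Z'' hL
        rw [brS] at hL
        obtain ⟨r, Z', hL1, hL2⟩ := lf_bind.1 hL
        exact (hs r Z' hL1).2 nd' Z'' hL2
  exact ⟨key.1, bra_dep B W v P u i nd hu hd, key.2⟩

theorem suc_app : Suc b T B W v P γ₂ ε₂ i (u ++ u') nd nd'' ↔
    ∃ nd', Suc b T B W v P γ₂ ε₂ i u nd nd' ∧ Suc b T B W v P γ₂ ε₂ (i + u.length) u' nd' nd'' := by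
  induction u generalizing i nd with
  | nil =>
    constructor
    · intro h
      exact ⟨nd, rfl, h⟩
    · rintro ⟨nd', h1, h2⟩
      have h3 : nd' = nd := h1
      subst h3
      exact h2
  | cons a u ih =>
    have he : i + (a :: u).length = i + 1 + u.length := by
      rw [List.length_cons]
      omega
    rw [he]
    constructor
    · rintro ⟨r, Z', h1, h2, h3⟩
      obtain ⟨nd', h4, h5⟩ := ih.1 h3
      exact ⟨nd', ⟨r, Z', h1, h2, h4⟩, h5⟩
    · rintro ⟨nd', ⟨r, Z', h1, h2, h4⟩, h5⟩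
      exact ⟨r, Z', h1, h2, ih.2 ⟨nd', h4, h5⟩⟩

theorem suc_run (hB : BOk B x W v γ ε₁) (hP : LevOk P W B.K b γ₂ ε₂ R k) (hi : i + u.length ≤ R + k) (hu : Adr P i u) (h : NdOk W (P.μ i) (P.m i) nd)
    (hS : Suc b T B W v P γ₂ ε₂ i u nd nd') :
    Run b T (brS B W v P i u nd) nd.Z nd' nd'.Z ∧ NdOk W (P.μ (i + u.length)) (P.m (i + u.length)) nd' ∧ nd.Z.Sub nd'.Z ∧
      (u ≠ [] → ∀ e ∈ nd'.gts, e ∉ nd.Z.R) := by
  induction u generalizing i nd with
  | nil =>
    have h1 : nd' = nd := hS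
    subst h1
    exact ⟨⟨rfl, rfl⟩, h, Part.sub_refl _, fun h2 => absurd rfl h2⟩
  | cons a u ih =>
    obtain ⟨r, Z', hR, hF, hS'⟩ := hS
    have he : i + (a :: u).length = i + 1 + u.length := by
      rw [List.length_cons]
      omega
    rw [he] at hi ⊢
    have ha := bra_adr0 hu
    obtain ⟨h1, h2⟩ := node_ch hB hP (by omega) h hR hF
    obtain ⟨h3, h4, h5, h6⟩ := ih hi (bra_adr1 hu) (h2.ok a ha) hS'
    have h7 := h2.Z a ha
    rw [h7] at h3 h5 h6
    obtain ⟨p, F, hO⟩ := h.oh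
    obtain ⟨-, -, -, -, -, -, h8⟩ := lf_oh hO (node_gat (b := b) hB h).2 (run_lf hR)
    refine ⟨?_, h4, Part.sub_trans h8 h5, fun _ e he' => ?_⟩
    · rw [brS]
      refine run_bind.2 ⟨r, Z', hR, ?_⟩
      rw [h1]
      exact h3
    · by_cases hu0 : u = []
      · subst hu0
        have h9 : nd' = P.ch W i nd Z' a := hS'
        rw [h9] at he'
        exact h2.new a ha e he'
      · intro h9
        exact h6 hu0 e he' (h8.R_sub h9)

/-- In `T` the branch has a bad step, or one of its nodes fails, or it succeeds. -/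
theorem suc_or (hB : BOk B x W v γ ε₁) (hP : LevOk P W B.K b γ₂ ε₂ R k) (hi : i + u.length ≤ R + k) (hu : Adr P i u) (h : NdOk W (P.μ i) (P.m i) nd) :
    Bad b T (brS B W v P i u nd) nd.Z ∨
      (∃ j < u.length, ∃ nd', Suc b T B W v P γ₂ ε₂ i (u.take j) nd nd' ∧
        ∃ r Z', Run b T (nodeS B W v nd'.Z nd'.gts nd'.Z 0 0 0) nd'.Z r Z' ∧ Fai γ₂ ε₂ (P.m (i + j)) r) ∨
      ∃ nd', Suc b T B W v P γ₂ ε₂ i u nd nd' := by
  induction u generalizing i nd with
  | nil => exact Or.inr (Or.inr ⟨nd, rfl⟩)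
  | cons a u ih =>
    have he : i + (a :: u).length = i + 1 + u.length := by
      rw [List.length_cons]
      omega
    rw [he] at hi
    have ha := bra_adr0 hu
    rcases run_or_bad b T (nodeS B W v nd.Z nd.gts nd.Z 0 0 0) nd.Z with h1 | ⟨r, Z', hR⟩
    · refine Or.inl ?_
      rw [brS]
      exact bad_bind.2 (Or.inl h1)
    · by_cases hF : Fai γ₂ ε₂ (P.m i) r
      · refine Or.inr (Or.inl ⟨0, Nat.succ_pos _, nd, rfl, r, Z', hR, hF⟩)
      · obtain ⟨h1, h2⟩ := node_ch hB hP (by omega) h hR hF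
        have h3 := h2.Z a ha
        rcases ih hi (bra_adr1 hu) (h2.ok a ha) with h4 | ⟨j, hj, nd', h4, r', Z'', h5, h6⟩ | ⟨nd', h4⟩
        · refine Or.inl ?_
          rw [h3] at h4
          rw [brS]
          refine bad_bind.2 (Or.inr ⟨r, Z', hR, ?_⟩)
          rw [h1]
          exact h4
        · refine Or.inr (Or.inl ⟨j + 1, Nat.succ_lt_succ hj, nd', ⟨r, Z', hR, hF, h4⟩, r', Z'', h5, ?_⟩)
          have h7 : i + (j + 1) = i + 1 + j := by omega
          rw [h7]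
          exact h6
        · exact Or.inr (Or.inr ⟨nd', r, Z', hR, hF, h4⟩)

end SYS.GW
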