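import Pool.Agent.SYS.GW.BrA

/-!
# SYSS-GRW-BrD: a successful branch stays deep in the territory of its first node
-/

namespace SYS.GW

open Classical SST SYS.Num Str

variable {n b W v R k i : ℕ} {x γ ε₁ γ₂ ε₂ : ℝ} {B : CH.Blk} {T : Tri (Fin (6 * n))} {V V' Z' : Part (Fin (6 * n))} {nd nd' ch : Nd (Fin (6 * n))}
  {P : Lev} {u : List ℕ} {d : Fin (6 * n)} {u₁ u₂ t : List (Fin (6 * n))}

theorem cyc_nest (hc : ch.cor = u₂ ++ nd.cor ++ u₁) (h0 : nd.cor ≠ []) (ho : ∃ c, ch.cor = ch.o :: c) (ho' : ∃ c, nd.cor = nd.o :: c)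
    (hV : ch.o ∈ V.B) (ht : V.hw ch.o = ch.cor ++ t) : nd.o ∈ V.B ∧ V.hw nd.o = nd.cor ++ (u₁ ++ t ++ u₂) := by
  have _ := h0
  have _ := ho
  obtain ⟨c, hc'⟩ := ho'
  have h1 : V.hw ch.o = u₂ ++ nd.o :: (c ++ u₁ ++ t) := by
    rw [ht, hc, hc']
    simp
  have h2 := V.hw_rot hV h1
  have h3 : nd.o ∈ V.hw ch.o := by
    rw [h1]
    exact List.mem_append.2 (Or.inr List.mem_cons_self)
  refine ⟨((V.mem_hw hV).1 h3).1, ?_⟩
  rw [h2, hc']
  simp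

private theorem bd_cor (hB : nd.o ∈ nd.Z.B) (hc : 1 ≤ nd.c) : ∃ c, nd.cor = nd.o :: c := by
  obtain ⟨w, hw⟩ := nd.Z.hw_cons hB
  obtain ⟨m, hm⟩ : ∃ m, nd.c = m + 1 := ⟨nd.c - 1, by omega⟩
  refine ⟨w.take m, ?_⟩
  unfold Nd.cor
  rw [hw, hm, List.take_succ_cons]

private theorem bd_dp (hc : ch.cor = u₂ ++ nd.cor ++ u₁) (h0 : nd.cor ≠ []) (ho : ∃ c, ch.cor = ch.o :: c)
    (ho' : ∃ c, nd.cor = nd.o :: c) (h : Dp b ch V d V') : Dp b nd V d V' := by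
  obtain ⟨h1, t₁, t₂, h2, h3, h4⟩ := h
  obtain ⟨h5, h6⟩ := cyc_nest hc h0 ho ho' h1 h2
  refine ⟨h5, u₁ ++ t₁, t₂ ++ u₂, ?_, ?_, ?_⟩
  · rw [h6]
    simp
  · rw [List.length_append]
    omega
  · rw [List.length_append]
    omega

theorem suc_deep (hB : BOk B x W v γ ε₁) (hP : LevOk P W B.K b γ₂ ε₂ R k) (hi : i + u.length ≤ R + k) (hR : R ≤ i) (hu : Adr P i u)
    (h : NdOk W (P.μ i) (P.m i) nd) (hc : 1 ≤ nd.c) (hT : In T nd.Z) (hS : Suc b T B W v P γ₂ ε₂ i u nd nd') :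
    RunP b T (Dp b nd) (brS B W v P i u nd) nd.Z nd' nd'.Z ∧ nd.o ∈ nd'.Z.B ∧ ∃ t, nd'.Z.hw nd.o = nd.cor ++ t := by
  induction u generalizing i nd with
  | nil =>
    have e : nd' = nd := hS
    subst e
    refine ⟨⟨rfl, rfl⟩, h.o, (nd'.Z.hw nd'.o).drop nd'.c, ?_⟩
    exact (List.take_append_drop nd'.c (nd'.Z.hw nd'.o)).symm
  | cons a u ih =>
    obtain ⟨r, Z', hRun, hF, hSuc⟩ := hS
    rw [List.length_cons] at hi
    have hκ0 : (r.2.2.1 : ℝ) ≤ ε₂ * P.m i := by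
      by_contra hlt
      exact hF (Or.inr (not_le.1 hlt))
    have hκ : r.2.2.1 ≤ ⌊ε₂ * P.m i⌋₊ := Nat.le_floor hκ0
    have hnn : 0 ≤ ε₂ * P.m i := le_trans (Nat.cast_nonneg _) hκ0
    have hμ : ⌊ε₂ * P.m i⌋₊ + (B.K + 1) * (b + 3) ≤ P.μ i := by
      have h1 := hP.marg i (by omega) hR
      have h2 := Nat.floor_le hnn
      have h3 : ((⌊ε₂ * P.m i⌋₊ + (B.K + 1) * (b + 3) : ℕ) : ℝ) ≤ P.μ i := by
        push_cast at h1 ⊢
        linarith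
      exact_mod_cast h3
    obtain ⟨hRP, hoZ, t, ht⟩ := node_deep hB h hc hμ hκ hT hRun
    obtain ⟨hr1, hch⟩ := node_ch hB hP (by omega) h hRun hF
    have ha : a < P.b i := by
      have := hu 0 (by rw [List.length_cons]; omega)
      simpa using this
    have hZ := hch.Z a ha
    have hok := hch.ok a ha
    have hc1 := hch.c1 a ha
    obtain ⟨u₁, u₂, hn1, hn2⟩ := hch.nest a ha t ht hoZ hc
    have hu' : Adr P (i + 1) u := by
      intro j hj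
      have h1 := hu (j + 1) (by rw [List.length_cons]; omega)
      have h2 : i + (j + 1) = i + 1 + j := by omega
      rw [h2] at h1
      simpa using h1
    have hT' : In T (P.ch W i nd Z' a).Z := by
      rw [hZ]
      exact run_in hT hRun
    obtain ⟨h1, h2, t', h3⟩ := ih (i := i + 1) (by omega) (by omega) hu' hok hc1 hT' hSuc
    obtain ⟨c, hcc⟩ := bd_cor h.o hc
    have hcor0 : nd.cor ≠ [] := by
      rw [hcc]
      exact List.cons_ne_nil _ _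
    have hco := bd_cor hok.o hc1
    refine ⟨?_, ?_⟩
    · show RunP b T (Dp b nd) ((nodeS B W v nd.Z nd.gts nd.Z 0 0 0).bind fun r => brS B W v P (i + 1) u (P.ch W i nd r.1 a)) nd.Z nd' nd'.Z
      rw [runP_bind]
      refine ⟨r, Z', hRP, ?_⟩
      have h4 := runP_mono h1 (P' := Dp b nd) fun Y d Y' hD => bd_dp hn2 hcor0 hco ⟨c, hcc⟩ hD
      rw [hZ] at h4
      rw [hr1]
      exact h4
    · obtain ⟨h5, h6⟩ := cyc_nest hn2 hcor0 hco ⟨c, hcc⟩ h2 h3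
      exact ⟨h5, _, h6⟩

end SYS.GW
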