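import Mathlib

/-!
# SYSS-GRW-ChdA: positions and arcs in a list (Mathlib only)

Greedy choice of positions (`pick_pos`), prefixes with a given number of good elements (`cut_arcs`).
-/

namespace SYS.GW

open Classical

theorem pick_pos {s : ℕ} (hs : 1 ≤ s) (m : ℕ) (I : Finset ℕ) (h : m * s ≤ I.card) :
    ∃ g : List ℕ, g.length = m ∧ (∀ i ∈ g, i ∈ I) ∧ g.Pairwise fun i j => i + s ≤ j := by
  induction m generalizing I with
  | zero => exact ⟨[], rfl, fun i hi => absurd hi (by simp), List.Pairwise.nil⟩
  | succ m ih =>
    have hne : I.Nonempty := by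
      rw [← Finset.card_pos]
      have : s ≤ (m + 1) * s := Nat.le_mul_of_pos_left s (by omega)
      omega
    have h1 : (I.filter fun j => ¬ I.min' hne + s ≤ j).card ≤ s := by
      have h2 : (I.filter fun j => ¬ I.min' hne + s ≤ j) ⊆ Finset.Ico (I.min' hne) (I.min' hne + s) := by
        intro j hj
        rw [Finset.mem_filter] at hj
        rw [Finset.mem_Ico]
        exact ⟨I.min'_le j hj.1, by omega⟩
      have h3 := Finset.card_le_card h2
      rw [Nat.card_Ico] at h3
      omega
    have h4 : (I.filter fun j => I.min' hne + s ≤ j).card + (I.filter fun j => ¬ I.min' hne + s ≤ j).card = I.card :=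
      Finset.card_filter_add_card_filter_not _
    obtain ⟨g, hg1, hg2, hg3⟩ := ih (I.filter fun j => I.min' hne + s ≤ j) (by
      rw [Nat.succ_mul] at h
      omega)
    refine ⟨I.min' hne :: g, by rw [List.length_cons, hg1], ?_, ?_⟩
    · intro i hi
      rcases List.mem_cons.1 hi with h5 | h5
      · rw [h5]
        exact I.min'_mem hne
      · exact (Finset.mem_filter.1 (hg2 i h5)).1
    · rw [List.pairwise_cons]
      exact ⟨fun j hj => (Finset.mem_filter.1 (hg2 j hj)).2, hg3⟩

/-- the entry number `i` exists and is good -/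
private def Gp {α : Type} (q : α → Prop) (A : List α) (i : ℕ) : Prop := ∃ e, A[i]? = some e ∧ q e

private theorem card_pos_countP {α : Type} (q : α → Prop) (A : List α) :
    ((Finset.range A.length).filter fun i => Gp q A i).card = A.countP fun e => decide (q e) := by
  induction A using List.reverseRecOn with
  | nil => rfl
  | append_singleton l x ih =>
    have h2 : (l ++ [x])[l.length]? = some x := by simp
    have h3 : ∀ i, i < l.length → (Gp q (l ++ [x]) i ↔ Gp q l i) := by
      intro i hi
      unfold Gp
      rw [List.getElem?_append_left hi]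
    have h4 : Gp q (l ++ [x]) l.length ↔ q x := by
      unfold Gp
      rw [h2]
      constructor
      · rintro ⟨e, he, hqe⟩
        rw [Option.some.inj he]
        exact hqe
      · intro hq
        exact ⟨x, rfl, hq⟩
    rw [List.length_append, List.length_singleton, Finset.range_add_one, Finset.filter_insert,
      List.countP_append, List.countP_singleton, ← ih]
    have h5 : (Finset.range l.length).filter (fun i => Gp q (l ++ [x]) i) =
        (Finset.range l.length).filter fun i => Gp q l i := by
      apply Finset.filter_congr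
      intro i hi
      exact h3 i (Finset.mem_range.1 hi)
    rw [h5]
    by_cases hq : q x
    · rw [if_pos (h4.2 hq), if_pos (by simpa using hq), Finset.card_insert_of_notMem (by simp)]
    · rw [if_neg fun h6 => hq (h4.1 h6), if_neg (by simpa using hq), add_zero]

theorem arc_pos {α : Type} (q : α → Prop) (A : List α) {m s r : ℕ} (hs : 1 ≤ s) (h : m * s + 2 * r ≤ A.countP fun e => decide (q e)) :
    ∃ g : List ℕ, g.length = m ∧ (g.Pairwise fun i j => i + s ≤ j) ∧
      ∀ i ∈ g, r ≤ i ∧ i + r < A.length ∧ ∃ e, A[i]? = some e ∧ q e := by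
  have h1 : ((Finset.range A.length).filter fun i => Gp q A i) ⊆
      (((Finset.range A.length).filter fun i => r ≤ i ∧ i + r < A.length ∧ Gp q A i) ∪
        Finset.range r) ∪ Finset.Ico (A.length - r) A.length := by
    intro i hi
    rw [Finset.mem_filter, Finset.mem_range] at hi
    rw [Finset.mem_union, Finset.mem_union, Finset.mem_filter, Finset.mem_range, Finset.mem_range, Finset.mem_Ico]
    by_cases h2 : i < r
    · exact Or.inl (Or.inr h2)
    · by_cases h3 : i + r < A.length
      · exact Or.inl (Or.inl ⟨hi.1, by omega, h3, hi.2⟩)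
      · exact Or.inr ⟨by omega, hi.1⟩
  have h2 := Finset.card_le_card h1
  rw [card_pos_countP] at h2
  have h3 := Finset.card_union_le (((Finset.range A.length).filter fun i => r ≤ i ∧ i + r < A.length ∧
    Gp q A i) ∪ Finset.range r) (Finset.Ico (A.length - r) A.length)
  have h4 := Finset.card_union_le ((Finset.range A.length).filter fun i => r ≤ i ∧ i + r < A.length ∧
    Gp q A i) (Finset.range r)
  rw [Nat.card_Ico] at h3
  rw [Finset.card_range] at h4
  obtain ⟨g, hg1, hg2, hg3⟩ := pick_pos hs m ((Finset.range A.length).filter fun i => r ≤ i ∧ i + r < A.length ∧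
    Gp q A i) (by omega)
  exact ⟨g, hg1, hg3, fun i hi => (Finset.mem_filter.1 (hg2 i hi)).2⟩

private theorem cut_one {α : Type} (p : α → Bool) (t : List α) (D : ℕ) (h : D ≤ t.countP p) :
    ∃ A t', t = A ++ t' ∧ A.countP p = D := by
  induction t generalizing D with
  | nil => exact ⟨[], [], rfl, (Nat.le_zero.1 h).symm⟩
  | cons x t ih =>
    rcases D with _ | D
    · exact ⟨[], x :: t, rfl, rfl⟩
    · by_cases hx : p x = true
      · rw [List.countP_cons_of_pos hx] at h
        obtain ⟨A, t', h1, h2⟩ := ih D (by omega)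
        exact ⟨x :: A, t', by rw [h1]; rfl, by rw [List.countP_cons_of_pos hx, h2]⟩
      · rw [List.countP_cons_of_neg hx] at h
        obtain ⟨A, t', h1, h2⟩ := ih (D + 1) h
        exact ⟨x :: A, t', by rw [h1]; rfl, by rw [List.countP_cons_of_neg hx, h2]⟩

/-- a prefix of odd length -/
private theorem cut_odd {α : Type} (p : α → Bool) (A : List α) (D : ℕ) (h : A.countP p = D + 1) :
    ∃ A0 v, A = A0 ++ v ∧ D ≤ A0.countP p ∧ ∃ w, A0.length = 2 * w + 1 := by
  rcases Nat.even_or_odd' A.length with ⟨w, hw | hw⟩
  · rcases List.eq_nil_or_concat' A with h1 | ⟨B, x, h1⟩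
    · rw [h1] at h
      simp at h
    · subst h1
      refine ⟨B, [x], rfl, ?_, w - 1, ?_⟩
      · rw [List.countP_append] at h
        have h2 : List.countP p [x] ≤ 1 := List.countP_le_length
        omega
      · rw [List.length_append, List.length_singleton] at hw
        omega
  · exact ⟨A, [], (List.append_nil A).symm, by omega, w, hw⟩

theorem cut_arcs {α : Type} (q : α → Prop) (D : ℕ) (b : ℕ) (t : List α) (h : b * (D + 1) ≤ t.countP fun e => decide (q e)) :
    ∃ u A u' : ℕ → List α, ∀ j < b, t = u j ++ (A j ++ u' j) ∧ D ≤ ((A j).countP fun e => decide (q e)) ∧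
      (∃ w, (A j).length = 2 * w + 1) ∧ ∀ i < j, ∃ v, u' i = v ++ (A j ++ u' j) := by
  induction b generalizing t with
  | zero => exact ⟨fun _ => [], fun _ => [], fun _ => [], fun j hj => absurd hj (by omega)⟩
  | succ b ih =>
    rw [Nat.succ_mul] at h
    obtain ⟨A', t'', h1, h2⟩ := cut_one (fun e => decide (q e)) t (D + 1) (by omega)
    have h3 : b * (D + 1) ≤ t''.countP fun e => decide (q e) := by
      rw [h1, List.countP_append, h2] at h
      omega
    obtain ⟨u, A, u', hI⟩ := ih t'' h3
    obtain ⟨A0, v0, h4, h5, w, hw⟩ := cut_odd (fun e => decide (q e)) A' D h2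
    refine ⟨fun j => Nat.casesOn j [] fun j => A' ++ u j, fun j => Nat.casesOn j A0 fun j => A j,
      fun j => Nat.casesOn j (v0 ++ t'') fun j => u' j, fun j hj => ?_⟩
    rcases j with _ | j
    · refine ⟨?_, h5, ⟨w, hw⟩, fun i hi => absurd hi (by omega)⟩
      show t = [] ++ (A0 ++ (v0 ++ t''))
      rw [List.nil_append, ← List.append_assoc, ← h4, h1]
    · obtain ⟨g1, g2, g3, g4⟩ := hI j (by omega)
      refine ⟨?_, g2, g3, fun i hi => ?_⟩
      · show t = (A' ++ u j) ++ (A j ++ u' j)
        rw [List.append_assoc, ← g1, h1]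
      · rcases i with _ | i
        · refine ⟨v0 ++ u j, ?_⟩
          show v0 ++ t'' = (v0 ++ u j) ++ (A j ++ u' j)
          rw [List.append_assoc, ← g1]
        · exact g4 i (by omega)

end SYS.GW
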