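import Pool.Agent.SYS.GW.BlkC
import Pool.Agent.SYS.Reg.Loc

/-!
# SYSS-GRW-NodeG: geometry of the run of a node (good blocks stay in their windows)
-/

namespace SYS
namespace Part

open Classical SST

variable {D : Type} [Finite D]

private theorem nx_append' {S : Part D} {x d e : D} (hx : x ∈ S.B) {u v : List D} (hw : S.hw x = u ++ d :: e :: v) :
    S.nx d = e := by
  have h := S.hw_chain hx
  rw [hw] at h
  have h2 := (List.isChain_append.1 h).2.1
  exact (List.isChain_cons_cons.1 h2).1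

private theorem nx_last' {S : Part D} {x d : D} (hx : x ∈ S.B) {u : List D} (hw : S.hw x = u ++ [d]) : S.nx d = x := by
  obtain ⟨w, hw'⟩ := S.hw_cons hx
  have hd : d ∈ S.B := by
    have h1 : d ∈ S.hw x := by rw [hw]; simp
    exact ((S.mem_hw hx).1 h1).1
  rcases u with _ | ⟨a, u⟩
  · have h1 : d = x := by
      rw [hw', List.nil_append] at hw
      exact (List.cons_eq_cons.1 hw).1.symm
    have h2 := S.nx_mem.2 hd
    obtain ⟨h3, h4⟩ := nx_pow_same S hd 1
    rw [pow_one] at h4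
    have h5 : S.nx d ∈ S.hw x := by
      rw [S.mem_hw hx]
      exact ⟨h2, by rw [← h1]; exact h4⟩
    rw [hw] at h5
    have h6 : S.nx d = d := by simpa using h5
    rw [h6, h1]
  · have h1 : a = x := by
      rw [hw', List.cons_append] at hw
      exact (List.cons_eq_cons.1 hw).1.symm
    have h2 := S.hw_rot hx (u := a :: u) (v := []) hw
    rw [List.nil_append, h1] at h2
    exact nx_append' hd (u := []) (v := u) h2

/-- positions in the hole word, from the start -/
private theorem hw_pos {S : Part D} {x : D} {e : D} {u v : List D} (hword : S.hw x = u ++ e :: v) :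
    e = (S.nx ^ u.length) x := by
  have h1 : (S.hw x)[u.length]? = some e := by
    rw [hword, List.getElem?_append_right le_rfl, Nat.sub_self]
    rfl
  unfold hw at h1
  rw [List.getElem?_map] at h1
  obtain ⟨i, h2, h3⟩ := Option.map_eq_some_iff.1 h1
  have h4 := List.getElem?_eq_some_iff.1 h2
  obtain ⟨h5, h6⟩ := h4
  rw [List.getElem_range] at h6
  rw [← h3, ← h6]

/-- positions in the hole word, from the end -/
private theorem hw_neg {S : Part D} {x : D} (hx : x ∈ S.B) (v : List D) : ∀ (e : D) (u : List D), S.hw x = u ++ e :: v →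
    e = (S.nx⁻¹ ^ (v.length + 1)) x := by
  induction v with
  | nil =>
    intro e u hw
    have h1 := nx_last' hx hw
    rw [List.length_nil, zero_add, pow_one, Equiv.Perm.eq_inv_iff_eq]
    exact h1
  | cons f v ih =>
    intro e u hw
    have h1 := nx_append' hx hw
    have h2 := ih f (u ++ [e]) (by rw [hw]; simp)
    rw [List.length_cons, pow_succ', Equiv.Perm.mul_apply, ← h2, Equiv.Perm.eq_inv_iff_eq]
    exact h1

private theorem nw_mono {S S₁ : Part D} {x : D} {K K' : ℕ} (h : K ≤ K') : NW S S₁ x K ⊆ NW S S₁ x K' := by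
  rintro d (hd | ⟨m, hm, rfl⟩)
  · exact Or.inl hd
  · exact Or.inr ⟨m, hm.trans (by exact_mod_cast h), rfl⟩

/-- the successor of an old dart -/
private theorem nx_out {S S₁ : Part D} (hs : S.Sub S₁) {b : D} (hb : b ∈ S.B) (hb1 : b ∈ S₁.B) (hb2 : S.nx b ∈ S₁.B) :
    S₁.nx b = S.nx b := by
  have ha : S₁.a b = b := hb1.2
  have h1 : hv S S₁ b = S.nx b := by
    rw [hv_old hs (sub_B hs hb1) (by rw [ha]; exact hb), ha]
  rw [← nx_hv hs hb1]
  have h2 := ret_eq (hv S S₁) hb1 (j := 0) (by rw [zero_add, pow_one, h1]; exact hb2) (fun i hi => absurd hi (by omega))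
  rw [h2, zero_add, pow_one, h1]

private theorem bs_nx (S : Part D) (x : D) (m : ℤ) : S.nx (S.bs x m) = S.bs x (m + 1) := by
  unfold bs
  rw [← Equiv.Perm.mul_apply, ← zpow_one_add, add_comm]

private theorem in_win {S S₁ : Part D} {x : D} {K : ℕ} {b : D} (hb : b ∈ S.B) (h : b ∈ NW S S₁ x K) :
    ∃ m : ℤ, |m| ≤ K ∧ b = S.bs x m := by
  rcases h with h | h
  · exact absurd hb.1 h.2
  · exact h

private theorem disc_B {G S₂ : Part D} {u : List D} {a : ℕ} (h : G.DiscFill S₂ u a) : S₂.B = G.B \ {d | d ∈ u} := by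
  rcases h with ⟨h1, -, h2⟩ | ⟨-, V, -, hf⟩
  · rw [h2, h1]
    simp
  · exact hf.B

private theorem ne_xy {S : Part D} {x y : D} (hx : x ∈ S.B) {u v : List D} (hw : S.hw x = x :: (u ++ y :: v)) : x ≠ y := by
  have h := S.hw_nodup hx
  rw [hw, List.nodup_cons] at h
  intro h1
  apply h.1
  rw [← h1]
  simp

private theorem spl (L : List D) (i : ℕ) (hi : i < L.length) :
    ∃ u e v, L = u ++ e :: v ∧ u.length = i :=
  ⟨L.take i, L[i], L.drop (i + 1), by rw [List.cons_getElem_drop_succ, List.take_append_drop],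
    by rw [List.length_take]; omega⟩

/-- the darts absorbed by a step R -/
private theorem absR {Z Z₁ : Part D} {d z₁ : D} {k a : ℕ} (h : Z.St d (.R k a) Z₁ z₁) {e : D}
    (he : e ∈ Z.B) : e ∉ Z₁.B ↔ ∃ i ≤ k + 1, e = (Z.nx ^ i) d := by
  obtain ⟨y, u, v, w, hx', hy, hw, hk, hv, hD⟩ := h
  have hB : e ∉ Z₁.B ↔ (e = d ∨ e ∈ u ∨ e = y) := by
    rw [disc_B hD, glue_B Z hx' hy (ne_xy hx' hw)]
    simp only [Set.mem_sdiff, Set.mem_insert_iff, Set.mem_singleton_iff, Set.mem_ofPred_eq]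
    tauto
  rw [hB]
  constructor
  · rintro (h | h | h)
    · exact ⟨0, Nat.zero_le _, by rw [pow_zero]; exact h⟩
    · obtain ⟨u1, u2, hu⟩ := List.append_of_mem h
      refine ⟨(d :: u1).length, ?_, hw_pos (u := d :: u1) (v := u2 ++ y :: v) (by rw [hw, hu]; simp)⟩
      rw [hu, List.length_append, List.length_cons] at hk
      rw [List.length_cons]
      omega
    · refine ⟨k + 1, le_rfl, ?_⟩
      have h1 := hw_pos (u := d :: u) (v := v) (e := y) (by rw [hw]; simp)
      rw [List.length_cons, hk] at h1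
      rw [h, h1]
  · rintro ⟨i, hi, h⟩
    obtain ⟨u1, e', u2, h1, h2⟩ := spl (d :: (u ++ [y])) i (by
      rw [List.length_cons, List.length_append, List.length_singleton]
      omega)
    have h3 : Z.hw d = u1 ++ e' :: (u2 ++ v) := by
      rw [hw]
      have h4 : d :: (u ++ y :: v) = (d :: (u ++ [y])) ++ v := by simp
      rw [h4, h1]
      simp
    have h5 := hw_pos h3
    rw [h2, ← h] at h5
    have h6 : e ∈ d :: (u ++ [y]) := by
      rw [h1, ← h5]
      simp
    simpa using h6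

/-- the darts absorbed by a step L -/
private theorem absL {Z Z₁ : Part D} {d z₁ : D} {k a : ℕ} (h : Z.St d (.L k a) Z₁ z₁) {e : D}
    (he : e ∈ Z.B) : e ∉ Z₁.B ↔ ∃ i ≤ k + 1, e = (Z.nx⁻¹ ^ i) d := by
  obtain ⟨y, u, v, w, hx', hy, hw, hk, hu, hD⟩ := h
  have hB : e ∉ Z₁.B ↔ (e = d ∨ e ∈ y :: v) := by
    rw [disc_B hD, glue_B Z hx' hy (ne_xy hx' hw), List.mem_cons]
    simp only [Set.mem_sdiff, Set.mem_insert_iff, Set.mem_singleton_iff, Set.mem_ofPred_eq]
    tauto
  rw [hB]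
  constructor
  · rintro (h | h)
    · exact ⟨0, Nat.zero_le _, by rw [pow_zero]; exact h⟩
    · obtain ⟨v1, v2, hv⟩ := List.append_of_mem h
      refine ⟨v2.length + 1, ?_, hw_neg hx' v2 e (d :: (u ++ v1)) (by rw [hw, hv]; simp)⟩
      have h1 := congrArg List.length hv
      rw [List.length_cons, List.length_append, List.length_cons] at h1
      omega
  · rintro ⟨i, hi, h⟩
    rcases Nat.eq_zero_or_pos i with h0 | h0
    · left
      rw [h, h0, pow_zero]
      rfl
    · right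
      obtain ⟨v1, e', v2, h1, h2⟩ := spl (y :: v) (k + 1 - i) (by
        rw [List.length_cons]
        omega)
      have h3 : Z.hw d = (d :: (u ++ v1)) ++ e' :: v2 := by
        rw [hw]
        have h4 : d :: (u ++ y :: v) = (d :: u) ++ (y :: v) := by simp
        rw [h4, h1]
        simp
      have h5 := hw_neg hx' v2 e' _ h3
      have h6 := congrArg List.length h1
      rw [List.length_cons, List.length_append, List.length_cons] at h6
      have h7 : v2.length + 1 = i := by omega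
      rw [h7, ← h] at h5
      rw [h1, ← h5]
      simp


end Part
end SYS

namespace SYS.GW

open Classical SST SYS.Num Str

variable {n b p F W v μ m : ℕ} {x γ ε₁ : ℝ} {B : CH.Blk} {Z₀ Z Z' Z'' : Part (Fin (6 * n))} {f : Fin (6 * n)} {nd : Nd (Fin (6 * n))}

private theorem hw_inj {D : Type} [Finite D] (S : Part D) {x : D} (hx : x ∈ S.B) {i j : ℕ} (hi : i < S.per x) (hj : j < S.per x)
    (h : (S.nx ^ i) x = (S.nx ^ j) x) : i = j := by
  have h1 := Part.hw_nodup S hx
  unfold Part.hw at h1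
  exact List.inj_on_of_nodup_map h1 (List.mem_range.2 hi) (List.mem_range.2 hj) h

private theorem bs_zero {D : Type} [Finite D] (S : Part D) (x : D) : S.bs x 0 = x := by
  show (S.nx ^ (0 : ℤ)) x = x
  rw [zpow_zero]
  rfl

theorem bs_out {K : ℕ} (hs : Z₀.Sub Z) (hf : f ∈ Z₀.B) (h : ∀ j : ℤ, |j| ≤ K → Z₀.bs f j ∈ Z.B) {j : ℤ} (hj : |j| ≤ K) : Z.bs f j = Z₀.bs f j := by
  have key : ∀ i : ℕ, i ≤ K → Z.bs f i = Z₀.bs f i ∧ Z.bs f (-(i : ℤ)) = Z₀.bs f (-(i : ℤ)) := by
    intro i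
    induction i with
    | zero =>
      intro _
      simp only [Nat.cast_zero, neg_zero, bs_zero]
      exact ⟨trivial, trivial⟩
    | succ i ih =>
      intro hi
      obtain ⟨h1, h2⟩ := ih (by omega)
      constructor
      · have e1 : ((i + 1 : ℕ) : ℤ) = (i : ℤ) + 1 := by push_cast; ring
        rw [e1, ← Part.bs_nx, ← Part.bs_nx, h1]
        refine Part.nx_out hs (Part.bs_mem hf _) (h _ ?_) ?_
        · rw [abs_of_nonneg (by omega)]
          omega
        · rw [Part.bs_nx]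
          refine h _ ?_
          rw [abs_of_nonneg (by omega)]
          omega
      · have e1 : -((i + 1 : ℕ) : ℤ) + 1 = -(i : ℤ) := by push_cast; ring
        apply Z.nx.injective
        rw [Part.bs_nx, e1, h2, ← e1, ← Part.bs_nx]
        symm
        refine Part.nx_out hs (Part.bs_mem hf _) (h _ ?_) ?_
        · rw [abs_neg, abs_of_nonneg (by omega)]
          omega
        · rw [Part.bs_nx, e1]
          refine h _ ?_
          rw [abs_neg, abs_of_nonneg (by omega)]
          omega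
  rcases le_total 0 j with h0 | h0
  · obtain ⟨i, rfl⟩ := Int.eq_ofNat_of_zero_le h0
    refine (key i ?_).1
    rw [abs_of_nonneg h0] at hj
    exact_mod_cast hj
  · obtain ⟨i, hi⟩ := Int.eq_ofNat_of_zero_le (neg_nonneg.2 h0)
    have h1 : j = -(i : ℤ) := by omega
    rw [h1] at hj ⊢
    refine (key i ?_).2
    rw [abs_neg, abs_of_nonneg (by omega)] at hj
    exact_mod_cast hj

/-- Positions and windows of the gates. -/
theorem nd_gate (h : NdOk W μ m nd) {i : ℕ} (hi : i ∈ nd.g) {j : ℤ} (hj : |j| ≤ W + 1) :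
    nd.Z.bs (nd.ps i) j = nd.ps (i + j).toNat ∧ 0 ≤ i + j ∧ nd.c + μ ≤ (i + j).toNat ∧ (i + j).toNat + μ < pz nd.Z := by
  have h1 := h.pos i hi
  have h2 := abs_le.1 hj
  have h3 : 0 ≤ (i : ℤ) + j := by omega
  refine ⟨?_, h3, by omega, by omega⟩
  unfold Nd.ps Part.bs
  rw [← zpow_natCast nd.Z.nx i, ← zpow_natCast nd.Z.nx (((i : ℤ) + j).toNat), Int.toNat_of_nonneg h3, ← Equiv.Perm.mul_apply, ← zpow_add, add_comm j]

theorem nd_inj (h : NdOk W μ m nd) {i j : ℕ} (hi : i < pz nd.Z) (hj : j < pz nd.Z) (he : nd.ps i = nd.ps j) : i = j := by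
  obtain ⟨p, F, hO⟩ := h.oh
  have h1 := (oh_typ hO h.o).per
  have h2 : nd.Z.per nd.o = p := by simpa using h1
  have h3 := (oh_pz hO).1
  rw [h3, ← h2] at hi hj
  exact hw_inj nd.Z h.o hi hj he

private theorem nd_win (h : NdOk W μ m nd) {i i' : ℕ} (hi : i ∈ nd.g) (hi' : i' ∈ nd.g) {j j' : ℤ} (hj : |j| ≤ W + 1)
    (hj' : |j'| ≤ W + 1) (he : nd.Z.bs (nd.ps i) j = nd.Z.bs (nd.ps i') j') : (i : ℤ) + j = i' + j' := by
  obtain ⟨h1, h2, h3, h4⟩ := nd_gate h hi hj
  obtain ⟨h1', h2', h3', h4'⟩ := nd_gate h hi' hj'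
  rw [h1, h1'] at he
  have h5 := nd_inj h (by omega) (by omega) he
  omega

private theorem nd_gap (h : NdOk W μ m nd) {i i' : ℕ} (hi : i ∈ nd.g) (hi' : i' ∈ nd.g) :
    i = i' ∨ i + (2 * W + 3) ≤ i' ∨ i' + (2 * W + 3) ≤ i := by
  have h1 : nd.g.Pairwise fun i j => i = j ∨ i + (2 * W + 3) ≤ j ∨ j + (2 * W + 3) ≤ i :=
    h.gap.imp fun hab => Or.inr (Or.inl hab)
  have : Std.Symm (fun i j : ℕ => i = j ∨ i + (2 * W + 3) ≤ j ∨ j + (2 * W + 3) ≤ i) :=
    ⟨fun a c hac => by omega⟩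
  exact List.Pairwise.forall_of_forall
    (R := fun i j : ℕ => i = j ∨ i + (2 * W + 3) ≤ j ∨ j + (2 * W + 3) ≤ i) (fun _ _ => Or.inl rfl) h1 hi hi'

private theorem nd_psB (h : NdOk W μ m nd) (i : ℕ) : nd.ps i ∈ nd.Z.B := (Part.nx_pow_same nd.Z h.o i).1

theorem frs_per (h : NdOk W μ m nd) {i : ℕ} (hi : i ∈ nd.g) (hs : nd.Z.Sub Z) (hF : Frs nd.Z W Z (nd.ps i)) : 2 * W + 1 < pz Z := by
  have h1 : ((fun j : ℤ => nd.Z.bs (nd.ps i) j) '' (Finset.Icc (-((W : ℤ) + 1)) ((W : ℤ) + 1) : Finset ℤ)).ncard ≤ Z.B.ncard := by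
    refine Set.ncard_le_ncard ?_ (Set.toFinite _)
    rintro e ⟨j, hj, rfl⟩
    refine hF j ?_
    rw [Finset.mem_coe, Finset.mem_Icc] at hj
    exact abs_le.2 hj
  rw [Set.InjOn.ncard_image, Set.ncard_coe_finset, Int.card_Icc] at h1
  · show 2 * W + 1 < Z.B.ncard
    omega
  · intro j hj j' hj' he
    rw [Finset.mem_coe, Finset.mem_Icc] at hj hj'
    have h2 := nd_win h hi hi (abs_le.2 hj) (abs_le.2 hj') he
    omega

private theorem oh_same (h : OH Z p F) {d e : Fin (6 * n)} (hd : d ∈ Z.B) (he : e ∈ Z.B) : Z.s.SameCycle d e := by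
  obtain ⟨e', he', h1⟩ := (oh_typ h hd).hl.2.2 e he
  rw [List.mem_singleton] at he'
  rw [← he']
  exact h1

private theorem ge_aux (hB : BOk B x W v γ ε₁) (hf : f ∈ Z.B) {z' : Fin (6 * n)} {e : Fin (6 * n)} (he : e ∈ Z.B) (he' : e ∉ Z'.B)
    (w : List Stp) : ∀ (u : List Stp) (Y : Part (Fin (6 * n))) (y : Fin (6 * n)), Part.BR (B.nxt Z f) Z f u Y y → y ∈ Y.B →
      (∃ p F, OH Y p F) → Part.LBR (B.nxt Z f) Z f W Y y w Z' z' → e ∈ Y.B → ∃ j : ℤ, |j| ≤ W ∧ e = Z.bs f j := by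
  induction w with
  | nil =>
    rintro u Y y hr hy hO ⟨rfl, rfl⟩ heY
    exact absurd heY he'
  | cons s w ih =>
    rintro u Y y hr hy ⟨p, F, hO⟩ ⟨d, Z₁, z₁, hb, ⟨hst, hloc⟩, hl⟩ heY
    have hsub := Part.st_sub hst
    have hd := hsub.2.1
    have hr1 : Part.BR (B.nxt Z f) Z f (u ++ [s]) Z₁ z₁ :=
      Part.br_append.2 ⟨Y, y, hr, d, Z₁, z₁, hb, hd, oh_same hO hy hd, hst, rfl, rfl⟩
    obtain ⟨-, F', -, hT⟩ := Part.st_typ (oh_typ hO hd) hst
    by_cases he1 : e ∈ Z₁.B
    · exact ih (u ++ [s]) Z₁ z₁ hr1 hsub.2.2 ⟨_, _, z₁, hT⟩ hl he1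
    cases s with
    | T =>
      have hed : e = d := by
        obtain ⟨t0, t1, t2, hx, h0, h1, h2, h01, h12, h20, hZ, -⟩ := hst
        by_contra hne
        apply he1
        rw [hZ, Part.face_B]
        exact Or.inl ⟨heY, hne⟩
      by_cases hYZ : Y = Z
      · rw [hYZ, hB.st Z f hf] at hb
        refine ⟨0, by simp, ?_⟩
        rw [bs_zero, hed]
        exact (Option.some.inj hb).symm
      · exact absurd he.1 (by rw [hed]; exact (hB.new Z Y f y d u hf hr hYZ hb).2)
    | R k a =>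
      obtain ⟨i, hi, h1⟩ := (Part.absR hst heY).1 he1
      have h2 := hloc i (by omega)
      rw [← h1] at h2
      exact Part.in_win he h2
    | L k a =>
      obtain ⟨i, hi, h1⟩ := (Part.absL hst heY).1 he1
      have h2 := hloc.2 i hi
      rw [← h1] at h2
      exact Part.in_win he h2

theorem ge_abs (hB : BOk B x W v γ ε₁) (h : OH Z p F) (hf : f ∈ Z.B) (hE : GE B W v Z f Z') {e : Fin (6 * n)} (he : e ∈ Z.B) (he' : e ∉ Z'.B) :
    ∃ j : ℤ, |j| ≤ W ∧ e = Z.bs f j := by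
  obtain ⟨w, z', hl, -, -⟩ := hE
  exact ge_aux hB hf he he' w [] Z f ⟨rfl, rfl⟩ hf ⟨p, F, h⟩ hl he

/-- Invariant of the run of a node. -/
private def Inv (W : ℕ) (nd : Nd (Fin (6 * n))) (g₁ : List ℕ) (Z : Part (Fin (6 * n))) (X κ N : ℕ) : Prop :=
  ∃ (Kb : Set (Fin (6 * n))) (Sk : Finset ℕ), Kb.ncard ≤ κ ∧
    (∀ e ∈ nd.Z.B, e ∉ Z.B → e ∈ Kb ∨ ∃ i ∈ g₁, ∃ j : ℤ, |j| ≤ W ∧ e = nd.Z.bs (nd.ps i) j) ∧
    (∀ i ∈ Sk, i ∈ g₁ ∧ ∃ j : ℤ, |j| ≤ W + 1 ∧ nd.Z.bs (nd.ps i) j ∈ Kb) ∧ g₁.length = N + Sk.card ∧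
    X ≤ κ + (Z.B \ nd.Z.B).ncard

private theorem blk_step (hB : BOk B x W v γ ε₁) (h : OH Z p F) (hf : f ∈ Z.B) {a : Part (Fin (6 * n))} (hL : Lf b (blkS B Z f B.K Z) Z a Z') :
    Z' = a ∧ Z.Sub Z' ∧ ∃ p F, OH Z' p F := by
  obtain ⟨h1, w, z', h2, -, -⟩ := blk_lf hB h hf hL
  have h3 : Part.BR (B.nxt Z f) Z f w a z' := h2.1
  rw [← h1] at h3
  obtain ⟨-, F', -, hT⟩ := Part.br_typ (oh_typ h hf) h3
  exact ⟨h1, Part.br_sub h3, _, _, z', hT⟩

private theorem node_aux (hB : BOk B x W v γ ε₁) (h : NdOk W μ m nd) {r : Part (Fin (6 * n)) × ℕ × ℕ × ℕ} (g₂ : List ℕ) :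
    ∀ (g₁ : List ℕ) (Z : Part (Fin (6 * n))) (X κ N : ℕ), nd.g = g₁ ++ g₂ → nd.Z.Sub Z → (∃ p F, OH Z p F) → Inv W nd g₁ Z X κ N →
      Lf b (nodeS B W v nd.Z (g₂.map nd.ps) Z X κ N) Z r Z' → r.1 = Z' ∧ Inv W nd nd.g Z' r.2.1 r.2.2.1 r.2.2.2 := by
  induction g₂ with
  | nil =>
    intro g₁ Z X κ N hg hs hO hI hL
    rw [List.map_nil] at hL
    obtain ⟨h1, h2⟩ := hL
    rw [h1, h2, hg, List.append_nil]
    exact ⟨rfl, hI⟩
  | cons i g₂ ih =>
    rintro g₁ Z X κ N hg hs ⟨p, F, hO⟩ hI hL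
    have hi : i ∈ nd.g := by rw [hg]; simp
    have hg' : nd.g = (g₁ ++ [i]) ++ g₂ := by rw [hg]; simp
    have hg1 : ∀ i' ∈ g₁, i' + (2 * W + 3) ≤ i := by
      intro i' hi'
      have h1 := h.gap
      rw [hg] at h1
      exact (List.pairwise_append.1 h1).2.2 i' hi' i (by simp)
    obtain ⟨Kb, Sk, hK, hcov, hSk, hlen, hX⟩ := hI
    rw [List.map_cons, nodeS] at hL
    split_ifs at hL with hF
    · obtain ⟨a, Z₁, hL1, hL2⟩ := lf_bind.1 hL
      have hfB : nd.ps i ∈ Z.B := by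
        have h1 := hF 0 (by rw [abs_zero]; omega)
        rw [bs_zero] at h1
        exact h1
      obtain ⟨h1, h2, hO1⟩ := blk_step hB hO hfB hL1
      rw [← h1] at hL2
      refine ih (g₁ ++ [i]) Z₁ _ _ _ hg' (Part.sub_trans hs h2) hO1 ?_ hL2
      have hold : ∀ e, e ∈ nd.Z.B → e ∈ Z₁.B → e ∈ Z.B := by
        intro e he he1
        exact ⟨hs.R_sub he.1, by
          by_contra hc
          exact hc ((h2.2 e hc).symm.trans he1.2)⟩
      by_cases hG : GE B W v Z (nd.ps i) Z₁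
      · have hx1 : xg B W v Z (nd.ps i) Z₁ = Part.exn Z Z₁ := if_pos hG
        have hk1 : kb B W v Z (nd.ps i) Z₁ = 0 := if_pos hG
        rw [hx1, hk1, add_zero]
        have hab : ∀ e ∈ Z.B, e ∉ Z₁.B → ∃ j : ℤ, |j| ≤ W ∧ e = nd.Z.bs (nd.ps i) j := by
          intro e he he1
          obtain ⟨j, hj, hej⟩ := ge_abs hB hO hfB hG he he1
          refine ⟨j, hj, ?_⟩
          rw [hej]
          exact bs_out (K := W + 1) hs (nd_psB h i) (fun j hj => hF j (by exact_mod_cast hj)) (hj.trans (by push_cast; omega))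
        refine ⟨Kb, Sk, hK, ?_, ?_, ?_, ?_⟩
        · intro e he he1
          by_cases heZ : e ∈ Z.B
          · right
            obtain ⟨j, hj, hej⟩ := hab e heZ he1
            exact ⟨i, by simp, j, hj, hej⟩
          · rcases hcov e he heZ with h3 | ⟨i', hi', h3⟩
            · exact Or.inl h3
            · exact Or.inr ⟨i', by simp [hi'], h3⟩
        · intro i' hi'
          obtain ⟨h3, h4⟩ := hSk i' hi'
          exact ⟨by simp [h3], h4⟩
        · rw [List.length_append, List.length_singleton, hlen]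
          omega
        · have h3 : (Z.B \ nd.Z.B) ∪ (Z₁.B \ Z.B) ⊆ Z₁.B \ nd.Z.B := by
            rintro e (he | he)
            · refine ⟨?_, he.2⟩
              by_contra hc
              obtain ⟨j, -, hej⟩ := hab e he.1 hc
              apply he.2
              rw [hej]
              exact Part.bs_mem (nd_psB h i) j
            · exact ⟨he.1, fun hc => he.2 (hold e hc he.1)⟩
          have h4 := Set.ncard_le_ncard h3 (Set.toFinite _)
          rw [Set.ncard_union_eq (by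
            rw [Set.disjoint_left]
            intro e he1 he2
            exact he2.2 he1.1) (Set.toFinite _) (Set.toFinite _)] at h4
          have h5 : Part.exn Z Z₁ = (Z₁.B \ Z.B).ncard := rfl
          rw [h5]
          omega
      · have hx1 : xg B W v Z (nd.ps i) Z₁ = 0 := if_neg hG
        have hk1 : kb B W v Z (nd.ps i) Z₁ = (Z.B \ Z₁.B).ncard := if_neg hG
        rw [hx1, hk1, add_zero]
        refine ⟨Kb ∪ (Z.B \ Z₁.B), Sk, ?_, ?_, ?_, ?_, ?_⟩
        · exact (Set.ncard_union_le _ _).trans (by omega)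
        · intro e he he1
          by_cases heZ : e ∈ Z.B
          · exact Or.inl (Or.inr ⟨heZ, he1⟩)
          · rcases hcov e he heZ with h3 | ⟨i', hi', h3⟩
            · exact Or.inl (Or.inl h3)
            · exact Or.inr ⟨i', by simp [hi'], h3⟩
        · intro i' hi'
          obtain ⟨h3, j, hj, h4⟩ := hSk i' hi'
          exact ⟨by simp [h3], j, hj, Or.inl h4⟩
        · rw [List.length_append, List.length_singleton, hlen]
          omega
        · have h3 : (Z.B \ nd.Z.B) ⊆ (Z.B \ Z₁.B) ∪ (Z₁.B \ nd.Z.B) := by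
            intro e he
            by_cases h4 : e ∈ Z₁.B
            · exact Or.inr ⟨h4, he.2⟩
            · exact Or.inl ⟨he.1, h4⟩
          have h4 := (Set.ncard_le_ncard h3 (Set.toFinite _)).trans (Set.ncard_union_le _ _)
          omega
    · refine ih (g₁ ++ [i]) Z _ _ _ hg' hs ⟨p, F, hO⟩ ?_ hL
      have hiS : i ∉ Sk := by
        intro hc
        have h1 := hg1 i (hSk i hc).1
        omega
      refine ⟨Kb, insert i Sk, hK, ?_, ?_, ?_, hX⟩
      · intro e he he1
        rcases hcov e he he1 with h3 | ⟨i', hi', h3⟩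
        · exact Or.inl h3
        · exact Or.inr ⟨i', by simp [hi'], h3⟩
      · intro i' hi'
        rcases Finset.mem_insert.1 hi' with h3 | h3
        · rw [h3]
          refine ⟨by simp, ?_⟩
          have h4 : ∃ j : ℤ, |j| ≤ W + 1 ∧ nd.Z.bs (nd.ps i) j ∉ Z.B := by
            by_contra hc
            apply hF
            intro j hj
            by_contra hj2
            exact hc ⟨j, hj, hj2⟩
          obtain ⟨j, hj, h5⟩ := h4
          refine ⟨j, hj, ?_⟩
          rcases hcov _ (Part.bs_mem (nd_psB h i) j) h5 with h6 | ⟨i'', hi'', j'', hj'', h6⟩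
          · exact h6
          · exfalso
            have h7 := nd_win h hi (by rw [hg]; simp [hi'']) hj (hj''.trans (by omega)) h6
            have h8 := hg1 i'' hi''
            have h9 := abs_le.1 hj
            have h10 := abs_le.1 hj''
            omega
        · obtain ⟨h4, h5⟩ := hSk i' h3
          exact ⟨by simp [h4], h5⟩
      · rw [List.length_append, List.length_singleton, hlen, Finset.card_insert_of_notMem hiS]
        omega

theorem node_geo (hB : BOk B x W v γ ε₁) (h : NdOk W μ m nd) {r : Part (Fin (6 * n)) × ℕ × ℕ × ℕ}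
    (hL : Lf b (nodeS B W v nd.Z nd.gts nd.Z 0 0 0) nd.Z r Z') :
    r.1 = Z' ∧ m ≤ r.2.2.2 + r.2.2.1 ∧ r.2.2.2 ≤ m ∧ r.2.1 ≤ r.2.2.1 + (Z'.B \ nd.Z.B).ncard := by
  have hI : Inv W nd [] nd.Z 0 0 0 := by
    refine ⟨∅, ∅, by simp, fun e he he' => absurd he he', fun i hi => absurd hi (by simp), by simp, by omega⟩
  obtain ⟨h1, Kb, Sk, hK, -, hSk, hlen, hX⟩ := node_aux hB h nd.g [] nd.Z 0 0 0 (by simp) (Part.sub_refl _) h.oh hI hL
  have hc : Sk.card ≤ Kb.ncard := by
    choose! j hj hjK using fun i hi => (hSk i hi).2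
    rw [← Set.ncard_coe_finset]
    refine Set.ncard_le_ncard_of_injOn (fun i => nd.Z.bs (nd.ps i) (j i)) (fun i hi => hjK i hi) ?_ (Set.toFinite _)
    intro i hi i' hi' he
    have h2 := nd_win h (hSk i hi).1 (hSk i' hi').1 (hj i hi) (hj i' hi') he
    have h3 := nd_gap h (hSk i hi).1 (hSk i' hi').1
    have h4 := abs_le.1 (hj i hi)
    have h5 := abs_le.1 (hj i' hi')
    omega
  have hm := h.len
  exact ⟨h1, by omega, by omega, hX⟩

private theorem blk_dep {D : Type} [Finite D] (S : Part D) (f : D) (k : ℕ) : ∀ Z : Part D, (blkS B S f k Z).Dep k := by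
  induction k with
  | zero => exact fun Z => trivial
  | succ k ih =>
    intro Z
    rw [blkS]
    split
    · trivial
    · split_ifs
      · exact ⟨k, rfl, ih⟩
      · trivial

private theorem node_dep {D : Type} [Finite D] (Z₀ : Part D) (G : List D) : ∀ (Z : Part D) (X κ N : ℕ),
    (nodeS B W v Z₀ G Z X κ N).Dep (G.length * B.K) := by
  induction G with
  | nil => exact fun _ _ _ _ => trivial
  | cons f G ih =>
    intro Z X κ N
    have h0 : (f :: G).length * B.K = B.K + G.length * B.K := by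
      rw [List.length_cons, add_mul, one_mul, add_comm]
    rw [nodeS, h0]
    split_ifs
    · exact dep_bind (blk_dep Z f B.K Z) fun a => ih _ _ _ _
    · exact dep_mono (ih _ _ _ _) (by omega)

private theorem node_gat' (hB : BOk B x W v γ ε₁) (Z₀ : Part (Fin (6 * n))) (G : List (Fin (6 * n))) :
    ∀ (Z : Part (Fin (6 * n))) (X κ N : ℕ), (∃ p F, OH Z p F) → Gat b (nodeS B W v Z₀ G Z X κ N) Z := by
  induction G with
  | nil => exact fun _ _ _ _ _ => trivial
  | cons f G ih =>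
    rintro Z X κ N ⟨p, F, hO⟩
    rw [nodeS]
    split_ifs with hF
    · have hfB : f ∈ Z.B := by
        have h1 := hF 0 (by rw [abs_zero]; omega)
        rw [bs_zero] at h1
        exact h1
      refine gat_bind.2 ⟨(blk_gat hB hO hfB).1, ?_⟩
      intro a Z₁ hL
      obtain ⟨h1, -, hO1⟩ := blk_step hB hO hfB hL
      rw [← h1]
      exact ih _ _ _ _ hO1
    · exact ih _ _ _ _ ⟨p, F, hO⟩

theorem node_gat (hB : BOk B x W v γ ε₁) (h : NdOk W μ m nd) :
    Gat b (nodeS B W v nd.Z nd.gts nd.Z 0 0 0) nd.Z ∧ (nodeS B W v nd.Z nd.gts nd.Z 0 0 0).Dep (m * B.K) := by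
  refine ⟨node_gat' hB _ _ _ _ _ _ h.oh, ?_⟩
  have h1 := node_dep (B := B) (W := W) (v := v) nd.Z nd.gts nd.Z 0 0 0
  have h2 : nd.gts.length = m := by
    unfold Nd.gts
    rw [List.length_map, h.len]
  rw [h2] at h1
  exact h1

end SYS.GW
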