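import Pool.Agent.SYS.GW.BI
import Pool.Agent.SYS.GW.NodeG

/-!
# SYSS-GRW-NodeL: large deviations of one node
-/

namespace SYS.GW

open Classical SST SYS.Num Str

/-- The run of the node fails. -/
def Fai (γ₂ ε₂ : ℝ) (m : ℕ) {D : Type} (r : Part D × ℕ × ℕ × ℕ) : Prop := (r.2.1 : ℝ) < r.2.2.1 + γ₂ * m ∨ ε₂ * m < r.2.2.1

private theorem nl_wz {n : ℕ} {x : ℝ} (Z : Part (Fin (6 * n))) : 0 ≤ WZ x Z := by
  unfold WZ Nm
  have h1 := AA_gt x
  have h2 : 0 < AA x := by linarith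
  have h3 := yy_pos x
  positivity

private theorem nl_tri {n : ℕ} (Z Z' Z'' : Part (Fin (6 * n))) : xi Z Z'' ≤ xi Z Z' + xi Z' Z'' := by
  unfold xi
  have h := abs_add_le ((pz Z' : ℝ) - pz Z) ((pz Z'' : ℝ) - pz Z')
  have h1 : (pz Z' : ℝ) - pz Z + ((pz Z'' : ℝ) - pz Z') = (pz Z'' : ℝ) - pz Z := by ring
  rw [h1] at h
  linarith

private theorem nl_self {n : ℕ} (Z : Part (Fin (6 * n))) : xi Z Z = 0 := by
  unfold xi
  simp

/-- The value of a run of a node. -/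
private noncomputable def nlψ {n : ℕ} (x t α S ρ ε : ℝ) (Z : Part (Fin (6 * n))) (X κ N : ℕ)
    (r : Part (Fin (6 * n)) × ℕ × ℕ × ℕ) (Z' : Part (Fin (6 * n))) : ℝ :=
  WZ x Z' * Real.exp (-(t * α) * ((r.2.1 : ℝ) - X) + t * S * ((r.2.2.1 : ℝ) - κ) +
    t * ρ * ((r.2.2.2 : ℝ) - N) + ε * xi Z Z')

private theorem nl_sum {W v : ℕ} {x γ ε₁ α S ρ t ε : ℝ} {B : CH.Blk} (hB : BOk B x W v γ ε₁) (hε : 0 ≤ ε)
    {n b m μ : ℕ} {nd : Nd (Fin (6 * n))} (hnd : NdOk W μ m nd)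
    (hbi : ∀ (p F : ℕ) (Z : Part (Fin (6 * n))) (f : Fin (6 * n)), OH Z p F → f ∈ Z.B → 2 * W + 1 < p → v ≤ F →
        LS b (fun Z' _ => WZ x Z' * Real.exp (-(t * α) * xg B W v Z f Z' + t * S * kb B W v Z f Z' + ε * xi Z Z'))
          (blkS B Z f B.K Z) Z ≤ WZ x Z * Real.exp (-t * ρ)) :
    ∀ (G : List (Fin (6 * n))) (Z : Part (Fin (6 * n))) (X κ N p F : ℕ), (∀ f ∈ G, ∃ i ∈ nd.g, f = nd.ps i) →
      nd.Z.Sub Z → OH Z p F → v + G.length * B.K * (b + 1) ≤ F →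
        LS b (nlψ x t α S ρ ε Z X κ N) (nodeS B W v nd.Z G Z X κ N) Z ≤ WZ x Z := by
  intro G
  induction G with
  | nil =>
    intro Z X κ N p F _ _ _ _
    show nlψ x t α S ρ ε Z X κ N (Z, X, κ, N) Z ≤ WZ x Z
    unfold nlψ
    rw [nl_self, sub_self, sub_self, sub_self]
    simp
  | cons f G ih =>
    intro Z X κ N p F hG hsub hOH hF
    have hG' : ∀ f' ∈ G, ∃ i ∈ nd.g, f' = nd.ps i := fun f' hf' => hG f' (List.mem_cons_of_mem _ hf')
    rw [List.length_cons] at hF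
    have hF' : v + B.K * (b + 1) + G.length * B.K * (b + 1) ≤ F := by
      have : (G.length + 1) * B.K * (b + 1) = B.K * (b + 1) + G.length * B.K * (b + 1) := by ring
      omega
    by_cases hFr : Frs nd.Z W Z f
    · have hnode : nodeS B W v nd.Z (f :: G) Z X κ N = (blkS B Z f B.K Z).bind (fun Z' =>
          nodeS B W v nd.Z G Z' (X + xg B W v Z f Z') (κ + kb B W v Z f Z') (N + 1)) := by
        rw [nodeS, if_pos hFr]
      obtain ⟨i, hi, hfi⟩ := hG f List.mem_cons_self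
      have hfB : f ∈ Z.B := by
        have h1 := hFr 0 (by simp; positivity)
        unfold Part.bs at h1
        rw [zpow_zero] at h1
        exact h1
      have hper : 2 * W + 1 < p := by
        have h1 := frs_per hnd hi hsub (by rw [← hfi]; exact hFr)
        rwa [(oh_pz hOH).1] at h1
      rw [hnode, ls_bind]
      have hle : LS b (fun a Z' => LS b (nlψ x t α S ρ ε Z X κ N)
          (nodeS B W v nd.Z G a (X + xg B W v Z f a) (κ + kb B W v Z f a) (N + 1)) Z') (blkS B Z f B.K Z) Z ≤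
          LS b (fun a _ => Real.exp (t * ρ) * (WZ x a *
            Real.exp (-(t * α) * xg B W v Z f a + t * S * kb B W v Z f a + ε * xi Z a))) (blkS B Z f B.K Z) Z := by
        refine ls_le fun a Z' hL => ?_
        obtain ⟨rfl, -⟩ := blk_lf hB hOH hfB hL
        obtain ⟨p', F', hOH', -, hF1, hF2, hsub'⟩ := lf_oh hOH (blk_gat (b := b) hB hOH hfB).2 hL
        have hsub2 : nd.Z.Sub Z' := Part.sub_trans hsub hsub'
        have h1 := ih Z' (X + xg B W v Z f Z') (κ + kb B W v Z f Z') (N + 1) p' F' hG' hsub2 hOH' (by omega)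
        have h2 : LS b (nlψ x t α S ρ ε Z X κ N)
            (nodeS B W v nd.Z G Z' (X + xg B W v Z f Z') (κ + kb B W v Z f Z') (N + 1)) Z' ≤
            LS b (fun r Z'' => (Real.exp (t * ρ) *
              Real.exp (-(t * α) * xg B W v Z f Z' + t * S * kb B W v Z f Z' + ε * xi Z Z')) *
              nlψ x t α S ρ ε Z' (X + xg B W v Z f Z') (κ + kb B W v Z f Z') (N + 1) r Z'')
            (nodeS B W v nd.Z G Z' (X + xg B W v Z f Z') (κ + kb B W v Z f Z') (N + 1)) Z' := by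
          refine ls_le fun r Z'' _ => ?_
          unfold nlψ
          have h3 : WZ x Z'' * Real.exp (-(t * α) * ((r.2.1 : ℝ) - X) + t * S * ((r.2.2.1 : ℝ) - κ) +
              t * ρ * ((r.2.2.2 : ℝ) - N) + ε * xi Z Z'') ≤
              WZ x Z'' * Real.exp (t * ρ + (-(t * α) * xg B W v Z f Z' + t * S * kb B W v Z f Z' + ε * xi Z Z') +
                (-(t * α) * ((r.2.1 : ℝ) - ((X + xg B W v Z f Z' : ℕ) : ℝ)) +
                t * S * ((r.2.2.1 : ℝ) - ((κ + kb B W v Z f Z' : ℕ) : ℝ)) +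
                t * ρ * ((r.2.2.2 : ℝ) - ((N + 1 : ℕ) : ℝ)) + ε * xi Z' Z'')) := by
            refine mul_le_mul_of_nonneg_left (Real.exp_le_exp.2 ?_) (nl_wz _)
            have h4 := mul_le_mul_of_nonneg_left (nl_tri Z Z' Z'') hε
            push_cast
            linarith
          refine h3.trans (le_of_eq ?_)
          rw [Real.exp_add, Real.exp_add]
          ring
        refine h2.trans ?_
        rw [ls_mul]
        refine (mul_le_mul_of_nonneg_left h1 (by positivity)).trans (le_of_eq ?_)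
        ring
      refine hle.trans ?_
      rw [ls_mul]
      have h5 := hbi p F Z f hOH hfB hper (by omega)
      refine (mul_le_mul_of_nonneg_left h5 (Real.exp_pos _).le).trans (le_of_eq ?_)
      have h6 : Real.exp (t * ρ) * Real.exp (-t * ρ) = 1 := by
        rw [← Real.exp_add, ← Real.exp_zero]
        congr 1
        ring
      calc Real.exp (t * ρ) * (WZ x Z * Real.exp (-t * ρ)) =
          WZ x Z * (Real.exp (t * ρ) * Real.exp (-t * ρ)) := by ring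
        _ = WZ x Z := by rw [h6, mul_one]
    · have hnode : nodeS B W v nd.Z (f :: G) Z X κ N = nodeS B W v nd.Z G Z X κ N := by
        rw [nodeS, if_neg hFr]
      rw [hnode]
      exact ih Z X κ N p F hG' hsub hOH (by omega)

/-- Markov inequality for a run of a node. -/
private theorem nl_mar {W v : ℕ} {x γ ε₁ α S η t ε c : ℝ} {B : CH.Blk} (hB : BOk B x W v γ ε₁) (hε : 0 ≤ ε)
    {n b m μ F : ℕ} {nd : Nd (Fin (6 * n))} (hnd : NdOk W μ m nd) (hFz : fz nd.Z = F)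
    (hF : v + m * B.K * (b + 1) ≤ F)
    (hbi : ∀ (p F : ℕ) (Z : Part (Fin (6 * n))) (f : Fin (6 * n)), OH Z p F → f ∈ Z.B → 2 * W + 1 < p → v ≤ F →
        LS b (fun Z' _ => WZ x Z' * Real.exp (-(t * α) * xg B W v Z f Z' + t * S * kb B W v Z f Z' + ε * xi Z Z'))
          (blkS B Z f B.K Z) Z ≤ WZ x Z * Real.exp (-t * (α * γ - S * ε₁ - η)))
    (P : Part (Fin (6 * n)) × ℕ × ℕ × ℕ → Prop)
    (hP : ∀ r : Part (Fin (6 * n)) × ℕ × ℕ × ℕ, m ≤ r.2.2.2 + r.2.2.1 → r.2.2.2 ≤ m → P r →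
      c * m ≤ -(t * α) * r.2.1 + t * S * r.2.2.1 + t * (α * γ - S * ε₁ - η) * r.2.2.2) :
    LS b (fun r Z' => if P r then WZ x Z' * Real.exp (ε * xi nd.Z Z') else 0)
      (nodeS B W v nd.Z nd.gts nd.Z 0 0 0) nd.Z ≤ Real.exp (-c * m) * WZ x nd.Z := by
  obtain ⟨p, F', hOH⟩ := hnd.oh
  have hFF : F' = F := by rw [← hFz, (oh_pz hOH).2.1]
  subst hFF
  have hlen : nd.gts.length = m := by
    unfold Nd.gts
    rw [List.length_map, hnd.len]
  have hsum := nl_sum hB hε hnd hbi nd.gts nd.Z 0 0 0 p F' (fun f hf => by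
    unfold Nd.gts at hf
    obtain ⟨i, hi, rfl⟩ := List.mem_map.1 hf
    exact ⟨i, hi, rfl⟩) (Part.sub_refl _) hOH (by rw [hlen]; exact hF)
  have hle : LS b (fun r Z' => if P r then WZ x Z' * Real.exp (ε * xi nd.Z Z') else 0)
      (nodeS B W v nd.Z nd.gts nd.Z 0 0 0) nd.Z ≤
      LS b (fun r Z' => Real.exp (-c * m) * nlψ x t α S (α * γ - S * ε₁ - η) ε nd.Z 0 0 0 r Z')
        (nodeS B W v nd.Z nd.gts nd.Z 0 0 0) nd.Z := by
    refine ls_le fun r Z' hL => ?_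
    obtain ⟨-, h1, h2, -⟩ := node_geo hB hnd hL
    by_cases hPr : P r
    · rw [if_pos hPr]
      have h3 := hP r h1 h2 hPr
      unfold nlψ
      have h4 : Real.exp (-c * m) * (WZ x Z' * Real.exp (-(t * α) * ((r.2.1 : ℝ) - ((0 : ℕ) : ℝ)) +
          t * S * ((r.2.2.1 : ℝ) - ((0 : ℕ) : ℝ)) +
          t * (α * γ - S * ε₁ - η) * ((r.2.2.2 : ℝ) - ((0 : ℕ) : ℝ)) + ε * xi nd.Z Z')) =
          WZ x Z' * Real.exp (-c * m + (-(t * α) * ((r.2.1 : ℝ) - ((0 : ℕ) : ℝ)) +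
          t * S * ((r.2.2.1 : ℝ) - ((0 : ℕ) : ℝ)) +
          t * (α * γ - S * ε₁ - η) * ((r.2.2.2 : ℝ) - ((0 : ℕ) : ℝ)) + ε * xi nd.Z Z')) := by
        rw [Real.exp_add (-c * m)]
        ring
      rw [h4]
      refine mul_le_mul_of_nonneg_left (Real.exp_le_exp.2 ?_) (nl_wz _)
      push_cast
      linarith
    · rw [if_neg hPr]
      unfold nlψ
      have := nl_wz (x := x) Z'
      positivity
  refine hle.trans ?_
  rw [ls_mul]
  exact mul_le_mul_of_nonneg_left hsum (Real.exp_pos _).le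

theorem node_ld {W v : ℕ} {x γ ε₁ γ₂ ε₂ : ℝ} {B : CH.Blk} (hx : 0 < x) (hB : BOk B x W v γ ε₁) (hγ : 0 ≤ γ) (h0 : 0 ≤ γ₂) (h1 : 0 ≤ ε₁) (h2 : γ₂ < γ - (1 + γ) * ε₁)
    (h3 : ε₁ < ε₂) : ∃ c ε₀ : ℝ, 0 < c ∧ 0 < ε₀ ∧ ∀ (ε : ℝ), 0 ≤ ε → ε ≤ ε₀ → ∀ (n b m μ F : ℕ) (nd : Nd (Fin (6 * n))), NdOk W μ m nd → fz nd.Z = F →
      v + m * B.K * (b + 1) ≤ F →
        LS b (fun r Z' => if Fai γ₂ ε₂ m r then WZ x Z' * Real.exp (ε * xi nd.Z Z') else 0) (nodeS B W v nd.Z nd.gts nd.Z 0 0 0) nd.Z ≤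
          2 * Real.exp (-c * m) * WZ x nd.Z := by
  have hη : 0 < (γ - (1 + γ) * ε₁ - γ₂) / 2 := by linarith
  have hη' : 0 < (ε₂ - ε₁) / 2 := by linarith
  have hSε : 0 ≤ (1 + γ) * ε₁ := by positivity
  obtain ⟨t, e, ht, he, hbi⟩ := bi hx hB (α := 1) (S := 1 + γ) zero_le_one (by linarith) hη
  obtain ⟨t', e', ht', he', hbi'⟩ := bi hx hB (α := 0) (S := 1) le_rfl zero_le_one hη'
  refine ⟨min (t * ((γ - (1 + γ) * ε₁ - γ₂) / 2)) (t' * ((ε₂ - ε₁) / 2)), min e e', by positivity,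
    lt_min he he', ?_⟩
  intro ε hε hεe n b m μ F nd hnd hFz hF
  have hm : (0 : ℝ) ≤ m := Nat.cast_nonneg m
  have hA := nl_mar (c := min (t * ((γ - (1 + γ) * ε₁ - γ₂) / 2)) (t' * ((ε₂ - ε₁) / 2))) hB hε hnd hFz hF
    (fun p F Z f => hbi ε hε (hεe.trans (min_le_left _ _)) n b p F Z f)
    (fun r => (r.2.1 : ℝ) < r.2.2.1 + γ₂ * m) (fun r h3' h4 h5 => by
      have h6 : (m : ℝ) ≤ r.2.2.2 + r.2.2.1 := by exact_mod_cast h3'
      have h7 : (0 : ℝ) ≤ r.2.2.1 := Nat.cast_nonneg _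
      refine (mul_le_mul_of_nonneg_right (min_le_left _ _) hm).trans ?_
      have h8 : 0 ≤ t * ((1 * γ - (1 + γ) * ε₁ - (γ - (1 + γ) * ε₁ - γ₂) / 2) *
          ((r.2.2.2 : ℝ) + r.2.2.1 - m)) := by
        refine mul_nonneg ht.le (mul_nonneg ?_ (by linarith))
        linarith
      have h9 : 0 ≤ t * ((r.2.2.1 : ℝ) + γ₂ * m - r.2.1) := mul_nonneg ht.le (by linarith)
      have h10 : 0 ≤ t * (((1 + γ) * ε₁ + (γ - (1 + γ) * ε₁ - γ₂) / 2) * r.2.2.1) :=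
        mul_nonneg ht.le (mul_nonneg (by linarith) h7)
      nlinarith [h8, h9, h10])
  have hB' := nl_mar (c := min (t * ((γ - (1 + γ) * ε₁ - γ₂) / 2)) (t' * ((ε₂ - ε₁) / 2))) hB hε hnd hFz hF
    (fun p F Z f => hbi' ε hε (hεe.trans (min_le_right _ _)) n b p F Z f)
    (fun r => ε₂ * m < r.2.2.1) (fun r h3' h4 h5 => by
      have h6 : (r.2.2.2 : ℝ) ≤ m := by exact_mod_cast h4
      refine (mul_le_mul_of_nonneg_right (min_le_right _ _) hm).trans ?_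
      have h8 : 0 ≤ t' * ((ε₁ + (ε₂ - ε₁) / 2) * ((m : ℝ) - r.2.2.2)) :=
        mul_nonneg ht'.le (mul_nonneg (by linarith) (by linarith))
      have h9 : 0 ≤ t' * ((r.2.2.1 : ℝ) - ε₂ * m) := mul_nonneg ht'.le (by linarith)
      nlinarith [h8, h9])
  have hle : LS b (fun r Z' => if Fai γ₂ ε₂ m r then WZ x Z' * Real.exp (ε * xi nd.Z Z') else 0)
      (nodeS B W v nd.Z nd.gts nd.Z 0 0 0) nd.Z ≤
      LS b (fun r Z' => (if (r.2.1 : ℝ) < r.2.2.1 + γ₂ * m then WZ x Z' * Real.exp (ε * xi nd.Z Z') else 0) +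
        (if ε₂ * m < r.2.2.1 then WZ x Z' * Real.exp (ε * xi nd.Z Z') else 0))
      (nodeS B W v nd.Z nd.gts nd.Z 0 0 0) nd.Z := by
    refine ls_le fun r Z' _ => ?_
    have h3 : 0 ≤ WZ x Z' * Real.exp (ε * xi nd.Z Z') := mul_nonneg (nl_wz _) (Real.exp_pos _).le
    by_cases h4 : Fai γ₂ ε₂ m r
    · rw [if_pos h4]
      rcases h4 with h4 | h4
      · rw [if_pos h4]
        split_ifs <;> linarith
      · rw [if_pos h4]
        split_ifs <;> linarith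
    · rw [if_neg h4]
      split_ifs <;> linarith
  refine hle.trans ?_
  rw [ls_add]
  have := add_le_add hA hB'
  refine this.trans (le_of_eq ?_)
  ring

end SYS.GW
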