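import Pool.Agent.SYS.GW.ChdA
import Pool.Agent.SYS.GW.NodeL

/-!
# SYSS-GRW-ChdB: existence of the children of a node

PLAN.  New darts: `q e := e ∉ nd.Z.R`.  `Z'` has one hole (`hZ`): for every `y ∈ Z'.B` the word `Z'.hw y` contains all boundary darts once (`oh_typ`, `HL`, `mem_hw`, `hw_nodup`), so its number of new darts is `(Z'.B \ nd.Z.B).ncard` (`e ∈ Z'.B`: `e ∉ nd.Z.B` iff `e ∉ nd.Z.R`, because `Z'.a e = e` and `nd.Z.Sub Z'`; `Set.ncard_coe_finset`,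
`List.toFinset_card_of_nodup`, `List.countP_eq_length_filter`), and its length is `pz Z'` (`hw_length`, `oh_pz`).
Choose a start: (A) if `nd.o ∈ Z'.B`, `1 ≤ nd.c` and `Z'.hw nd.o = nd.cor ++ t`: `pre = nd.cor` (not empty: `nd.cor = (nd.Z.hw nd.o).take nd.c`, `nd.o` is its head), its darts are in `nd.Z.B`, not new.  (B) otherwise: any `y ∈ Z'.B` (there is one: `hN`), `Z'.hw y = y :: t` (`hw_cons`), `pre = [y]`.  In both cases `Z'.hw y = pre ++ t`, `pre ≠ []`,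
and `t` has at least `(Z'.B \ nd.Z.B).ncard - 1 ≥ b (D + 1)` new darts, `D = m' (2 W + 3) + 2 (μ' + W + 1)`.
`cut_arcs`: `t = u j ++ (A j ++ u' j)`.  By rotation (`hw_rot`) the word that starts with `u' j ++ pre` (if `u' j ++ pre` begins with `y_j`): `Z'.hw y_j = (u' j ++ pre ++ u j) ++ A j`.  Child `j`: `Z := Z'`, `o := y_j`, `c := (u' j ++ pre ++ u j).length ≥ 1`, `g := (positions of arc_pos in A j) shifted by c` (`s = 2 W + 3`, `r = μ' + W + 1`).
`cor = u' j ++ pre ++ u j` (`List.take_left'`), `arc = A j` (`List.drop_left'`), `ps (c + i) = (A j)[i]` (`hw` is the list of the `(Z'.nx ^ i) o`).  `NdOk`: `pz Z' = c + (A j).length`.  `dis`: `t` has no duplicates (`hw_nodup`), `t = u i ++ (A i ++ (v ++ (A j ++ u' j)))` for `i < j`.  `nest`: in case (A) by construction (`List.append_cancel_left`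
for `t`; `u₁ = u j`, `u₂ = u' j`); in case (B) the hypotheses of `nest` are false.
`chd_spec`: `chd` is `h.choose`.  `node_chd`: `lf_oh` (or the corresponding lemma on `Lf`: `OH Z'`, `nd.Z.Sub Z'`), `node_geo`, `not Fai`: `γ₂ m ≤ X - κ ≤ (Z'.B \ nd.Z.B).ncard`.
-/

namespace SYS.GW

open Classical SST SYS.Num Str

variable {n b p F W v μ m μ' m' k : ℕ} {x γ ε₁ γ₂ ε₂ : ℝ} {B : CH.Blk} {Z' : Part (Fin (6 * n))} {nd : Nd (Fin (6 * n))}

private theorem cb_rot {D : Type} [Finite D] (S : Part D) {y : D} (hy : y ∈ S.B) {X Y : List D}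
    (h : S.hw y = X ++ Y) : ∃ z ∈ S.B, S.hw z = Y ++ X := by
  rcases Y with _ | ⟨z, w⟩
  · exact ⟨y, hy, by rw [h, List.append_nil, List.nil_append]⟩
  · have h1 := S.hw_rot hy h
    refine ⟨z, ?_, by rw [h1]; rfl⟩
    have h2 : z ∈ S.hw y := by
      rw [h]
      exact List.mem_append.2 (Or.inr List.mem_cons_self)
    exact ((S.mem_hw hy).1 h2).1

private theorem cb_get {D : Type} [Finite D] (S : Part D) {x e : D} {i : ℕ} (h : (S.hw x)[i]? = some e) :
    e = (S.nx ^ i) x := by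
  unfold Part.hw at h
  rw [List.getElem?_map] at h
  obtain ⟨j, h2, h3⟩ := Option.map_eq_some_iff.1 h
  obtain ⟨h5, h6⟩ := List.getElem?_eq_some_iff.1 h2
  rw [List.getElem_range] at h6
  rw [← h3, ← h6]

private theorem cb_mem (hZ : OH Z' p F) {y : Fin (6 * n)} (hy : y ∈ Z'.B) (e : Fin (6 * n)) :
    e ∈ Z'.hw y ↔ e ∈ Z'.B := by
  rw [Z'.mem_hw hy]
  refine ⟨fun h => h.1, fun h => ⟨h, ?_⟩⟩
  obtain ⟨e', he', h1⟩ := (oh_typ hZ hy).hl.2.2 e h
  rw [List.mem_singleton] at he'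
  rw [← he']
  exact h1

private theorem cb_len (hZ : OH Z' p F) {y : Fin (6 * n)} (hy : y ∈ Z'.B) :
    (Z'.hw y).length = pz Z' := by
  rw [Z'.hw_length hy, (oh_pz hZ).1]
  have h1 := (oh_typ hZ hy).per
  simpa using h1

private theorem cb_old {Z Z' : Part (Fin (6 * n))} (hs : Z.Sub Z') {e : Fin (6 * n)} (he : e ∈ Z'.B) :
    e ∉ Z.R ↔ e ∉ Z.B := by
  refine not_congr ⟨fun h => ⟨h, ?_⟩, fun h => h.1⟩
  by_contra hne
  have h1 := hs.2 e hne
  rw [he.2] at h1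
  exact hne h1.symm

private theorem cb_cnt (hs : nd.Z.Sub Z') (hZ : OH Z' p F) {y : Fin (6 * n)} (hy : y ∈ Z'.B)
    (q : Fin (6 * n) → Prop) (hq : ∀ e, q e ↔ e ∉ nd.Z.R) :
    ((Z'.hw y).countP fun e => decide (q e)) = (Z'.B \ nd.Z.B).ncard := by
  have h1 : (Z'.B \ nd.Z.B) =
      (((Z'.hw y).filter (fun e => decide (q e))).toFinset : Set (Fin (6 * n))) := by
    ext e
    rw [Set.mem_sdiff, Finset.mem_coe, List.mem_toFinset, List.mem_filter, cb_mem hZ hy]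
    constructor
    · rintro ⟨h2, h3⟩
      exact ⟨h2, decide_eq_true ((hq e).2 ((cb_old hs h2).2 h3))⟩
    · rintro ⟨h2, h3⟩
      exact ⟨h2, (cb_old hs h2).1 ((hq e).1 (of_decide_eq_true h3))⟩
  rw [h1, Set.ncard_coe_finset, List.toFinset_card_of_nodup ((Z'.hw_nodup hy).filter _),
    List.countP_eq_length_filter]

private theorem cb_start (h : NdOk W μ m nd)
    (hne : 1 ≤ (Z'.B \ nd.Z.B).ncard) (q : Fin (6 * n) → Prop) (hq : ∀ e, q e ↔ e ∉ nd.Z.R) :
    ∃ y pre t, y ∈ Z'.B ∧ Z'.hw y = pre ++ t ∧ pre ≠ [] ∧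
      (pre.countP fun e => decide (q e)) ≤ 1 ∧
      ∀ t', Z'.hw nd.o = nd.cor ++ t' → nd.o ∈ Z'.B → 1 ≤ nd.c → y = nd.o ∧ pre = nd.cor := by
  by_cases hA : nd.o ∈ Z'.B ∧ 1 ≤ nd.c ∧ ∃ t, Z'.hw nd.o = nd.cor ++ t
  · obtain ⟨ho, hc, t, ht⟩ := hA
    refine ⟨nd.o, nd.cor, t, ho, ht, ?_, ?_, fun _ _ _ _ => ⟨rfl, rfl⟩⟩
    · obtain ⟨w, hw⟩ := nd.Z.hw_cons h.o
      unfold Nd.cor
      rw [hw]
      obtain ⟨c, hc'⟩ : ∃ c, nd.c = c + 1 := ⟨nd.c - 1, by omega⟩
      rw [hc', List.take_succ_cons]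
      exact List.cons_ne_nil _ _
    · have h1 : (nd.cor.countP fun e => decide (q e)) = 0 := by
        rw [List.countP_eq_zero]
        intro e he h2
        have h3 := (hq e).1 (of_decide_eq_true h2)
        apply h3
        have h4 : e ∈ nd.Z.hw nd.o := List.mem_of_mem_take he
        exact ((nd.Z.mem_hw h.o).1 h4).1.1
      rw [h1]
      exact Nat.zero_le 1
  · have h1 : (Z'.B \ nd.Z.B).Nonempty := by
      by_contra hcon
      rw [Set.not_nonempty_iff_eq_empty] at hcon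
      rw [hcon, Set.ncard_empty] at hne
      omega
    obtain ⟨y, hy, -⟩ := h1
    obtain ⟨t, ht⟩ := Z'.hw_cons hy
    refine ⟨y, [y], t, hy, ht, List.cons_ne_nil _ _, ?_, ?_⟩
    · exact List.countP_le_length
    · intro t' h2 h3 h4
      exact absurd ⟨h3, h4, t', h2⟩ hA

theorem chd_ex (h : NdOk W μ m nd) (hs : nd.Z.Sub Z') (hZ : OH Z' p F)
    (hN : k * (m' * (2 * W + 3) + 2 * (μ' + W + 1) + 1) + 1 ≤ (Z'.B \ nd.Z.B).ncard) : ∃ ch, ChOk W μ' m' k nd Z' ch := by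
  obtain ⟨q, hq⟩ : ∃ q : Fin (6 * n) → Prop, ∀ e, q e ↔ e ∉ nd.Z.R := ⟨_, fun _ => Iff.rfl⟩
  obtain ⟨y, pre, t, hy, hw, hpre, hcnt, hnest⟩ := cb_start (Z' := Z') h (by omega) q hq
  have hct := cb_cnt hs hZ hy q hq
  rw [hw, List.countP_append] at hct
  obtain ⟨u, A, u', hA⟩ := cut_arcs q (m' * (2 * W + 3) + 2 * (μ' + W + 1)) k t
    (by omega)
  have hnd : (pre ++ t).Nodup := by
    rw [← hw]
    exact Z'.hw_nodup hy
  have hch : ∀ j < k, ∃ c : Nd (Fin (6 * n)), c.Z = Z' ∧ NdOk W μ' m' c ∧ 1 ≤ c.c ∧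
      (∀ e ∈ c.gts, e ∉ nd.Z.R) ∧ c.arc = A j ∧ c.cor = u' j ++ pre ++ u j := by
    intro j hj
    obtain ⟨h1, h2, h3, -⟩ := hA j hj
    obtain ⟨g, hg1, hg2, hg3⟩ := arc_pos q (A j) (m := m') (s := 2 * W + 3)
      (r := μ' + W + 1) (by omega) h2
    have h4 : Z'.hw y = (pre ++ u j ++ A j) ++ u' j := by
      rw [hw, h1]
      simp only [List.append_assoc]
    obtain ⟨z, hz, h5⟩ := cb_rot Z' hy h4
    have h6 : Z'.hw z = (u' j ++ pre ++ u j) ++ A j := by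
      rw [h5]
      simp only [List.append_assoc]
    have h7 := cb_len hZ hz
    rw [h6, List.length_append] at h7
    refine ⟨⟨Z', z, (u' j ++ pre ++ u j).length, g.map fun i => (u' j ++ pre ++ u j).length + i⟩,
      rfl, ⟨⟨p, F, hZ⟩, hz, ?_, ?_, ?_⟩, ?_, ?_, ?_, ?_⟩
    · show (g.map fun i => (u' j ++ pre ++ u j).length + i).length = m'
      rw [List.length_map, hg1]
    · intro i hi
      obtain ⟨i₀, hi₀, rfl⟩ := List.mem_map.1 hi
      obtain ⟨h8, h9, -⟩ := hg3 i₀ hi₀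
      show (u' j ++ pre ++ u j).length + μ' + W + 1 ≤ (u' j ++ pre ++ u j).length + i₀ ∧
        (u' j ++ pre ++ u j).length + i₀ + μ' + W + 1 < pz Z'
      omega
    · show (g.map fun i => (u' j ++ pre ++ u j).length + i).Pairwise fun i j => i + (2 * W + 3) ≤ j
      rw [List.pairwise_map]
      exact hg2.imp fun {a b} hab => by omega
    · show 1 ≤ (u' j ++ pre ++ u j).length
      have h8 : 0 < pre.length := List.length_pos_iff.2 hpre
      rw [List.length_append, List.length_append]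
      omega
    · intro e he
      unfold Nd.gts at he
      obtain ⟨i, hi, rfl⟩ := List.mem_map.1 he
      obtain ⟨i₀, hi₀, rfl⟩ := List.mem_map.1 hi
      obtain ⟨-, -, e, h8, h9⟩ := hg3 i₀ hi₀
      have h10 : (Z'.hw z)[(u' j ++ pre ++ u j).length + i₀]? = some e := by
        rw [h6, List.getElem?_append_right (Nat.le_add_right _ _), Nat.add_sub_cancel_left]
        exact h8
      have h11 := cb_get Z' h10
      show (Z'.nx ^ ((u' j ++ pre ++ u j).length + i₀)) z ∉ nd.Z.R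
      rw [← h11]
      exact (hq e).1 h9
    · show (Z'.hw z).drop (u' j ++ pre ++ u j).length = A j
      rw [h6]
      exact List.drop_left
    · show (Z'.hw z).take (u' j ++ pre ++ u j).length = u' j ++ pre ++ u j
      rw [h6]
      exact List.take_left
  have : Nonempty (Nd (Fin (6 * n))) := ⟨nd⟩
  choose! ch hch using hch
  have hdis : ∀ j < k, ∀ i < j, ∀ e ∈ A i, e ∉ A j := by
    intro j hj i hi e he he'
    obtain ⟨v, hv⟩ := (hA j hj).2.2.2 i hi
    have h1 := (hA i (by omega)).1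
    rw [h1] at hnd
    have h2 := (List.nodup_append.1 hnd).2.1
    have h3 := (List.nodup_append.1 h2).2.1
    have h4 := (List.nodup_append.1 h3).2.2 e he e (by
      rw [hv]
      exact List.mem_append.2 (Or.inr (List.mem_append.2 (Or.inl he'))))
    exact h4 rfl
  refine ⟨ch, fun j hj => (hch j hj).1, fun j hj => (hch j hj).2.1, fun j hj => (hch j hj).2.2.1,
    fun j hj => (hch j hj).2.2.2.1, ?_, ?_, ?_⟩
  · intro i hi j hj hij e he he'
    rw [(hch i hi).2.2.2.2.1] at he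
    rw [(hch j hj).2.2.2.2.1] at he'
    rcases lt_or_gt_of_ne hij with h1 | h1
    · exact hdis j hj i h1 e he he'
    · exact hdis i hi j h1 e he' he
  · intro j hj
    rw [(hch j hj).2.2.2.2.1]
    exact (hA j hj).2.2.1
  · intro j hj t' h1 h2 h3
    obtain ⟨rfl, hpc⟩ := hnest t' h1 h2 h3
    refine ⟨u j, u' j, ?_, ?_⟩
    · rw [(hch j hj).2.2.2.2.1, hw, hpc, (hA j hj).1]
      simp only [List.append_assoc]
    · rw [(hch j hj).2.2.2.2.2, hpc]

theorem chd_spec (h : NdOk W μ m nd) (hs : nd.Z.Sub Z') (hZ : OH Z' p F)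
    (hN : k * (m' * (2 * W + 3) + 2 * (μ' + W + 1) + 1) + 1 ≤ (Z'.B \ nd.Z.B).ncard) :
    ChOk W μ' m' k nd Z' (chd W μ' m' k nd Z') := by
  have hex := chd_ex (k := k) (m' := m') (μ' := μ') h hs hZ hN
  unfold chd
  rw [dif_pos hex]
  exact hex.choose_spec

/-- The children after a node which does not fail. -/
theorem node_chd (hB : BOk B x W v γ ε₁) (h : NdOk W μ m nd) {r : Part (Fin (6 * n)) × ℕ × ℕ × ℕ}
    (hL : Lf b (nodeS B W v nd.Z nd.gts nd.Z 0 0 0) nd.Z r Z') (hf : ¬ Fai γ₂ ε₂ m r)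
    (hk : (k * (m' * (2 * W + 3) + 2 * (μ' + W + 1) + 1) + 1 : ℝ) ≤ γ₂ * m) :
    r.1 = Z' ∧ ChOk W μ' m' k nd Z' (chd W μ' m' k nd Z') := by
  obtain ⟨h1, h2, h3, h4⟩ := node_geo hB h hL
  refine ⟨h1, ?_⟩
  obtain ⟨p₀, F₀, hO⟩ := h.oh
  obtain ⟨p', F', hO', -, -, -, hsub⟩ := lf_oh hO (node_gat (b := b) hB h).2 hL
  refine chd_spec h hsub hO' ?_
  unfold Fai at hf
  push Not at hf
  have h5 := hf.1
  have h6 : (r.2.1 : ℝ) ≤ r.2.2.1 + (Z'.B \ nd.Z.B).ncard := by exact_mod_cast h4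
  have h7 : ((k * (m' * (2 * W + 3) + 2 * (μ' + W + 1) + 1) + 1 : ℕ) : ℝ) ≤
      ((Z'.B \ nd.Z.B).ncard : ℝ) := by
    push_cast
    linarith
  exact_mod_cast h7

end SYS.GW
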