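import Pool.Agent.SYS.GW.BrA

/-!
# SYSS-GRW-Chn: connected sets of faces along a branch
-/

namespace SYS.GW

open Classical SST SYS.Num SYS.XP Str

variable {n b g W v R k i p F L V l v' : ℕ} {x γ ε₁ γ₂ ε₂ : ℝ} {B : CH.Blk} {T : Tri (Fin (6 * n))} {Z Z' : Part (Fin (6 * n))} {nd nd' : Nd (Fin (6 * n))}
  {P : Lev} {u : List ℕ} {f : Fin (6 * n)} {Y Y' : Set (Fin (6 * n))}

private theorem cn_ind {S : Part (Fin (6 * n))} (q : Fin (6 * n) → Prop) (ha : ∀ d, q d ↔ q (S.a d)) (hf : ∀ d, q d ↔ q (S.f d))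
    {d e : Fin (6 * n)} (h : S.Cn d e) : q d ↔ q e := by
  unfold Part.Cn at h
  induction h with
  | rel u v huv =>
    rcases huv with huv | huv
    · rw [huv]
      exact ha u
    · rw [huv]
      exact hf u
  | refl u => exact Iff.rfl
  | symm u v _ ih => exact ih.symm
  | trans u v w _ _ ih1 ih2 => exact ih1.trans ih2

theorem oh_dc (h : OH Z p F) (hL : Z.Le T) : Fs T Z.R ∧ DC T Z.R ∧ (bdy T Z.R).ncard ≤ Z.R.ncard := by
  refine ⟨fun d => Part.le_f_mem hL d, ?_, Set.ncard_le_ncard (fun d hd => hd.1) (Set.toFinite _)⟩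
  intro X hX hne hf ha
  refine Set.Subset.antisymm hX ?_
  obtain ⟨d, hd⟩ := hne
  intro e he
  obtain ⟨z, hz⟩ := h
  have hcn : Z.Cn d e := by
    obtain ⟨b₁, hb₁, hc₁⟩ := hz.tc d (hX hd)
    obtain ⟨b₂, hb₂, hc₂⟩ := hz.tc e he
    obtain ⟨z₁, hz₁, hs₁⟩ := hz.hl.2.2 b₁ hb₁
    obtain ⟨z₂, hz₂, hs₂⟩ := hz.hl.2.2 b₂ hb₂
    rw [List.mem_singleton] at hz₁ hz₂
    subst hz₁
    subst hz₂
    exact Part.cn_trans hc₁ (Part.cn_trans (Part.cn_symm (Part.cn_of_same hs₁)) (Part.cn_trans (Part.cn_of_same hs₂) (Part.cn_symm hc₂)))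
  have h1 : ∀ u, u ∈ X → Z.a u ∈ X := by
    intro u hu
    by_cases h2 : Z.a u = u
    · rw [h2]
      exact hu
    · have h3 := hL.2 u h2
      rw [← h3]
      refine ha u hu ?_
      rw [h3, Part.mem_R_a]
      exact hX hu
  have h2 : ∀ u, u ∈ X → Z.f u ∈ X := by
    intro u hu
    have h3 : Z.f u ≠ u := hX hu
    rw [← hL.1 u h3]
    exact hf u hu
  refine (cn_ind (fun u => u ∈ X) (fun u => ⟨h1 u, fun h3 => ?_⟩) (fun u => ⟨h2 u, fun h3 => ?_⟩) hcn).1 hd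
  · have h4 := h1 _ h3
    rw [Z.aa] at h4
    exact h4
  · have h4 := h2 _ (h2 _ h3)
    rw [Z.fff] at h4
    exact h4

theorem dc_union (h : DC T Y) (h' : DC T Y') (hF : Fs T Y) (hF' : Fs T Y') (hf : f ∈ Y) (hf' : T.a f ∈ Y') :
    Fs T (Y ∪ Y') ∧ DC T (Y ∪ Y') ∧ (bdy T (Y ∪ Y')).ncard ≤ (bdy T Y).ncard + (bdy T Y').ncard := by
  refine ⟨fun d => or_congr (hF d) (hF' d), ?_, ?_⟩
  · intro X hX hne hf0 ha
    have k1 : (X ∩ Y).Nonempty → Y ⊆ X := by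
      intro hn
      have e1 : X ∩ Y = Y := h (X ∩ Y) Set.inter_subset_right hn (fun d hd => ⟨hf0 d hd.1, (hF d).2 hd.2⟩)
        fun d hd h3 => ⟨ha d hd.1 (Or.inl h3), h3⟩
      rw [← e1]
      exact Set.inter_subset_left
    have k2 : (X ∩ Y').Nonempty → Y' ⊆ X := by
      intro hn
      have e1 : X ∩ Y' = Y' := h' (X ∩ Y') Set.inter_subset_right hn (fun d hd => ⟨hf0 d hd.1, (hF' d).2 hd.2⟩)
        fun d hd h3 => ⟨ha d hd.1 (Or.inr h3), h3⟩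
      rw [← e1]
      exact Set.inter_subset_left
    have both : Y ⊆ X ∧ Y' ⊆ X := by
      obtain ⟨z, hz⟩ := hne
      rcases hX hz with h3 | h3
      · have h4 := k1 ⟨z, hz, h3⟩
        have h5 : T.a f ∈ X := ha f (h4 hf) (Or.inr hf')
        exact ⟨h4, k2 ⟨_, h5, hf'⟩⟩
      · have h4 := k2 ⟨z, hz, h3⟩
        have h5 : f ∈ X := by
          have h6 := ha _ (h4 hf') (by rw [T.aa]; exact Or.inl hf)
          rwa [T.aa] at h6
        exact ⟨k1 ⟨_, h5, hf⟩, h4⟩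
    exact Set.Subset.antisymm hX (Set.union_subset both.1 both.2)
  · refine (Set.ncard_le_ncard ?_ (Set.toFinite _)).trans (Set.ncard_union_le _ _)
    rintro d ⟨h1 | h1, h2⟩
    · exact Or.inl ⟨h1, fun h3 => h2 (Or.inl h3)⟩
    · exact Or.inr ⟨h1, fun h3 => h2 (Or.inr h3)⟩

private theorem ex_aux (hB : BOk B x W v γ ε₁) (Z₀ : Part (Fin (6 * n))) {r : Part (Fin (6 * n)) × ℕ × ℕ × ℕ} {e : Fin (6 * n)} (he : e ∈ Z'.B)
    (G : List (Fin (6 * n))) : ∀ (Z : Part (Fin (6 * n))) (X κ N : ℕ), (∃ p F, OH Z p F) → In T Z → e ∉ Z.B →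
      Run b T (nodeS B W v Z₀ G Z X κ N) Z r Z' →
      ∃ f ∈ G, ∃ Z X', (∃ p F, OH Z p F) ∧ f ∈ Z.B ∧ In T Z ∧ CH.PE B T Z f X' ∧ e ∈ X'.B ∧ e ∉ Z.B := by
  induction G with
  | nil =>
    intro Z X κ N _ _ he' hR
    obtain ⟨-, rfl⟩ := hR
    exact absurd he he'
  | cons f G ih =>
    intro Z X κ N hO hT he' hR
    rw [nodeS] at hR
    split_ifs at hR with hF
    · have hfB : f ∈ Z.B := by
        have h1 := hF 0 (by rw [abs_zero]; omega)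
        have h2 : Z₀.bs f 0 = f := by
          show (Z₀.nx ^ (0 : ℤ)) f = f
          rw [zpow_zero]
          rfl
        rw [h2] at h1
        exact h1
      obtain ⟨a, Z₁, h1, h2⟩ := run_bind.1 hR
      obtain ⟨p, F, hOp⟩ := hO
      obtain ⟨h3, h4⟩ := blk_run hB hOp hfB h1 hT
      subst h3
      have hT1 := run_in hT h1
      obtain ⟨p', F', hO1, -⟩ := lf_oh hOp (blk_gat (b := b) hB hOp hfB).2 (run_lf h1)
      by_cases he1 : e ∈ Z₁.B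
      · exact ⟨f, List.mem_cons_self, Z, Z₁, ⟨p, F, hOp⟩, hfB, hT, h4, he1, he'⟩
      · obtain ⟨f', hf', h5⟩ := ih Z₁ _ _ _ ⟨p', F', hO1⟩ hT1 he1 h2
        exact ⟨f', List.mem_cons_of_mem _ hf', h5⟩
    · obtain ⟨f', hf', h5⟩ := ih Z _ _ _ hO hT he' hR
      exact ⟨f', List.mem_cons_of_mem _ hf', h5⟩

theorem node_ex (hB : BOk B x W v γ ε₁) {m μ : ℕ} (h : NdOk W μ m nd) (hT : In T nd.Z) {r : Part (Fin (6 * n)) × ℕ × ℕ × ℕ}
    (hR : Run b T (nodeS B W v nd.Z nd.gts nd.Z 0 0 0) nd.Z r Z') {e : Fin (6 * n)} (he : e ∈ Z'.B) (he' : e ∉ nd.Z.B) :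
    ∃ f ∈ nd.gts, ∃ Z X', (∃ p F, OH Z p F) ∧ f ∈ Z.B ∧ In T Z ∧ CH.PE B T Z f X' ∧ e ∈ X'.B ∧ e ∉ Z.B := by
  exact ex_aux hB nd.Z he nd.gts nd.Z 0 0 0 h.oh hT he' hR

theorem suc_chain (hB : BOk B x W v γ ε₁) (hD : DOk B L V) (hP : LevOk P W B.K b γ₂ ε₂ R k) (hi : i + u.length ≤ R + k) (hu : Adr P i u)
    (h : NdOk W (P.μ i) (P.m i) nd) (hTn : T ∈ Trn n g) (hT : In T nd.Z) (hS : Suc b T B W v P γ₂ ε₂ i u nd nd') (y : Fin (6 * n))
    (h0 : ∀ f ∈ nd.gts, ∃ Y : Set (Fin (6 * n)), Fs T Y ∧ DC T Y ∧ y ∈ Y ∧ f ∈ Y ∧ (bdy T Y).ncard ≤ l ∧ Y.ncard ≤ v') :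
    ∀ f ∈ nd'.gts, ∃ Y : Set (Fin (6 * n)), Fs T Y ∧ DC T Y ∧ y ∈ Y ∧ f ∈ Y ∧ (bdy T Y).ncard ≤ l + u.length * L ∧
      Y.ncard ≤ v' + u.length * V := by
  induction u generalizing i nd l v' with
  | nil =>
    obtain rfl : nd' = nd := hS
    simpa using h0
  | cons a u ih =>
    obtain ⟨r, Z', hR, hF, hS'⟩ := hS
    rw [List.length_cons] at hi
    obtain ⟨h1, h2⟩ := node_ch hB hP (by omega) h hR hF
    have ha : a < P.b i := by
      have h3 := hu 0 (by simp)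
      simpa using h3
    have hu' : Adr P (i + 1) u := by
      intro j hj
      have h3 := hu (j + 1) (by simpa using hj)
      have e1 : i + 1 + j = i + (j + 1) := by omega
      rw [e1]
      simpa using h3
    have hZ := h2.Z a ha
    have hok := h2.ok a ha
    have hT' := run_in hT hR
    have h5 : ∀ f ∈ (P.ch W i nd Z' a).gts, ∃ Y : Set (Fin (6 * n)), Fs T Y ∧ DC T Y ∧ y ∈ Y ∧ f ∈ Y ∧ (bdy T Y).ncard ≤ l + L ∧
        Y.ncard ≤ v' + V := by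
      intro e he
      have he1 : e ∈ Z'.B := by
        unfold Nd.gts at he
        obtain ⟨j, -, rfl⟩ := List.mem_map.1 he
        have h6 := (Part.nx_pow_same (P.ch W i nd Z' a).Z hok.o j).1
        rw [hZ] at h6
        unfold Nd.ps
        rw [hZ]
        exact h6
      have he2 : e ∉ nd.Z.B := fun h7 => h2.new a ha e he (Part.B_sub_R _ h7)
      obtain ⟨f, hf, Z₁, X', hO, hfB, hT1, hPE, he3, he4⟩ := node_ex hB h hT hR he1 he2
      obtain ⟨Y₁, a1, a2, a3, a4, a5, a6⟩ := h0 f hf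
      obtain ⟨Y₂, b1, b2, b3, b4, b5, b6⟩ := hD T Z₁ X' f e hTn hO hfB hT1 hPE he3 he4
      obtain ⟨c1, c2, c3⟩ := dc_union a2 b2 a1 b1 a4 b3
      refine ⟨Y₁ ∪ Y₂, c1, c2, Or.inl a3, Or.inr b4, c3.trans (Nat.add_le_add a5 b5), ?_⟩
      exact (Set.ncard_union_le _ _).trans (Nat.add_le_add a6 b6)
    have h6 := ih (i := i + 1) (nd := P.ch W i nd Z' a) (l := l + L) (v' := v' + V) (by omega) hu' hok (by rw [hZ]; exact hT') hS' h5
    intro f hf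
    obtain ⟨Y₁, a1, a2, a3, a4, a5, a6⟩ := h6 f hf
    refine ⟨Y₁, a1, a2, a3, a4, ?_, ?_⟩
    · rw [List.length_cons]
      refine a5.trans (le_of_eq ?_)
      ring
    · rw [List.length_cons]
      refine a6.trans (le_of_eq ?_)
      ring

end SYS.GW
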