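import Pool.Agent.SYS.GW.NodeL
import Pool.Agent.SYS.UP.EvD
import Pool.Agent.SYS.US.Grw

/-!
# SYSS-GRW-DefC: success of a branch, mirror exploration, parameters of the levels (definitions).  DO NOT CHANGE.

* `canS N Z`: `N` steps at canonical gates.  `iniNd W m x Z`: a node with `m` gates on the region `Z`, `c ≥ 1`, margins `0` (`x`: any dart, for the default value).
* `Suc b T B W v P γ₂ ε₂ i u nd nd'`: in `T` the run of the branch `u` from the node `nd` of level `i` is small and planar, all nodes succeed, the last node is `nd'`.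
* `Dp b nd V d V'`: the gate `d` of `V` is deep in the territory of the node `nd`.
* `mir b s V J`: the strategy `s` (for the region `V`) played on the larger region `J`.
* `LevOk P W K b γ₂ ε₂ R k`: the sizes of the levels are compatible.
* `iniS`, `fulS`: the strategy from the source to the branch `u`.  `prS`: the branches `pre, a, u` and `pre, a', u'`, the second one played in the mirror.
-/

namespace SYS.GW

open Classical SST SYS.Num SYS.XP Str

section
variable {D A : Type} [Finite D]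

noncomputable def canS : ℕ → Part D → Str D (Part D)
  | 0, Z => .ret Z
  | N + 1, Z => if h : Z.B.Nonempty then .peel h.some (fun Z' => canS N Z') else .ret Z

noncomputable def iniNd (W m : ℕ) (x : D) (Z : Part D) : Nd D :=
  if h : ∃ nd : Nd D, nd.Z = Z ∧ NdOk W 0 m nd ∧ 1 ≤ nd.c then h.choose else ⟨Z, x, 0, []⟩

/-- Success of a branch. -/
def Suc (b : ℕ) (T : Tri D) (B : CH.Blk) (W v : ℕ) (P : Lev) (γ₂ ε₂ : ℝ) : ℕ → List ℕ → Nd D → Nd D → Prop
  | _, [], nd, nd' => nd' = nd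
  | i, a :: u, nd, nd' => ∃ r Z', Run b T (nodeS B W v nd.Z nd.gts nd.Z 0 0 0) nd.Z r Z' ∧ ¬ Fai γ₂ ε₂ (P.m i) r ∧
      Suc b T B W v P γ₂ ε₂ (i + 1) u (P.ch W i nd Z' a) nd'

/-- Deep gates. -/
def Dp (b : ℕ) (nd : Nd D) (V : Part D) (d : D) (_ : Part D) : Prop :=
  nd.o ∈ V.B ∧ ∃ t₁ t₂ : List D, V.hw nd.o = nd.cor ++ (t₁ ++ d :: t₂) ∧ b + 2 ≤ t₁.length ∧ b + 2 ≤ t₂.length

/-- The step of `V` which is seen in `J'`. -/
noncomputable def vst (b : ℕ) (V : Part D) (d : D) (J' : Part D) : Part D :=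
  if h : ∃ V', SS b V d V' ∧ V'.Sub J' then h.choose else V

/-- Mirror. -/
noncomputable def mir (b : ℕ) : Str D A → Part D → Part D → Str D Unit
  | .ret _, _, _ => .ret ()
  | .peel d f, V, J => if d ∈ J.B then .peel d (fun J' => mir b (f (vst b V d J')) (vst b V d J') J') else .ret ()

end

structure LevOk (P : Lev) (W K b : ℕ) (γ₂ ε₂ : ℝ) (R k : ℕ) : Prop where
  size : ∀ i < R + k, ((P.b i * (P.m (i + 1) * (2 * W + 3) + 2 * (P.μ (i + 1) + W + 2) + 2) + 2 : ℕ) : ℝ) ≤ γ₂ * P.m i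
  marg : ∀ i < R + k, R ≤ i → ε₂ * P.m i + (((K + 1) * (b + 3) : ℕ) : ℝ) ≤ P.μ i
  m1 : ∀ i ≤ R + k, 1 ≤ P.m i
  bi : ∀ i < R, P.b i = 1

/-- Addresses of length `l` below a node of level `i`. -/
def Adr (P : Lev) (i : ℕ) (u : List ℕ) : Prop := ∀ (j : ℕ) (h : j < u.length), u[j] < P.b (i + j)

section
variable {D : Type} [Finite D]

/-- From the source region `S` to the first node. -/
noncomputable def iniS (W m N₀ : ℕ) (x : D) (S : Part D) : Str D (Nd D) := (canS N₀ S).bind fun Z => .ret (iniNd W m x Z)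

/-- From the source region to the end of the branch `u`. -/
noncomputable def fulS (B : CH.Blk) (W v : ℕ) (P : Lev) (N₀ : ℕ) (x : D) (S : Part D) (u : List ℕ) : Str D (Nd D) :=
  (iniS W (P.m 0) N₀ x S).bind fun nd => brS B W v P 0 u nd

/-- Two branches. -/
noncomputable def prS (b : ℕ) (B : CH.Blk) (W v : ℕ) (P : Lev) (N₀ : ℕ) (x : D) (S : Part D) (pre : List ℕ) (a a' : ℕ)
    (u u' : List ℕ) : Str D Unit :=
  (fulS B W v P N₀ x S pre).bind fun w => (nodeS B W v w.Z w.gts w.Z 0 0 0).bind fun r =>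
    (brS B W v P (pre.length + 1) u (P.ch W pre.length w r.1 a)).bind fun y =>
      mir b (brS B W v P (pre.length + 1) u' (P.ch W pre.length w r.1 a')) r.1 y.Z

/-- Success from the source `x`: all branches of length `l`. -/
def AllS (b : ℕ) (T : Tri D) (B : CH.Blk) (W v : ℕ) (P : Lev) (γ₂ ε₂ : ℝ) (N₀ V₀ l : ℕ) (x : D) (S : Part D) : Prop :=
  ∃ Z nd, Run b T (canS N₀ S) S Z Z ∧ nd = iniNd W (P.m 0) x Z ∧ NdOk W 0 (P.m 0) nd ∧ nd.Z = Z ∧ 1 ≤ nd.c ∧ Z.R.ncard ≤ V₀ ∧
    ∀ u, Adr P 0 u → u.length = l → ∃ nd', Suc b T B W v P γ₂ ε₂ 0 u nd nd'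

end

end SYS.GW
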