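import Pool.Agent.SYS.GW.GrpN
import Pool.Agent.SYS.GW.DefC

/-!
# SYSS-GRW-GrpD: existence of the children and of the first node
-/

namespace SYS.GW

open Classical SST SYS.Num Str

variable {n p F W μ m μ' m' b : ℕ} {Z' : Part (Fin (6 * n))} {nd : Nd (Fin (6 * n))}

private theorem gd_same {Z : Part (Fin (6 * n))} {d : Fin (6 * n)} (hd : d ∈ Z.B) : Z.s.SameCycle d (Z.nx d) := by
  obtain ⟨j, h1, -, -⟩ := ret_spec Z.s hd
  refine ⟨((j + 1 : ℕ) : ℤ), ?_⟩
  rw [zpow_natCast]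
  exact h1.symm

private theorem gd_pow {Z : Part (Fin (6 * n))} {d : Fin (6 * n)} (hd : d ∈ Z.B) (i : ℕ) :
    (Z.nx ^ i) d ∈ Z.B ∧ Z.s.SameCycle d ((Z.nx ^ i) d) := by
  induction i with
  | zero => exact ⟨hd, Equiv.Perm.SameCycle.refl _ _⟩
  | succ i ih =>
    rw [pow_succ', Equiv.Perm.mul_apply]
    exact ⟨(Part.nx_mem Z).2 ih.1, ih.2.trans (gd_same ih.1)⟩

private theorem gd_inj {Z : Part (Fin (6 * n))} {d : Fin (6 * n)} (hd : d ∈ Z.B) {i j : ℕ} (hi : i < Z.per d) (hj : j < Z.per d)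
    (h : (Z.nx ^ i) d = (Z.nx ^ j) d) : i = j := by
  have h1 := Part.hw_nodup Z hd
  unfold Part.hw at h1
  exact List.inj_on_of_nodup_map h1 (List.mem_range.2 hi) (List.mem_range.2 hj) h

private theorem gd_cyc {Z : Part (Fin (6 * n))} {d e : Fin (6 * n)} (hd : d ∈ Z.B) (he : e ∈ Z.B) (h : Z.s.SameCycle d e) :
    ∃ i < Z.per d, (Z.nx ^ i) d = e := by
  have h1 := (Part.mem_hw Z hd).2 ⟨he, h⟩
  unfold Part.hw at h1
  obtain ⟨i, hi, h2⟩ := List.mem_map.1 h1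
  exact ⟨i, List.mem_range.1 hi, h2⟩

private theorem gd_per {Z : Part (Fin (6 * n))} {d : Fin (6 * n)} (hd : d ∈ Z.B) : (Z.nx ^ Z.per d) d = d := by
  obtain ⟨h1, h2⟩ := gd_pow hd (Z.per d)
  obtain ⟨i, hi, h3⟩ := gd_cyc hd h1 h2
  rcases Nat.eq_zero_or_pos i with h4 | h4
  · rw [h4] at h3
    exact h3.symm
  · exfalso
    have h5 : (Z.nx ^ (i - 1)) d = (Z.nx ^ (Z.per d - 1)) d := by
      apply Z.nx.injective
      rw [← Equiv.Perm.mul_apply, ← Equiv.Perm.mul_apply, ← pow_succ', ← pow_succ',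
        Nat.sub_add_cancel h4, Nat.sub_add_cancel (show 1 ≤ Z.per d by omega)]
      exact h3
    have h6 := gd_inj hd (show i - 1 < Z.per d by omega) (show Z.per d - 1 < Z.per d by omega) h5
    omega

theorem ps_hw {Z : Part (Fin (6 * n))} {o : Fin (6 * n)} (ho : o ∈ Z.B) {i : ℕ} (hi : i ≤ Z.per o) :
    Z.hw ((Z.nx ^ i) o) = (Z.hw o).drop i ++ (Z.hw o).take i := by
  have hl := Part.hw_length Z ho
  rcases Nat.lt_or_ge i (Z.per o) with h1 | h1
  · have h2 : i < (Z.hw o).length := by omega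
    have h3 : (Z.hw o)[i] = (Z.nx ^ i) o := by
      simp only [Part.hw, List.getElem_map, List.getElem_range]
    have h4 : Z.hw o = (Z.hw o).take i ++ (Z.nx ^ i) o :: (Z.hw o).drop (i + 1) := by
      rw [← h3, ← List.drop_eq_getElem_cons h2, List.take_append_drop]
    rw [Part.hw_rot Z ho h4, List.drop_eq_getElem_cons h2, h3]
    rfl
  · have h2 : i = Z.per o := le_antisymm hi h1
    rw [h2, gd_per ho, ← hl, List.drop_length, List.take_length, List.nil_append]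

private theorem gd_oh {Z : Part (Fin (6 * n))} (h : OH Z p F) {y : Fin (6 * n)} (hy : y ∈ Z.B) : Z.per y = p ∧ pz Z = p ∧
    ∀ e ∈ Z.B, ∃ i < p, (Z.nx ^ i) y = e := by
  have h1 := (oh_typ h hy).per
  rw [List.map_singleton, List.cons.injEq] at h1
  refine ⟨h1.1, (oh_pz h).1, fun e he => ?_⟩
  rw [← h1.1]
  obtain ⟨e', he', h2⟩ := (oh_typ h hy).hl.2.2 e he
  rw [List.mem_singleton] at he'
  rw [he'] at h2
  exact gd_cyc hy he h2

/-- One child. -/
private theorem gd_child {Z : Part (Fin (6 * n))} (h : OH Z p F) {y : Fin (6 * n)} (hy : y ∈ Z.B) {lo hi : ℕ} {G : List ℕ}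
    (h1 : 1 ≤ lo) (h2 : lo < hi) (h3 : hi ≤ p) (hm : G.length = m) (hG : ∀ x ∈ G, lo + (μ + W + 1) ≤ x ∧ x + (μ + W + 1) < hi)
    (hp : G.Pairwise fun x y => x + (2 * W + 3) ≤ y) :
    NdOk W μ m ⟨Z, (Z.nx ^ hi) y, p - (hi - lo), G.map fun x => x + p - hi⟩ ∧ 1 ≤ p - (hi - lo) ∧
    (⟨Z, (Z.nx ^ hi) y, p - (hi - lo), G.map fun x => x + p - hi⟩ : Nd (Fin (6 * n))).gts = (G.map fun x => (Z.nx ^ x) y) ∧
    (⟨Z, (Z.nx ^ hi) y, p - (hi - lo), G.map fun x => x + p - hi⟩ : Nd (Fin (6 * n))).arc = ((Z.hw y).take hi).drop lo ∧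
    (⟨Z, (Z.nx ^ hi) y, p - (hi - lo), G.map fun x => x + p - hi⟩ : Nd (Fin (6 * n))).cor = (Z.hw y).drop hi ++ (Z.hw y).take lo := by
  obtain ⟨k1, k2, k3⟩ := gd_oh h hy
  have hl : (Z.hw y).length = p := by rw [Part.hw_length Z hy, k1]
  have hw := ps_hw hy (show hi ≤ Z.per y by omega)
  have hcl : ((Z.hw y).drop hi).length = p - hi := by rw [List.length_drop, hl]
  have hc : p - (hi - lo) = ((Z.hw y).drop hi).length + lo := by omega
  refine ⟨⟨⟨p, F, h⟩, (gd_pow hy hi).1, ?_, ?_, ?_⟩, by omega, ?_, ?_, ?_⟩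
  · show (G.map fun x => x + p - hi).length = m
    rw [List.length_map, hm]
  · intro i hi'
    obtain ⟨x, hx, rfl⟩ := List.mem_map.1 hi'
    obtain ⟨g1, g2⟩ := hG x hx
    show p - (hi - lo) + μ + W + 1 ≤ x + p - hi ∧ x + p - hi + μ + W + 1 < pz Z
    omega
  · show (G.map fun x => x + p - hi).Pairwise _
    rw [List.pairwise_map]
    refine hp.imp ?_
    intro x y hxy
    omega
  · show ((G.map fun x => x + p - hi).map fun i => (Z.nx ^ i) ((Z.nx ^ hi) y)) = _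
    rw [List.map_map]
    refine List.map_congr_left fun x hx => ?_
    obtain ⟨g1, g2⟩ := hG x hx
    show (Z.nx ^ (x + p - hi)) ((Z.nx ^ hi) y) = (Z.nx ^ x) y
    rw [← Equiv.Perm.mul_apply, ← pow_add, show x + p - hi + hi = x + p by omega, pow_add, Equiv.Perm.mul_apply, ← k1, gd_per hy]
  · show (Z.hw ((Z.nx ^ hi) y)).drop (p - (hi - lo)) = _
    rw [hw, hc, List.drop_append, List.drop_eq_nil_of_le (by omega), List.nil_append]
    congr 1
    omega
  · show (Z.hw ((Z.nx ^ hi) y)).take (p - (hi - lo)) = _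
    rw [hw, hc, List.take_append, List.take_of_length_le (by omega), List.take_take]
    congr 2
    omega

private theorem gd_get {Z : Part (Fin (6 * n))} {y : Fin (6 * n)} (i : ℕ) (h : i < (Z.hw y).length) : (Z.hw y)[i] = (Z.nx ^ i) y := by
  simp only [Part.hw, List.getElem_map, List.getElem_range]

private theorem gd_mem_arc {Z : Part (Fin (6 * n))} {y e : Fin (6 * n)} {lo hi : ℕ} (h : e ∈ ((Z.hw y).take hi).drop lo) :
    ∃ x, lo ≤ x ∧ x < hi ∧ x < (Z.hw y).length ∧ e = (Z.nx ^ x) y := by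
  obtain ⟨i, hi', rfl⟩ := List.getElem_of_mem h
  rw [List.length_drop, List.length_take] at hi'
  refine ⟨lo + i, by omega, by omega, by omega, ?_⟩
  rw [List.getElem_drop, List.getElem_take, gd_get]

private theorem gd_exists (h : NdOk W μ m nd) (h' : OH Z' p F) (hs : nd.Z.Sub Z')
    (hN : b * (m' * (2 * W + 3) + 2 * (μ' + W + 2) + 2) + 1 ≤ (Z'.B \ nd.Z.B).ncard) : ∃ ch, ChOk W μ' m' b nd Z' ch := by
  have hne : (Z'.B \ nd.Z.B).Nonempty := by
    rw [← Set.ncard_pos (Set.toFinite _)]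
    omega
  obtain ⟨y, lo₀, hy, hlo₀, hlow, hcase⟩ : ∃ (y : Fin (6 * n)) (lo₀ : ℕ), y ∈ Z'.B ∧ 1 ≤ lo₀ ∧
      (∀ x < lo₀, (Z'.nx ^ x) y ∈ nd.Z.B ∨ x = 0) ∧
      ∀ t, Z'.hw nd.o = nd.cor ++ t → nd.o ∈ Z'.B → 1 ≤ nd.c → nd.o = y ∧ nd.cor = (Z'.hw y).take lo₀ := by
    by_cases hA : nd.o ∈ Z'.B ∧ 1 ≤ nd.c ∧ ∃ t, Z'.hw nd.o = nd.cor ++ t
    · obtain ⟨hA1, hA2, t, hA3⟩ := hA
      have hpos := Part.per_pos nd.Z h.o
      have hlen : nd.cor.length = min nd.c (nd.Z.per nd.o) := by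
        unfold Nd.cor
        rw [List.length_take, Part.hw_length nd.Z h.o]
      refine ⟨nd.o, nd.cor.length, hA1, by omega, ?_, ?_⟩
      · intro x hx
        left
        have h1 : x < (Z'.hw nd.o).length := by
          rw [hA3, List.length_append]
          omega
        have h2 : (Z'.nx ^ x) nd.o = nd.cor[x] := by
          rw [← gd_get x h1]
          simp only [hA3]
          rw [List.getElem_append_left hx]
        have h3 : nd.cor[x] ∈ nd.Z.hw nd.o := List.mem_of_mem_take (List.getElem_mem hx)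
        rw [h2]
        exact ((Part.mem_hw nd.Z h.o).1 h3).1
      · intro t' ht' _ _
        refine ⟨rfl, ?_⟩
        rw [ht', List.take_left']
        rfl
    · obtain ⟨y, hy⟩ := hne
      refine ⟨y, 1, hy.1, le_rfl, fun x hx => Or.inr (by omega), ?_⟩
      intro t ht h1 h2
      exact absurd ⟨h1, h2, t, ht⟩ hA
  obtain ⟨k1, k2, k3⟩ := gd_oh h' hy
  have hl : (Z'.hw y).length = p := by rw [Part.hw_length Z' hy, k1]
  obtain ⟨E, hE⟩ : ∃ E : Finset ℕ, E = (Finset.range p).filter fun x => lo₀ ≤ x ∧ (Z'.nx ^ x) y ∉ nd.Z.B := ⟨_, rfl⟩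
  have hcard : (Z'.B \ nd.Z.B).ncard ≤ E.card + 1 := by
    have h1 : Z'.B \ nd.Z.B ⊆ (fun x => (Z'.nx ^ x) y) '' ((insert 0 E : Finset ℕ) : Set ℕ) := by
      rintro e ⟨he1, he2⟩
      obtain ⟨i, hi, rfl⟩ := k3 e he1
      refine ⟨i, ?_, rfl⟩
      rw [Finset.mem_coe, Finset.mem_insert]
      by_cases hi0 : i = 0
      · exact Or.inl hi0
      · right
        rw [hE, Finset.mem_filter, Finset.mem_range]
        refine ⟨hi, ?_, he2⟩
        by_contra hlt
        rcases hlow i (by omega) with h2 | h2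
        · exact he2 h2
        · exact hi0 h2
    calc (Z'.B \ nd.Z.B).ncard ≤ ((fun x => (Z'.nx ^ x) y) '' ((insert 0 E : Finset ℕ) : Set ℕ)).ncard :=
          Set.ncard_le_ncard h1 (Set.toFinite _)
      _ ≤ ((insert 0 E : Finset ℕ) : Set ℕ).ncard := Set.ncard_image_le (Set.toFinite _)
      _ = (insert 0 E : Finset ℕ).card := Set.ncard_coe_finset _
      _ ≤ E.card + 1 := Finset.card_insert_le _ _
  obtain ⟨lo, hi, g, hg⟩ := grp_idx E b m' (μ' + W + 1) (2 * W + 3) lo₀ p (by omega) (by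
    have : μ' + W + 1 + 1 = μ' + W + 2 := by omega
    rw [this]
    omega) (by
    intro x hx
    rw [hE, Finset.mem_filter, Finset.mem_range] at hx
    exact ⟨hx.2.1, hx.1⟩)
  have hch : ∀ j < b, _ := fun j hj => gd_child (m := m') (μ := μ') (W := W) h' hy (show 1 ≤ lo j by
      have := (hg j hj).1
      omega) (hg j hj).2.1 (hg j hj).2.2.1 (hg j hj).2.2.2.2.2.1 (fun x hx => ⟨((hg j hj).2.2.2.2.2.2.1 x hx).2.1,
        ((hg j hj).2.2.2.2.2.2.1 x hx).2.2⟩) (hg j hj).2.2.2.2.2.2.2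
  refine ⟨fun j => ⟨Z', (Z'.nx ^ (hi j)) y, p - (hi j - lo j), (g j).map fun x => x + p - hi j⟩,
    fun j _ => rfl, fun j hj => (hch j hj).1, fun j hj => (hch j hj).2.1, ?_, ?_, ?_, ?_⟩
  · intro j hj e he
    beta_reduce at he
    rw [(hch j hj).2.2.1] at he
    obtain ⟨x, hx, rfl⟩ := List.mem_map.1 he
    have hxE := ((hg j hj).2.2.2.2.2.2.1 x hx).1
    rw [hE, Finset.mem_filter] at hxE
    intro hR
    have h1 : (Z'.nx ^ x) y ∈ Z'.B := (gd_pow hy x).1
    refine hxE.2.2 ⟨hR, ?_⟩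
    by_contra h2
    have h3 := hs.2 _ h2
    rw [h1.2] at h3
    exact h2 h3.symm
  · have key : ∀ i j, i < j → j < b → ∀ e, e ∈ ((Z'.hw y).take (hi i)).drop (lo i) → e ∉ ((Z'.hw y).take (hi j)).drop (lo j) := by
      intro i j hij hj e he he'
      obtain ⟨x, hx1, hx2, hx3, rfl⟩ := gd_mem_arc he
      obtain ⟨x', hx1', hx2', hx3', h1⟩ := gd_mem_arc he'
      have h2 := gd_inj hy (by omega) (by omega) h1
      have h3 := (hg j hj).2.2.2.2.1 i hij
      omega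
    intro i hi' j hj hij e he he'
    beta_reduce at he he'
    rw [(hch i hi').2.2.2.1] at he
    rw [(hch j hj).2.2.2.1] at he'
    rcases Nat.lt_or_gt_of_ne hij with h1 | h1
    · exact key i j h1 hj e he he'
    · exact key j i h1 hi' e he' he
  · intro j hj
    beta_reduce
    rw [(hch j hj).2.2.2.1, List.length_drop, List.length_take, hl]
    obtain ⟨w, hw⟩ := (hg j hj).2.2.2.1
    have h1 := (hg j hj).2.2.1
    exact ⟨w, by omega⟩
  · intro j hj t ht h1 h2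
    beta_reduce
    obtain ⟨h3, h4⟩ := hcase t ht h1 h2
    rw [(hch j hj).2.2.2.1, (hch j hj).2.2.2.2, h4, h3]
    have h5 := (hg j hj).1
    have h6 := (hg j hj).2.1
    have h7 : (Z'.hw y).take (lo j) = (Z'.hw y).take lo₀ ++ ((Z'.hw y).take (lo j)).drop lo₀ := by
      conv_lhs => rw [← List.take_append_drop lo₀ ((Z'.hw y).take (lo j))]
      rw [List.take_take, min_eq_left h5]
    have h8 : (Z'.hw y).take (hi j) = (Z'.hw y).take (lo j) ++ ((Z'.hw y).take (hi j)).drop (lo j) := by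
      conv_lhs => rw [← List.take_append_drop (lo j) ((Z'.hw y).take (hi j))]
      rw [List.take_take, min_eq_left h6.le]
    refine ⟨((Z'.hw y).take (lo j)).drop lo₀, (Z'.hw y).drop (hi j), ?_, ?_⟩
    · conv_lhs => rw [← List.take_append_drop (hi j) (Z'.hw y), h8, h7]
      simp only [List.append_assoc]
    · rw [List.append_assoc, ← h7]

theorem chd_ok (h : NdOk W μ m nd) (h' : OH Z' p F) (hs : nd.Z.Sub Z')
    (hN : b * (m' * (2 * W + 3) + 2 * (μ' + W + 2) + 2) + 1 ≤ (Z'.B \ nd.Z.B).ncard) : ChOk W μ' m' b nd Z' (chd W μ' m' b nd Z') := by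
  have h1 := gd_exists h h' hs hN
  unfold chd
  rw [dif_pos h1]
  exact h1.choose_spec

theorem ini_ok (h' : OH Z' p F) (x : Fin (6 * n)) (hN : m * (2 * W + 3) + 2 * (W + 2) + 4 ≤ p) :
    (iniNd W m x Z').Z = Z' ∧ NdOk W 0 m (iniNd W m x Z') ∧ 1 ≤ (iniNd W m x Z').c := by
  have h1 : ∃ nd : Nd (Fin (6 * n)), nd.Z = Z' ∧ NdOk W 0 m nd ∧ 1 ≤ nd.c := by
    obtain ⟨y, hy⟩ : ∃ y, y ∈ Z'.B := by
      obtain ⟨z, hz⟩ := h'
      exact ⟨z, hz.hl.1 z (List.mem_singleton_self z)⟩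
    obtain ⟨lo, hi, g, hg⟩ := grp_idx (Finset.Ico 1 p) 1 m (0 + W + 1) (2 * W + 3) 1 p (by omega) (by
      rw [Nat.card_Ico, one_mul]
      omega) (fun x hx => Finset.mem_Ico.1 hx)
    obtain ⟨g1, g2, g3, -, -, g4, g5, g6⟩ := hg 0 one_pos
    have h2 := gd_child (m := m) (μ := 0) (W := W) h' hy (show 1 ≤ lo 0 by omega) g2 g3 g4 (fun x hx => ⟨(g5 x hx).2.1, (g5 x hx).2.2⟩) g6
    exact ⟨_, rfl, h2.1, h2.2.1⟩
  unfold iniNd
  rw [dif_pos h1]
  exact h1.choose_spec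

end SYS.GW
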