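import Pool.Agent.SYS.GW.NumNS
import Pool.Agent.SYS.VI.Ub
import Pool.Agent.SYS.PL.RwB
import Pool.Agent.SYS.PL.LawB
import Pool.Agent.SYS.BD.FH

/-!
# SYSS-GRW-NumBig: large swallows after less than `N` small steps from a source

For every perimeter `q` after the large swallow: first visit of `max q 3`, comparison of holes (`ub_low`), visits and
exponential moments (`visits`, `expm`), history inequality (`hist`).
-/

namespace SYS.GW

open Classical SST SYS.Num Filter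

variable {θ x : ℝ}

/-- Large swallows. -/
noncomputable def big (b g p F : ℕ) : ℝ :=
  ∑ k ∈ Finset.range (p - 2), ∑ a ∈ Finset.range (F + 1), if b ≤ k + a then W k a * muG {p - 2 - k} (F - a) g else 0

private theorem nb_A (x : ℝ) : 0 < AA x := by
  have := AA_gt x
  linarith

private theorem nb_prw (x : ℝ) (w : List Stp) : 0 ≤ PRW x w := wwt_nonneg (nb_A x).le (qq_nonneg x) w

private theorem nb_ww (w : List Stp) : 0 ≤ wwt 1 W w := wwt_nonneg zero_le_one W_nonneg w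

/-- Tail of the sum over the words which end with a large swallow. -/
private theorem nb_tail (hx : 0 < x) : ∃ C c ε : ℝ, 0 < C ∧ 0 < c ∧ 0 < ε ∧
    ∀ (s q b : ℕ) (T : Finset (Σ _ : List Stp, ℕ × ℕ)), q ≤ s → s ≤ q + 2 →
      (∀ t ∈ T, WOk s t.1 ∧ wend s t.1 = q + t.2.1 + 2 ∧ b ≤ t.2.1 + t.2.2) →
      ∑ t ∈ T, PRW x t.1 * qq x t.2.1 t.2.2 * Real.exp (ε * ((wvol t.1 : ℝ) + (t.2.2 : ℝ))) ≤
        C * Real.exp (-c * b) := by
  obtain ⟨C₁, c₁, ε₁, hC₁, hc₁, hε₁, hv⟩ := visits hx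
  obtain ⟨δ₀, hδ₀, hs⟩ := expm hx
  obtain ⟨ε, hε, hεa, hεb, hεc⟩ : ∃ ε : ℝ, 0 < ε ∧ ε ≤ ε₁ ∧ ε ≤ δ₀ / 2 ∧ C₁ * ε ≤ δ₀ / 2 := by
    refine ⟨min ε₁ (min (δ₀ / 2) (δ₀ / 2 / C₁)), ?_, min_le_left _ _, ?_, ?_⟩
    · exact lt_min hε₁ (lt_min (by positivity) (by positivity))
    · exact (min_le_right _ _).trans (min_le_left _ _)
    · have h1 : min ε₁ (min (δ₀ / 2) (δ₀ / 2 / C₁)) ≤ δ₀ / 2 / C₁ :=
        (min_le_right _ _).trans (min_le_right _ _)
      have h2 := mul_le_mul_of_nonneg_left h1 hC₁.le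
      rwa [mul_div_cancel₀ _ hC₁.ne'] at h2
  obtain ⟨E, hE⟩ : ∃ E : ℝ, E = ∑' t : ℕ × ℕ, qq x t.1 t.2 * Real.exp (δ₀ * (t.1 + t.2)) := ⟨_, rfl⟩
  have hnn : ∀ t : ℕ × ℕ, 0 ≤ qq x t.1 t.2 * Real.exp (δ₀ * (t.1 + t.2)) := fun t =>
    mul_nonneg (qq_nonneg x _ _) (Real.exp_pos _).le
  have hE0 : 0 ≤ E := by
    rw [hE]
    exact tsum_nonneg hnn
  refine ⟨C₁ * Real.exp (C₁ * ε * 2) * (E + 1), δ₀ / 2, ε, by positivity, by positivity, hε, ?_⟩
  intro s q b T hqs hsq hT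
  rw [← Finset.sum_fiberwise_of_maps_to (s := T) (t := T.image (fun t => t.2)) (g := fun t => t.2)
    (fun t ht => Finset.mem_image_of_mem _ ht)]
  have hin : ∀ z ∈ T.image (fun t => t.2), ∑ t ∈ T.filter (fun t => t.2 = z),
      PRW x t.1 * qq x t.2.1 t.2.2 * Real.exp (ε * ((wvol t.1 : ℝ) + (t.2.2 : ℝ))) ≤
        C₁ * Real.exp (C₁ * ε * 2) * Real.exp (-(δ₀ / 2) * b) * (qq x z.1 z.2 * Real.exp (δ₀ * (z.1 + z.2))) := by
    intro z hz
    obtain ⟨t₀, ht₀, rfl⟩ := Finset.mem_image.1 hz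
    obtain ⟨k, hk⟩ : ∃ k : ℕ, k = t₀.2.1 := ⟨_, rfl⟩
    obtain ⟨a, ha⟩ : ∃ a : ℕ, a = t₀.2.2 := ⟨_, rfl⟩
    have hb : b ≤ k + a := by
      rw [hk, ha]
      exact (hT t₀ ht₀).2.2
    have e1 : ∑ t ∈ T.filter (fun t => t.2 = t₀.2),
        PRW x t.1 * qq x t.2.1 t.2.2 * Real.exp (ε * ((wvol t.1 : ℝ) + (t.2.2 : ℝ))) =
        (qq x k a * Real.exp (ε * a)) * ∑ w ∈ (T.filter (fun t => t.2 = t₀.2)).image (fun t => t.1),
          PRW x w * Real.exp (ε * wvol w) := by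
      rw [Finset.sum_image, Finset.mul_sum]
      · refine Finset.sum_congr rfl fun t ht => ?_
        have h1 := (Finset.mem_filter.1 ht).2
        rw [h1, ← hk, ← ha, mul_add, Real.exp_add]
        ring
      · intro t ht t' ht' htt
        have h1 := (Finset.mem_filter.1 ht).2
        have h2 := (Finset.mem_filter.1 ht').2
        have h3 : t.2 = t'.2 := h1.trans h2.symm
        obtain ⟨tw, tz⟩ := t
        obtain ⟨tw', tz'⟩ := t'
        simp only at htt h3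
        rw [htt, h3]
    have e2 : ∑ w ∈ (T.filter (fun t => t.2 = t₀.2)).image (fun t => t.1),
        PRW x w * Real.exp (ε * wvol w) ≤ C₁ * Real.exp (C₁ * ε * (k + 2)) := by
      have h1 := hv ε hε.le hεa s (q + k + 2) ((T.filter (fun t => t.2 = t₀.2)).image (fun t => t.1)) (by
        intro w hw
        obtain ⟨t, ht, rfl⟩ := Finset.mem_image.1 hw
        obtain ⟨ht1, ht2⟩ := Finset.mem_filter.1 ht
        obtain ⟨h2, h3, _⟩ := hT t ht1
        refine ⟨h2, ?_⟩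
        rw [h3, ht2, ← hk])
      refine h1.trans (mul_le_mul_of_nonneg_left (Real.exp_le_exp.mpr ?_) hC₁.le)
      have h2 : s - (q + k + 2) = 0 := by omega
      have h3 : ((q + k + 2 - s : ℕ) : ℝ) ≤ k + 2 := by
        have : q + k + 2 - s ≤ k + 2 := by omega
        exact_mod_cast this
      rw [h2, Nat.cast_zero, mul_zero, sub_zero]
      exact mul_le_mul_of_nonneg_left h3 (by positivity)
    rw [e1, ← hk, ← ha]
    have hq0 := qq_nonneg x k a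
    have h5 : Real.exp (ε * a) * Real.exp (C₁ * ε * (k + 2)) ≤
        Real.exp (C₁ * ε * 2) * Real.exp (-(δ₀ / 2) * b) * Real.exp (δ₀ * (k + a)) := by
      rw [← Real.exp_add, ← Real.exp_add, ← Real.exp_add]
      apply Real.exp_le_exp.mpr
      have a0 : (0 : ℝ) ≤ a := Nat.cast_nonneg _
      have k0 : (0 : ℝ) ≤ k := Nat.cast_nonneg _
      have hbR : (b : ℝ) ≤ k + a := by exact_mod_cast hb
      have h6 : ε * (a : ℝ) ≤ δ₀ / 2 * a := mul_le_mul_of_nonneg_right hεb a0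
      have h7 : C₁ * ε * (k : ℝ) ≤ δ₀ / 2 * k := mul_le_mul_of_nonneg_right hεc k0
      have h8 : δ₀ / 2 * (b : ℝ) ≤ δ₀ / 2 * (k + a) := mul_le_mul_of_nonneg_left hbR (by positivity)
      nlinarith
    calc (qq x k a * Real.exp (ε * a)) * ∑ w ∈ (T.filter (fun t => t.2 = t₀.2)).image (fun t => t.1),
          PRW x w * Real.exp (ε * wvol w)
        ≤ (qq x k a * Real.exp (ε * a)) * (C₁ * Real.exp (C₁ * ε * (k + 2))) :=
          mul_le_mul_of_nonneg_left e2 (by positivity)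
      _ = C₁ * qq x k a * (Real.exp (ε * a) * Real.exp (C₁ * ε * (k + 2))) := by ring
      _ ≤ C₁ * qq x k a * (Real.exp (C₁ * ε * 2) * Real.exp (-(δ₀ / 2) * b) * Real.exp (δ₀ * (k + a))) :=
          mul_le_mul_of_nonneg_left h5 (by positivity)
      _ = _ := by ring
  refine (Finset.sum_le_sum hin).trans ?_
  rw [← Finset.mul_sum]
  have h9 : ∑ z ∈ T.image (fun t => t.2), qq x z.1 z.2 * Real.exp (δ₀ * (z.1 + z.2)) ≤ E + 1 := by
    have h10 := hs.sum_le_tsum (T.image (fun t => t.2)) (fun t _ => hnn t)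
    rw [← hE] at h10
    linarith
  calc C₁ * Real.exp (C₁ * ε * 2) * Real.exp (-(δ₀ / 2) * b) *
        ∑ z ∈ T.image (fun t => t.2), qq x z.1 z.2 * Real.exp (δ₀ * (z.1 + z.2))
      ≤ C₁ * Real.exp (C₁ * ε * 2) * Real.exp (-(δ₀ / 2) * b) * (E + 1) :=
        mul_le_mul_of_nonneg_left h9 (by positivity)
    _ = _ := by ring

/-- One word. -/
private theorem nb_word {ε K δ : ℝ} {M : ℕ} (hK : 0 < K)
    (hub : ∀ (Q : Multiset ℕ) (F g p p' v : ℕ), 1 ≤ p' → p' ≤ p → p ≤ p' + 2 → v ≤ F → Even (p + p' + v) →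
      Win θ δ M (p' ::ₘ Q) F g → UU x Q g p' (F - v) ≤ K * Real.exp (ε * v) * UU x Q g p F)
    {F g q s k a : ℕ} {w : List Stp} (hq : 1 ≤ q) (hqs : q ≤ s) (hsq : s ≤ q + 2) (hw : WOk s w)
    (he : wend s w = q + k + 2) (hv : wvol w + a ≤ F) (hW : Win θ δ M {q} F g) :
    wwt 1 W w * W k a * muG {q} (F - (wvol w + a)) g ≤
      PRW x w * qq x k a * Real.exp (ε * ((wvol w : ℝ) + (a : ℝ))) * (K * muG {s} F g) := by
  have hA := nb_A x
  have hy : 0 < √(yy x) := Real.sqrt_pos.2 (SYS.RB.yy_pos x)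
  have hm := muG_nonneg {s} F g
  obtain ⟨w', hw'⟩ : ∃ w' : List Stp, w' = w ++ [Stp.R k a] := ⟨_, rfl⟩
  have h1 : WOk s w' := by
    rw [hw', WOk_append]
    refine ⟨hw, ?_, trivial⟩
    rw [he]
    show k + 3 ≤ q + k + 2
    omega
  have h2 : wend s w' = q := by
    rw [hw', wend_append, he]
    show q + k + 2 - (k + 2) = q
    omega
  have h3 : wvol w' = wvol w + a := by
    rw [hw', wvol_append, wvol_cons, wvol_nil]
    rfl
  have h4 : wwt 1 W w' = wwt 1 W w * W k a := by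
    rw [hw', wwt_append, wwt_cons, wwt_nil, mul_one]
    rfl
  have h5 : PRW x w' = PRW x w * qq x k a := by
    unfold PRW
    rw [hw', wwt_append, wwt_cons, wwt_nil, mul_one]
    rfl
  have hp := nb_prw x w'
  have e0 : ((wvol w' : ℕ) : ℝ) = (wvol w : ℝ) + (a : ℝ) := by rw [h3, Nat.cast_add]
  rw [← h4, ← h5, ← h3, ← e0]
  by_cases h0 : wwt 1 W w' = 0
  · rw [h0, zero_mul]
    positivity
  · have a4 := word_par h1 h0
    rw [h2] at a4
    have a3 : wvol w' ≤ F := by omega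
    have a5 := hub 0 F g s q (wvol w') hq hqs hsq a3 (by
      have e : s + q + wvol w' = wvol w' + q + s := by ring
      rw [e]
      exact a4) hW
    have a6 := word_UU x 0 g s F w' h1 a3
    rw [h2] at a6
    have a7 : 0 < √(yy x) ^ (F + s) / AA x ^ s := by positivity
    have a8 : UU x 0 g s F = muG {s} F g * (√(yy x) ^ (F + s) / AA x ^ s) := by
      unfold UU
      rw [mul_div_assoc]
      rfl
    refine le_of_mul_le_mul_right ?_ a7
    have a9 : wwt 1 W w' * muG {q} (F - wvol w') g * (√(yy x) ^ (F + s) / AA x ^ s) =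
        PRW x w' * UU x 0 g q (F - wvol w') := a6
    rw [a9]
    calc PRW x w' * UU x 0 g q (F - wvol w')
        ≤ PRW x w' * (K * Real.exp (ε * wvol w') * UU x 0 g s F) := mul_le_mul_of_nonneg_left a5 hp
      _ = PRW x w' * Real.exp (ε * wvol w') * (K * muG {s} F g) *
          (√(yy x) ^ (F + s) / AA x ^ s) := by
        rw [a8]
        ring

/-- The words with a given perimeter after the large swallow. -/
private theorem nb_q {ε K δ C c : ℝ} {M : ℕ} (hK : 0 < K) (hC : 0 < C)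
    (hub : ∀ (Q : Multiset ℕ) (F g p p' v : ℕ), 1 ≤ p' → p' ≤ p → p ≤ p' + 2 → v ≤ F → Even (p + p' + v) →
      Win θ δ M (p' ::ₘ Q) F g → UU x Q g p' (F - v) ≤ K * Real.exp (ε * v) * UU x Q g p F)
    (htail : ∀ (s q b : ℕ) (T : Finset (Σ _ : List Stp, ℕ × ℕ)), q ≤ s → s ≤ q + 2 →
      (∀ t ∈ T, WOk s t.1 ∧ wend s t.1 = q + t.2.1 + 2 ∧ b ≤ t.2.1 + t.2.2) →
      ∑ t ∈ T, PRW x t.1 * qq x t.2.1 t.2.2 * Real.exp (ε * ((wvol t.1 : ℝ) + (t.2.2 : ℝ))) ≤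
        C * Real.exp (-c * b))
    {F g q b : ℕ} (hg : g ≠ 0) (hq : 1 ≤ q) (T : Finset (Σ _ : List Stp, ℕ × ℕ))
    (hT : ∀ t ∈ T, WOk 3 t.1 ∧ wend 3 t.1 = q + t.2.1 + 2 ∧ b ≤ t.2.1 + t.2.2 ∧ wvol t.1 + t.2.2 ≤ F ∧
      Win θ δ M {q} (F - wvol (pfx (max q 3) 3 t.1)) g) :
    ∑ t ∈ T, wwt 1 W t.1 * W t.2.1 t.2.2 * muG {q} (F - (wvol t.1 + t.2.2)) g ≤
      K * C * Real.exp (-c * b) * muG {3} F g := by
  obtain ⟨s, hs⟩ : ∃ s : ℕ, s = max q 3 := ⟨_, rfl⟩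
  have hqs : q ≤ s := by rw [hs]; exact le_max_left _ _
  have h3s : 3 ≤ s := by rw [hs]; exact le_max_right _ _
  have hsq : s ≤ q + 2 := by rw [hs]; exact max_le (by omega) (by omega)
  rw [← hs] at hT
  have hcut : ∀ t ∈ T, FH 3 s (pfx s 3 t.1) ∧ WOk s (sfx s 3 t.1) ∧ wend s (sfx s 3 t.1) = q + t.2.1 + 2 := by
    intro t ht
    obtain ⟨h1, h2, _⟩ := hT t ht
    have h3 := cut h1 h3s (by rw [h2]; omega)
    rw [h2] at h3
    exact h3
  have hvol : ∀ w, wvol w = wvol (pfx s 3 w) + wvol (sfx s 3 w) := by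
    intro w
    rw [← wvol_append, pfx_sfx]
  have hwt : ∀ w, wwt 1 W w = wwt 1 W (pfx s 3 w) * wwt 1 W (sfx s 3 w) := by
    intro w
    rw [← wwt_append, pfx_sfx]
  have hD : 0 ≤ K * C * Real.exp (-c * b) := by positivity
  rw [← Finset.sum_fiberwise_of_maps_to (s := T) (t := T.image (fun t => pfx s 3 t.1))
    (g := fun t => pfx s 3 t.1) (fun t ht => Finset.mem_image_of_mem _ ht)]
  have hfib : ∀ u ∈ T.image (fun t => pfx s 3 t.1), ∑ t ∈ T.filter (fun t => pfx s 3 t.1 = u),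
      wwt 1 W t.1 * W t.2.1 t.2.2 * muG {q} (F - (wvol t.1 + t.2.2)) g ≤
        K * C * Real.exp (-c * b) * (wwt 1 W u * muG (wend 3 u ::ₘ 0) (F - wvol u) g) := by
    intro u hu
    obtain ⟨t₀, ht₀, hu₀⟩ := Finset.mem_image.1 hu
    have hend : wend 3 u = s := by
      rw [← hu₀]
      exact (hcut t₀ ht₀).1.2.1
    have hwin : Win θ δ M {q} (F - wvol u) g := by
      have h1 := (hT t₀ ht₀).2.2.2.2
      rwa [hu₀] at h1
    have h1 : ∀ t ∈ T.filter (fun t => pfx s 3 t.1 = u),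
        wwt 1 W t.1 * W t.2.1 t.2.2 * muG {q} (F - (wvol t.1 + t.2.2)) g ≤
        (wwt 1 W u * (K * muG {s} (F - wvol u) g)) * (PRW x (sfx s 3 t.1) * qq x t.2.1 t.2.2 *
          Real.exp (ε * ((wvol (sfx s 3 t.1) : ℝ) + (t.2.2 : ℝ)))) := by
      intro t ht
      obtain ⟨ht1, ht2⟩ := Finset.mem_filter.1 ht
      obtain ⟨_, c2, c3⟩ := hcut t ht1
      have h2 := (hT t ht1).2.2.2.1
      have h3 : wvol u + wvol (sfx s 3 t.1) = wvol t.1 := by rw [← ht2]; exact (hvol t.1).symm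
      have h4 := nb_word (F := F - wvol u) (g := g) (a := t.2.2) hK hub hq hqs hsq c2 c3 (by omega) hwin
      have h5 : F - (wvol t.1 + t.2.2) = F - wvol u - (wvol (sfx s 3 t.1) + t.2.2) := by omega
      have h6 : wwt 1 W t.1 = wwt 1 W u * wwt 1 W (sfx s 3 t.1) := by
        rw [← ht2]
        exact hwt t.1
      rw [h5, h6]
      calc wwt 1 W u * wwt 1 W (sfx s 3 t.1) * W t.2.1 t.2.2 *
            muG {q} (F - wvol u - (wvol (sfx s 3 t.1) + t.2.2)) g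
          = wwt 1 W u * (wwt 1 W (sfx s 3 t.1) * W t.2.1 t.2.2 *
            muG {q} (F - wvol u - (wvol (sfx s 3 t.1) + t.2.2)) g) := by ring
        _ ≤ wwt 1 W u * (PRW x (sfx s 3 t.1) * qq x t.2.1 t.2.2 *
            Real.exp (ε * ((wvol (sfx s 3 t.1) : ℝ) + (t.2.2 : ℝ))) * (K * muG {s} (F - wvol u) g)) :=
            mul_le_mul_of_nonneg_left h4 (nb_ww u)
        _ = _ := by ring
    refine (Finset.sum_le_sum h1).trans ?_
    rw [← Finset.mul_sum]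
    have hinj : Set.InjOn (fun t : (Σ _ : List Stp, ℕ × ℕ) => (⟨sfx s 3 t.1, t.2⟩ : Σ _ : List Stp, ℕ × ℕ))
        (T.filter (fun t => pfx s 3 t.1 = u) : Finset (Σ _ : List Stp, ℕ × ℕ)) := by
      intro t ht t' ht' htt
      have ha' := (Finset.mem_filter.1 ht).2
      have hb' := (Finset.mem_filter.1 ht').2
      obtain ⟨tw, tz⟩ := t
      obtain ⟨tw', tz'⟩ := t'
      simp only [Sigma.mk.injEq, heq_eq_eq] at htt ha' hb' ⊢
      refine ⟨?_, htt.2⟩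
      rw [← pfx_sfx s 3 tw, ← pfx_sfx s 3 tw', ha', hb', htt.1]
    have h7 : ∑ t ∈ T.filter (fun t => pfx s 3 t.1 = u), (PRW x (sfx s 3 t.1) * qq x t.2.1 t.2.2 *
          Real.exp (ε * ((wvol (sfx s 3 t.1) : ℝ) + (t.2.2 : ℝ)))) =
        ∑ t ∈ (T.filter (fun t => pfx s 3 t.1 = u)).image
          (fun t : (Σ _ : List Stp, ℕ × ℕ) => (⟨sfx s 3 t.1, t.2⟩ : Σ _ : List Stp, ℕ × ℕ)),
          PRW x t.1 * qq x t.2.1 t.2.2 * Real.exp (ε * ((wvol t.1 : ℝ) + (t.2.2 : ℝ))) := by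
      rw [Finset.sum_image hinj]
    rw [h7]
    have h8 := htail s q b ((T.filter (fun t => pfx s 3 t.1 = u)).image
          (fun t : (Σ _ : List Stp, ℕ × ℕ) => (⟨sfx s 3 t.1, t.2⟩ : Σ _ : List Stp, ℕ × ℕ))) hqs hsq (by
      intro t' ht'
      obtain ⟨t, ht, rfl⟩ := Finset.mem_image.1 ht'
      obtain ⟨ht1, _⟩ := Finset.mem_filter.1 ht
      obtain ⟨_, c2, c3⟩ := hcut t ht1
      exact ⟨c2, c3, (hT t ht1).2.2.1⟩)
    have h9 : 0 ≤ wwt 1 W u * (K * muG {s} (F - wvol u) g) := by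
      have h10 := nb_ww u
      have h11 := muG_nonneg {s} (F - wvol u) g
      positivity
    refine (mul_le_mul_of_nonneg_left h8 h9).trans (le_of_eq ?_)
    rw [hend]
    show wwt 1 W u * (K * muG {s} (F - wvol u) g) * (C * Real.exp (-c * b)) =
      K * C * Real.exp (-c * b) * (wwt 1 W u * muG {s} (F - wvol u) g)
    ring
  refine (Finset.sum_le_sum hfib).trans ?_
  rw [← Finset.mul_sum]
  refine mul_le_mul_of_nonneg_left ?_ hD
  have hpf : PF (T.image (fun t => pfx s 3 t.1)) := by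
    intro u hu v hv' huv
    obtain ⟨a, ha, rfl⟩ := Finset.mem_image.1 hu
    obtain ⟨b', hb', rfl⟩ := Finset.mem_image.1 hv'
    exact FH_eq (hcut a ha).1 (hcut b' hb').1 huv
  exact hist 3 (by norm_num) 0 F g (Or.inr hg) (T.image (fun t => pfx s 3 t.1)) hpf (by
    intro u hu
    obtain ⟨a, ha, rfl⟩ := Finset.mem_image.1 hu
    have h1 := hvol a.1
    have h2 := (hT a ha).2.2.2.1
    exact ⟨(hcut a ha).1.1, by omega⟩)

theorem big_le (h : Par θ x) : ∃ C c δ : ℝ, 0 < C ∧ 0 < c ∧ 0 < δ ∧ ∀ᶠ p in Fth θ, ∀ (N b : ℕ) (S : Finset (List Stp)),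
    ((N : ℝ) + 3) * (b + 1) ≤ δ * p.1 → (∀ w ∈ S, WOk 3 w ∧ w.length < N ∧ wvol w ≤ 2 * p.1 - 1 ∧ SmW b w) →
      ∑ w ∈ S, wwt 1 W w * big b p.2 (wend 3 w) (2 * p.1 - 1 - wvol w) ≤
        C * ((N : ℝ) + 3) * Real.exp (-c * b) * muG {3} (2 * p.1 - 1) p.2 := by
  have hx : 0 < x := h.2.2.1
  obtain ⟨C₁, c, ε, hC₁, hc, hε, htail⟩ := nb_tail hx
  obtain ⟨K, δ', M, hK, hδ', hub⟩ := ub_low h hε 2
  obtain ⟨d, hd0, hd1, hdδ⟩ : ∃ d : ℝ, 0 < d ∧ d ≤ 1 ∧ d ≤ δ' :=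
    ⟨min δ' 1, lt_min hδ' one_pos, min_le_right _ _, min_le_left _ _⟩
  refine ⟨K * C₁, c, d / 4, by positivity, hc, by positivity, ?_⟩
  have hθ : 0 < θ := h.1
  have hθ1 : θ ≤ 1 / 2 := h.2.1.le
  have hlim : Tendsto (fun p : ℕ × ℕ => (p.2 : ℝ) / p.1) (Fth θ) (nhds θ) := SYS.RB.div_lim θ
  have htop : Tendsto (fun p : ℕ × ℕ => (p.1 : ℝ)) (Fth θ) atTop := SYS.RB.fst_atTop θ
  have hge : ∀ᶠ p in Fth θ, 2 * M + 1 ≤ p.1 := SYS.RB.ge_ev θ (2 * M + 1)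
  have hge' : ∀ᶠ p in Fth θ, 1 ≤ p.2 := SYS.RB.ge_ev' hθ 1
  filter_upwards [hlim.eventually (Metric.ball_mem_nhds θ (show (0 : ℝ) < d / 16 by positivity)),
    htop.eventually_ge_atTop (8 / d), hge, hge'] with p f1 f2 f3 f4
  intro N b S hNb hS
  have hg : p.2 ≠ 0 := by omega
  have hn1 : 1 ≤ p.1 := by omega
  obtain ⟨F, hF⟩ : ∃ F : ℕ, F = 2 * p.1 - 1 := ⟨_, rfl⟩
  have hFc : (F : ℝ) = 2 * (p.1 : ℝ) - 1 := by
    rw [hF, Nat.cast_sub (by omega)]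
    push_cast
    ring
  have hn : (1 : ℝ) ≤ p.1 := by exact_mod_cast hn1
  have hFR : (p.1 : ℝ) ≤ F := by linarith
  have w0 : Win θ (d / 4) (2 * M) 0 F p.2 := by
    refine ⟨by omega, ?_, ?_, fun q hq => absurd hq (Multiset.notMem_zero q)⟩
    · rw [Real.dist_eq] at f1
      have h4 : |(p.2 : ℝ) - θ * p.1| ≤ d / 16 * p.1 := by
        have h5 : (p.2 : ℝ) - θ * p.1 = ((p.2 : ℝ) / p.1 - θ) * p.1 := by
          field_simp
        rw [h5, abs_mul, abs_of_pos (by linarith : (0 : ℝ) < p.1)]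
        exact mul_le_mul_of_nonneg_right f1.le (by linarith)
      rw [div_le_iff₀ hd0] at f2
      rw [hFc]
      rw [abs_le] at h4 ⊢
      constructor <;> nlinarith [h4.1, h4.2]
    · rw [Multiset.sum_zero, Nat.cast_zero]
      positivity
  rw [← hF] at hS ⊢
  have hb0 : (0 : ℝ) ≤ b := Nat.cast_nonneg _
  have hN0 : (0 : ℝ) ≤ N := Nat.cast_nonneg _
  have hNb2 : ((N : ℝ) + 3) * (b + 1) ≤ d / 4 * F :=
    hNb.trans (mul_le_mul_of_nonneg_left hFR (by positivity))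
  -- the sum over the words with the large swallow
  obtain ⟨Z, hZ⟩ : ∃ Z : List Stp → Finset (ℕ × ℕ), Z = fun w =>
      ((Finset.range (wend 3 w - 2)) ×ˢ (Finset.range (F - wvol w + 1))).filter (fun z => b ≤ z.1 + z.2) := ⟨_, rfl⟩
  have hbig : ∀ w ∈ S, wwt 1 W w * big b p.2 (wend 3 w) (F - wvol w) =
      ∑ z ∈ Z w, wwt 1 W w * W z.1 z.2 * muG {wend 3 w - 2 - z.1} (F - (wvol w + z.2)) p.2 := by
    intro w _
    rw [hZ]
    unfold big
    rw [← Finset.sum_product', ← Finset.sum_filter, Finset.mul_sum]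
    refine Finset.sum_congr rfl fun z _ => ?_
    rw [mul_assoc, Nat.sub_sub F]
  rw [Finset.sum_congr rfl hbig, ← Finset.sum_sigma S Z (fun t : (Σ _ : List Stp, ℕ × ℕ) =>
    wwt 1 W t.1 * W t.2.1 t.2.2 * muG {wend 3 t.1 - 2 - t.2.1} (F - (wvol t.1 + t.2.2)) p.2)]
  have hmem : ∀ t ∈ S.sigma Z, t.1 ∈ S ∧ t.2.1 < wend 3 t.1 - 2 ∧ t.2.2 < F - wvol t.1 + 1 ∧ b ≤ t.2.1 + t.2.2 := by
    intro t ht
    obtain ⟨h1, h2⟩ := Finset.mem_sigma.1 ht
    rw [hZ] at h2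
    obtain ⟨h3, h4⟩ := Finset.mem_filter.1 h2
    obtain ⟨h5, h6⟩ := Finset.mem_product.1 h3
    exact ⟨h1, Finset.mem_range.1 h5, Finset.mem_range.1 h6, h4⟩
  have hmaps : ∀ t ∈ S.sigma Z, (fun t : (Σ _ : List Stp, ℕ × ℕ) => wend 3 t.1 - 2 - t.2.1) t ∈
      Finset.Icc 1 (N + 2) := by
    intro t ht
    obtain ⟨h1, h2, _, _⟩ := hmem t ht
    have h3 := wend_len (p := 3) t.1
    have h4 := (hS _ h1).2.1
    rw [Finset.mem_Icc]
    show 1 ≤ wend 3 t.1 - 2 - t.2.1 ∧ wend 3 t.1 - 2 - t.2.1 ≤ N + 2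
    omega
  rw [← Finset.sum_fiberwise_of_maps_to hmaps]
  have hone : ∀ q ∈ Finset.Icc 1 (N + 2), ∑ t ∈ (S.sigma Z).filter
      (fun t : (Σ _ : List Stp, ℕ × ℕ) => wend 3 t.1 - 2 - t.2.1 = q),
      wwt 1 W t.1 * W t.2.1 t.2.2 * muG {wend 3 t.1 - 2 - t.2.1} (F - (wvol t.1 + t.2.2)) p.2 ≤
        K * C₁ * Real.exp (-c * b) * muG {3} F p.2 := by
    intro q hq
    obtain ⟨hq1, hq2⟩ := Finset.mem_Icc.1 hq
    have h1 : ∑ t ∈ (S.sigma Z).filter
        (fun t : (Σ _ : List Stp, ℕ × ℕ) => wend 3 t.1 - 2 - t.2.1 = q),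
        wwt 1 W t.1 * W t.2.1 t.2.2 * muG {wend 3 t.1 - 2 - t.2.1} (F - (wvol t.1 + t.2.2)) p.2 =
        ∑ t ∈ (S.sigma Z).filter
        (fun t : (Σ _ : List Stp, ℕ × ℕ) => wend 3 t.1 - 2 - t.2.1 = q),
        wwt 1 W t.1 * W t.2.1 t.2.2 * muG {q} (F - (wvol t.1 + t.2.2)) p.2 := by
      refine Finset.sum_congr rfl fun t ht => ?_
      rw [(Finset.mem_filter.1 ht).2]
    rw [h1]
    refine nb_q hK hC₁ hub htail hg hq1 _ ?_
    intro t ht
    obtain ⟨ht1, ht2⟩ := Finset.mem_filter.1 ht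
    obtain ⟨h2, h3, h4, h5⟩ := hmem t ht1
    obtain ⟨s1, s2, s3, s4⟩ := hS _ h2
    have s5 : wvol t.1 ≤ t.1.length * (b + 1) := wvol_len s4
    have s6 : wvol (pfx (max q 3) 3 t.1) ≤ wvol t.1 := by
      have h6 : wvol (pfx (max q 3) 3 t.1) + wvol (sfx (max q 3) 3 t.1) = wvol t.1 := by
        rw [← wvol_append, pfx_sfx]
      omega
    have s7 : (wvol (pfx (max q 3) 3 t.1) : ℝ) ≤ d / 4 * F := by
      have h7 : (wvol (pfx (max q 3) 3 t.1) : ℝ) ≤ (t.1.length : ℝ) * (b + 1) := by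
        exact_mod_cast s6.trans s5
      have h8 : (t.1.length : ℝ) ≤ (N : ℝ) + 3 := by
        have : (t.1.length : ℝ) < N := by exact_mod_cast s2
        linarith
      have h9 : (t.1.length : ℝ) * (b + 1) ≤ ((N : ℝ) + 3) * (b + 1) :=
        mul_le_mul_of_nonneg_right h8 (by positivity)
      linarith
    refine ⟨s1, by omega, h5, by omega, ?_⟩
    have h10 : wvol (pfx (max q 3) 3 t.1) ≤ F := by omega
    have h11 : ((F - wvol (pfx (max q 3) 3 t.1) : ℕ) : ℝ) = (F : ℝ) - wvol (pfx (max q 3) 3 t.1) :=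
      Nat.cast_sub h10
    have h12 : (0 : ℝ) ≤ wvol (pfx (max q 3) 3 t.1) := Nat.cast_nonneg _
    have h13 : 0 ≤ d / 4 * (F : ℝ) := by positivity
    refine (w0.shift hθ.le hθ1 hd0.le hd1 ?_ ?_ ?_ ?_).mono hdδ le_rfl
    · rw [h11]
      linarith
    · rw [h11]
      linarith
    · rw [Multiset.sum_singleton]
      have h14 : (q : ℝ) ≤ (N : ℝ) + 2 := by exact_mod_cast hq2
      have h15 : ((N : ℝ) + 3) * 1 ≤ ((N : ℝ) + 3) * (b + 1) :=
        mul_le_mul_of_nonneg_left (by linarith) (by positivity)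
      linarith
    · intro r hr
      rw [Multiset.mem_singleton] at hr
      rw [hr]
      exact hq1
  refine (Finset.sum_le_card_nsmul _ _ _ hone).trans ?_
  rw [Nat.card_Icc, nsmul_eq_mul]
  have hm := muG_nonneg {3} F p.2
  have hB : 0 ≤ K * C₁ * Real.exp (-c * b) * muG {3} F p.2 := by positivity
  have h16 : ((N + 2 + 1 - 1 : ℕ) : ℝ) ≤ (N : ℝ) + 3 := by
    have : N + 2 + 1 - 1 ≤ N + 3 := by omega
    exact_mod_cast this
  calc ((N + 2 + 1 - 1 : ℕ) : ℝ) * (K * C₁ * Real.exp (-c * b) * muG {3} F p.2)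
      ≤ ((N : ℝ) + 3) * (K * C₁ * Real.exp (-c * b) * muG {3} F p.2) := mul_le_mul_of_nonneg_right h16 hB
    _ = _ := by ring

end SYS.GW
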