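import Pool.Agent.SYS.GW.NumSep
import Pool.Agent.SYS.GW.NumBig

/-! # SYSS-GRW-NumE: bad steps from a source, numbers -/

namespace SYS.GW

open Classical SST SYS.Num Filter

variable {θ x : ℝ}

theorem num_bad (h : Par θ x) : ∃ C c δ : ℝ, 0 < C ∧ 0 < c ∧ 0 < δ ∧ ∀ᶠ p in Fth θ, ∀ N b : ℕ,
    ((N : ℝ) + 3) * (b + 1) ≤ δ * p.1 →
      VV b (clo b p.2) N 3 (2 * p.1 - 1) ≤
        C * ((N : ℝ) + 3) ^ 4 * (1 / p.1 + Real.exp (-c * b)) * muG {3} (2 * p.1 - 1) p.2 := by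
  obtain ⟨C₁, δ₁, hC₁, hδ₁, H₁⟩ := ns_le h
  obtain ⟨C₂, δ₂, hC₂, hδ₂, H₂⟩ := sep_le h
  obtain ⟨C₃, c, δ₃, hC₃, hc, hδ₃, H₃⟩ := big_le h
  have h1 : ∀ᶠ p in Fth θ, (1 : ℝ) ≤ ((p : ℕ × ℕ).1 : ℝ) := (RB.fst_atTop θ).eventually_ge_atTop 1
  refine ⟨C₁ + C₂ + 2 * C₃, c, min δ₁ (min δ₂ δ₃), by positivity, hc,
    lt_min hδ₁ (lt_min hδ₂ hδ₃), ?_⟩
  filter_upwards [H₁, H₂, H₃, h1] with p K₁ K₂ K₃ hp N b hN
  obtain ⟨S, hS, hVV⟩ := vv_words b (clo b p.2) N 3 (2 * p.1 - 1)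
  have hp1 : 1 ≤ p.1 := by exact_mod_cast hp
  have hp0 : (0 : ℝ) < (p.1 : ℝ) := by linarith
  have hb0 : (0 : ℝ) ≤ (b : ℝ) := Nat.cast_nonneg b
  have hN0 : (0 : ℝ) ≤ (N : ℝ) := Nat.cast_nonneg N
  have hN3 : (N : ℝ) + 3 ≤ ((N : ℝ) + 3) * (b + 1) := by nlinarith
  have hd₁ : min δ₁ (min δ₂ δ₃) * (p.1 : ℝ) ≤ δ₁ * p.1 :=
    mul_le_mul_of_nonneg_right (min_le_left _ _) hp0.le
  have hd₂ : min δ₁ (min δ₂ δ₃) * (p.1 : ℝ) ≤ δ₂ * p.1 :=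
    mul_le_mul_of_nonneg_right ((min_le_right _ _).trans (min_le_left _ _)) hp0.le
  have hd₃ : min δ₁ (min δ₂ δ₃) * (p.1 : ℝ) ≤ δ₃ * p.1 :=
    mul_le_mul_of_nonneg_right ((min_le_right _ _).trans (min_le_right _ _)) hp0.le
  have e₁ := K₁ N S (by linarith) fun w hw => ⟨(hS w hw).1, (hS w hw).2.1, (hS w hw).2.2.1⟩
  have e₂ := K₂ N S (by linarith) fun w hw => ⟨(hS w hw).1, (hS w hw).2.1, (hS w hw).2.2.1⟩
  have e₃ := K₃ N b S (by linarith) hS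
  have hmu : 0 ≤ muG {3} (2 * p.1 - 1) p.2 := muG_nonneg _ _ _
  have hsrc := src3 hp1 p.2
  have hnu : SST.nu p.1 p.2 = muG {3} (2 * p.1 - 1) p.2 / (6 * p.1) := by
    rw [hsrc]
    field_simp
  have hnu0 : 0 ≤ SST.nu p.1 p.2 := by
    rw [hnu]
    positivity
  have hnule : SST.nu p.1 p.2 ≤ 1 / p.1 * muG {3} (2 * p.1 - 1) p.2 := by
    rw [hnu, div_eq_mul_inv, mul_comm]
    apply mul_le_mul_of_nonneg_right _ hmu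
    rw [← one_div]
    exact one_div_le_one_div_of_le hp0 (by linarith)
  have hsum : VV b (clo b p.2) N 3 (2 * p.1 - 1) =
      ∑ w ∈ S, wwt 1 W w * NS (wend 3 w) 0 (2 * p.1 - 1 - wvol w) p.2 +
      ∑ w ∈ S, wwt 1 W w * SEP (wend 3 w) 0 (2 * p.1 - 1 - wvol w) p.2 +
      2 * ∑ w ∈ S, wwt 1 W w * big b p.2 (wend 3 w) (2 * p.1 - 1 - wvol w) := by
    rw [hVV, Finset.mul_sum, ← Finset.sum_add_distrib, ← Finset.sum_add_distrib]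
    refine Finset.sum_congr rfl fun w _ => ?_
    show wwt 1 W w * (NS (wend 3 w) 0 (2 * p.1 - 1 - wvol w) p.2 +
      SEP (wend 3 w) 0 (2 * p.1 - 1 - wvol w) p.2 +
      2 * big b p.2 (wend 3 w) (2 * p.1 - 1 - wvol w)) = _
    ring
  rw [hsum]
  set M := (N : ℝ) + 3 with hM
  set m := muG {3} (2 * p.1 - 1) p.2 with hm
  have hM1 : 1 ≤ M := by linarith
  have hM4 : 0 ≤ M ^ 4 := by positivity
  have hM24 : M ^ 2 ≤ M ^ 4 := pow_le_pow_right₀ hM1 (by norm_num)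
  have hM14 : M ≤ M ^ 4 := by
    calc M = M ^ 1 := (pow_one M).symm
      _ ≤ M ^ 4 := pow_le_pow_right₀ hM1 (by norm_num)
  have hE := Real.exp_pos (-c * b)
  have f₁ : C₁ * M ^ 2 * SST.nu p.1 p.2 ≤ C₁ * M ^ 4 * (1 / p.1 * m) := by
    calc C₁ * M ^ 2 * SST.nu p.1 p.2 ≤ C₁ * M ^ 4 * SST.nu p.1 p.2 :=
          mul_le_mul_of_nonneg_right (mul_le_mul_of_nonneg_left hM24 hC₁.le) hnu0
      _ ≤ _ := mul_le_mul_of_nonneg_left hnule (by positivity)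
  have f₂ : C₂ * M ^ 4 * SST.nu p.1 p.2 ≤ C₂ * M ^ 4 * (1 / p.1 * m) :=
    mul_le_mul_of_nonneg_left hnule (by positivity)
  have f₃ : C₃ * M * Real.exp (-c * b) * m ≤ C₃ * M ^ 4 * Real.exp (-c * b) * m :=
    mul_le_mul_of_nonneg_right (mul_le_mul_of_nonneg_right
      (mul_le_mul_of_nonneg_left hM14 hC₃.le) hE.le) hmu
  have g₁ : 0 ≤ C₁ * M ^ 4 * (Real.exp (-c * b) * m) := by positivity
  have g₂ : 0 ≤ C₂ * M ^ 4 * (Real.exp (-c * b) * m) := by positivity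
  have g₃ : 0 ≤ 2 * C₃ * M ^ 4 * (1 / p.1 * m) := by positivity
  calc _ ≤ C₁ * M ^ 4 * (1 / p.1 * m) + C₂ * M ^ 4 * (1 / p.1 * m) +
        2 * (C₃ * M ^ 4 * Real.exp (-c * b) * m) := by linarith
    _ ≤ C₁ * M ^ 4 * (1 / p.1 * m) + C₂ * M ^ 4 * (1 / p.1 * m) +
        2 * (C₃ * M ^ 4 * Real.exp (-c * b) * m) + (C₁ * M ^ 4 * (Real.exp (-c * b) * m) +
        C₂ * M ^ 4 * (Real.exp (-c * b) * m) + 2 * C₃ * M ^ 4 * (1 / p.1 * m)) := by linarith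
    _ = _ := by ring

end SYS.GW
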