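import Pool.Agent.SYS.GW.NumNS
import Pool.Agent.SYS.VI.Pw
import Pool.Agent.SYS.PL.LawB

/-!
# SYSS-GRW-NumI: the first `N` steps (`N` fixed)

PROOF. Word by word comparison with the random walk (`word_le`); the words with a small final perimeter by the tilted step (`tilt`), the words of large volume by the
exponential moments (`expm`), both with `prod_len`.
-/

namespace SYS.GW

open Classical SST SYS.Num Filter

variable {θ x : ℝ}

private theorem ni_AA (x : ℝ) : 0 < AA x := by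
  have := AA_gt x
  linarith

private theorem ni_PRW (x : ℝ) (w : List Stp) : 0 ≤ PRW x w :=
  wwt_nonneg (ni_AA x).le (qq_nonneg x) w

private theorem ni_cons (x : ℝ) (s : Stp) (w : List Stp) : PRW x (s :: w) = s.wt (AA x) (qq x) * PRW x w :=
  wwt_cons _ _ _ _

/-- the tilt of a step -/
private noncomputable def nf1 (x t e : ℝ) : Stp → ℝ
  | .T => AA x * Real.exp (-t + e)
  | .L k a => qq x k a * Real.exp (t * (k + 2) + e * a)
  | .R k a => qq x k a * Real.exp (t * (k + 2) + e * a)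

private theorem nf1_nonneg (x t e : ℝ) (s : Stp) : 0 ≤ nf1 x t e s := by
  cases s with
  | T => exact mul_nonneg (ni_AA x).le (Real.exp_pos _).le
  | L k a => exact mul_nonneg (qq_nonneg x k a) (Real.exp_pos _).le
  | R k a => exact mul_nonneg (qq_nonneg x k a) (Real.exp_pos _).le

private theorem nf1_prod (x t e : ℝ) {p : ℕ} {w : List Stp} (h : WOk p w) :
    (w.map (nf1 x t e)).prod = PRW x w * Real.exp (t * p - t * wend p w + e * wvol w) := by
  induction w generalizing p with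
  | nil =>
    rw [List.map_nil, List.prod_nil, wend_nil, wvol_nil]
    unfold PRW
    rw [wwt_nil, Nat.cast_zero, sub_self, mul_zero, add_zero, Real.exp_zero, one_mul]
  | cons s w ih =>
    obtain ⟨h1, h2⟩ := (WOk_cons p s w).1 h
    rw [List.map_cons, List.prod_cons, ih h2, ni_cons, wend_cons, wvol_cons, Nat.cast_add]
    have key : nf1 x t e s = s.wt (AA x) (qq x) * Real.exp (t * p - t * s.nx p + e * s.vol) := by
      cases s with
      | T =>
        show AA x * Real.exp (-t + e) = AA x * Real.exp (t * p - t * ((p + 1 : ℕ) : ℝ) + e * ((1 : ℕ) : ℝ))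
        congr 2
        push_cast
        ring
      | L k a =>
        have h3 : k + 3 ≤ p := h1
        show qq x k a * Real.exp (t * (k + 2) + e * a) = qq x k a * Real.exp (t * p - t * ((p - (k + 2) : ℕ) : ℝ) + e * a)
        congr 2
        rw [Nat.cast_sub (by omega)]
        push_cast
        ring
      | R k a =>
        have h3 : k + 3 ≤ p := h1
        show qq x k a * Real.exp (t * (k + 2) + e * a) = qq x k a * Real.exp (t * p - t * ((p - (k + 2) : ℕ) : ℝ) + e * a)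
        congr 2
        rw [Nat.cast_sub (by omega)]
        push_cast
        ring
    rw [key]
    have h3 : s.wt (AA x) (qq x) * Real.exp (t * p - t * s.nx p + e * s.vol) *
        (PRW x w * Real.exp (t * s.nx p - t * wend (s.nx p) w + e * wvol w)) =
        s.wt (AA x) (qq x) * PRW x w * (Real.exp (t * p - t * s.nx p + e * s.vol) *
          Real.exp (t * s.nx p - t * wend (s.nx p) w + e * wvol w)) := by ring
    rw [h3, ← Real.exp_add]
    congr 2
    ring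

private theorem rw1 (hx : 0 < x) : ∃ ε₀ d₀ c₁ : ℝ, 0 < ε₀ ∧ 0 < d₀ ∧ 0 < c₁ ∧ ∀ ε : ℝ, 0 < ε → ε ≤ ε₀ →
    ∀ (N : ℕ) (S : Finset (List Stp)), (∀ w ∈ S, WOk 3 w ∧ w.length = N ∧ (wend 3 w : ℝ) < d₀ * N) →
      ∑ w ∈ S, PRW x w * Real.exp (ε * (wend 3 w + wvol w)) ≤ Real.exp (-c₁ * N) := by
  obtain ⟨t, ht, H⟩ := tilt hx
  obtain ⟨e₀, he₀, ρ, hρ, H2⟩ := H t ht le_rfl
  have hρ0 : 0 < ρ := by
    have h1 := (H2 0 le_rfl he₀.le).2
    have h2 : 0 < AA x * Real.exp (-t + 0) := mul_pos (ni_AA x) (Real.exp_pos _)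
    have h3 : 0 ≤ ∑' s : ℕ × ℕ, qq x s.1 s.2 * Real.exp (t * (s.1 + 2) + 0 * s.2) :=
      tsum_nonneg fun s => mul_nonneg (qq_nonneg x _ _) (Real.exp_pos _).le
    linarith
  have hlog : Real.log ρ < 0 := Real.log_neg hρ0 hρ
  refine ⟨min e₀ t, -Real.log ρ / (4 * t), -Real.log ρ / 2, lt_min he₀ ht, div_pos (by linarith) (by linarith), by linarith, ?_⟩
  intro ε hε hε0 N S hS
  have hεe : ε ≤ e₀ := hε0.trans (min_le_left _ _)
  have hεt : ε ≤ t := hε0.trans (min_le_right _ _)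
  obtain ⟨hsm, hle⟩ := H2 ε hε.le hεe
  have htot : Tot (nf1 x t ε) ρ := by
    refine tot_of (α := AA x * Real.exp (-t + ε)) (β := fun s => qq x s.1 s.2 * Real.exp (t * (s.1 + 2) + ε * s.2))
      (γ := fun s => qq x s.1 s.2 * Real.exp (t * (s.1 + 2) + ε * s.2)) rfl (fun _ _ => rfl) (fun _ _ => rfl)
      (nf1_nonneg x t ε) hsm hsm ?_
    linarith
  have h1 := prod_len htot N S fun w hw => (hS w hw).2.1
  have h2 : ∀ w ∈ S, PRW x w * Real.exp (ε * (wend 3 w + wvol w)) ≤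
      Real.exp (-Real.log ρ / 2 * N) * (w.map (nf1 x t ε)).prod := by
    intro w hw
    obtain ⟨h3, h4, h5⟩ := hS w hw
    rw [nf1_prod x t ε h3, mul_left_comm]
    refine mul_le_mul_of_nonneg_left ?_ (ni_PRW x w)
    rw [← Real.exp_add]
    apply Real.exp_le_exp.2
    have h6 : (ε + t) * (wend 3 w : ℝ) ≤ 2 * t * (-Real.log ρ / (4 * t) * N) :=
      mul_le_mul (by linarith) h5.le (Nat.cast_nonneg _) (by linarith)
    have h7 : 2 * t * (-Real.log ρ / (4 * t) * N) = -Real.log ρ / 2 * N := by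
      field_simp
      ring
    rw [h7] at h6
    push_cast
    nlinarith
  calc ∑ w ∈ S, PRW x w * Real.exp (ε * (wend 3 w + wvol w)) ≤
        ∑ w ∈ S, Real.exp (-Real.log ρ / 2 * N) * (w.map (nf1 x t ε)).prod := Finset.sum_le_sum h2
    _ = Real.exp (-Real.log ρ / 2 * N) * ∑ w ∈ S, (w.map (nf1 x t ε)).prod := by rw [Finset.mul_sum]
    _ ≤ Real.exp (-Real.log ρ / 2 * N) * ρ ^ N := mul_le_mul_of_nonneg_left h1 (Real.exp_pos _).le
    _ = Real.exp (-(-Real.log ρ / 2) * N) := by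
        have h3 : ρ ^ N = Real.exp (Real.log ρ * N) := by
          rw [mul_comm, Real.exp_nat_mul, Real.exp_log hρ0]
        rw [h3, ← Real.exp_add]
        congr 1
        ring

/-- the weight of the volume of a step -/
private noncomputable def nf2 (x u : ℝ) : Stp → ℝ
  | .T => AA x * Real.exp (u * 2)
  | .L k a => qq x k a * Real.exp (u * (1 + a))
  | .R k a => qq x k a * Real.exp (u * (1 + a))

private theorem nf2_nonneg (x u : ℝ) (s : Stp) : 0 ≤ nf2 x u s := by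
  cases s with
  | T => exact mul_nonneg (ni_AA x).le (Real.exp_pos _).le
  | L k a => exact mul_nonneg (qq_nonneg x k a) (Real.exp_pos _).le
  | R k a => exact mul_nonneg (qq_nonneg x k a) (Real.exp_pos _).le

private theorem nf2_prod (x u : ℝ) (w : List Stp) :
    (w.map (nf2 x u)).prod = PRW x w * Real.exp (u * (w.length + wvol w)) := by
  induction w with
  | nil =>
    rw [List.map_nil, List.prod_nil, wvol_nil]
    unfold PRW
    rw [wwt_nil, List.length_nil, Nat.cast_zero, add_zero, mul_zero, Real.exp_zero, one_mul]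
  | cons s w ih =>
    rw [List.map_cons, List.prod_cons, ih, ni_cons, wvol_cons, Nat.cast_add, List.length_cons, Nat.cast_succ]
    have key : nf2 x u s = s.wt (AA x) (qq x) * Real.exp (u * (1 + s.vol)) := by
      cases s with
      | T =>
        show AA x * Real.exp (u * 2) = AA x * Real.exp (u * (1 + ((1 : ℕ) : ℝ)))
        congr 2
        push_cast
        ring
      | L k a => rfl
      | R k a => rfl
    rw [key]
    have h3 : s.wt (AA x) (qq x) * Real.exp (u * (1 + s.vol)) * (PRW x w * Real.exp (u * (w.length + wvol w))) =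
        s.wt (AA x) (qq x) * PRW x w * (Real.exp (u * (1 + s.vol)) * Real.exp (u * (w.length + wvol w))) := by ring
    rw [h3, ← Real.exp_add]
    congr 2
    ring

private theorem rw2 (hx : 0 < x) : ∃ ε₀ : ℝ, 0 < ε₀ ∧ ∀ ε : ℝ, 0 < ε → ε ≤ ε₀ → ∃ C₁ : ℝ, 0 < C₁ ∧
    ∀ (N : ℕ) (S : Finset (List Stp)), (∀ w ∈ S, w.length = N ∧ C₁ * N < wvol w ∧ wend 3 w ≤ N + 3) →
      ∑ w ∈ S, PRW x w * Real.exp (ε * (wend 3 w + wvol w)) ≤ Real.exp (3 * ε) * Real.exp (-N) := by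
  obtain ⟨δ, hδ, hs⟩ := expm hx
  refine ⟨δ / 2, by linarith, ?_⟩
  intro ε hε hε0
  obtain ⟨β, hβ⟩ : ∃ β : ℕ × ℕ → ℝ, β = fun t => qq x t.1 t.2 * Real.exp (2 * ε * (1 + t.2)) := ⟨_, rfl⟩
  have hβ0 : ∀ t, 0 ≤ β t := fun t => by
    rw [hβ]
    exact mul_nonneg (qq_nonneg x _ _) (Real.exp_pos _).le
  have hβs : Summable β := by
    refine Summable.of_nonneg_of_le hβ0 (fun t => ?_) (hs.mul_left (Real.exp (2 * ε)))
    rw [hβ]
    show qq x t.1 t.2 * Real.exp (2 * ε * (1 + t.2)) ≤ Real.exp (2 * ε) * (qq x t.1 t.2 * Real.exp (δ * (t.1 + t.2)))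
    rw [mul_left_comm, ← Real.exp_add]
    refine mul_le_mul_of_nonneg_left (Real.exp_le_exp.2 ?_) (qq_nonneg x _ _)
    have h1 : 0 ≤ δ * (t.1 : ℝ) := by positivity
    have h2 : 2 * ε * (t.2 : ℝ) ≤ δ * t.2 := mul_le_mul_of_nonneg_right (by linarith) (Nat.cast_nonneg _)
    nlinarith
  obtain ⟨R, hR⟩ : ∃ R : ℝ, R = max 1 (AA x * Real.exp (2 * ε * 2) + ∑' t, β t + ∑' t, β t) := ⟨_, rfl⟩
  have hR1 : 1 ≤ R := by rw [hR]; exact le_max_left _ _
  have hRlog : 0 ≤ Real.log R := Real.log_nonneg hR1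
  have htot : Tot (nf2 x (2 * ε)) R := by
    refine tot_of (α := AA x * Real.exp (2 * ε * 2)) (β := β) (γ := β) rfl (fun k a => by rw [hβ]; rfl)
      (fun k a => by rw [hβ]; rfl) (nf2_nonneg x _) hβs hβs ?_
    rw [hR]
    exact le_max_right _ _
  refine ⟨(1 + Real.log R) / ε, div_pos (by linarith) hε, ?_⟩
  intro N S hS
  have h1 := prod_len htot N S fun w hw => (hS w hw).1
  have h2 : ∀ w ∈ S, PRW x w * Real.exp (ε * (wend 3 w + wvol w)) ≤
      Real.exp (3 * ε - (1 + Real.log R) * N) * (w.map (nf2 x (2 * ε))).prod := by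
    intro w hw
    obtain ⟨h3, h4, h5⟩ := hS w hw
    rw [nf2_prod, mul_left_comm]
    refine mul_le_mul_of_nonneg_left ?_ (ni_PRW x w)
    rw [← Real.exp_add]
    apply Real.exp_le_exp.2
    rw [h3]
    have h6 : (wend 3 w : ℝ) ≤ N + 3 := by exact_mod_cast h5
    have h7 : ε * ((1 + Real.log R) / ε * N) ≤ ε * wvol w := mul_le_mul_of_nonneg_left h4.le hε.le
    have h8 : ε * ((1 + Real.log R) / ε * N) = (1 + Real.log R) * N := by
      field_simp
    rw [h8] at h7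
    have h9 : ε * (wend 3 w : ℝ) ≤ ε * (N + 3) := mul_le_mul_of_nonneg_left h6 hε.le
    have h10 : 0 ≤ ε * (N : ℝ) := by positivity
    nlinarith
  calc ∑ w ∈ S, PRW x w * Real.exp (ε * (wend 3 w + wvol w)) ≤
        ∑ w ∈ S, Real.exp (3 * ε - (1 + Real.log R) * N) * (w.map (nf2 x (2 * ε))).prod := Finset.sum_le_sum h2
    _ = Real.exp (3 * ε - (1 + Real.log R) * N) * ∑ w ∈ S, (w.map (nf2 x (2 * ε))).prod := by rw [Finset.mul_sum]
    _ ≤ Real.exp (3 * ε - (1 + Real.log R) * N) * R ^ N := mul_le_mul_of_nonneg_left h1 (Real.exp_pos _).le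
    _ = Real.exp (3 * ε) * Real.exp (-N) := by
        have h3 : R ^ N = Real.exp (Real.log R * N) := by
          rw [mul_comm, Real.exp_nat_mul, Real.exp_log (by linarith)]
        rw [h3, ← Real.exp_add, ← Real.exp_add]
        congr 1
        ring

/-- the window, eventually -/
private theorem ni_win {θ : ℝ} {δ : ℝ} (hδ : 0 < δ) (M N : ℕ) :
    ∀ᶠ p in Fth θ, ∀ q : ℕ, 1 ≤ q → q ≤ N + 3 → Win θ δ M (q ::ₘ 0) (2 * p.1 - 1) p.2 := by
  have hfst : Tendsto (fun p : ℕ × ℕ => (p.1 : ℝ)) (Fth θ) atTop :=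
    tendsto_natCast_atTop_atTop.comp (Tendsto.mono_left tendsto_comap inf_le_left)
  have hdiv : Tendsto (fun p : ℕ × ℕ => (p.2 : ℝ) / p.1) (Fth θ) (nhds θ) :=
    Tendsto.mono_left tendsto_comap inf_le_right
  have e1 : ∀ᶠ p : ℕ × ℕ in Fth θ, (M + 1 + (N + 3) / δ + 2 * (|θ| + 1) / δ : ℝ) ≤ p.1 := hfst.eventually_ge_atTop _
  have e2 : ∀ᶠ p : ℕ × ℕ in Fth θ, |(p.2 : ℝ) / p.1 - θ| < δ / 4 := by
    have h3 := hdiv.eventually (Metric.ball_mem_nhds θ (by linarith : 0 < δ / 4))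
    filter_upwards [h3] with p h4
    rwa [Real.dist_eq] at h4
  filter_upwards [e1, e2] with p f1 f2 q hq1 hq2
  have hA : 0 ≤ (N + 3 : ℝ) / δ := by positivity
  have hB : 0 ≤ 2 * (|θ| + 1) / δ := by positivity
  have hMn : 0 ≤ (M : ℝ) := Nat.cast_nonneg _
  have hn : (1 : ℝ) ≤ p.1 := by linarith
  have hn' : 1 ≤ p.1 := by exact_mod_cast hn
  have hFc : ((2 * p.1 - 1 : ℕ) : ℝ) = 2 * (p.1 : ℝ) - 1 := by
    rw [Nat.cast_sub (by omega)]
    push_cast
    ring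
  have hFn : (p.1 : ℝ) ≤ 2 * (p.1 : ℝ) - 1 := by linarith
  refine ⟨?_, ?_, ?_, ?_⟩
  · have h1 : (M : ℝ) ≤ ((2 * p.1 - 1 : ℕ) : ℝ) := by
      rw [hFc]
      linarith
    exact_mod_cast h1
  · have h4 : |(p.2 : ℝ) - θ * p.1| ≤ δ / 4 * p.1 := by
      have h5 : (p.2 : ℝ) - θ * p.1 = ((p.2 : ℝ) / p.1 - θ) * p.1 := by
        field_simp
      rw [h5, abs_mul, abs_of_pos (by linarith : (0 : ℝ) < p.1)]
      exact mul_le_mul_of_nonneg_right f2.le (by linarith)
    have h6 : 2 * (|θ| + 1) / δ ≤ (p.1 : ℝ) := by linarith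
    rw [div_le_iff₀ hδ] at h6
    have h7 : 2 * (p.2 : ℝ) - θ * ((2 * p.1 - 1 : ℕ) : ℝ) = 2 * ((p.2 : ℝ) - θ * p.1) + θ := by
      rw [hFc]
      ring
    rw [h7]
    have h8 : δ * (p.1 : ℝ) ≤ δ * ((2 * p.1 - 1 : ℕ) : ℝ) := by
      rw [hFc]
      exact mul_le_mul_of_nonneg_left hFn hδ.le
    calc |2 * ((p.2 : ℝ) - θ * p.1) + θ| ≤ |2 * ((p.2 : ℝ) - θ * p.1)| + |θ| := abs_add_le _ _
      _ = 2 * |(p.2 : ℝ) - θ * p.1| + |θ| := by rw [abs_mul, abs_of_pos (by norm_num : (0 : ℝ) < 2)]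
      _ ≤ δ * p.1 := by nlinarith
      _ ≤ _ := h8
  · rw [Multiset.sum_cons, Multiset.sum_zero, add_zero]
    have h6 : (N + 3 : ℝ) / δ ≤ (p.1 : ℝ) := by linarith
    rw [div_le_iff₀ hδ] at h6
    have h8 : δ * (p.1 : ℝ) ≤ δ * ((2 * p.1 - 1 : ℕ) : ℝ) := by
      rw [hFc]
      exact mul_le_mul_of_nonneg_left hFn hδ.le
    have h9 : (q : ℝ) ≤ N + 3 := by exact_mod_cast hq2
    linarith
  · intro r hr
    rw [Multiset.mem_cons] at hr
    rcases hr with rfl | hr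
    · exact hq1
    · exact absurd hr (Multiset.notMem_zero r)

theorem num_ini (h : Par θ x) : ∃ d₀ C₁ C c : ℝ, 0 < d₀ ∧ 0 < C₁ ∧ 0 < C ∧ 0 < c ∧ ∀ N : ℕ, ∀ᶠ p in Fth θ, ∀ b : ℕ,
    VE b (fun q F => if (q : ℝ) < d₀ * N ∨ F + C₁ * N < (2 * p.1 - 1 : ℕ) then muG {q} F p.2 else 0) N 3 (2 * p.1 - 1) ≤
      C * Real.exp (-c * N) * muG {3} (2 * p.1 - 1) p.2 := by
  have hx : 0 < x := h.2.2.1
  obtain ⟨ε₁, d₀, c₁, hε₁, hd₀, hc₁, H1⟩ := rw1 hx
  obtain ⟨ε₂, hε₂, H2⟩ := rw2 hx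
  obtain ⟨ε, hε⟩ : ∃ ε : ℝ, ε = min ε₁ ε₂ := ⟨_, rfl⟩
  have hε0 : 0 < ε := by rw [hε]; exact lt_min hε₁ hε₂
  obtain ⟨C₁, hC₁, H2⟩ := H2 ε hε0 (by rw [hε]; exact min_le_right _ _)
  have H1 := H1 ε hε0 (by rw [hε]; exact min_le_left _ _)
  obtain ⟨K, δ, M, hK, hδ, H3⟩ := word_le h hε0 3
  refine ⟨d₀, C₁, K * (1 + Real.exp (3 * ε)), min c₁ 1, hd₀, hC₁, by positivity, lt_min hc₁ one_pos, ?_⟩
  intro N
  filter_upwards [ni_win (θ := θ) hδ M N] with p hwin b
  obtain ⟨F₀, hF₀⟩ : ∃ F₀, F₀ = 2 * p.1 - 1 := ⟨_, rfl⟩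
  rw [← hF₀] at hwin ⊢
  obtain ⟨S, hS, hsum⟩ := ve_words b (fun q F => if (q : ℝ) < d₀ * N ∨ F + C₁ * N < F₀ then muG {q} F p.2 else 0) N 3 F₀
  rw [hsum]
  obtain ⟨m3, hm3⟩ : ∃ m3, m3 = muG {3} F₀ p.2 := ⟨_, rfl⟩
  have hm0 : 0 ≤ m3 := by rw [hm3]; exact muG_nonneg _ _ _
  have hterm : ∀ w ∈ S, wwt 1 W w * (if (wend 3 w : ℝ) < d₀ * N ∨ ((F₀ - wvol w : ℕ) : ℝ) + C₁ * N < F₀
      then muG {wend 3 w} (F₀ - wvol w) p.2 else 0) ≤
      (if (wend 3 w : ℝ) < d₀ * N then K * m3 * (PRW x w * Real.exp (ε * (wend 3 w + wvol w))) else 0) +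
      (if C₁ * N < wvol w then K * m3 * (PRW x w * Real.exp (ε * (wend 3 w + wvol w))) else 0) := by
    intro w hw
    obtain ⟨h1, h2, h3, -⟩ := hS w hw
    have h4 : 0 ≤ K * m3 * (PRW x w * Real.exp (ε * (wend 3 w + wvol w))) :=
      mul_nonneg (mul_nonneg hK.le hm0) (mul_nonneg (ni_PRW x w) (Real.exp_pos _).le)
    have h5 : wwt 1 W w * muG {wend 3 w} (F₀ - wvol w) p.2 ≤ K * m3 * (PRW x w * Real.exp (ε * (wend 3 w + wvol w))) := by
      have h6 := H3 0 F₀ p.2 3 w (by norm_num) le_rfl h1 h3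
        (hwin _ (one_le_wend (by norm_num) h1) (by
          have := wend_len (p := 3) w
          omega))
      rw [Multiset.cons_zero, Multiset.cons_zero, ← hm3] at h6
      refine h6.trans (le_of_eq ?_)
      ring
    have hc : ((F₀ - wvol w : ℕ) : ℝ) + C₁ * N < F₀ ↔ C₁ * N < wvol w := by
      rw [Nat.cast_sub h3]
      constructor <;> intro h7 <;> linarith
    by_cases ha : (wend 3 w : ℝ) < d₀ * N
    · rw [if_pos (Or.inl ha), if_pos ha]
      split_ifs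
      · linarith
      · linarith
    · by_cases hb : C₁ * N < wvol w
      · rw [if_pos (Or.inr (hc.2 hb)), if_neg ha, if_pos hb]
        linarith
      · rw [if_neg (by rintro (h7 | h7); exacts [ha h7, hb (hc.1 h7)]), if_neg ha, if_neg hb]
        linarith
  refine (Finset.sum_le_sum hterm).trans ?_
  rw [Finset.sum_add_distrib, ← Finset.sum_filter, ← Finset.sum_filter, ← Finset.mul_sum, ← Finset.mul_sum]
  have k1 := H1 N (S.filter fun w => (wend 3 w : ℝ) < d₀ * N) (by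
    intro w hw
    obtain ⟨h1, h2⟩ := Finset.mem_filter.1 hw
    obtain ⟨h3, h4, -⟩ := hS w h1
    exact ⟨h3, h4, h2⟩)
  have k2 := H2 N (S.filter fun w => C₁ * N < wvol w) (by
    intro w hw
    obtain ⟨h1, h2⟩ := Finset.mem_filter.1 hw
    obtain ⟨h3, h4, -⟩ := hS w h1
    have := wend_len (p := 3) w
    exact ⟨h4, h2, by omega⟩)
  have hN : (0 : ℝ) ≤ N := Nat.cast_nonneg N
  have k3 : Real.exp (-c₁ * N) ≤ Real.exp (-(min c₁ 1) * N) := by
    apply Real.exp_le_exp.2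
    have := min_le_left c₁ 1
    nlinarith
  have k4 : Real.exp (-(N : ℝ)) ≤ Real.exp (-(min c₁ 1) * N) := by
    apply Real.exp_le_exp.2
    have := min_le_right c₁ 1
    nlinarith
  have k5 := mul_le_mul_of_nonneg_left (k1.trans k3) (mul_nonneg hK.le hm0)
  have k6 := mul_le_mul_of_nonneg_left (k2.trans (mul_le_mul_of_nonneg_left k4 (Real.exp_pos (3 * ε)).le)) (mul_nonneg hK.le hm0)
  rw [← hm3]
  refine (add_le_add k5 k6).trans (le_of_eq ?_)
  ring

end SYS.GW
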