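import Pool.Agent.SYS.GW.Src
import Pool.Agent.SYS.GW.BadL
import Pool.Agent.SYS.GW.NumE
import Pool.Agent.SYS.GW.NumI
import Pool.Agent.SYS.GW.GrpD
import Pool.Agent.SYS.GW.FailL

/-!
# SYSS-GRW-CntB: bad steps and bad first steps, numbers of pairs (triangulation, source)
-/

namespace SYS.GW

open Classical SST SYS.Num SYS.XP Filter Str

variable {θ x : ℝ}

/-- exactly `N` steps, also at regions without boundary -/
private noncomputable def canX {D : Type} [Finite D] (d₀ : D) : ℕ → Part D → Str D (Part D)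
  | 0, Z => .ret Z
  | N + 1, Z => .peel (if h : Z.B.Nonempty then h.some else d₀) (fun Z' => canX d₀ N Z')

private theorem canX_dep {D : Type} [Finite D] (d₀ : D) (N : ℕ) (Z : Part D) : DepE (canX d₀ N Z) N := by
  induction N generalizing Z with
  | zero => rfl
  | succ N ih => exact ⟨N, rfl, fun Z' => ih Z'⟩

private theorem oh_ne {n p F : ℕ} {S : Part (Fin (6 * n))} (h : OH S p F) : S.B.Nonempty := by
  obtain ⟨h1, -, h2⟩ := oh_pz h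
  have h3 : S.B.ncard ≠ 0 := by
    change pz S ≠ 0
    omega
  exact Set.nonempty_of_ncard_ne_zero h3

private theorem canX_gat {n b : ℕ} (d₀ : Fin (6 * n)) (N : ℕ) {p F : ℕ} {S : Part (Fin (6 * n))} (h : OH S p F) :
    Gat b (canX d₀ N S) S := by
  induction N generalizing S p F with
  | zero => exact True.intro
  | succ N ih =>
    have hne := oh_ne h
    refine ⟨?_, fun Z' hs => ?_⟩
    · rw [dif_pos hne]
      exact hne.some_mem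
    · obtain ⟨p', F', h1, -⟩ := ss_oh h hs
      exact ih h1

private theorem canX_ls {n b : ℕ} (d₀ : Fin (6 * n)) (N : ℕ) {p F : ℕ} {S : Part (Fin (6 * n))} (h : OH S p F)
    (ψ : Part (Fin (6 * n)) → Part (Fin (6 * n)) → ℝ) : LS b ψ (canS N S) S = LS b ψ (canX d₀ N S) S := by
  induction N generalizing S p F with
  | zero => rfl
  | succ N ih =>
    have hne := oh_ne h
    have h1 : canS (N + 1) S = .peel hne.some (fun Z' => canS N Z') := by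
      show (if h : S.B.Nonempty then Str.peel h.some (fun Z' => canS N Z') else .ret S) = _
      rw [dif_pos hne]
    have h2 : canX d₀ (N + 1) S = .peel hne.some (fun Z' => canX d₀ N Z') := by
      show Str.peel (if h : S.B.Nonempty then h.some else d₀) (fun Z' => canX d₀ N Z') = _
      rw [dif_pos hne]
    rw [h1, h2]
    show (∑ Z₁ : Part (Fin (6 * n)), if SS b S hne.some Z₁ then LS b ψ (canS N Z₁) Z₁ else 0) =
      ∑ Z₁ : Part (Fin (6 * n)), if SS b S hne.some Z₁ then LS b ψ (canX d₀ N Z₁) Z₁ else 0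
    refine Finset.sum_congr rfl fun Z₁ _ => ?_
    split_ifs with hs
    · obtain ⟨p', F', h3, -⟩ := ss_oh h hs
      exact ih h3
    · rfl

private theorem ex_mu {n p F g : ℕ} {Z : Part (Fin (6 * n))} (h : OH Z p F) :
    ex g Z = ((3 * F).factorial : ℝ) * muG {p} F g := by
  obtain ⟨z, hz⟩ := h
  have h3 := Part.typ_card (h := g) hz
  rw [Multiset.coe_singleton] at h3
  exact h3

theorem can_lf {n b p F : ℕ} {S Z Z' : Part (Fin (6 * n))} (h : OH S p F) (N : ℕ) :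
    Gat b (canS N S) S ∧ (∀ φ : ℕ → ℕ → ℝ, (∀ p F, 0 ≤ φ p F) →
      LS b (fun _ Z' => ((3 * fz Z').factorial : ℝ) * φ (pz Z') (fz Z')) (canS N S) S ≤
        ((3 * F).factorial : ℝ) * VE b φ N p F) ∧ (canS N S).Dep N ∧ (Lf b (canS N S) S Z Z' → Z = Z') := by
  refine ⟨?_, fun φ hφ => ?_, ?_, ?_⟩
  · induction N generalizing S p F with
    | zero => exact True.intro
    | succ N ih =>
      have hne := oh_ne h
      have h1 : canS (N + 1) S = .peel hne.some (fun Z' => canS N Z') := by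
        show (if h : S.B.Nonempty then Str.peel h.some (fun Z' => canS N Z') else .ret S) = _
        rw [dif_pos hne]
      rw [h1]
      refine ⟨hne.some_mem, fun Z' hs => ?_⟩
      obtain ⟨p', F', h2, -⟩ := ss_oh h hs
      exact ih h2
  · obtain ⟨d₀, -⟩ := oh_ne h
    rw [canX_ls d₀ N h]
    exact ls_numE h (canX_gat d₀ N h) (canX_dep d₀ N S) hφ
  · clear h
    induction N generalizing S with
    | zero => exact True.intro
    | succ N ih =>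
      show (if h : S.B.Nonempty then Str.peel h.some (fun Z' => canS N Z') else .ret S).Dep (N + 1)
      split_ifs with hne
      · exact ⟨N, rfl, fun Z => ih⟩
      · exact True.intro
  · clear h
    induction N generalizing S with
    | zero =>
      rintro ⟨rfl, rfl⟩
      rfl
    | succ N ih =>
      show Lf b (if h : S.B.Nonempty then Str.peel h.some (fun Z' => canS N Z') else .ret S) S Z Z' → Z = Z'
      split_ifs with hne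
      · rintro ⟨Z₁, -, h1⟩
        exact ih h1
      · rintro ⟨rfl, rfl⟩
        rfl

theorem cnt_bad (h : Par θ x) : ∃ C c δ : ℝ, 0 < C ∧ 0 < c ∧ 0 < δ ∧ ∀ᶠ p in Fth θ, ∀ N b : ℕ, ((N : ℝ) + 3) * (b + 1) ≤ δ * p.1 →
    ∀ {A : Type} (s : Fin (6 * p.1) → Part (Fin (6 * p.1)) → Str (Fin (6 * p.1)) A),
      (∀ y S, OH S 3 (2 * p.1 - 1) → Gat b (s y S) S ∧ (s y S).Dep N) →
        (({q : Tri (Fin (6 * p.1)) × Fin (6 * p.1) | q.1 ∈ Trn p.1 p.2 ∧ ∃ S, UP.Src Part.emp q.1 q.2 S ∧ Bad b q.1 (s q.2 S) S}.ncard : ℕ) : ℝ) ≤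
          C * ((N : ℝ) + 3) ^ 4 * (1 / p.1 + Real.exp (-c * b)) * (6 * p.1) * ((Trn p.1 p.2).ncard : ℕ) := by
  obtain ⟨C, c, δ, hC, hc, hδ, H⟩ := num_bad h
  refine ⟨C, c, δ, hC, hc, hδ, ?_⟩
  have e1 : ∀ᶠ p in Fth θ, 1 ≤ p.1 := SYS.RB.ge_ev θ 1
  have e2 : ∀ᶠ p in Fth θ, 1 ≤ p.2 := SYS.RB.ge_ev' h.1 1
  filter_upwards [H, e1, e2] with p Hp hn hg
  intro N b hNb A s hs
  have hn0 : (0 : ℝ) < (p.1 : ℝ) := by exact_mod_cast hn
  have hc0 : 0 ≤ C * ((N : ℝ) + 3) ^ 4 * (1 / p.1 + Real.exp (-c * b)) := by positivity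
  refine src_cnt hn (fun T y S => Bad b T (s y S) S) hc0 ?_
  intro y S hS _
  refine (bad_le hg hS (hs y S hS).1 (hs y S hS).2).trans ?_
  rw [ex_mu hS, mul_left_comm]
  exact mul_le_mul_of_nonneg_left (Hp N b hNb) (Nat.cast_nonneg _)

theorem cnt_ini (h : Par θ x) : ∃ d₀ C₁ C c : ℝ, 0 < d₀ ∧ 0 < C₁ ∧ 0 < C ∧ 0 < c ∧ ∀ N₀ W m₀ V₀ : ℕ,
    ((m₀ * (2 * W + 3) + 2 * (W + 2) + 4 : ℕ) : ℝ) ≤ d₀ * N₀ → 3 + 3 * C₁ * N₀ ≤ V₀ → ∀ᶠ p in Fth θ, ∀ b : ℕ,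
      (({q : Tri (Fin (6 * p.1)) × Fin (6 * p.1) | q.1 ∈ Trn p.1 p.2 ∧ ∃ S, UP.Src Part.emp q.1 q.2 S ∧ ¬ Bad b q.1 (canS N₀ S) S ∧
        ¬ ∃ Z, Run b q.1 (canS N₀ S) S Z Z ∧ NdOk W 0 m₀ (iniNd W m₀ q.2 Z) ∧ (iniNd W m₀ q.2 Z).Z = Z ∧ 1 ≤ (iniNd W m₀ q.2 Z).c ∧
          Z.R.ncard ≤ V₀}.ncard : ℕ) : ℝ) ≤
        C * Real.exp (-c * N₀) * (6 * p.1) * ((Trn p.1 p.2).ncard : ℕ) := by
  obtain ⟨d₀, C₁, C, c, hd₀, hC₁, hC, hc, H⟩ := num_ini h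
  refine ⟨d₀, C₁, C, c, hd₀, hC₁, hC, hc, ?_⟩
  intro N₀ W m₀ V₀ hm hV
  have e1 : ∀ᶠ p in Fth θ, 1 ≤ p.1 := SYS.RB.ge_ev θ 1
  have e2 : ∀ᶠ p in Fth θ, 1 ≤ p.2 := SYS.RB.ge_ev' h.1 1
  filter_upwards [H N₀, e1, e2] with p Hp hn hg
  intro b
  have hc0 : 0 ≤ C * Real.exp (-c * N₀) := by positivity
  have key : ∀ (y : Fin (6 * p.1)) (S : Part (Fin (6 * p.1))), OH S 3 (2 * p.1 - 1) → y ∈ S.B →
      (({T | T ∈ S.Ext p.2 ∧ S.HConn T ∧ (¬ Bad b T (canS N₀ S) S ∧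
        ¬ ∃ Z, Run b T (canS N₀ S) S Z Z ∧ NdOk W 0 m₀ (iniNd W m₀ y Z) ∧ (iniNd W m₀ y Z).Z = Z ∧
          1 ≤ (iniNd W m₀ y Z).c ∧ Z.R.ncard ≤ V₀)}.ncard : ℕ) : ℝ) ≤ C * Real.exp (-c * N₀) * ex p.2 S := by
    intro y S hS _
    have hsub : {T | T ∈ S.Ext p.2 ∧ S.HConn T ∧ (¬ Bad b T (canS N₀ S) S ∧
        ¬ ∃ Z, Run b T (canS N₀ S) S Z Z ∧ NdOk W 0 m₀ (iniNd W m₀ y Z) ∧ (iniNd W m₀ y Z).Z = Z ∧
          1 ≤ (iniNd W m₀ y Z).c ∧ Z.R.ncard ≤ V₀)} ⊆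
        {T | T ∈ S.Ext p.2 ∧ S.HConn T ∧ ∃ a Z', Run b T (canS N₀ S) S a Z' ∧
          ((pz Z' : ℝ) < d₀ * N₀ ∨ (fz Z' : ℝ) + C₁ * N₀ < (2 * p.1 - 1 : ℕ))} := by
      rintro T ⟨hT1, hT2, hT3, hT4⟩
      refine ⟨hT1, hT2, ?_⟩
      rcases run_or_bad b T (canS N₀ S) S with h1 | ⟨a, Z', h1⟩
      · exact absurd h1 hT3
      · have h2 : a = Z' := (can_lf hS N₀).2.2.2 (run_lf h1)
        refine ⟨a, Z', h1, ?_⟩
        by_contra h3
        push Not at h3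
        obtain ⟨h4, h5⟩ := h3
        apply hT4
        obtain ⟨p', F', h6, -⟩ := lf_oh hS (can_lf (Z := Z') (Z' := Z') (b := b) hS N₀).2.2.1 (run_lf h1)
        obtain ⟨h7, h8, -⟩ := oh_pz h6
        have h9 : m₀ * (2 * W + 3) + 2 * (W + 2) + 4 ≤ p' := by
          rw [h7] at h4
          exact_mod_cast hm.trans h4
        obtain ⟨i1, i2, i3⟩ := ini_ok h6 y h9
        refine ⟨Z', h2 ▸ h1, i2, i1, i3, ?_⟩
        obtain ⟨z, hz⟩ := h6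
        have h10 := hz.vol
        rw [Nat.card_fin] at h10
        rw [h8] at h5
        have h11 : ((Z'.R.ncard : ℕ) : ℝ) + 3 * F' = 6 * p.1 := by exact_mod_cast h10
        have h12 : ((2 * p.1 - 1 : ℕ) : ℝ) = 2 * p.1 - 1 := by
          rw [Nat.cast_sub (by omega)]
          push_cast
          ring
        rw [h12] at h5
        have h13 : ((Z'.R.ncard : ℕ) : ℝ) ≤ V₀ := by linarith
        exact_mod_cast h13
    have h1 : (({T | T ∈ S.Ext p.2 ∧ S.HConn T ∧ (¬ Bad b T (canS N₀ S) S ∧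
        ¬ ∃ Z, Run b T (canS N₀ S) S Z Z ∧ NdOk W 0 m₀ (iniNd W m₀ y Z) ∧ (iniNd W m₀ y Z).Z = Z ∧
          1 ≤ (iniNd W m₀ y Z).c ∧ Z.R.ncard ≤ V₀)}.ncard : ℕ) : ℝ) ≤
        (({T | T ∈ S.Ext p.2 ∧ S.HConn T ∧ ∃ a Z', Run b T (canS N₀ S) S a Z' ∧
          ((pz Z' : ℝ) < d₀ * N₀ ∨ (fz Z' : ℝ) + C₁ * N₀ < (2 * p.1 - 1 : ℕ))}.ncard : ℕ) : ℝ) := by
      exact_mod_cast Set.ncard_le_ncard hsub (Set.toFinite _)
    have h2 := cnt_le p.2 b (fun _ _ Z' => (pz Z' : ℝ) < d₀ * N₀ ∨ (fz Z' : ℝ) + C₁ * N₀ < (2 * p.1 - 1 : ℕ))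
      (canS N₀ S) S
    have hφ : ∀ q F : ℕ, 0 ≤ (fun (q F : ℕ) => if (q : ℝ) < d₀ * N₀ ∨ F + C₁ * N₀ < (2 * p.1 - 1 : ℕ) then
        muG {q} F p.2 else 0) q F := by
      intro q F
      show 0 ≤ (if (q : ℝ) < d₀ * N₀ ∨ F + C₁ * N₀ < (2 * p.1 - 1 : ℕ) then muG {q} F p.2 else 0)
      split_ifs
      · exact muG_nonneg _ _ _
      · exact le_rfl
    have h3 : LS b (fun _ Z' => (({T | T ∈ Z'.Ext p.2 ∧ Z'.HConn T ∧
          ((pz Z' : ℝ) < d₀ * N₀ ∨ (fz Z' : ℝ) + C₁ * N₀ < (2 * p.1 - 1 : ℕ))}.ncard : ℕ) : ℝ)) (canS N₀ S) S ≤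
        LS b (fun _ Z' => ((3 * fz Z').factorial : ℝ) *
          (fun (q F : ℕ) => if (q : ℝ) < d₀ * N₀ ∨ F + C₁ * N₀ < (2 * p.1 - 1 : ℕ) then
            muG {q} F p.2 else 0) (pz Z') (fz Z')) (canS N₀ S) S := by
      refine ls_le fun a Z' hL => ?_
      obtain ⟨p', F', h6, -⟩ := lf_oh hS (can_lf (Z := Z') (Z' := Z') (b := b) hS N₀).2.2.1 hL
      obtain ⟨h7, h8, -⟩ := oh_pz h6
      show (({T | T ∈ Z'.Ext p.2 ∧ Z'.HConn T ∧
          ((pz Z' : ℝ) < d₀ * N₀ ∨ (fz Z' : ℝ) + C₁ * N₀ < (2 * p.1 - 1 : ℕ))}.ncard : ℕ) : ℝ) ≤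
        ((3 * fz Z').factorial : ℝ) * (if (pz Z' : ℝ) < d₀ * N₀ ∨ (fz Z' : ℝ) + C₁ * N₀ < (2 * p.1 - 1 : ℕ) then
            muG {pz Z'} (fz Z') p.2 else 0)
      by_cases hq : (pz Z' : ℝ) < d₀ * N₀ ∨ (fz Z' : ℝ) + C₁ * N₀ < (2 * p.1 - 1 : ℕ)
      · rw [if_pos hq, h7, h8, ← ex_mu h6]
        unfold ex
        have h9 : {T | T ∈ Z'.Ext p.2 ∧ Z'.HConn T ∧
          ((p' : ℝ) < d₀ * N₀ ∨ (F' : ℝ) + C₁ * N₀ < (2 * p.1 - 1 : ℕ))} ⊆ {T | T ∈ Z'.Ext p.2 ∧ Z'.HConn T} :=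
          fun T hT => ⟨hT.1, hT.2.1⟩
        exact_mod_cast Set.ncard_le_ncard h9 (Set.toFinite _)
      · rw [if_neg hq, mul_zero]
        have h9 : {T | T ∈ Z'.Ext p.2 ∧ Z'.HConn T ∧
          ((pz Z' : ℝ) < d₀ * N₀ ∨ (fz Z' : ℝ) + C₁ * N₀ < (2 * p.1 - 1 : ℕ))} = ∅ := by
          refine Set.eq_empty_of_forall_notMem fun T hT => hq hT.2.2
        rw [h9, Set.ncard_empty, Nat.cast_zero]
    have h4 := (can_lf (Z := S) (Z' := S) (b := b) hS N₀).2.1 _ hφ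
    have h5 : ((3 * (2 * p.1 - 1)).factorial : ℝ) * VE b (fun (q F : ℕ) => if (q : ℝ) < d₀ * N₀ ∨
        F + C₁ * N₀ < (2 * p.1 - 1 : ℕ) then muG {q} F p.2 else 0) N₀ 3 (2 * p.1 - 1) ≤
        C * Real.exp (-c * N₀) * ex p.2 S := by
      rw [ex_mu hS, mul_left_comm (C * Real.exp (-c * N₀))]
      exact mul_le_mul_of_nonneg_left (Hp b) (Nat.cast_nonneg _)
    exact h1.trans (h2.trans (h3.trans (h4.trans h5)))
  exact src_cnt hn (fun T y S => ¬ Bad b T (canS N₀ S) S ∧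
        ¬ ∃ Z, Run b T (canS N₀ S) S Z Z ∧ NdOk W 0 m₀ (iniNd W m₀ y Z) ∧ (iniNd W m₀ y Z).Z = Z ∧
          1 ≤ (iniNd W m₀ y Z).c ∧ Z.R.ncard ≤ V₀) hc0 key

end SYS.GW
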