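import Pool.Agent.SYS.GW.CntB
import Pool.Agent.SYS.GW.BrA

/-!
# SYSS-GRW-CntN: failures of nodes, numbers of pairs (triangulation, source)

PLAN.  `src_cnt` with `P T y S` = the event.  For fixed `y, S`: `s := fulS B W v P N₀ y S u` (value: the node `nd'`), `t nd' := nodeS B W v nd'.Z nd'.gts nd'.Z 0 0 0`, `fl nd' r := NdOk W (P.μ l) (P.m l) nd' ∧ Fai γ₂ ε₂ (P.m l) r`, `l = u.length`.
The event implies `∃ nd' Z, Run b T s S nd' Z ∧ ∃ r Z', Run b T (t nd') Z r Z' ∧ fl nd' r` (`run_bind`, `suc_run`; `nd'.Z = Z`), so the number is at most `LS b (fun nd' Z => LS b (fun r Z' => if fl nd' r then ex g Z' else 0) (t nd') Z) s S` (`cnt_le` for `s.bind ..`, `ls_bind`, or twice).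
`fail_le` with `ε₀ := min` of its own... take `c, ε₀` from `node_ld` (`ε := ε₀`), then `K, δ, M` from `fail_le h ε₀`, `κ := 2 exp (- c P.m l)`: hypothesis for an end `(nd', Z)` of `s`: if `NdOk` holds: `node_ld` at `nd'` (`Z = nd'.Z`, `br_gat`; `v + m K (b + 1) ≤ fz Z` since all volumes are `≤ (N + 3) (b + 1) ≤ δ n`); otherwise `fl` is false: `0`.
`Gat`, `Dep`: `can_lf`, `br_gat` (the first node: `iniNd` is `NdOk` or the default without gates), `node_gat`.  `N := N₀ + ∑_{j ≤ l} P.m j * B.K`.  Window at `F = 2 n - 1` eventually.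
-/

namespace SYS.GW

open Classical SST SYS.Num SYS.XP Filter Str

variable {θ x : ℝ}

private theorem cn_assoc {D A A' A'' : Type} (s : Str D A) (k : A → Str D A') (l : A' → Str D A'') :
    (s.bind k).bind l = s.bind fun a => (k a).bind l := by
  induction s with
  | ret a => rfl
  | peel d f ih =>
    show Str.peel d (fun Z => ((f Z).bind k).bind l) = Str.peel d (fun Z => (f Z).bind fun a => (k a).bind l)
    congr 1
    funext Z
    exact ih Z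

private theorem cn_blk_dep {D : Type} [Finite D] (B : CH.Blk) (S : Part D) (f : D) (k : ℕ) : ∀ Z : Part D, (blkS B S f k Z).Dep k := by
  induction k with
  | zero => exact fun Z => trivial
  | succ k ih =>
    intro Z
    rw [blkS]
    split
    · trivial
    · split_ifs
      · exact ⟨k, rfl, ih⟩
      · trivial

private theorem cn_node_dep {D : Type} [Finite D] (B : CH.Blk) (W v : ℕ) (Z₀ : Part D) (G : List D) : ∀ (Z : Part D) (X κ N : ℕ),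
    (nodeS B W v Z₀ G Z X κ N).Dep (G.length * B.K) := by
  induction G with
  | nil => exact fun _ _ _ _ => trivial
  | cons f G ih =>
    intro Z X κ N
    have h0 : (f :: G).length * B.K = B.K + G.length * B.K := by
      rw [List.length_cons, add_mul, one_mul, add_comm]
    rw [nodeS, h0]
    split_ifs
    · exact dep_bind (cn_blk_dep B Z f B.K Z) fun a => ih _ _ _ _
    · exact dep_mono (ih _ _ _ _) (by omega)

private theorem cn_chd {D : Type} [Finite D] (P : Lev) (W i : ℕ) (nd : Nd D) (Z' : Part D) (a : ℕ) (ha : a < P.b i) :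
    (P.ch W i nd Z' a).g.length ≤ P.m (i + 1) := by
  unfold Lev.ch chd
  split_ifs with h
  · exact (h.choose_spec.ok a ha).len.le
  · exact Nat.zero_le _

private theorem cn_br_dep {D : Type} [Finite D] (B : CH.Blk) (W v : ℕ) (P : Lev) (u : List ℕ) : ∀ (i : ℕ) (nd : Nd D), Adr P i u →
    nd.g.length ≤ P.m i → (brS B W v P i u nd).Dep (∑ j ∈ Finset.range u.length, P.m (i + j) * B.K) := by
  induction u with
  | nil => exact fun _ _ _ _ => trivial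
  | cons a u ih =>
    intro i nd hu hg
    have hs : ∑ j ∈ Finset.range (a :: u).length, P.m (i + j) * B.K =
        P.m i * B.K + ∑ j ∈ Finset.range u.length, P.m (i + 1 + j) * B.K := by
      rw [List.length_cons, Finset.sum_range_succ', add_zero, Nat.add_comm]
      congr 1
      refine Finset.sum_congr rfl fun j _ => ?_
      have h4 : i + (j + 1) = i + 1 + j := by omega
      rw [h4]
    rw [brS, hs]
    refine dep_bind (dep_mono (cn_node_dep B W v nd.Z nd.gts nd.Z 0 0 0) ?_) fun r => ?_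
    · unfold Nd.gts
      rw [List.length_map]
      exact Nat.mul_le_mul_right _ hg
    · have h1 : Adr P (i + 1) u := by
        intro j hj
        have h2 := hu (j + 1) (by rw [List.length_cons]; omega)
        rw [List.getElem_cons_succ] at h2
        have h3 : i + 1 + j = i + (j + 1) := by omega
        rw [h3]
        exact h2
      exact ih (i + 1) (P.ch W i nd r.1 a) h1 (cn_chd P W i nd r.1 a (hu 0 (by rw [List.length_cons]; omega)))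

private theorem cn_ini {D : Type} [Finite D] (W m : ℕ) (x : D) (Z : Part D) :
    (iniNd W m x Z).Z = Z ∧ (iniNd W m x Z).g.length ≤ m ∧ (NdOk W 0 m (iniNd W m x Z) ∨ (iniNd W m x Z).g = []) := by
  unfold iniNd
  split_ifs with h
  · exact ⟨h.choose_spec.1, h.choose_spec.2.1.len.le, Or.inl h.choose_spec.2.1⟩
  · exact ⟨rfl, Nat.zero_le _, Or.inr rfl⟩

private theorem cn_ful {D : Type} [Finite D] (B : CH.Blk) (W v : ℕ) (P : Lev) (N₀ : ℕ) (y : D) (S : Part D) (u : List ℕ) :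
    fulS B W v P N₀ y S u = (canS N₀ S).bind fun Z => brS B W v P 0 u (iniNd W (P.m 0) y Z) := by
  unfold fulS iniS
  rw [cn_assoc]
  rfl

theorem ful_gat {n b p F W v N₀ : ℕ} {γ ε₁ : ℝ} {B : CH.Blk} (hB : BOk B x W v γ ε₁) {P : Lev} (h0 : P.μ 0 = 0) {S : Part (Fin (6 * n))} (h : OH S p F)
    (y : Fin (6 * n)) (u : List ℕ) (hu : Adr P 0 u) :
    Gat b (fulS B W v P N₀ y S u) S ∧ (fulS B W v P N₀ y S u).Dep (N₀ + ∑ j ∈ Finset.range u.length, P.m j * B.K) ∧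
      ∀ nd' Z', Lf b (fulS B W v P N₀ y S u) S nd' Z' → nd'.Z = Z' ∧ (NdOk W (P.μ u.length) (P.m u.length) nd' ∨ nd'.g = []) := by
  have hkey : ∀ Z Z', Lf b (canS N₀ S) S Z Z' → Z = Z' ∧ (iniNd W (P.m 0) y Z).Z = Z' ∧
      (NdOk W (P.μ 0) (P.m 0) (iniNd W (P.m 0) y Z) ∨ ((iniNd W (P.m 0) y Z).g = [] ∧ ∃ p F, OH (iniNd W (P.m 0) y Z).Z p F)) := by
    intro Z Z' hL
    obtain ⟨-, -, h1, h2⟩ := can_lf (b := b) (Z := Z) (Z' := Z') h N₀
    have h3 := h2 hL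
    obtain ⟨p', F', h4, -⟩ := lf_oh h h1 hL
    obtain ⟨h5, h6, h7⟩ := cn_ini W (P.m 0) y Z
    subst h3
    refine ⟨rfl, h5, ?_⟩
    rcases h7 with h7 | h7
    · left
      rw [h0]
      exact h7
    · right
      refine ⟨h7, p', F', ?_⟩
      rw [h5]
      exact h4
  rw [cn_ful]
  obtain ⟨c1, -, c3, -⟩ := can_lf (b := b) (Z := S) (Z' := S) h N₀
  refine ⟨gat_bind.2 ⟨c1, ?_⟩, ?_, ?_⟩
  · intro Z Z' hL
    obtain ⟨h1, h2, h3⟩ := hkey Z Z' hL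
    have h4 := (br_gat (b := b) hB u 0 hu h3).1
    rw [h2] at h4
    exact h4
  · refine dep_bind c3 fun Z => ?_
    have h1 := cn_br_dep B W v P u 0 (iniNd W (P.m 0) y Z) hu (cn_ini W (P.m 0) y Z).2.1
    simp only [zero_add] at h1
    exact h1
  · intro nd' Z'' hL
    obtain ⟨Z, Z', h4, h5⟩ := lf_bind.1 hL
    obtain ⟨h1, h2, h3⟩ := hkey Z Z' h4
    have h6 := (br_gat (b := b) hB u 0 hu h3).2.2 nd' Z''
    rw [h2] at h6
    have h7 := h6 h5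
    rw [zero_add] at h7
    exact h7

/-- the window, eventually -/
private theorem cn_win {θ : ℝ} {δ : ℝ} (hδ : 0 < δ) (M N : ℕ) :
    ∀ᶠ p in Fth θ, ∀ q : ℕ, 1 ≤ q → q ≤ N + 3 → Win θ δ M (q ::ₘ 0) (2 * p.1 - 1) p.2 := by
  have hfst : Tendsto (fun p : ℕ × ℕ => (p.1 : ℝ)) (Fth θ) atTop :=
    tendsto_natCast_atTop_atTop.comp (Tendsto.mono_left tendsto_comap inf_le_left)
  have hdiv : Tendsto (fun p : ℕ × ℕ => (p.2 : ℝ) / p.1) (Fth θ) (nhds θ) :=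
    Tendsto.mono_left tendsto_comap inf_le_right
  have e1 : ∀ᶠ p : ℕ × ℕ in Fth θ, (M + 1 + (N + 3) / δ + 2 * (|θ| + 1) / δ : ℝ) ≤ p.1 := hfst.eventually_ge_atTop _
  have e2 : ∀ᶠ p : ℕ × ℕ in Fth θ, |(p.2 : ℝ) / p.1 - θ| < δ / 4 := by
    have h3 := hdiv.eventually (Metric.ball_mem_nhds θ (by linarith : 0 < δ / 4))
    filter_upwards [h3] with p h4
    rwa [Real.dist_eq] at h4
  filter_upwards [e1, e2] with p f1 f2 q hq1 hq2
  have hA : 0 ≤ (N + 3 : ℝ) / δ := by positivity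
  have hB : 0 ≤ 2 * (|θ| + 1) / δ := by positivity
  have hMn : 0 ≤ (M : ℝ) := Nat.cast_nonneg _
  have hn : (1 : ℝ) ≤ p.1 := by linarith
  have hn' : 1 ≤ p.1 := by exact_mod_cast hn
  have hFc : ((2 * p.1 - 1 : ℕ) : ℝ) = 2 * (p.1 : ℝ) - 1 := by
    rw [Nat.cast_sub (by omega)]
    push_cast
    ring
  have hFn : (p.1 : ℝ) ≤ 2 * (p.1 : ℝ) - 1 := by linarith
  refine ⟨?_, ?_, ?_, ?_⟩
  · have h1 : (M : ℝ) ≤ ((2 * p.1 - 1 : ℕ) : ℝ) := by
      rw [hFc]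
      linarith
    exact_mod_cast h1
  · have h4 : |(p.2 : ℝ) - θ * p.1| ≤ δ / 4 * p.1 := by
      have h5 : (p.2 : ℝ) - θ * p.1 = ((p.2 : ℝ) / p.1 - θ) * p.1 := by
        field_simp
      rw [h5, abs_mul, abs_of_pos (by linarith : (0 : ℝ) < p.1)]
      exact mul_le_mul_of_nonneg_right f2.le (by linarith)
    have h6 : 2 * (|θ| + 1) / δ ≤ (p.1 : ℝ) := by linarith
    rw [div_le_iff₀ hδ] at h6
    have h7 : 2 * (p.2 : ℝ) - θ * ((2 * p.1 - 1 : ℕ) : ℝ) = 2 * ((p.2 : ℝ) - θ * p.1) + θ := by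
      rw [hFc]
      ring
    rw [h7]
    have h8 : δ * (p.1 : ℝ) ≤ δ * ((2 * p.1 - 1 : ℕ) : ℝ) := by
      rw [hFc]
      exact mul_le_mul_of_nonneg_left hFn hδ.le
    calc |2 * ((p.2 : ℝ) - θ * p.1) + θ| ≤ |2 * ((p.2 : ℝ) - θ * p.1)| + |θ| := abs_add_le _ _
      _ = 2 * |(p.2 : ℝ) - θ * p.1| + |θ| := by rw [abs_mul, abs_of_pos (by norm_num : (0 : ℝ) < 2)]
      _ ≤ δ * p.1 := by nlinarith
      _ ≤ _ := h8
  · rw [Multiset.sum_cons, Multiset.sum_zero, add_zero]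
    have h6 : (N + 3 : ℝ) / δ ≤ (p.1 : ℝ) := by linarith
    rw [div_le_iff₀ hδ] at h6
    have h8 : δ * (p.1 : ℝ) ≤ δ * ((2 * p.1 - 1 : ℕ) : ℝ) := by
      rw [hFc]
      exact mul_le_mul_of_nonneg_left hFn hδ.le
    have h9 : (q : ℝ) ≤ N + 3 := by exact_mod_cast hq2
    linarith
  · intro r hr
    rw [Multiset.mem_cons] at hr
    rcases hr with rfl | hr
    · exact hq1
    · exact absurd hr (Multiset.notMem_zero r)

private theorem cn_WZ {n : ℕ} (x : ℝ) (Z : Part (Fin (6 * n))) : 0 ≤ WZ x Z := by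
  have h1 : (0 : ℝ) < AA x := by
    have := AA_gt x
    linarith
  have h2 : 0 < √(yy x) := Real.sqrt_pos.2 (yy_pos x)
  unfold WZ Nm
  positivity

/-- one source -/
private theorem cn_one {x : ℝ} {W v : ℕ} {γ ε₁ γ₂ ε₂ ε₀ c K : ℝ} {B : CH.Blk} (hB : BOk B x W v γ ε₁) (hε₀ : 0 < ε₀) {n g b N F N₀ R k : ℕ}
    (hld : ∀ (ε : ℝ), 0 ≤ ε → ε ≤ ε₀ → ∀ (n b m μ F : ℕ) (nd : Nd (Fin (6 * n))), NdOk W μ m nd → fz nd.Z = F →
      v + m * B.K * (b + 1) ≤ F →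
        LS b (fun r Z' => if Fai γ₂ ε₂ m r then WZ x Z' * Real.exp (ε * xi nd.Z Z') else 0) (nodeS B W v nd.Z nd.gts nd.Z 0 0 0) nd.Z ≤
          2 * Real.exp (-c * m) * WZ x nd.Z)
    {S : Part (Fin (6 * n))} (hS : OH S 3 F)
    (hfl : ∀ {A A' : Type} (s : Str (Fin (6 * n)) A) (t : A → Str (Fin (6 * n)) A') (fl : A → A' → Prop) (κ : ℝ), 0 ≤ κ →
        Gat b s S → s.Dep N → (∀ a Z, Lf b s S a Z → Gat b (t a) Z ∧ (t a).Dep N) →
        (∀ a Z, Lf b s S a Z → LS b (fun a' Z' => if fl a a' then WZ x Z' * Real.exp (ε₀ * xi Z Z') else 0) (t a) Z ≤ κ * WZ x Z) →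
        LS b (fun a Z => LS b (fun a' Z' => if fl a a' then ex g Z' else 0) (t a) Z) s S ≤ K * ((N : ℝ) + 3) * κ * ex g S)
    {P : Lev} {u : List ℕ} (hP : LevOk P W B.K b γ₂ ε₂ R k) (h0 : P.μ 0 = 0) (hu : Adr P 0 u) (hl : u.length < R + k)
    (hN : N₀ + ∑ j ∈ Finset.range (u.length + 1), P.m j * B.K ≤ N) (hvF : v + 2 * (N * (b + 1)) ≤ F) (y : Fin (6 * n)) :
    (({T | T ∈ S.Ext g ∧ S.HConn T ∧ ∃ Z nd, Run b T (canS N₀ S) S Z Z ∧
          nd = iniNd W (P.m 0) y Z ∧ nd.Z = Z ∧ NdOk W 0 (P.m 0) nd ∧ ∃ nd', Suc b T B W v P γ₂ ε₂ 0 u nd nd' ∧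
            ∃ r Z', Run b T (nodeS B W v nd'.Z nd'.gts nd'.Z 0 0 0) nd'.Z r Z' ∧ Fai γ₂ ε₂ (P.m u.length) r}.ncard : ℕ) : ℝ) ≤
      K * ((N : ℝ) + 3) * (2 * Real.exp (-c * P.m u.length)) * ex g S := by
  obtain ⟨g1, g2, g3⟩ := ful_gat (b := b) (N₀ := N₀) (v := v) (W := W) hB h0 hS y u hu
  have hNs : N₀ + ∑ j ∈ Finset.range u.length, P.m j * B.K + P.m u.length * B.K ≤ N := by
    rw [Finset.sum_range_succ] at hN
    omega
  have g2' : (fulS B W v P N₀ y S u).Dep N := dep_mono g2 (by omega)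
  have hml : P.m u.length * B.K ≤ N := by omega
  -- the last part
  have ht : ∀ nd' Z, Lf b (fulS B W v P N₀ y S u) S nd' Z →
      Gat b (nodeS B W v nd'.Z nd'.gts nd'.Z 0 0 0) Z ∧ (nodeS B W v nd'.Z nd'.gts nd'.Z 0 0 0).Dep N := by
    intro nd' Z hL
    obtain ⟨h1, h2⟩ := g3 nd' Z hL
    rcases h2 with h2 | h2
    · obtain ⟨h3, h4⟩ := node_gat (b := b) hB h2
      rw [← h1]
      exact ⟨h3, dep_mono h4 hml⟩
    · have h3 : nd'.gts = [] := by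
        unfold Nd.gts
        rw [h2]
        rfl
      rw [h3]
      exact ⟨trivial, trivial⟩
  obtain ⟨fl, hfd⟩ : ∃ fl : Nd (Fin (6 * n)) → Part (Fin (6 * n)) × ℕ × ℕ × ℕ → Prop,
      fl = fun nd' r => NdOk W (P.μ u.length) (P.m u.length) nd' ∧ Fai γ₂ ε₂ (P.m u.length) r := ⟨_, rfl⟩
  have hfi : ∀ nd' r, fl nd' r ↔ NdOk W (P.μ u.length) (P.m u.length) nd' ∧ Fai γ₂ ε₂ (P.m u.length) r := by
    intro nd' r
    rw [hfd]
  clear hfd
  have hκ : ∀ nd' Z, Lf b (fulS B W v P N₀ y S u) S nd' Z →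
      LS b (fun r Z' => if fl nd' r then WZ x Z' * Real.exp (ε₀ * xi Z Z') else 0) (nodeS B W v nd'.Z nd'.gts nd'.Z 0 0 0) Z ≤
        2 * Real.exp (-c * P.m u.length) * WZ x Z := by
    intro nd' Z hL
    obtain ⟨h1, h2⟩ := g3 nd' Z hL
    by_cases h3 : NdOk W (P.μ u.length) (P.m u.length) nd'
    · obtain ⟨p', F', h4, -, -, h5, -⟩ := lf_oh hS g2' hL
      have h6 : fz nd'.Z = F' := by
        rw [h1]
        exact (oh_pz h4).2.1
      have h7 : P.m u.length * B.K * (b + 1) ≤ N * (b + 1) := Nat.mul_le_mul_right _ hml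
      have h8 := hld ε₀ hε₀.le le_rfl n b (P.m u.length) (P.μ u.length) F' nd' h3 h6 (by omega)
      rw [← h1]
      refine le_trans (ls_le fun r Z' _ => ?_) h8
      by_cases h9 : fl nd' r
      · rw [if_pos h9, if_pos ((hfi nd' r).1 h9).2]
      · rw [if_neg h9, if_neg (fun h => h9 ((hfi nd' r).2 ⟨h3, h⟩))]
    · have h4 : LS b (fun r Z' => if fl nd' r then WZ x Z' * Real.exp (ε₀ * xi Z Z') else 0) (nodeS B W v nd'.Z nd'.gts nd'.Z 0 0 0) Z ≤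
        LS b (fun r Z' => (0 : ℝ) * 0) (nodeS B W v nd'.Z nd'.gts nd'.Z 0 0 0) Z := by
        refine ls_le fun r Z' _ => ?_
        rw [if_neg (fun h => h3 ((hfi nd' r).1 h).1), zero_mul]
      rw [ls_mul, zero_mul] at h4
      refine h4.trans ?_
      have h5 := cn_WZ x Z
      positivity
  have hmain := hfl (fulS B W v P N₀ y S u) (fun nd' => nodeS B W v nd'.Z nd'.gts nd'.Z 0 0 0) fl
    (2 * Real.exp (-c * P.m u.length)) (by positivity) g1 g2' ht hκ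
  refine le_trans ?_ hmain
  -- the event
  have hsub : {T | T ∈ S.Ext g ∧ S.HConn T ∧ ∃ Z nd, Run b T (canS N₀ S) S Z Z ∧
          nd = iniNd W (P.m 0) y Z ∧ nd.Z = Z ∧ NdOk W 0 (P.m 0) nd ∧ ∃ nd', Suc b T B W v P γ₂ ε₂ 0 u nd nd' ∧
            ∃ r Z', Run b T (nodeS B W v nd'.Z nd'.gts nd'.Z 0 0 0) nd'.Z r Z' ∧ Fai γ₂ ε₂ (P.m u.length) r} ⊆
      {T | T ∈ S.Ext g ∧ S.HConn T ∧ ∃ nd' Z, Run b T (fulS B W v P N₀ y S u) S nd' Z ∧
        ∃ r Z', Run b T (nodeS B W v nd'.Z nd'.gts nd'.Z 0 0 0) Z r Z' ∧ fl nd' r} := by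
    rintro T ⟨h1, h2, Z, nd, h3, h4, h5, h6, nd', h7, r, Z', h8, h9⟩
    have h6' : NdOk W (P.μ 0) (P.m 0) nd := by
      rw [h0]
      exact h6
    obtain ⟨k1, k2, -⟩ := suc_run (i := 0) hB hP (by omega) hu h6' h7
    rw [zero_add] at k2
    refine ⟨h1, h2, nd', nd'.Z, ?_, r, Z', h8, (hfi nd' r).2 ⟨k2, h9⟩⟩
    rw [cn_ful]
    refine run_bind.2 ⟨Z, Z, h3, ?_⟩
    rw [h5] at k1
    rw [← h4]
    exact k1
  have hin : ∀ nd' Z, (({T | T ∈ Z.Ext g ∧ Z.HConn T ∧ ∃ r Z', Run b T (nodeS B W v nd'.Z nd'.gts nd'.Z 0 0 0) Z r Z' ∧ fl nd' r}.ncard : ℕ) : ℝ) ≤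
      LS b (fun r Z' => if fl nd' r then ex g Z' else 0) (nodeS B W v nd'.Z nd'.gts nd'.Z 0 0 0) Z := by
    intro nd' Z
    have h1 := cnt_le g b (fun _ r _ => fl nd' r) (nodeS B W v nd'.Z nd'.gts nd'.Z 0 0 0) Z
    refine h1.trans (ls_le fun r Z' _ => ?_)
    by_cases h : fl nd' r
    · rw [if_pos h]
      unfold ex
      refine Nat.cast_le.2 (Set.ncard_le_ncard ?_ (Set.toFinite _))
      rintro T ⟨h1, h2, -⟩
      exact ⟨h1, h2⟩
    · rw [if_neg h]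
      have h1 : {T | T ∈ Z'.Ext g ∧ Z'.HConn T ∧ fl nd' r} = ∅ := by
        ext T
        constructor
        · exact fun h2 => absurd h2.2.2 h
        · exact fun h2 => absurd h2 (Set.notMem_empty T)
      rw [h1, Set.ncard_empty, Nat.cast_zero]
  have hout := cnt_le g b (fun T nd' Z => ∃ r Z', Run b T (nodeS B W v nd'.Z nd'.gts nd'.Z 0 0 0) Z r Z' ∧ fl nd' r)
    (fulS B W v P N₀ y S u) S
  have h1 : _ ≤ _ := Set.ncard_le_ncard hsub (Set.toFinite _)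
  have h2 := (Nat.cast_le (α := ℝ)).2 h1
  exact h2.trans (hout.trans (ls_le fun nd' Z _ => hin nd' Z))

theorem cnt_node (h : Par θ x) {W v : ℕ} {γ ε₁ γ₂ ε₂ : ℝ} {B : CH.Blk} (hB : BOk B x W v γ ε₁) (hγ : 0 ≤ γ) (h0 : 0 ≤ γ₂) (h1 : 0 ≤ ε₁) (h2 : γ₂ < γ - (1 + γ) * ε₁)
    (h3 : ε₁ < ε₂) : ∃ K c δ : ℝ, 0 < K ∧ 0 < c ∧ 0 < δ ∧ ∀ᶠ p in Fth θ, ∀ (b N₀ R k N : ℕ) (P : Lev) (u : List ℕ), LevOk P W B.K b γ₂ ε₂ R k →
      P.μ 0 = 0 → Adr P 0 u → u.length < R + k → N₀ + ∑ j ∈ Finset.range (u.length + 1), P.m j * B.K ≤ N → ((N : ℝ) + 3) * (b + 1) ≤ δ * p.1 →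
        (({q : Tri (Fin (6 * p.1)) × Fin (6 * p.1) | q.1 ∈ Trn p.1 p.2 ∧ ∃ S, UP.Src Part.emp q.1 q.2 S ∧ ∃ Z nd, Run b q.1 (canS N₀ S) S Z Z ∧
          nd = iniNd W (P.m 0) q.2 Z ∧ nd.Z = Z ∧ NdOk W 0 (P.m 0) nd ∧ ∃ nd', Suc b q.1 B W v P γ₂ ε₂ 0 u nd nd' ∧
            ∃ r Z', Run b q.1 (nodeS B W v nd'.Z nd'.gts nd'.Z 0 0 0) nd'.Z r Z' ∧ Fai γ₂ ε₂ (P.m u.length) r}.ncard : ℕ) : ℝ) ≤
          K * ((N : ℝ) + 3) * Real.exp (-c * P.m u.length) * (6 * p.1) * ((Trn p.1 p.2).ncard : ℕ) := by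
  obtain ⟨c, ε₀, hc, hε₀, hld⟩ := node_ld h.2.2.1 hB hγ h0 h1 h2 h3
  obtain ⟨K, δ, M, hK, hδ, hfl⟩ := fail_le h hε₀
  refine ⟨2 * K, c, min δ (1 / 4), by positivity, hc, lt_min hδ (by norm_num), ?_⟩
  have hfst : Tendsto (fun p : ℕ × ℕ => (p.1 : ℝ)) (Fth θ) atTop :=
    tendsto_natCast_atTop_atTop.comp (Tendsto.mono_left tendsto_comap inf_le_left)
  have hdiv : Tendsto (fun p : ℕ × ℕ => (p.2 : ℝ) / p.1) (Fth θ) (nhds θ) :=
    Tendsto.mono_left tendsto_comap inf_le_right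
  have e1 : ∀ᶠ p : ℕ × ℕ in Fth θ, (2 * v + 4 : ℝ) ≤ p.1 := hfst.eventually_ge_atTop _
  have e2 : ∀ᶠ p : ℕ × ℕ in Fth θ, (0 : ℝ) < (p.2 : ℝ) / p.1 := hdiv.eventually (lt_mem_nhds h.1)
  filter_upwards [e1, e2, cn_win (θ := θ) hδ M 0] with p f1 f2 f3 b N₀ R k N P u hP hμ hu hl hN hNb
  have hv0 : (0 : ℝ) ≤ v := Nat.cast_nonneg v
  have hn1 : (1 : ℝ) ≤ p.1 := by linarith
  have hn : 1 ≤ p.1 := by exact_mod_cast hn1
  have hg : 1 ≤ p.2 := by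
    rcases Nat.eq_zero_or_pos p.2 with h4 | h4
    · rw [h4, Nat.cast_zero, zero_div] at f2
      exact absurd f2 (lt_irrefl 0)
    · exact h4
  have hFc : ((2 * p.1 - 1 : ℕ) : ℝ) = 2 * (p.1 : ℝ) - 1 := by
    rw [Nat.cast_sub (by omega)]
    push_cast
    ring
  have hW : Win θ δ M {3} (2 * p.1 - 1) p.2 := f3 3 (by norm_num) (by norm_num)
  have hNb1 : ((N : ℝ) + 3) * (b + 1) ≤ δ * ((2 * p.1 - 1 : ℕ) : ℝ) := by
    rw [hFc]
    calc ((N : ℝ) + 3) * (b + 1) ≤ min δ (1 / 4) * p.1 := hNb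
      _ ≤ δ * p.1 := mul_le_mul_of_nonneg_right (min_le_left _ _) (by linarith)
      _ ≤ _ := mul_le_mul_of_nonneg_left (by linarith) hδ.le
  have hNb2 : ((N : ℝ) + 3) * (b + 1) ≤ 1 / 4 * p.1 :=
    hNb.trans (mul_le_mul_of_nonneg_right (min_le_right _ _) (by linarith))
  have hvF : v + 2 * (N * (b + 1)) ≤ 2 * p.1 - 1 := by
    have h4 : ((v + 2 * (N * (b + 1)) : ℕ) : ℝ) ≤ ((2 * p.1 - 1 : ℕ) : ℝ) := by
      rw [hFc]
      push_cast
      have h5 : (0 : ℝ) ≤ b := Nat.cast_nonneg b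
      nlinarith
    exact_mod_cast h4
  have hex := src_cnt (g := p.2) hn (fun T y S => ∃ Z nd, Run b T (canS N₀ S) S Z Z ∧
          nd = iniNd W (P.m 0) y Z ∧ nd.Z = Z ∧ NdOk W 0 (P.m 0) nd ∧ ∃ nd', Suc b T B W v P γ₂ ε₂ 0 u nd nd' ∧
            ∃ r Z', Run b T (nodeS B W v nd'.Z nd'.gts nd'.Z 0 0 0) nd'.Z r Z' ∧ Fai γ₂ ε₂ (P.m u.length) r)
    (c := K * ((N : ℝ) + 3) * (2 * Real.exp (-c * P.m u.length))) (by positivity) (by
      intro y S hS hy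
      exact cn_one hB hε₀ hld hS (fun s t fl κ => hfl p.1 p.2 b N (2 * p.1 - 1) S hS hW hNb1 hg s t fl κ) hP hμ hu hl hN hvF y)
  refine hex.trans (le_of_eq ?_)
  ring

end SYS.GW
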