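import Pool.Agent.SYS.GW.MirA

/-!
# SYSS-GRW-MirB: the mirror exploration has a bad step if the regions meet
-/

namespace SYS.GW

open Classical SST SYS.Num Str

variable {n g b p F : ℕ} {A : Type} {T : Tri (Fin (6 * n))} {U V' : Part (Fin (6 * n))} {e : Fin (6 * n)} {nd : Nd (Fin (6 * n))}
  {s : Str (Fin (6 * n)) A} {a : A}

theorem mir_gat (b : ℕ) (s : Str (Fin (6 * n)) A) (V J : Part (Fin (6 * n))) {N : ℕ} (h : s.Dep N) :
    Gat b (mir b s V J) J ∧ (mir b s V J).Dep N := by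
  induction s generalizing V J N with
  | ret a => exact ⟨trivial, trivial⟩
  | peel d f ih =>
    obtain ⟨M, rfl, hM⟩ := h
    have e1 : mir b (Str.peel d f) V J =
        if d ∈ J.B then .peel d (fun J' => mir b (f (vst b V d J')) (vst b V d J') J') else .ret () := rfl
    rw [e1]
    split_ifs with hd
    · exact ⟨⟨hd, fun Z' _ => (ih _ _ _ (hM _)).1⟩, M, rfl, fun Z => (ih _ _ _ (hM _)).2⟩
    · exact ⟨trivial, trivial⟩

private theorem mb_arc {D : Type} [Finite D] {nd : Nd D} (ho : nd.o ∈ nd.Z.B) {w : ℕ}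
    (hw : nd.arc.length = 2 * w + 1) :
    nd.cor.length = nd.c ∧ nd.Z.per nd.o = nd.c + (2 * w + 1) ∧
      ∀ j : ℤ, |j| ≤ w → nd.Z.bs (nd.ps (nd.cor.length + w)) j ∈ nd.arc := by
  have h1 : (nd.Z.hw nd.o).length = nd.Z.per nd.o := Part.hw_length _ ho
  have h2 : nd.arc.length = nd.Z.per nd.o - nd.c := by
    unfold Nd.arc
    rw [List.length_drop, h1]
  have h3 : nd.cor.length = min nd.c (nd.Z.per nd.o) := by
    unfold Nd.cor
    rw [List.length_take, h1]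
  have h4 : nd.cor.length = nd.c := by omega
  refine ⟨h4, by omega, fun j hj => ?_⟩
  obtain ⟨i, hi⟩ : ∃ i : ℕ, (i : ℤ) = (w : ℤ) + j := by
    have h5 := (abs_le.1 hj).1
    exact ⟨((w : ℤ) + j).toNat, by omega⟩
  have h5 := (abs_le.1 hj).2
  have h6 : nd.Z.bs (nd.ps (nd.cor.length + w)) j = (nd.Z.nx ^ (nd.c + i)) nd.o := by
    unfold Part.bs Nd.ps
    rw [h4, ← zpow_natCast, ← zpow_natCast, ← Equiv.Perm.mul_apply, ← zpow_add]
    congr 2
    push_cast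
    omega
  rw [h6]
  unfold Nd.arc Part.hw
  rw [← List.map_drop, List.mem_map]
  refine ⟨nd.c + i, ?_, rfl⟩
  rw [List.mem_iff_getElem]
  refine ⟨i, ?_, ?_⟩
  · rw [List.length_drop, List.length_range]
    omega
  · rw [List.getElem_drop, List.getElem_range]

private theorem mb_start {w : ℕ} (ho : nd.o ∈ nd.Z.B) (hc : 1 ≤ nd.c) (hw : nd.arc.length = 2 * w + 1)
    (hU : nd.Z.Sub U) (hUO : ∃ p F, OH U p F) (harc : ∀ e ∈ nd.arc, e ∈ U.B) (hex : ∃ e ∈ U.B, e ∉ nd.arc) :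
    Part.Sim nd.Z nd.Z (cen w nd) U U (cen w nd) w id := by
  obtain ⟨h1, h2, h3⟩ := mb_arc ho hw
  have hyB : cen w nd ∈ nd.Z.B := (Part.nx_pow_same nd.Z ho _).1
  have hB : ∀ j : ℤ, |j| ≤ w → nd.Z.bs (cen w nd) j ∈ U.B := fun j hj => harc _ (h3 j hj)
  have h0 : nd.Z.bs (cen w nd) 0 = cen w nd := by
    show (nd.Z.nx ^ (0 : ℤ)) (cen w nd) = cen w nd
    rw [zpow_zero]
    rfl
  have hyU : cen w nd ∈ U.B := by
    have h4 := hB 0 (by rw [abs_zero]; exact Int.natCast_nonneg w)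
    rw [h0] at h4
    exact h4
  have hbs : ∀ j : ℤ, |j| ≤ w → U.bs (cen w nd) j = nd.Z.bs (cen w nd) j := fun j hj => bs_out hU hyB hB hj
  have hNW : ∀ d ∈ Part.NW nd.Z nd.Z (cen w nd) w, d ∈ nd.Z.B ∧ d ∈ U.B := by
    rintro d (hd | ⟨j, hj, rfl⟩)
    · exact absurd hd.1 hd.2
    · exact ⟨Part.bs_mem hyB j, hB j hj⟩
  refine ⟨Part.sub_refl _, Part.sub_refl _, hyB, hyU, ?_, ?_, Set.injOn_id _, ?_, ?_, ?_, ?_, ?_, ?_⟩
  · have h4 : nd.Z.per nd.o = nd.Z.per (cen w nd) := Part.per_same _ (Part.nx_pow_same nd.Z ho _).2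
    omega
  · obtain ⟨pU, FU, hUO⟩ := hUO
    have h4 := oh_typ hUO hyU
    have h5 : U.per (cen w nd) = pU := (List.cons_eq_cons.1 (show U.per (cen w nd) :: [] = pU :: [] from h4.per)).1
    have h6 := (oh_pz hUO).1
    unfold pz at h6
    obtain ⟨e, he, hea⟩ := hex
    have h7 : nd.arc.Nodup := by
      unfold Nd.arc
      exact (Part.hw_nodup nd.Z ho).sublist (List.drop_sublist _ _)
    have h8 : (insert e nd.arc.toFinset : Finset (Fin (6 * n))).card = 2 * w + 1 + 1 := by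
      rw [Finset.card_insert_of_notMem (by rw [List.mem_toFinset]; exact hea), List.toFinset_card_of_nodup h7, hw]
    have h9 : ((insert e nd.arc.toFinset : Finset (Fin (6 * n))) : Set (Fin (6 * n))).ncard ≤ U.B.ncard := by
      refine Set.ncard_le_ncard ?_ (Set.toFinite _)
      intro d hd
      rcases Finset.mem_insert.1 (Finset.mem_coe.1 hd) with rfl | hd
      · exact he
      · exact harc d (List.mem_toFinset.1 hd)
    rw [Set.ncard_coe_finset, h8, h6] at h9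
    omega
  · rw [Set.sdiff_self, Set.sdiff_self, Set.image_empty]
  · intro j hj
    exact (hbs j hj).symm
  · intro d hd
    exact absurd hd.1 hd.2
  · intro d hd
    obtain ⟨k1, k2⟩ := hNW d hd
    rw [k1.2]
    exact ⟨hd, k2.2.symm⟩
  · exact fun d hd _ => hd.2
  · exact fun d hd _ => hd.2

private theorem mb_run {w : ℕ} (hT : T ∈ Trn n g) (hg : 1 ≤ g) (hE : OH nd.Z p F) (ho : nd.o ∈ nd.Z.B) (hc : 1 ≤ nd.c)
    (hw : nd.arc.length = 2 * w + 1) (hU : nd.Z.Sub U) (hUT : In T U) (s : Str (Fin (6 * n)) A) :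
    ∀ V J : Part (Fin (6 * n)), (∃ p F, OH V p F) → (∃ p F, OH J p F) → In T V → In T J →
      Part.Sim nd.Z V (cen w nd) U J (cen w nd) w id → RunP b T (Dp b nd) s V a V' →
      Bad b T (mir b s V J) J ∨ ∃ J', Run b T (mir b s V J) J () J' ∧ Part.Sim nd.Z V' (cen w nd) U J' (cen w nd) w id := by
  induction s with
  | ret a' =>
    rintro V J hV hJ hVT hJT hs ⟨rfl, rfl⟩
    exact Or.inr ⟨J, ⟨rfl, rfl⟩, hs⟩
  | peel d f ih =>
    rintro V J hV hJ hVT hJT hs ⟨Z₁, h1, h2, h3, h4⟩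
    obtain ⟨hdJ, h5⟩ := mir_fwd hT hg hE ho hc hw hV hJ hVT hJT hU hUT hs h3 h1 h2
    have e1 : mir b (Str.peel d f) V J = .peel d (fun J' => mir b (f (vst b V d J')) (vst b V d J') J') := by
      have e2 : mir b (Str.peel d f) V J =
        if d ∈ J.B then .peel d (fun J' => mir b (f (vst b V d J')) (vst b V d J') J') else .ret () := rfl
      rw [e2, if_pos hdJ]
    rw [e1]
    rcases h5 with h5 | ⟨J', k1, k2, k3, k4⟩
    · exact Or.inl (Or.inl h5)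
    · obtain ⟨pV, FV, hV⟩ := hV
      obtain ⟨pJ, FJ, hJ⟩ := hJ
      obtain ⟨pV', FV', hV', -⟩ := ss_oh hV h1
      obtain ⟨pJ', FJ', hJ', -⟩ := ss_oh hJ k1
      rcases ih Z₁ Z₁ J' ⟨pV', FV', hV'⟩ ⟨pJ', FJ', hJ'⟩ h2 k2 k4 h4 with h6 | ⟨J'', h6, h7⟩
      · left
        refine Or.inr ⟨J', k1, k2, ?_⟩
        show Bad b T (mir b (f (vst b V d J')) (vst b V d J') J') J'
        rw [k3]
        exact h6
      · right
        refine ⟨J'', ⟨J', k1, k2, ?_⟩, h7⟩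
        show Run b T (mir b (f (vst b V d J')) (vst b V d J') J') J' () J''
        rw [k3]
        exact h6

theorem mir_bad (hT : T ∈ Trn n g) (hg : 1 ≤ g) (hE : OH nd.Z p F) (ho : nd.o ∈ nd.Z.B) (hc : 1 ≤ nd.c) (hw : ∃ w, nd.arc.length = 2 * w + 1)
    (hU : nd.Z.Sub U) (hUO : ∃ p F, OH U p F) (hUT : In T U) (harc : ∀ e ∈ nd.arc, e ∈ U.B) (hex : ∃ e ∈ U.B, e ∉ nd.arc)
    (hR : RunP b T (Dp b nd) s nd.Z a V') (he : e ∈ V'.R) (he' : e ∉ nd.Z.R) (heU : e ∈ U.R) : Bad b T (mir b s nd.Z U) U := by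
  obtain ⟨w, hw⟩ := hw
  have hs := mb_start ho hc hw hU hUO harc hex
  have hLe : nd.Z.Le T := Part.sub_le hU hUT.1
  have hIn : In T nd.Z := by
    refine ⟨hLe, Part.hconn_one hLe hT.1 ho fun d hd => ?_⟩
    rw [Part.mem_hw _ ho]
    obtain ⟨e', he', h2⟩ := (oh_typ hE ho).hl.2.2 d hd
    rw [List.mem_singleton] at he'
    rw [he'] at h2
    exact ⟨hd, h2⟩
  rcases mb_run hT hg hE ho hc hw hU hUT s nd.Z U ⟨p, F, hE⟩ hUO hIn hUT hs hR with h | ⟨J', -, h⟩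
  · exact h
  · exfalso
    have h1 : e ∈ id '' (V'.R \ nd.Z.R) := ⟨e, ⟨he, he'⟩, rfl⟩
    rw [h.new] at h1
    exact h1.2 heU

end SYS.GW
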