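import Pool.Agent.SYS.GW.CntN
import Pool.Agent.SYS.GW.BrD
import Pool.Agent.SYS.GW.MirB

/-!
# SYSS-GRW-CntP: two branches with the same last gate
-/

namespace SYS.GW

open Classical SST SYS.Num SYS.XP Filter Str

variable {θ x : ℝ}

/-- The branches `u`, `u'` succeed and their last nodes have a common gate. -/
def Coi {D : Type} [Finite D] (b : ℕ) (T : Tri D) (B : CH.Blk) (W v : ℕ) (P : Lev) (γ₂ ε₂ : ℝ) (N₀ : ℕ) (x : D) (S : Part D) (u u' : List ℕ) : Prop :=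
  ∃ Z nd y₁ y₂, Run b T (canS N₀ S) S Z Z ∧ nd = iniNd W (P.m 0) x Z ∧ NdOk W 0 (P.m 0) nd ∧ nd.Z = Z ∧ Suc b T B W v P γ₂ ε₂ 0 u nd y₁ ∧
    Suc b T B W v P γ₂ ε₂ 0 u' nd y₂ ∧ ∃ e ∈ y₁.gts, e ∈ y₂.gts

private theorem cp_split : ∀ (u u' : List ℕ), u.length = u'.length → u ≠ u' →
    ∃ (pre v₁ v₂ : List ℕ) (a a' : ℕ), u = pre ++ a :: v₁ ∧ u' = pre ++ a' :: v₂ ∧ a ≠ a' := by
  intro u
  induction u with
  | nil =>
    intro u' h hne
    rw [List.length_nil] at h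
    exact absurd (List.length_eq_zero_iff.1 h.symm).symm hne
  | cons c u ih =>
    intro u' h hne
    rcases u' with _ | ⟨c', u'⟩
    · simp at h
    · by_cases hc : c = c'
      · subst hc
        obtain ⟨pre, v₁, v₂, a, a', h1, h2, h3⟩ := ih u' (by simpa using h) (fun h1 => hne (by rw [h1]))
        exact ⟨c :: pre, v₁, v₂, a, a', by rw [h1]; rfl, by rw [h2]; rfl, h3⟩
      · exact ⟨[], u, u', c, c', rfl, rfl, hc⟩

private theorem cp_adr {P : Lev} {i : ℕ} {pre v : List ℕ} {a : ℕ} (h : Adr P i (pre ++ a :: v)) :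
    Adr P i pre ∧ a < P.b (i + pre.length) ∧ Adr P (i + pre.length + 1) v := by
  refine ⟨fun j hj => ?_, ?_, fun j hj => ?_⟩
  · have h1 := h j (by rw [List.length_append]; omega)
    rwa [List.getElem_append_left hj] at h1
  · have h1 := h pre.length (by rw [List.length_append, List.length_cons]; omega)
    simpa using h1
  · have h1 := h (pre.length + (j + 1)) (by rw [List.length_append, List.length_cons]; omega)
    have e1 : i + (pre.length + (j + 1)) = i + pre.length + 1 + j := by omega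
    rw [e1] at h1
    simpa using h1

private theorem cp_same {n p F : ℕ} {Z : Part (Fin (6 * n))} (h : OH Z p F) {d e : Fin (6 * n)} (hd : d ∈ Z.B) (he : e ∈ Z.B) :
    e ∈ Z.hw d := by
  obtain ⟨e', he', h1⟩ := (oh_typ h hd).hl.2.2 e he
  rw [List.mem_singleton] at he'
  rw [he'] at h1
  exact (Part.mem_hw Z hd).2 ⟨he, h1⟩

private theorem cp_split_hw {n : ℕ} (nd : Nd (Fin (6 * n))) : nd.Z.hw nd.o = nd.cor ++ nd.arc := by
  unfold Nd.cor Nd.arc
  rw [List.take_append_drop]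

private theorem cp_arc {n W μ m : ℕ} {nd : Nd (Fin (6 * n))} (h : NdOk W μ m nd) {e : Fin (6 * n)} (he : e ∈ nd.gts) :
    e ∈ nd.arc ∧ e ∈ nd.Z.B := by
  obtain ⟨i, hi, rfl⟩ := List.mem_map.1 he
  have h1 := h.pos i hi
  obtain ⟨p, F, hO⟩ := h.oh
  have h2 : nd.Z.per nd.o = pz nd.Z := by
    have h3 := (oh_typ hO h.o).per
    rw [(oh_pz hO).1]
    simpa using h3
  have h3 : i < (nd.Z.hw nd.o).length := by
    rw [Part.hw_length _ h.o]
    omega
  have h4 : (nd.Z.hw nd.o)[i] = nd.ps i := by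
    unfold Part.hw Nd.ps
    simp
  refine ⟨?_, (Part.nx_pow_same nd.Z h.o i).1⟩
  unfold Nd.arc
  rw [List.mem_iff_getElem]
  have h5 : i - nd.c < ((nd.Z.hw nd.o).drop nd.c).length := by
    rw [List.length_drop]
    omega
  refine ⟨i - nd.c, h5, ?_⟩
  rw [List.getElem_drop, ← h4]
  congr 1
  omega

private theorem cp_core {n g b W v N₀ R k : ℕ} {x γ ε₁ γ₂ ε₂ : ℝ} {B : CH.Blk} (hB : BOk B x W v γ ε₁) {P : Lev}
    (hP : LevOk P W B.K b γ₂ ε₂ R k) (h0 : P.μ 0 = 0) {T : Tri (Fin (6 * n))} (hT : T ∈ Trn n g) (hg : 1 ≤ g)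
    {S : Part (Fin (6 * n))} (hST : In T S) {y : Fin (6 * n)} {pre v₁ v₂ : List ℕ} {a a' : ℕ}
    (hu : Adr P 0 (pre ++ a :: v₁)) (hu' : Adr P 0 (pre ++ a' :: v₂)) (hl : (pre ++ a :: v₁).length = R + k)
    (hl' : (pre ++ a' :: v₂).length = R + k) (hne : a ≠ a')
    (hC : Coi b T B W v P γ₂ ε₂ N₀ y S (pre ++ a :: v₁) (pre ++ a' :: v₂)) :
    Bad b T (prS b B W v P N₀ y S pre a a' v₁ v₂) S := by
  obtain ⟨Z, nd, y₁, y₂, hZ, hnd, hok, hndZ, hs1, hs2, e, he1, he2⟩ := hC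
  obtain ⟨q1, q2, q3⟩ := cp_adr hu
  obtain ⟨-, r2, r3⟩ := cp_adr hu'
  rw [zero_add] at q2 q3 r2 r3
  rw [List.length_append, List.length_cons] at hl hl'
  have hRi : R ≤ pre.length := by
    by_contra hc
    have h1 := hP.bi pre.length (by omega)
    rw [h1] at q2 r2
    omega
  have hok0 : NdOk W (P.μ 0) (P.m 0) nd := by rw [h0]; exact hok
  obtain ⟨w, a1, a2⟩ := suc_app.1 hs1
  obtain ⟨w', b1, b2⟩ := suc_app.1 hs2
  rw [zero_add] at a2 b2
  obtain ⟨c1, c2, c3, -⟩ := suc_run hB hP (by omega) q1 hok0 a1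
  obtain ⟨d1, -, -, -⟩ := suc_run hB hP (by omega) q1 hok0 b1
  rw [zero_add] at c2
  obtain ⟨p0, F0, hO0⟩ := hok.oh
  obtain ⟨hww, -⟩ := run_unique hT hg hO0 c1 d1
  subst hww
  obtain ⟨r, Z', e1, e2, e3⟩ := a2
  obtain ⟨r', Z'', f1, f2, f3⟩ := b2
  obtain ⟨p1, F1, hO1⟩ := c2.oh
  obtain ⟨hrr, hZZ⟩ := run_unique hT hg hO1 e1 f1
  subst hrr
  subst hZZ
  obtain ⟨hr, hch⟩ := node_ch hB hP (by omega) c2 e1 e2
  have i0 : In T nd.Z := by rw [hndZ]; exact run_in hST hZ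
  have i1 : In T w.Z := run_in i0 c1
  have i2 : In T Z' := run_in i1 e1
  -- the children
  have k1 := hch.ok a q2
  have k1' := hch.ok a' r2
  have z1 := hch.Z a q2
  have z1' := hch.Z a' r2
  have n1 := hch.c1 a q2
  have n1' := hch.c1 a' r2
  have hdis := hch.dis a q2 a' r2 hne
  have hodd := hch.odd a' r2
  obtain ⟨c, hc⟩ : ∃ c, c = P.ch W pre.length w Z' a := ⟨_, rfl⟩
  obtain ⟨c', hc'⟩ : ∃ c', c' = P.ch W pre.length w Z' a' := ⟨_, rfl⟩
  rw [← hc] at k1 z1 n1 hdis e3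
  rw [← hc'] at k1' z1' n1' hdis hodd f3
  have iC : In T c.Z := by rw [z1]; exact i2
  have iC' : In T c'.Z := by rw [z1']; exact i2
  obtain ⟨g1, g2, g3, g4⟩ := suc_run hB hP (by omega) q3 k1 e3
  obtain ⟨g1', g2', g3', g4'⟩ := suc_run hB hP (by omega) r3 k1' f3
  -- the full run
  have hful : Run b T (fulS B W v P N₀ y S pre) S w w.Z := by
    refine run_bind.2 ⟨nd, nd.Z, ?_, c1⟩
    refine run_bind.2 ⟨Z, Z, hZ, ?_⟩
    exact ⟨hnd, hndZ⟩
  have hv : v₁ ≠ [] := by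
    intro hv
    have hv2 : v₂ = [] := by
      rw [← List.length_eq_zero_iff]
      rw [hv, List.length_nil] at hl
      omega
    rw [hv] at e3
    rw [hv2] at f3
    have t1 : y₁ = c := e3
    have t2 : y₂ = c' := f3
    rw [t1] at he1
    rw [t2] at he2
    exact hdis e (cp_arc k1 he1).1 (cp_arc k1' he2).1
  have hv' : v₂ ≠ [] := by
    intro hv2
    apply hv
    rw [← List.length_eq_zero_iff]
    rw [hv2, List.length_nil] at hl'
    omega
  have heN : e ∉ c.Z.R := g4 hv e he1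
  have heN' : e ∉ c'.Z.R := by rw [z1', ← z1]; exact heN
  have heU : e ∈ y₁.Z.B := (cp_arc g2 he1).2
  have heV : e ∈ y₂.Z.B := (cp_arc g2' he2).2
  obtain ⟨j1, j2, t, j3⟩ := suc_deep hB hP (by omega) (by omega) q3 k1 n1 iC e3
  obtain ⟨l1, -, -⟩ := suc_deep hB hP (by omega) (by omega) r3 k1' n1' iC' f3
  obtain ⟨p2, F2, hO2⟩ := k1.oh
  obtain ⟨p3, F3, hO3⟩ := k1'.oh
  have harcB : ∀ e ∈ c'.arc, e ∈ c'.Z.B := by
    intro e' he'
    have h1 : e' ∈ c'.Z.hw c'.o := by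
      rw [cp_split_hw]
      exact List.mem_append_right _ he'
    exact ((Part.mem_hw _ k1'.o).1 h1).1
  have harc : ∀ e ∈ c'.arc, e ∈ y₁.Z.B := by
    intro e' he'
    have h1 := harcB e' he'
    rw [z1', ← z1] at h1
    have h2 := cp_same hO2 k1.o h1
    rw [cp_split_hw] at h2
    have h3 : e' ∈ c.cor := by
      rcases List.mem_append.1 h2 with h3 | h3
      · exact h3
      · exact absurd he' (hdis e' h3)
    have h4 : e' ∈ y₁.Z.hw c.o := by
      rw [j3]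
      exact List.mem_append_left _ h3
    exact ((Part.mem_hw _ j2).1 h4).1
  have hsub : c'.Z.Sub y₁.Z := by rw [z1', ← z1]; exact g3
  have hbad := mir_bad hT hg hO3 k1'.o n1' hodd hsub g2.oh (run_in iC g1) harc ⟨e, heU, fun h => heN' (harcB e h).1⟩ l1
    heV.1 heN' heU.1
  rw [z1'] at hbad
  rw [z1] at g1
  refine bad_bind.2 (Or.inr ⟨w, w.Z, hful, ?_⟩)
  refine bad_bind.2 (Or.inr ⟨r, Z', e1, ?_⟩)
  rw [hr, ← hc, ← hc']
  exact bad_bind.2 (Or.inr ⟨y₁, y₁.Z, g1, hbad⟩)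

/-- All values of the strategy satisfy `Q`. -/
private def AV {D A : Type} (Q : A → Prop) : Str D A → Prop
  | .ret a => Q a
  | .peel _ f => ∀ Z, AV Q (f Z)

private theorem av_bind {D A A' : Type} {Q : A → Prop} {Q' : A' → Prop} {s : Str D A} {k : A → Str D A'} (h : AV Q s)
    (hk : ∀ a, Q a → AV Q' (k a)) : AV Q' (s.bind k) := by
  induction s with
  | ret a => exact hk a h
  | peel d f ih => exact fun Z => ih Z (h Z)

private theorem av_true {D A : Type} (s : Str D A) : AV (fun _ => True) s := by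
  induction s with
  | ret a => trivial
  | peel d f ih => exact fun Z => ih Z

private theorem av_dep {D A A' : Type} {Q : A → Prop} {s : Str D A} {k : A → Str D A'} {N M : ℕ} (h : AV Q s) (hs : s.Dep N)
    (hk : ∀ a, Q a → (k a).Dep M) : (s.bind k).Dep (N + M) := by
  induction s generalizing N with
  | ret a => exact dep_mono (hk a h) (by omega)
  | peel d f ih =>
    obtain ⟨K, rfl, hK⟩ := hs
    exact ⟨K + M, by omega, fun Z => ih Z (h Z) (hK Z)⟩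

private theorem cp_blk {D : Type} [Finite D] (B : CH.Blk) (S : Part D) (f : D) (k : ℕ) : ∀ Z : Part D, (blkS B S f k Z).Dep k := by
  induction k with
  | zero => exact fun Z => trivial
  | succ k ih =>
    intro Z
    rw [blkS]
    split
    · trivial
    · split_ifs
      · exact ⟨k, rfl, ih⟩
      · trivial

private theorem cp_node {D : Type} [Finite D] (B : CH.Blk) (W v : ℕ) (Z₀ : Part D) (G : List D) : ∀ (Z : Part D) (X κ N : ℕ),
    (nodeS B W v Z₀ G Z X κ N).Dep (G.length * B.K) := by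
  induction G with
  | nil => exact fun _ _ _ _ => trivial
  | cons f G ih =>
    intro Z X κ N
    have h0 : (f :: G).length * B.K = B.K + G.length * B.K := by
      rw [List.length_cons, add_mul, one_mul, add_comm]
    rw [nodeS, h0]
    split_ifs
    · exact dep_bind (cp_blk B Z f B.K Z) fun a => ih _ _ _ _
    · exact dep_mono (ih _ _ _ _) (by omega)

private theorem cp_gl {n : ℕ} (nd : Nd (Fin (6 * n))) : nd.gts.length = nd.g.length := by
  unfold Nd.gts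
  rw [List.length_map]

/-- the children -/
private theorem cp_ch {n W i a : ℕ} {P : Lev} (ha : a < P.b i) (nd : Nd (Fin (6 * n))) (Z' : Part (Fin (6 * n))) :
    (P.ch W i nd Z' a).Z = Z' ∧ (NdOk W (P.μ (i + 1)) (P.m (i + 1)) (P.ch W i nd Z' a) ∨ (P.ch W i nd Z' a).g = []) := by
  unfold Lev.ch chd
  split_ifs with h
  · exact ⟨h.choose_spec.Z a ha, Or.inl (h.choose_spec.ok a ha)⟩
  · exact ⟨rfl, Or.inr rfl⟩

private theorem cp_ch_len {n W i a : ℕ} {P : Lev} (ha : a < P.b i) (nd : Nd (Fin (6 * n))) (Z' : Part (Fin (6 * n))) :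
    (P.ch W i nd Z' a).g.length ≤ P.m (i + 1) := by
  rcases (cp_ch (W := W) ha nd Z').2 with h | h
  · exact h.len.le
  · rw [h]
    exact Nat.zero_le _

private theorem cp_br {n W v : ℕ} {B : CH.Blk} {P : Lev} (u : List ℕ) : ∀ (i : ℕ) (nd : Nd (Fin (6 * n))), Adr P i u →
    nd.g.length ≤ P.m i → (brS B W v P i u nd).Dep (∑ j ∈ Finset.range u.length, P.m (i + j) * B.K) ∧
      AV (fun nd' => nd'.g.length ≤ P.m (i + u.length)) (brS B W v P i u nd) := by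
  induction u with
  | nil => exact fun i nd _ h => ⟨trivial, h⟩
  | cons a u ih =>
    intro i nd hu hl
    obtain ⟨-, h1, h2⟩ := cp_adr (pre := []) hu
    rw [List.length_nil, add_zero] at h1 h2
    have h3 := fun r : Part (Fin (6 * n)) × ℕ × ℕ × ℕ => ih (i + 1) (P.ch W i nd r.1 a) h2 (cp_ch_len h1 nd r.1)
    have h4 : ∑ j ∈ Finset.range (a :: u).length, P.m (i + j) * B.K =
        P.m i * B.K + ∑ j ∈ Finset.range u.length, P.m (i + 1 + j) * B.K := by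
      rw [List.length_cons, Finset.sum_range_succ', add_zero, add_comm]
      congr 1
      refine Finset.sum_congr rfl fun j _ => ?_
      have e1 : i + (j + 1) = i + 1 + j := by omega
      rw [e1]
    have h5 : i + (a :: u).length = i + 1 + u.length := by
      rw [List.length_cons]
      omega
    rw [h4, h5]
    refine ⟨dep_bind ?_ fun r => (h3 r).1, av_bind (av_true _) fun r _ => (h3 r).2⟩
    refine dep_mono (cp_node B W v _ _ _ _ _ _) (Nat.mul_le_mul_right _ ?_)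
    rw [cp_gl]
    exact hl

private theorem cp_can {D : Type} [Finite D] (N : ℕ) : ∀ Z : Part D, (canS N Z).Dep N := by
  induction N with
  | zero => exact fun _ => trivial
  | succ N ih =>
    intro Z
    rw [canS]
    split_ifs
    · exact ⟨N, rfl, ih⟩
    · trivial

private theorem cp_ini {n W m : ℕ} (y : Fin (6 * n)) (Z : Part (Fin (6 * n))) : (iniNd W m y Z).g.length ≤ m := by
  unfold iniNd
  split_ifs with h
  · exact h.choose_spec.2.1.len.le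
  · exact Nat.zero_le _

private theorem cp_ful {n W v N₀ : ℕ} {B : CH.Blk} {P : Lev} (y : Fin (6 * n)) (S : Part (Fin (6 * n))) {u : List ℕ} (hu : Adr P 0 u) :
    (fulS B W v P N₀ y S u).Dep (N₀ + ∑ j ∈ Finset.range u.length, P.m j * B.K) ∧
      AV (fun nd' => nd'.g.length ≤ P.m u.length) (fulS B W v P N₀ y S u) := by
  have h1 : AV (fun nd => nd.g.length ≤ P.m 0) (iniS W (P.m 0) N₀ y S) :=
    av_bind (av_true _) fun Z _ => cp_ini y Z
  have h2 : (iniS W (P.m 0) N₀ y S).Dep (N₀ + 0) := dep_bind (cp_can N₀ S) fun Z => trivial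
  have h3 := fun (nd : Nd (Fin (6 * n))) (h : nd.g.length ≤ P.m 0) => cp_br (B := B) (W := W) (v := v) u 0 nd hu h
  simp only [zero_add] at h3
  exact ⟨av_dep h1 h2 fun nd h => (h3 nd h).1, av_bind h1 fun nd h => (h3 nd h).2⟩

private theorem cp_dep {n b W v N₀ : ℕ} {B : CH.Blk} {P : Lev} (y : Fin (6 * n)) (S : Part (Fin (6 * n))) {pre v₁ v₂ : List ℕ}
    {a a' : ℕ} (hu : Adr P 0 (pre ++ a :: v₁)) (hu' : Adr P 0 (pre ++ a' :: v₂)) :
    (prS b B W v P N₀ y S pre a a' v₁ v₂).Dep (N₀ + ∑ j ∈ Finset.range pre.length, P.m j * B.K +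
      (P.m pre.length * B.K + (∑ j ∈ Finset.range v₁.length, P.m (pre.length + 1 + j) * B.K +
        ∑ j ∈ Finset.range v₂.length, P.m (pre.length + 1 + j) * B.K))) := by
  obtain ⟨q1, q2, q3⟩ := cp_adr hu
  obtain ⟨-, r2, r3⟩ := cp_adr hu'
  rw [zero_add] at q2 q3 r2 r3
  refine av_dep (cp_ful y S q1).2 (cp_ful y S q1).1 fun w hw => ?_
  refine dep_bind ?_ fun r => ?_
  · refine dep_mono (cp_node B W v _ _ _ _ _ _) (Nat.mul_le_mul_right _ ?_)
    rw [cp_gl]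
    exact hw
  · refine dep_bind (cp_br v₁ _ _ q3 (cp_ch_len q2 _ _)).1 fun y' => ?_
    exact (mir_gat b _ _ _ (cp_br v₂ _ _ r3 (cp_ch_len r2 _ _)).1).2

private theorem cp_sum (f : ℕ → ℕ) {N l m : ℕ} (hl : l + 1 + m ≤ N) :
    ∑ j ∈ Finset.range l, f j + (f l + ∑ j ∈ Finset.range m, f (l + 1 + j)) ≤ ∑ j ∈ Finset.range N, f j := by
  have h1 := Finset.sum_range_add f (l + 1) m
  rw [Finset.sum_range_succ] at h1
  have h2 := Finset.sum_le_sum_of_subset (f := f) (Finset.range_subset_range.2 hl)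
  omega

private theorem cp_gat {n b p F W v N₀ : ℕ} {x γ ε₁ : ℝ} {B : CH.Blk} (hB : BOk B x W v γ ε₁) {P : Lev} (h0 : P.μ 0 = 0)
    {S : Part (Fin (6 * n))} (h : OH S p F) (y : Fin (6 * n)) {pre v₁ v₂ : List ℕ}
    {a a' : ℕ} (hu : Adr P 0 (pre ++ a :: v₁)) (hu' : Adr P 0 (pre ++ a' :: v₂)) :
    Gat b (prS b B W v P N₀ y S pre a a' v₁ v₂) S := by
  obtain ⟨q1, q2, q3⟩ := cp_adr hu
  obtain ⟨-, r2, r3⟩ := cp_adr hu'
  rw [zero_add] at q2 q3 r2 r3
  obtain ⟨f1, f2, f3⟩ := ful_gat (b := b) (N₀ := N₀) hB h0 h y pre q1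
  refine gat_bind.2 ⟨f1, fun w Z' hL => ?_⟩
  obtain ⟨w1, w2⟩ := f3 w Z' hL
  obtain ⟨p1, F1, hO1, -⟩ := lf_oh h f2 hL
  subst w1
  have hnode : Gat b (nodeS B W v w.Z w.gts w.Z 0 0 0) w.Z ∧ ∀ r Z'', Lf b (nodeS B W v w.Z w.gts w.Z 0 0 0) w.Z r Z'' →
      r.1 = Z'' ∧ ∃ p F, OH Z'' p F := by
    rcases w2 with w2 | w2
    · refine ⟨(node_gat hB w2).1, fun r Z'' hr => ⟨(node_geo hB w2 hr).1, ?_⟩⟩
      obtain ⟨p2, F2, hO2, -⟩ := lf_oh hO1 (node_gat (b := b) hB w2).2 hr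
      exact ⟨p2, F2, hO2⟩
    · have hgt : w.gts = [] := by
        unfold Nd.gts
        rw [w2]
        rfl
      rw [hgt, nodeS]
      refine ⟨trivial, ?_⟩
      rintro r Z'' ⟨rfl, rfl⟩
      exact ⟨rfl, p1, F1, hO1⟩
  refine gat_bind.2 ⟨hnode.1, fun r Z'' hr => ?_⟩
  obtain ⟨r1, p2, F2, hO2⟩ := hnode.2 r Z'' hr
  rw [r1]
  obtain ⟨c1, c2⟩ := cp_ch (W := W) q2 w Z''
  have c3 : NdOk W (P.μ (pre.length + 1)) (P.m (pre.length + 1)) (P.ch W pre.length w Z'' a) ∨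
      ((P.ch W pre.length w Z'' a).g = [] ∧ ∃ p F, OH (P.ch W pre.length w Z'' a).Z p F) := by
    rcases c2 with c2 | c2
    · exact Or.inl c2
    · refine Or.inr ⟨c2, p2, F2, ?_⟩
      rw [c1]
      exact hO2
  obtain ⟨b1, b2, b3⟩ := br_gat (b := b) hB v₁ _ q3 c3
  rw [c1] at b1 b3
  refine gat_bind.2 ⟨b1, fun y' Z₃ hy => ?_⟩
  obtain ⟨b4, -⟩ := b3 y' Z₃ hy
  subst b4
  exact (mir_gat b _ _ _ (cp_br v₂ _ _ r3 (cp_ch_len r2 _ _)).1).1

theorem run_nb {n g b p F : ℕ} {A : Type} {T : Tri (Fin (6 * n))} {s : Str (Fin (6 * n)) A} {Z Z' : Part (Fin (6 * n))} {a : A} (hT : T ∈ Trn n g)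
    (hg : 1 ≤ g) (h : OH Z p F) (hR : Run b T s Z a Z') : ¬ Bad b T s Z := by
  induction s generalizing Z p F with
  | ret a₀ => exact fun h => h
  | peel d f ih =>
    obtain ⟨Y₁, a1, a2, a3⟩ := hR
    rintro (h1 | ⟨Y₂, b1, b2, b3⟩)
    · exact h1 ⟨Y₁, a1, a2⟩
    · obtain rfl := ss_unique hT hg h a1 a2 b1 b2
      obtain ⟨p₁, F₁, g1, -⟩ := ss_oh h a1
      exact ih Y₁ g1 a3 b3

theorem coi_bad {n g b W v N₀ R k p F : ℕ} {γ ε₁ γ₂ ε₂ : ℝ} {B : CH.Blk} (hB : BOk B x W v γ ε₁) {P : Lev} (hP : LevOk P W B.K b γ₂ ε₂ R k) (h0 : P.μ 0 = 0)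
    {T : Tri (Fin (6 * n))} (hT : T ∈ Trn n g) (hg : 1 ≤ g) {S : Part (Fin (6 * n))} (hS : OH S p F) (hST : In T S) {y : Fin (6 * n)} {u u' : List ℕ}
    (hu : Adr P 0 u) (hu' : Adr P 0 u') (hl : u.length = R + k) (hl' : u'.length = R + k) (hne : u ≠ u')
    (hC : Coi b T B W v P γ₂ ε₂ N₀ y S u u') :
    ∃ (pre v₁ v₂ : List ℕ) (a a' : ℕ), u = pre ++ a :: v₁ ∧ u' = pre ++ a' :: v₂ ∧ a ≠ a' ∧ Bad b T (prS b B W v P N₀ y S pre a a' v₁ v₂) S := by
  obtain ⟨pre, v₁, v₂, a, a', h1, h2, h3⟩ := cp_split u u' (hl.trans hl'.symm) hne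
  subst h1
  subst h2
  exact ⟨pre, v₁, v₂, a, a', rfl, rfl, h3, cp_core hB hP h0 hT hg hST hu hu' hl hl' h3 hC⟩

theorem cnt_coi (h : Par θ x) {W v : ℕ} {γ ε₁ γ₂ ε₂ : ℝ} {B : CH.Blk} (hB : BOk B x W v γ ε₁) : ∃ C c δ : ℝ, 0 < C ∧ 0 < c ∧ 0 < δ ∧ ∀ᶠ p in Fth θ,
    ∀ (b N₀ R k N : ℕ) (P : Lev) (u u' : List ℕ), LevOk P W B.K b γ₂ ε₂ R k → P.μ 0 = 0 → Adr P 0 u → Adr P 0 u' → u.length = R + k →
      u'.length = R + k → u ≠ u' → N₀ + 2 * ∑ j ∈ Finset.range (R + k), P.m j * B.K ≤ N → ((N : ℝ) + 3) * (b + 1) ≤ δ * p.1 →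
        (({q : Tri (Fin (6 * p.1)) × Fin (6 * p.1) | q.1 ∈ Trn p.1 p.2 ∧ ∃ S, UP.Src Part.emp q.1 q.2 S ∧
          Coi b q.1 B W v P γ₂ ε₂ N₀ q.2 S u u'}.ncard : ℕ) : ℝ) ≤
          C * ((N : ℝ) + 3) ^ 4 * (1 / p.1 + Real.exp (-c * b)) * (6 * p.1) * ((Trn p.1 p.2).ncard : ℕ) := by
  obtain ⟨C, c, δ, hC, hc, hδ, hev⟩ := cnt_bad h
  refine ⟨C, c, δ, hC, hc, hδ, ?_⟩
  filter_upwards [hev, SYS.RB.ge_ev θ 1, SYS.RB.ge_ev' h.1 1] with p hp hn hg
  intro b N₀ R k N P u u' hP h0 hu hu' hl hl' hne hN hb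
  obtain ⟨pre, v₁, v₂, a, a', h1, h2, h3⟩ := cp_split u u' (hl.trans hl'.symm) hne
  subst h1
  subst h2
  have hl1 := hl
  have hl2 := hl'
  rw [List.length_append, List.length_cons] at hl1 hl2
  have hs := hp N b hb (fun y S => prS b B W v P N₀ y S pre a a' v₁ v₂) (fun y S hS => ⟨cp_gat hB h0 hS y hu hu', by
    refine dep_mono (cp_dep y S hu hu') (le_trans ?_ hN)
    have s1 := cp_sum (fun j => P.m j * B.K) (N := R + k) (l := pre.length) (m := v₁.length) (by omega)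
    have s2 := cp_sum (fun j => P.m j * B.K) (N := R + k) (l := pre.length) (m := v₂.length) (by omega)
    beta_reduce at s1 s2
    omega⟩)
  refine le_trans (Nat.cast_le.2 (Set.ncard_le_ncard ?_ (Set.toFinite _))) hs
  rintro ⟨T, y⟩ ⟨hT, S, hS, hCo⟩
  obtain ⟨hO, hyS⟩ := src_oh hn hS
  have hST : In T S := ⟨hS.1, Part.hconn_one hS.1 hT.1 hyS fun d hd => cp_same hO hyS hd⟩
  exact ⟨hT, S, hS, cp_core hB hP h0 hT hg hST hu hu' hl hl' h3 hCo⟩

end SYS.GW
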