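import Pool.Agent.SYS.GW.CntP
import Pool.Agent.SYS.GW.Chn

/-!
# SYSS-GRW-FinY: the large connected set of faces
-/

namespace SYS.GW

open Classical SST SYS.Num SYS.XP Str

variable {n b g W v R k N₀ V₀ L V p F : ℕ} {x γ ε₁ γ₂ ε₂ : ℝ} {B : CH.Blk} {T : Tri (Fin (6 * n))} {S : Part (Fin (6 * n))} {P : Lev} {y : Fin (6 * n)}

private noncomputable def adF (P : Lev) (l : ℕ) (f : ∀ j : Fin l, Fin (P.b j)) : List ℕ := List.ofFn fun j => (f j : ℕ)

private theorem adF_inj (P : Lev) (l : ℕ) : Function.Injective (adF P l) := by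
  intro f f' h
  have h1 := List.ofFn_injective h
  funext j
  exact Fin.ext (congrFun h1 j)

private theorem adr_iff (P : Lev) (l : ℕ) (u : List ℕ) : (Adr P 0 u ∧ u.length = l) ↔ ∃ f, adF P l f = u := by
  constructor
  · rintro ⟨hu, rfl⟩
    refine ⟨fun j => ⟨u[j], by
      have h1 := hu j.1 j.2
      rw [zero_add] at h1
      exact h1⟩, ?_⟩
    unfold adF
    exact List.ofFn_getElem
  · rintro ⟨f, rfl⟩
    unfold adF
    refine ⟨?_, List.length_ofFn⟩
    intro j hj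
    rw [List.getElem_ofFn, zero_add]
    exact (f _).2

theorem adr_fin (P : Lev) (l : ℕ) : {u : List ℕ | Adr P 0 u ∧ u.length = l}.Finite := by
  have h1 : {u : List ℕ | Adr P 0 u ∧ u.length = l} = Set.range (adF P l) := by
    ext u
    exact adr_iff P l u
  rw [h1]
  exact Set.finite_range _

noncomputable def adrs (P : Lev) (l : ℕ) : Finset (List ℕ) := (adr_fin P l).toFinset

private theorem mem_adrs {P : Lev} {l : ℕ} {u : List ℕ} : u ∈ adrs P l ↔ Adr P 0 u ∧ u.length = l := by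
  unfold adrs
  rw [Set.Finite.mem_toFinset]
  exact Iff.rfl

theorem card_adrs (P : Lev) (l : ℕ) : (adrs P l).card = ∏ j ∈ Finset.range l, P.b j := by
  have h1 : adrs P l = Finset.univ.image (adF P l) := by
    ext u
    rw [mem_adrs, adr_iff, Finset.mem_image]
    simp
  rw [h1, Finset.card_image_of_injective _ (adF_inj P l), Finset.card_univ, Fintype.card_pi, Finset.prod_range]
  simp

/-- Few collisions. -/
private theorem few_col {β : Type} [DecidableEq β] (A : Finset (List ℕ)) (e : List ℕ → β) (Q : List ℕ → List ℕ → Prop)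
    (hQ : ∀ u ∈ A, ∀ u' ∈ A, u ≠ u' → e u = e u' → Q u u')
    (hc : ((A ×ˢ A).filter fun q => q.1 ≠ q.2 ∧ Q q.1 q.2).card ≤ A.card) : A.card ≤ 2 * (A.image e).card := by
  obtain ⟨r, hr1, hr2, hr3⟩ : ∃ r : List ℕ → List ℕ, (∀ u ∈ A, r u ∈ A) ∧ (∀ u ∈ A, e (r u) = e u) ∧
      ∀ u u', e u = e u' → r u = r u' := by
    refine ⟨fun u => if h : ∃ u' ∈ A, e u' = e u then h.choose else [], ?_, ?_, ?_⟩
    · intro u hu
      have h : ∃ u' ∈ A, e u' = e u := ⟨u, hu, rfl⟩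
      simp only [dif_pos h]
      exact h.choose_spec.1
    · intro u hu
      have h : ∃ u' ∈ A, e u' = e u := ⟨u, hu, rfl⟩
      simp only [dif_pos h]
      exact h.choose_spec.2
    · intro u u' h
      simp only [h]
  have h1 : (A.filter fun u => u = r u).card ≤ (A.image e).card := by
    refine Finset.card_le_card_of_injOn e ?_ ?_
    · intro u hu
      rw [Finset.mem_coe, Finset.mem_filter] at hu
      rw [Finset.mem_coe]
      exact Finset.mem_image_of_mem e hu.1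
    · intro u hu u' hu' he
      rw [Finset.mem_coe, Finset.mem_filter] at hu hu'
      rw [hu.2, hu'.2]
      exact hr3 u u' he
  have h2 : (A.filter fun u => u = r u).card + (A.filter fun u => ¬ u = r u).card = A.card :=
    Finset.card_filter_add_card_filter_not _
  have hd : Disjoint ((A.filter fun u => ¬ u = r u).image fun u => (u, r u)) ((A.filter fun u => ¬ u = r u).image fun u => (r u, u)) := by
    rw [Finset.disjoint_left]
    intro q hq hq'
    obtain ⟨u, hu, rfl⟩ := Finset.mem_image.1 hq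
    obtain ⟨u', hu', he⟩ := Finset.mem_image.1 hq'
    rw [Finset.mem_filter] at hu hu'
    have e1 : r u' = u := congrArg Prod.fst he
    have e2 : u' = r u := congrArg Prod.snd he
    apply hu.2
    have e3 := hr3 (r u') u' (hr2 u' hu'.1)
    rw [e1] at e3
    exact e3.symm
  have h3 : ((A.filter fun u => ¬ u = r u).image fun u => (u, r u)) ∪ ((A.filter fun u => ¬ u = r u).image fun u => (r u, u)) ⊆
      (A ×ˢ A).filter fun q => q.1 ≠ q.2 ∧ Q q.1 q.2 := by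
    intro q hq
    rw [Finset.mem_filter, Finset.mem_product]
    rcases Finset.mem_union.1 hq with hq | hq
    · obtain ⟨u, hu, rfl⟩ := Finset.mem_image.1 hq
      rw [Finset.mem_filter] at hu
      exact ⟨⟨hu.1, hr1 u hu.1⟩, hu.2, hQ _ hu.1 _ (hr1 u hu.1) hu.2 (hr2 u hu.1).symm⟩
    · obtain ⟨u, hu, rfl⟩ := Finset.mem_image.1 hq
      rw [Finset.mem_filter] at hu
      exact ⟨⟨hr1 u hu.1, hu.1⟩, fun h => hu.2 h.symm, hQ _ (hr1 u hu.1) _ hu.1 (fun h => hu.2 h.symm) (hr2 u hu.1)⟩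
  have h4 := Finset.card_le_card h3
  rw [Finset.card_union_of_disjoint hd, Finset.card_image_of_injective _ (fun a b h => congrArg Prod.fst h),
    Finset.card_image_of_injective _ (fun a b h => congrArg Prod.snd h)] at h4
  omega

private theorem dc_iUnion {ι : Type} {D : Type} {T : Tri D} (A : Set ι) (Y : ι → Set D) (y : D) (hF : ∀ i ∈ A, Fs T (Y i))
    (hD : ∀ i ∈ A, DC T (Y i)) (hy : ∀ i ∈ A, y ∈ Y i) : Fs T (⋃ i ∈ A, Y i) ∧ DC T (⋃ i ∈ A, Y i) := by
  constructor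
  · intro d
    simp only [Set.mem_iUnion]
    constructor
    · rintro ⟨i, hi, h⟩
      exact ⟨i, hi, (hF i hi d).1 h⟩
    · rintro ⟨i, hi, h⟩
      exact ⟨i, hi, (hF i hi d).2 h⟩
  · intro Z hZ hne hf ha
    have key : ∀ i ∈ A, (Z ∩ Y i).Nonempty → Y i ⊆ Z := by
      intro i hi hn
      have h1 := hD i hi (Z ∩ Y i) Set.inter_subset_right hn (fun d hd => ⟨hf d hd.1, (hF i hi d).2 hd.2⟩)
        (fun d hd h => ⟨ha d hd.1 (Set.mem_iUnion₂.2 ⟨i, hi, h⟩), h⟩)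
      rw [← h1]
      exact Set.inter_subset_left
    have hyZ : y ∈ Z := by
      obtain ⟨d, hd⟩ := hne
      obtain ⟨i, hi, h⟩ := Set.mem_iUnion₂.1 (hZ hd)
      exact key i hi ⟨d, hd, h⟩ (hy i hi)
    refine Set.Subset.antisymm hZ ?_
    intro d hd
    obtain ⟨i, hi, h⟩ := Set.mem_iUnion₂.1 hd
    exact key i hi ⟨y, hyZ, hy i hi⟩ h

theorem fin_y (hB : BOk B x W v γ ε₁) (hD : DOk B L V) (hP : LevOk P W B.K b γ₂ ε₂ R k) (h0 : P.μ 0 = 0) (hT : T ∈ Trn n g) (hg : 1 ≤ g)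
    (hS : OH S p F) (hy : y ∈ S.B) (hST : In T S) (hA : AllS b T B W v P γ₂ ε₂ N₀ V₀ (R + k) y S)
    (hco : ((adrs P (R + k) ×ˢ adrs P (R + k)).filter fun q => q.1 ≠ q.2 ∧ Coi b T B W v P γ₂ ε₂ N₀ y S q.1 q.2).card ≤ (adrs P (R + k)).card) :
    ∃ Y : Set (Fin (6 * n)), Fs T Y ∧ DC T Y ∧ (adrs P (R + k)).card ≤ 2 * Y.ncard ∧
      ∀ d ∈ Y, US.Link T y d ((V₀ + (R + k) * L : ℕ) : ℝ) ((V₀ + (R + k) * V : ℕ) : ℝ) := by
  obtain ⟨Z, nd, hrun, hnd, hok, hZ, hc1, hV, hall⟩ := hA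
  obtain ⟨-, -, hdep, -⟩ := can_lf (b := b) (Z := Z) (Z' := Z) hS N₀
  obtain ⟨p', F', hO, -, -, -, hsub⟩ := lf_oh hS hdep (run_lf hrun)
  have hInZ : In T nd.Z := by
    rw [hZ]
    exact run_in hST hrun
  have hok' : NdOk W (P.μ 0) (P.m 0) nd := by
    rw [h0]
    exact hok
  have hbase : ∀ f ∈ nd.gts, ∃ Y : Set (Fin (6 * n)), Fs T Y ∧ DC T Y ∧ y ∈ Y ∧ f ∈ Y ∧ (bdy T Y).ncard ≤ V₀ ∧ Y.ncard ≤ V₀ := by
    intro f hf
    rw [← hZ] at hO hV hsub
    obtain ⟨h1, h2, h3⟩ := oh_dc hO hInZ.1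
    refine ⟨nd.Z.R, h1, h2, hsub.R_sub hy.1, ?_, h3.trans hV, hV⟩
    obtain ⟨i, -, rfl⟩ := List.mem_map.1 hf
    exact ((Part.nx_pow_same nd.Z hok.o i).1).1
  have hsuc : ∀ u : List ℕ, ∃ nd' : Nd (Fin (6 * n)), u ∈ adrs P (R + k) → Suc b T B W v P γ₂ ε₂ 0 u nd nd' := by
    intro u
    by_cases hu : u ∈ adrs P (R + k)
    · obtain ⟨h1, h2⟩ := mem_adrs.1 hu
      obtain ⟨nd', h3⟩ := hall u h1 h2
      exact ⟨nd', fun _ => h3⟩
    · exact ⟨nd, fun h => absurd h hu⟩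
  choose ν hν using hsuc
  have hgt : ∀ u : List ℕ, ∃ e : Fin (6 * n), u ∈ adrs P (R + k) → e ∈ (ν u).gts := by
    intro u
    by_cases hu : u ∈ adrs P (R + k)
    · obtain ⟨h1, h2⟩ := mem_adrs.1 hu
      obtain ⟨-, h3, -, -⟩ := suc_run hB hP (by rw [h2, zero_add]) h1 hok' (hν u hu)
      have h4 := hP.m1 (R + k) le_rfl
      have h5 : (ν u).gts.length = P.m (R + k) := by
        unfold Nd.gts
        rw [List.length_map, h3.len, h2, zero_add]
      have h6 : (ν u).gts ≠ [] := by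
        intro h
        rw [h, List.length_nil] at h5
        omega
      obtain ⟨e, he⟩ := List.exists_mem_of_ne_nil _ h6
      exact ⟨e, fun _ => he⟩
    · exact ⟨y, fun h => absurd h hu⟩
  choose e he using hgt
  have hset : ∀ u : List ℕ, ∃ Y : Set (Fin (6 * n)), u ∈ adrs P (R + k) → Fs T Y ∧ DC T Y ∧ y ∈ Y ∧ e u ∈ Y ∧
      (bdy T Y).ncard ≤ V₀ + (R + k) * L ∧ Y.ncard ≤ V₀ + (R + k) * V := by
    intro u
    by_cases hu : u ∈ adrs P (R + k)
    · obtain ⟨h1, h2⟩ := mem_adrs.1 hu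
      obtain ⟨Y, h3⟩ := suc_chain hB hD hP (by rw [h2, zero_add]) h1 hok' hT hInZ (hν u hu) y hbase (e u) (he u hu)
      rw [h2] at h3
      exact ⟨Y, fun _ => h3⟩
    · exact ⟨∅, fun h => absurd h hu⟩
  choose D hD' using hset
  obtain ⟨hF1, hF2⟩ := dc_iUnion (T := T) {u | u ∈ adrs P (R + k)} D y (fun u hu => (hD' u hu).1) (fun u hu => (hD' u hu).2.1)
    (fun u hu => (hD' u hu).2.2.1)
  refine ⟨_, hF1, hF2, ?_, ?_⟩
  · have h1 := few_col (adrs P (R + k)) e (Coi b T B W v P γ₂ ε₂ N₀ y S) (by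
      intro u hu u' hu' hne heq
      exact ⟨Z, nd, ν u, ν u', hrun, hnd, hok, hZ, hν u hu, hν u' hu', e u, he u hu, by rw [heq]; exact he u' hu'⟩) hco
    have h2 : ((adrs P (R + k)).image e).card ≤ (⋃ u ∈ {u | u ∈ adrs P (R + k)}, D u).ncard := by
      rw [← Set.ncard_coe_finset]
      refine Set.ncard_le_ncard ?_ (Set.toFinite _)
      intro d hd
      rw [Finset.mem_coe] at hd
      obtain ⟨u, hu, rfl⟩ := Finset.mem_image.1 hd
      exact Set.mem_iUnion₂.2 ⟨u, hu, (hD' u hu).2.2.2.1⟩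
    omega
  · intro d hd
    obtain ⟨u, hu, hdu⟩ := Set.mem_iUnion₂.1 hd
    obtain ⟨h1, h2, h3, -, h4, h5⟩ := hD' u hu
    exact ⟨D u, h1, h2, h3, hdu, by exact_mod_cast h4, by exact_mod_cast h5⟩

end SYS.GW
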