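import Pool.Agent.SYS.GW.DefC

/-!
# SYSS-GRW-LevP: choice of the levels

Real analysis: `m_i = m₀ 2 ^ (min i R)`, `l ^ 3 ≤ m₀ 2 ^ R < 2 l ^ 3`, `l = log n`.
-/

namespace SYS.GW

open Classical SST SYS.Num Filter

/-- the levels for given `R`, `k` -/
private theorem lp_core {W K b₀ m₀ b R : ℕ} {γ₂ ε₂ : ℝ} (hb : 3 ≤ b₀) (hγ : (b₀ : ℝ) * (2 * W + 4) ≤ γ₂) (he : 0 < ε₂)
    (he' : ε₂ ≤ 1 / 4) (hm : 2 * W + 8 ≤ m₀) (hR : 1 ≤ R)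
    (hbig : 2 * (W : ℝ) + 10 + 2 * (((K + 1) * (b + 3) : ℕ) : ℝ) ≤ ((m₀ * 2 ^ R : ℕ) : ℝ) / 2) (k : ℕ) :
    ∃ P : Lev, LevOk P W K b γ₂ ε₂ R k ∧ P.m 0 = m₀ ∧ P.μ 0 = 0 ∧ (∀ i, P.m i = m₀ * 2 ^ min i R) ∧
      (∀ i, P.b (R + i) = b₀) := by
  obtain ⟨M, hM⟩ : ∃ M, M = m₀ * 2 ^ R := ⟨_, rfl⟩
  obtain ⟨Q, hQ⟩ : ∃ Q, Q = (K + 1) * (b + 3) := ⟨_, rfl⟩
  obtain ⟨μ, hμ⟩ : ∃ μ, μ = ⌈ε₂ * M⌉₊ + Q := ⟨_, rfl⟩
  rw [← hM, ← hQ] at hbig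
  have hb3 : (3 : ℝ) ≤ b₀ := by exact_mod_cast hb
  have hW0 : (0 : ℝ) ≤ W := Nat.cast_nonneg W
  have hM0 : (0 : ℝ) ≤ M := Nat.cast_nonneg M
  have hμ1 : ε₂ * M + Q ≤ (μ : ℝ) := by
    rw [hμ]
    push_cast
    have := Nat.le_ceil (ε₂ * M)
    linarith
  have hμ2 : (μ : ℝ) ≤ M / 4 + 1 + Q := by
    rw [hμ]
    push_cast
    have h1 := Nat.ceil_lt_add_one (mul_nonneg he.le hM0)
    have h2 : ε₂ * M ≤ 1 / 4 * M := mul_le_mul_of_nonneg_right he' hM0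
    linarith
  have hγ3 : 3 * (2 * (W : ℝ) + 4) ≤ γ₂ := by
    have : 3 * (2 * (W : ℝ) + 4) ≤ (b₀ : ℝ) * (2 * W + 4) := mul_le_mul_of_nonneg_right hb3 (by linarith)
    linarith
  refine ⟨⟨fun i => m₀ * 2 ^ min i R, fun i => if i < R then 0 else μ, fun i => if i < R then 1 else b₀⟩, ⟨?_, ?_, ?_, ?_⟩,
    ?_, ?_, fun i => rfl, ?_⟩
  · intro i hi
    simp only
    rcases lt_or_ge i R with h | h
    · rw [if_pos h, min_eq_left h.le]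
      rcases lt_or_ge (i + 1) R with h' | h'
      · rw [if_pos h', min_eq_left h'.le]
        have h1 : (2 * (W : ℝ) + 8) ≤ ((m₀ * 2 ^ i : ℕ) : ℝ) := by
          have h2 : 2 * W + 8 ≤ m₀ * 2 ^ i := hm.trans (Nat.le_mul_of_pos_right _ (by positivity))
          exact_mod_cast h2
        have h3 : ((m₀ * 2 ^ (i + 1) : ℕ) : ℝ) = 2 * ((m₀ * 2 ^ i : ℕ) : ℝ) := by
          push_cast
          ring
        have h4 : ((1 * (m₀ * 2 ^ (i + 1) * (2 * W + 3) + 2 * (0 + W + 2) + 2) + 2 : ℕ) : ℝ) =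
            ((m₀ * 2 ^ (i + 1) : ℕ) : ℝ) * (2 * W + 3) + 2 * (W + 2) + 4 := by
          push_cast
          ring
        rw [h4, h3]
        have h5 : 3 * (2 * (W : ℝ) + 4) * ((m₀ * 2 ^ i : ℕ) : ℝ) ≤ γ₂ * ((m₀ * 2 ^ i : ℕ) : ℝ) :=
          mul_le_mul_of_nonneg_right hγ3 (Nat.cast_nonneg _)
        nlinarith
      · have h0 : i + 1 = R := by omega
        rw [if_neg (by omega), min_eq_right (by omega), ← hM]
        have h3 : (M : ℝ) = 2 * ((m₀ * 2 ^ i : ℕ) : ℝ) := by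
          rw [hM, ← h0]
          push_cast
          ring
        have h4 : ((1 * (M * (2 * W + 3) + 2 * (μ + W + 2) + 2) + 2 : ℕ) : ℝ) =
            (M : ℝ) * (2 * W + 3) + 2 * (μ + W + 2) + 4 := by
          push_cast
          ring
        rw [h4]
        have h5 : 3 * (2 * (W : ℝ) + 4) * ((m₀ * 2 ^ i : ℕ) : ℝ) ≤ γ₂ * ((m₀ * 2 ^ i : ℕ) : ℝ) :=
          mul_le_mul_of_nonneg_right hγ3 (Nat.cast_nonneg _)
        have h6 : ((m₀ * 2 ^ i : ℕ) : ℝ) = M / 2 := by linarith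
        rw [h6] at h5 ⊢
        nlinarith [mul_nonneg hW0 hM0]
    · rw [if_neg (by omega), if_neg (by omega), min_eq_right (by omega), min_eq_right h, ← hM]
      have h4 : ((b₀ * (M * (2 * W + 3) + 2 * (μ + W + 2) + 2) + 2 : ℕ) : ℝ) =
          (b₀ : ℝ) * ((M : ℝ) * (2 * W + 3) + 2 * (μ + W + 2) + 2) + 2 := by
        push_cast
        ring
      rw [h4]
      have h5 : (b₀ : ℝ) * (2 * W + 4) * M ≤ γ₂ * M := mul_le_mul_of_nonneg_right hγ hM0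
      have h6 : (M : ℝ) * (2 * W + 3) + 2 * (μ + W + 2) + 2 + 1 ≤ (2 * W + 4) * M := by linarith
      have h7 : (b₀ : ℝ) * ((M : ℝ) * (2 * W + 3) + 2 * (μ + W + 2) + 2 + 1) ≤ (b₀ : ℝ) * ((2 * W + 4) * M) :=
        mul_le_mul_of_nonneg_left h6 (by linarith)
      nlinarith
  · intro i _ hi
    simp only
    rw [if_neg (by omega), min_eq_right hi, ← hM, ← hQ]
    exact hμ1
  · intro i _
    simp only
    exact Nat.mul_pos (by omega) (by positivity)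
  · intro i hi
    simp only
    rw [if_pos hi]
  · simp
  · simp only
    rw [if_pos (by omega)]
  · intro i
    simp only
    rw [if_neg (by omega)]

/-- the numbers -/
private theorem lp_num {W K b₀ m₀ n : ℕ} {γ₂ ε₂ a : ℝ} (hb : 3 ≤ b₀) (hγ : (b₀ : ℝ) * (2 * W + 4) ≤ γ₂) (he : 0 < ε₂)
    (he' : ε₂ ≤ 1 / 4) (ha : 0 < a) (ha' : a < 1) (hm : 2 * W + 8 ≤ m₀)
    (hn : 4 * (W : ℝ) + 20 * K + 41 + m₀ ≤ Real.log n) : ∃ (P : Lev) (R k : ℕ),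
      LevOk P W K ⌈Real.log n ^ 2⌉₊ γ₂ ε₂ R k ∧ P.m 0 = m₀ ∧ P.μ 0 = 0 ∧ (∀ i ≤ R, P.m i = m₀ * 2 ^ i) ∧
        (∀ i ≤ k, Real.log n ^ 3 ≤ P.m (R + i)) ∧ (∀ i < k, P.b (R + i) = b₀) ∧
        (((∑ j ∈ Finset.range (R + k), P.m j : ℕ) : ℕ) : ℝ) ≤ ((b₀ : ℝ) + 16) * Real.log n ^ 4 ∧
        (R : ℝ) ≤ ((b₀ : ℝ) + 16) * Real.log (Real.log n) ∧ (n : ℝ) ^ (1 - a) ≤ (b₀ : ℝ) ^ k ∧
        (b₀ : ℝ) ^ k ≤ ((b₀ : ℝ) + 16) * (n : ℝ) ^ (1 - a) ∧ (k : ℝ) ≤ (1 - a) * Real.log n / Real.log b₀ + 1 := by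
  obtain ⟨l, hl⟩ : ∃ l, l = Real.log n := ⟨_, rfl⟩
  rw [← hl] at hn ⊢
  have hW0 : (0 : ℝ) ≤ W := Nat.cast_nonneg W
  have hK0 : (0 : ℝ) ≤ K := Nat.cast_nonneg K
  have hm0 : (0 : ℝ) ≤ m₀ := Nat.cast_nonneg m₀
  have hb3 : (3 : ℝ) ≤ b₀ := by exact_mod_cast hb
  have hl41 : 41 ≤ l := by linarith
  have hl0 : 0 < l := by linarith
  have hm1 : 1 ≤ m₀ := by omega
  have hm1' : (1 : ℝ) ≤ m₀ := by exact_mod_cast hm1
  have hn1 : (1 : ℝ) < n := by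
    by_contra h
    push Not at h
    have := Real.log_nonpos (Nat.cast_nonneg n) h
    linarith
  have hl3 : l ≤ l ^ 3 := by nlinarith [sq_nonneg l, mul_pos hl0 hl0]
  have hl2 : 1 ≤ l ^ 2 := by nlinarith
  have hlog1 : 1 ≤ Real.log l := by
    rw [Real.le_log_iff_exp_le hl0]
    have := Real.exp_one_lt_d9
    linarith
  have hlogl : Real.log l ≤ l := (Real.log_le_sub_one_of_pos hl0).trans (by linarith)
  have hlogb : 1 ≤ Real.log b₀ := by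
    rw [Real.le_log_iff_exp_le (by linarith)]
    have := Real.exp_one_lt_d9
    linarith
  -- the number `R`
  have hexR : ∃ R : ℕ, l ^ 3 ≤ ((m₀ * 2 ^ R : ℕ) : ℝ) := by
    obtain ⟨R, hR⟩ := pow_unbounded_of_one_lt (l ^ 3) (one_lt_two : (1 : ℝ) < 2)
    refine ⟨R, ?_⟩
    push_cast
    have h2 : (0 : ℝ) < 2 ^ R := by positivity
    nlinarith
  obtain ⟨R, hR, hRmin⟩ : ∃ R : ℕ, l ^ 3 ≤ ((m₀ * 2 ^ R : ℕ) : ℝ) ∧ ∀ j < R, ((m₀ * 2 ^ j : ℕ) : ℝ) < l ^ 3 :=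
    ⟨Nat.find hexR, Nat.find_spec hexR, fun j hj => not_le.1 (Nat.find_min hexR hj)⟩
  have hR1 : 1 ≤ R := by
    rcases Nat.eq_zero_or_pos R with h | h
    · exfalso
      rw [h, pow_zero, mul_one] at hR
      linarith
    · exact h
  obtain ⟨r, rfl⟩ : ∃ r, R = r + 1 := ⟨R - 1, by omega⟩
  have hr := hRmin r (by omega)
  have hM2 : ((m₀ * 2 ^ (r + 1) : ℕ) : ℝ) ≤ 2 * l ^ 3 := by
    have : ((m₀ * 2 ^ (r + 1) : ℕ) : ℝ) = 2 * ((m₀ * 2 ^ r : ℕ) : ℝ) := by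
      push_cast
      ring
    rw [this]
    linarith
  have hRlog : (((r + 1 : ℕ) : ℕ) : ℝ) ≤ 6 * Real.log l := by
    have h1 : (2 : ℝ) ^ r < l ^ 3 := by
      have h2 : (2 : ℝ) ^ r ≤ ((m₀ * 2 ^ r : ℕ) : ℝ) := by
        push_cast
        have h2 : (0 : ℝ) < 2 ^ r := by positivity
        nlinarith
      linarith
    have h2 := Real.log_lt_log (by positivity) h1
    rw [Real.log_pow, Real.log_pow] at h2
    have h3 := Real.log_two_gt_d9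
    push_cast at h2 ⊢
    have h4 : (r : ℝ) * 0.6 ≤ r * Real.log 2 := mul_le_mul_of_nonneg_left (by linarith) (Nat.cast_nonneg r)
    nlinarith
  -- the number `k`
  have hna : (1 : ℝ) < (n : ℝ) ^ (1 - a) := Real.one_lt_rpow hn1 (by linarith)
  have hexk : ∃ k : ℕ, (n : ℝ) ^ (1 - a) ≤ (b₀ : ℝ) ^ k := by
    obtain ⟨k, hk⟩ := pow_unbounded_of_one_lt ((n : ℝ) ^ (1 - a)) (show (1 : ℝ) < b₀ by linarith)
    exact ⟨k, hk.le⟩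
  obtain ⟨k, hk, hkmin⟩ : ∃ k : ℕ, (n : ℝ) ^ (1 - a) ≤ (b₀ : ℝ) ^ k ∧ ∀ j < k, (b₀ : ℝ) ^ j < (n : ℝ) ^ (1 - a) :=
    ⟨Nat.find hexk, Nat.find_spec hexk, fun j hj => not_le.1 (Nat.find_min hexk hj)⟩
  have hk1 : 1 ≤ k := by
    rcases Nat.eq_zero_or_pos k with h | h
    · exfalso
      rw [h, pow_zero] at hk
      linarith
    · exact h
  obtain ⟨s, rfl⟩ : ∃ s, k = s + 1 := ⟨k - 1, by omega⟩
  have hs := hkmin s (by omega)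
  have hklog : (((s + 1 : ℕ) : ℕ) : ℝ) ≤ (1 - a) * l / Real.log b₀ + 1 := by
    have h1 := Real.log_lt_log (by positivity) hs
    rw [Real.log_pow, Real.log_rpow (by linarith), ← hl] at h1
    push_cast
    have h2 : (s : ℝ) ≤ (1 - a) * l / Real.log b₀ := by
      rw [le_div_iff₀ (by linarith)]
      exact h1.le
    linarith
  have hkl : (1 - a) * l / Real.log b₀ ≤ l := by
    rw [div_le_iff₀ (by linarith)]
    nlinarith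
  -- the condition on the sizes
  have hbig : 2 * (W : ℝ) + 10 + 2 * (((K + 1) * (⌈l ^ 2⌉₊ + 3) : ℕ) : ℝ) ≤ ((m₀ * 2 ^ (r + 1) : ℕ) : ℝ) / 2 := by
    have h1 : (⌈l ^ 2⌉₊ : ℝ) ≤ l ^ 2 + 1 := (Nat.ceil_lt_add_one (by positivity)).le
    have h2 : (((K + 1) * (⌈l ^ 2⌉₊ + 3) : ℕ) : ℝ) ≤ ((K : ℝ) + 1) * (l ^ 2 + 4) := by
      push_cast
      exact mul_le_mul_of_nonneg_left (by linarith) (by linarith)
    have h3 : 2 * (W : ℝ) + 10 + 2 * (((K : ℝ) + 1) * (l ^ 2 + 4)) ≤ l ^ 3 / 2 := by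
      have h4 : 2 * (W : ℝ) + 10 + 8 * ((K : ℝ) + 1) ≤ (2 * (W : ℝ) + 10 + 8 * ((K : ℝ) + 1)) * l ^ 2 :=
        le_mul_of_one_le_right (by linarith) hl2
      have h5 : (4 * (W : ℝ) + 20 * K + 41 + m₀) * l ^ 2 ≤ l * l ^ 2 := mul_le_mul_of_nonneg_right hn (by positivity)
      have h6 : (4 * (W : ℝ) + 20 * K + 40) * l ^ 2 ≤ (4 * (W : ℝ) + 20 * K + 41 + m₀) * l ^ 2 :=
        mul_le_mul_of_nonneg_right (by linarith) (by positivity)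
      nlinarith
    linarith
  obtain ⟨P, hP, hP0, hPμ, hPm, hPb⟩ := lp_core (W := W) (K := K) (b := ⌈l ^ 2⌉₊) (R := r + 1) hb hγ he he' hm (by omega) hbig (s + 1)
  refine ⟨P, r + 1, s + 1, hP, hP0, hPμ, ?_, ?_, fun i _ => hPb i, ?_, ?_, hk, ?_, hklog⟩
  · intro i hi
    rw [hPm, min_eq_left hi]
  · intro i _
    rw [hPm, min_eq_right (by omega)]
    exact hR
  · have h1 : ∀ j ∈ Finset.range (r + 1 + (s + 1)), P.m j ≤ m₀ * 2 ^ (r + 1) := by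
      intro j _
      rw [hPm]
      exact Nat.mul_le_mul_left _ (Nat.pow_le_pow_right (by norm_num) (min_le_right _ _))
    have h2 := Finset.sum_le_card_nsmul _ _ _ h1
    rw [Finset.card_range, smul_eq_mul] at h2
    have h3 : (((∑ j ∈ Finset.range (r + 1 + (s + 1)), P.m j : ℕ) : ℕ) : ℝ) ≤
        (((r + 1 : ℕ) : ℝ) + ((s + 1 : ℕ) : ℝ)) * ((m₀ * 2 ^ (r + 1) : ℕ) : ℝ) := by
      exact_mod_cast h2
    have h4 : (((r + 1 : ℕ) : ℝ) + ((s + 1 : ℕ) : ℝ)) ≤ 8 * l := by linarith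
    have h5 : (((r + 1 : ℕ) : ℝ) + ((s + 1 : ℕ) : ℝ)) * ((m₀ * 2 ^ (r + 1) : ℕ) : ℝ) ≤ (8 * l) * (2 * l ^ 3) :=
      mul_le_mul h4 hM2 (Nat.cast_nonneg _) (by linarith)
    have h6 : (0 : ℝ) ≤ b₀ * l ^ 4 := by positivity
    nlinarith
  · have h1 : (0 : ℝ) ≤ b₀ * Real.log l := mul_nonneg (by linarith) (by linarith)
    nlinarith
  · rw [pow_succ]
    have h1 : (b₀ : ℝ) ^ s * b₀ ≤ (n : ℝ) ^ (1 - a) * b₀ := mul_le_mul_of_nonneg_right hs.le (by linarith)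
    nlinarith

theorem lev_ex {W K b₀ : ℕ} {γ₂ ε₂ a θ : ℝ} (hb : 3 ≤ b₀) (hγ : (b₀ : ℝ) * (2 * W + 4) ≤ γ₂) (he : 0 < ε₂) (he' : ε₂ ≤ 1 / 4) (ha : 0 < a) (ha' : a < 1) :
    ∃ C : ℝ, 0 < C ∧ ∀ m₀ : ℕ, 2 * W + 8 ≤ m₀ → ∀ᶠ p in Fth θ, ∃ (P : Lev) (R k : ℕ),
      LevOk P W K ⌈Real.log p.1 ^ 2⌉₊ γ₂ ε₂ R k ∧ P.m 0 = m₀ ∧ P.μ 0 = 0 ∧ (∀ i ≤ R, P.m i = m₀ * 2 ^ i) ∧ (∀ i ≤ k, Real.log p.1 ^ 3 ≤ P.m (R + i)) ∧
        (∀ i < k, P.b (R + i) = b₀) ∧ (((∑ j ∈ Finset.range (R + k), P.m j : ℕ) : ℕ) : ℝ) ≤ C * Real.log p.1 ^ 4 ∧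
        (R : ℝ) ≤ C * Real.log (Real.log p.1) ∧ (p.1 : ℝ) ^ (1 - a) ≤ (b₀ : ℝ) ^ k ∧ (b₀ : ℝ) ^ k ≤ C * (p.1 : ℝ) ^ (1 - a) ∧
        (k : ℝ) ≤ (1 - a) * Real.log p.1 / Real.log b₀ + 1 := by
  refine ⟨(b₀ : ℝ) + 16, by positivity, fun m₀ hm => ?_⟩
  have hn1 : Tendsto (fun q : ℕ × ℕ => q.1) (Fth θ) atTop := tendsto_inf_left tendsto_comap
  have h1 := (Real.tendsto_log_atTop.comp (tendsto_natCast_atTop_atTop.comp hn1)).eventually_ge_atTop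
    (4 * (W : ℝ) + 20 * K + 41 + m₀)
  filter_upwards [h1] with q hq
  exact lp_num hb hγ he he' ha ha' hm hq

end SYS.GW
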