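import Pool.Agent.SYS.GW.CntP
import Pool.Agent.SYS.GW.FinY
import Pool.Agent.SYS.GW.LevP

/-!
# SYSS-GRW-CntS: almost all pairs succeed and have few coincidences
-/

namespace SYS.GW

open Classical SST SYS.Num SYS.XP Filter Str

variable {θ x : ℝ}

/-! ### real analysis -/

/-- polynomial times exponential -/
private theorem cs_pow (m : ℕ) {a ε : ℝ} (ha : 0 < a) (hε : 0 < ε) : ∃ L₀ : ℝ, ∀ L : ℝ, L₀ ≤ L → L ^ m * Real.exp (-(a * L)) ≤ ε := by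
  have h1 : Tendsto (fun L : ℝ => L ^ m * Real.exp (-(a * L))) atTop (nhds 0) := by
    have h2 := (Real.tendsto_pow_mul_exp_neg_atTop_nhds_zero m).comp (tendsto_id.const_mul_atTop ha)
    have h3 := h2.const_mul (1 / a ^ m)
    rw [mul_zero] at h3
    refine h3.congr fun L => ?_
    simp only [Function.comp, id]
    rw [mul_pow]
    field_simp
  obtain ⟨L₀, h⟩ := eventually_atTop.1 ((tendsto_order.1 h1).2 ε hε)
  exact ⟨L₀, fun L hL => (h L hL).le⟩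

/-- sum over the first levels -/
private theorem cs_sum {c A ε : ℝ} (hc : 0 < c) (hA : 0 < A) (hε : 0 < ε) : ∃ t₀ : ℕ, ∀ t : ℕ, t₀ ≤ t → ∀ R : ℕ,
    ∑ j ∈ Finset.range R, A * (t * 2 ^ j : ℝ) * Real.exp (-(c * (t * 2 ^ j : ℝ))) ≤ ε := by
  -- y exp (- c y) ≤ (2 / c) exp (- c y / 2) ≤ (2/c) * exp (- c t / 2) * (1/2) ^ j  if exp (- c t /2) ≤ 1 / 2
  obtain ⟨L₀, h0⟩ := cs_pow 0 (a := c / 2) (ε := min (1 / 2) (ε * c / (4 * A))) (by positivity) (by positivity)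
  refine ⟨⌈L₀⌉₊, fun t ht R => ?_⟩
  have h1 : Real.exp (-(c / 2 * t)) ≤ min (1 / 2) (ε * c / (4 * A)) := by
    have h2 := h0 t ((Nat.le_ceil _).trans (by exact_mod_cast ht))
    rwa [pow_zero, one_mul] at h2
  have h3 := h1.trans (min_le_left _ _)
  have h4 := h1.trans (min_le_right _ _)
  set q := Real.exp (-(c / 2 * t)) with hq
  have hq0 : 0 < q := Real.exp_pos _
  have key : ∀ j ∈ Finset.range R, A * (t * 2 ^ j : ℝ) * Real.exp (-(c * (t * 2 ^ j : ℝ))) ≤ A * (2 / c) * q * (1 / 2) ^ j := by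
    intro j _
    have h5 : (t * 2 ^ j : ℝ) * Real.exp (-(c * (t * 2 ^ j : ℝ))) ≤ 2 / c * Real.exp (-(c / 2 * (t * 2 ^ j : ℝ))) := by
      have h6 : c / 2 * (t * 2 ^ j : ℝ) ≤ Real.exp (c / 2 * (t * 2 ^ j : ℝ)) := by
        linarith [Real.add_one_le_exp (c / 2 * (t * 2 ^ j : ℝ))]
      have h7 : (t * 2 ^ j : ℝ) ≤ 2 / c * Real.exp (c / 2 * (t * 2 ^ j : ℝ)) := by
        rw [div_mul_eq_mul_div, le_div_iff₀ hc]
        linarith
      calc (t * 2 ^ j : ℝ) * Real.exp (-(c * (t * 2 ^ j : ℝ))) ≤ 2 / c * Real.exp (c / 2 * (t * 2 ^ j : ℝ)) * Real.exp (-(c * (t * 2 ^ j : ℝ))) :=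
            mul_le_mul_of_nonneg_right h7 (Real.exp_pos _).le
        _ = 2 / c * Real.exp (-(c / 2 * (t * 2 ^ j : ℝ))) := by
            rw [mul_assoc, ← Real.exp_add]
            ring_nf
    have h8 : Real.exp (-(c / 2 * (t * 2 ^ j : ℝ))) = q ^ (2 ^ j : ℕ) := by
      rw [hq, ← Real.exp_nat_mul]
      push_cast
      ring_nf
    have h9 : q ^ (2 ^ j : ℕ) ≤ q * (1 / 2) ^ j := by
      have h10 : j + 1 ≤ 2 ^ j := Nat.lt_two_pow_self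
      calc q ^ (2 ^ j : ℕ) ≤ q ^ (j + 1) := pow_le_pow_of_le_one hq0.le (h3.trans (by norm_num)) h10
        _ = q * q ^ j := by rw [pow_succ]; ring
        _ ≤ q * (1 / 2) ^ j := by
            refine mul_le_mul_of_nonneg_left ?_ hq0.le
            exact pow_le_pow_left₀ hq0.le h3 j
    calc A * (t * 2 ^ j : ℝ) * Real.exp (-(c * (t * 2 ^ j : ℝ))) = A * ((t * 2 ^ j : ℝ) * Real.exp (-(c * (t * 2 ^ j : ℝ)))) := by ring
      _ ≤ A * (2 / c * Real.exp (-(c / 2 * (t * 2 ^ j : ℝ)))) := mul_le_mul_of_nonneg_left h5 hA.le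
      _ ≤ A * (2 / c * (q * (1 / 2) ^ j)) := by
          rw [h8]
          exact mul_le_mul_of_nonneg_left (mul_le_mul_of_nonneg_left h9 (by positivity)) hA.le
      _ = A * (2 / c) * q * (1 / 2) ^ j := by ring
  refine (Finset.sum_le_sum key).trans ?_
  rw [← Finset.mul_sum]
  have h11 : ∑ j ∈ Finset.range R, (1 / 2 : ℝ) ^ j ≤ 2 := by
    rw [geom_sum_eq (by norm_num)]
    have : (0 : ℝ) ≤ (1 / 2) ^ R := by positivity
    rw [div_le_iff_of_neg (by norm_num)]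
    linarith
  calc A * (2 / c) * q * ∑ j ∈ Finset.range R, (1 / 2 : ℝ) ^ j ≤ A * (2 / c) * q * 2 := mul_le_mul_of_nonneg_left h11 (by positivity)
    _ ≤ A * (2 / c) * (ε * c / (4 * A)) * 2 := by
        refine mul_le_mul_of_nonneg_right (mul_le_mul_of_nonneg_left h4 (by positivity)) (by norm_num)
    _ = ε := by field_simp; ring

/-- the number of the branches times the probability of a bad step -/
private theorem cs_big {C D E c a ε : ℝ} (hC : 0 < C) (hD : 0 < D) (hE : 0 < E) (hc : 0 < c) (ha : 0 < a) (hε : 0 < ε) :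
    ∃ n₀ : ℝ, ∀ n : ℝ, n₀ ≤ n → ∀ N M b : ℝ,
    0 ≤ N → 0 ≤ M → Real.log n ^ 2 ≤ b → N + 3 ≤ D * Real.log n ^ 4 → M ≤ E * n ^ (1 - a) →
      M * (C * (N + 3) ^ 4 * (1 / n + Real.exp (-c * b))) ≤ ε := by
  obtain ⟨L₀, h0⟩ := cs_pow 16 ha (ε := ε / (2 * E * C * D ^ 4)) (by positivity)
  refine ⟨Real.exp (max (max L₀ 1) (1 / c)), fun n hn N M b hN hM hb hN' hM' => ?_⟩
  have hn0 : 0 < n := (Real.exp_pos _).trans_le hn
  set L := Real.log n with hL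
  have hL1 : max (max L₀ 1) (1 / c) ≤ L := by
    rw [hL]
    exact (Real.le_log_iff_exp_le hn0).2 hn
  have hL2 : L₀ ≤ L := ((le_max_left _ _).trans (le_max_left _ _)).trans hL1
  have hL3 : 1 ≤ L := ((le_max_right _ _).trans (le_max_left _ _)).trans hL1
  have hL4 : 1 / c ≤ L := (le_max_right _ _).trans hL1
  have hL5 : 1 ≤ c * L := by
    rw [div_le_iff₀ hc] at hL4
    linarith
  have e1 : n ^ (1 - a) = Real.exp ((1 - a) * L) := by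
    rw [Real.rpow_def_of_pos hn0, mul_comm]
  have e2 : 1 / n = Real.exp (-L) := by
    rw [hL, Real.exp_neg, Real.exp_log hn0, one_div]
  have h1 : Real.exp (-c * b) ≤ Real.exp (-L) := by
    rw [Real.exp_le_exp]
    nlinarith
  have h2 : 1 / n + Real.exp (-c * b) ≤ 2 * Real.exp (-L) := by
    rw [e2]
    linarith
  have h3 : (N + 3) ^ 4 ≤ (D * L ^ 4) ^ 4 := pow_le_pow_left₀ (by linarith) hN' 4
  calc M * (C * (N + 3) ^ 4 * (1 / n + Real.exp (-c * b))) ≤ (E * n ^ (1 - a)) * (C * (D * L ^ 4) ^ 4 * (2 * Real.exp (-L))) := by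
        have h4 : 0 ≤ 1 / n + Real.exp (-c * b) := by positivity
        refine mul_le_mul hM' ?_ (by positivity) (by positivity)
        exact mul_le_mul (mul_le_mul_of_nonneg_left h3 hC.le) h2 h4 (by positivity)
    _ = 2 * E * C * D ^ 4 * (L ^ 16 * Real.exp (-(a * L))) := by
        rw [e1]
        have : Real.exp (-(a * L)) = Real.exp ((1 - a) * L) * Real.exp (-L) := by
          rw [← Real.exp_add]
          ring_nf
        rw [this]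
        ring
    _ ≤ 2 * E * C * D ^ 4 * (ε / (2 * E * C * D ^ 4)) := mul_le_mul_of_nonneg_left (h0 L hL2) (by positivity)
    _ = ε := by field_simp

/-- the number of the nodes of the branching levels times the probability of a failure -/
private theorem cs_lev {C D E c a ε : ℝ} (hC : 0 < C) (hD : 0 < D) (hE : 0 < E) (hc : 0 < c) (ha : 0 < a) (hε : 0 < ε) :
    ∃ n₀ : ℝ, ∀ n : ℝ, n₀ ≤ n → ∀ N M k m : ℝ,
    0 ≤ N → 0 ≤ M → 0 ≤ k → k ≤ 2 * Real.log n → Real.log n ^ 3 ≤ m → N + 3 ≤ D * Real.log n ^ 4 → M ≤ E * n ^ (1 - a) →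
      k * (M * (C * (N + 3) * Real.exp (-c * m))) ≤ ε := by
  obtain ⟨L₀, h0⟩ := cs_pow 5 ha (ε := ε / (2 * E * C * D)) (by positivity)
  refine ⟨Real.exp (max (max L₀ 1) (1 / c)), fun n hn N M k m hN hM hk hk' hm hN' hM' => ?_⟩
  have hn0 : 0 < n := (Real.exp_pos _).trans_le hn
  set L := Real.log n with hL
  have hL1 : max (max L₀ 1) (1 / c) ≤ L := by
    rw [hL]
    exact (Real.le_log_iff_exp_le hn0).2 hn
  have hL2 : L₀ ≤ L := ((le_max_left _ _).trans (le_max_left _ _)).trans hL1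
  have hL3 : 1 ≤ L := ((le_max_right _ _).trans (le_max_left _ _)).trans hL1
  have hL4 : 1 / c ≤ L := (le_max_right _ _).trans hL1
  have hL5 : 1 ≤ c * L := by
    rw [div_le_iff₀ hc] at hL4
    linarith
  have e1 : n ^ (1 - a) = Real.exp ((1 - a) * L) := by
    rw [Real.rpow_def_of_pos hn0, mul_comm]
  have h1 : Real.exp (-c * m) ≤ Real.exp (-L) := by
    rw [Real.exp_le_exp]
    have h5 : c * L ^ 3 ≤ c * m := mul_le_mul_of_nonneg_left hm hc.le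
    have h6 : L ≤ c * L ^ 3 := by
      calc L = 1 * L * 1 := by ring
        _ ≤ (c * L) * L * L := by
            refine mul_le_mul (mul_le_mul_of_nonneg_right hL5 (by linarith)) hL3 (by norm_num) (by positivity)
        _ = c * L ^ 3 := by ring
    linarith
  have h3 : N + 3 ≤ D * L ^ 4 := hN'
  calc k * (M * (C * (N + 3) * Real.exp (-c * m))) ≤ (2 * L) * ((E * n ^ (1 - a)) * (C * (D * L ^ 4) * Real.exp (-L))) := by
        refine mul_le_mul hk' (mul_le_mul hM' ?_ (by positivity) (by positivity)) (by positivity) (by positivity)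
        exact mul_le_mul (mul_le_mul_of_nonneg_left h3 hC.le) h1 (by positivity) (by positivity)
    _ = 2 * E * C * D * (L ^ 5 * Real.exp (-(a * L))) := by
        rw [e1]
        have : Real.exp (-(a * L)) = Real.exp ((1 - a) * L) * Real.exp (-L) := by
          rw [← Real.exp_add]
          ring_nf
        rw [this]
        ring
    _ ≤ 2 * E * C * D * (ε / (2 * E * C * D)) := mul_le_mul_of_nonneg_left (h0 L hL2) (by positivity)
    _ = ε := by field_simp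

/-- depth and size of the steps -/
private theorem cs_dep {C δ : ℝ} (hC : 0 < C) (hδ : 0 < δ) : ∃ n₀ : ℝ, ∀ n : ℝ, n₀ ≤ n → ∀ N b : ℝ,
    0 ≤ N → 0 ≤ b → b ≤ Real.log n ^ 2 + 1 → N + 3 ≤ C * Real.log n ^ 4 → (N + 3) * (b + 1) ≤ δ * n := by
  obtain ⟨L₀, h0⟩ := cs_pow 6 one_pos (ε := δ / (3 * C)) (by positivity)
  refine ⟨Real.exp (max L₀ 1), fun n hn N b hN hb hb' hN' => ?_⟩
  have hn0 : 0 < n := (Real.exp_pos _).trans_le hn
  set L := Real.log n with hL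
  have hL1 : max L₀ 1 ≤ L := by
    rw [hL]
    exact (Real.le_log_iff_exp_le hn0).2 hn
  have hL2 : L₀ ≤ L := (le_max_left _ _).trans hL1
  have hL3 : 1 ≤ L := (le_max_right _ _).trans hL1
  have h1 : b + 1 ≤ 3 * L ^ 2 := by nlinarith
  have h2 := h0 L hL2
  rw [one_mul] at h2
  have h3 : L ^ 6 ≤ δ / (3 * C) * n := by
    have h4 : Real.exp (-L) * n = 1 := by
      rw [hL, Real.exp_neg, Real.exp_log hn0, inv_mul_cancel₀ hn0.ne']
    calc L ^ 6 = L ^ 6 * Real.exp (-L) * n := by rw [mul_assoc, h4, mul_one]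
      _ ≤ δ / (3 * C) * n := mul_le_mul_of_nonneg_right h2 hn0.le
  calc (N + 3) * (b + 1) ≤ (C * L ^ 4) * (3 * L ^ 2) := mul_le_mul hN' h1 (by linarith) (by positivity)
    _ = 3 * C * L ^ 6 := by ring
    _ ≤ 3 * C * (δ / (3 * C) * n) := mul_le_mul_of_nonneg_left h3 (by positivity)
    _ = δ * n := by field_simp

/-! ### counting -/

private theorem cs_markov {α ι : Type} [Finite α] (s : Finset ι) (F : ι → Set α) (G : Set α) (M : ℕ)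
    (h : ∀ q ∈ G, ∃ t ⊆ s, M ≤ t.card ∧ ∀ z ∈ t, q ∈ F z) : M * G.ncard ≤ ∑ z ∈ s, (F z).ncard := by
  have := Fintype.ofFinite α
  have h1 : ∀ z ∈ s, (F z).ncard = ∑ q : α, if q ∈ F z then 1 else 0 := by
    intro z _
    rw [Set.ncard_eq_toFinset_card' (F z), ← Finset.sum_filter, Finset.sum_const, smul_eq_mul, mul_one]
    congr 1
    ext q
    simp
  rw [Finset.sum_congr rfl h1, Finset.sum_comm]
  have h2 : ∀ q : α, (if q ∈ G then M else 0) ≤ ∑ z ∈ s, if q ∈ F z then 1 else 0 := by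
    intro q
    split_ifs with hq
    · obtain ⟨t, h3, h4, h5⟩ := h q hq
      refine h4.trans ?_
      rw [← Finset.card_filter]
      exact Finset.card_le_card fun z hz => Finset.mem_filter.2 ⟨h3 hz, h5 z hz⟩
    · exact Nat.zero_le _
  refine le_trans ?_ (Finset.sum_le_sum fun q _ => h2 q)
  rw [← Finset.sum_filter, Finset.sum_const, smul_eq_mul, mul_comm, Set.ncard_eq_toFinset_card' G]
  refine le_of_eq ?_
  congr 2
  ext q
  simp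

private theorem cs_union {α ι : Type} [Finite α] (s : Finset ι) (F : ι → Set α) (G : Set α) (h : ∀ q ∈ G, ∃ z ∈ s, q ∈ F z) :
    G.ncard ≤ ∑ z ∈ s, (F z).ncard := by
  have h1 := cs_markov s F G 1 (fun q hq => by
    obtain ⟨z, hz, hq'⟩ := h q hq
    refine ⟨{z}, Finset.singleton_subset_iff.2 hz, by rw [Finset.card_singleton], fun w hw => ?_⟩
    rw [Finset.mem_singleton.1 hw]
    exact hq')
  rwa [one_mul] at h1

/-! ### the source -/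

private theorem cs_cyc {D : Type} [DecidableEq D] {t0 t1 t2 : D} (h01 : t0 ≠ t1) (h20 : t2 ≠ t0) :
    cyc3 t0 t1 t2 t0 = t1 := by
  unfold cyc3
  rw [Equiv.Perm.mul_apply, Equiv.swap_apply_of_ne_of_ne h01 h20.symm, Equiv.swap_apply_left]

private theorem cs_cyc1 {D : Type} [DecidableEq D] {t0 t1 t2 : D} (h12 : t1 ≠ t2) (h20 : t2 ≠ t0) :
    cyc3 t0 t1 t2 t1 = t2 := by
  unfold cyc3
  rw [Equiv.Perm.mul_apply, Equiv.swap_apply_left, Equiv.swap_apply_of_ne_of_ne h20 h12.symm]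

private theorem cs_src {D : Type} [Finite D] {T : Tri D} {x : D} {S1 S2 : Part D} (h : UP.Src Part.emp T x S1)
    (h' : UP.Src Part.emp T x S2) : S1 = S2 := by
  have key : ∀ {S : Part D}, UP.Src Part.emp T x S → S.R = {x, T.f x, T.f (T.f x)} ∧ S.B = {x, T.f x, T.f (T.f x)} := by
    rintro S ⟨hL, t1, t2, h0, h1, h2, h01, h12, h20, rfl⟩
    have hf : ∀ d, ((Part.emp : Part D).newTri x t1 t2 h0 h1 h2 h01 h12 h20).f d =
        @cyc3 D (fun a b => Classical.propDecidable (a = b)) x t1 t2 d := fun d => rfl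
    have e1 : T.f x = t1 := by
      rw [hL.1 x (by rw [hf, cs_cyc h01 h20]; exact h01.symm), hf, cs_cyc h01 h20]
    have e2 : T.f t1 = t2 := by
      rw [hL.1 t1 (by rw [hf, cs_cyc1 h12 h20]; exact h12.symm), hf, cs_cyc1 h12 h20]
    have hR : (Part.emp : Part D).R = ∅ := by
      ext d
      constructor
      · intro hd
        exact absurd rfl hd
      · intro hd
        exact absurd hd (Set.notMem_empty d)
    have hB : (Part.emp : Part D).B = ∅ := by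
      ext d
      constructor
      · intro hd
        exact absurd rfl hd.1
      · intro hd
        exact absurd hd (Set.notMem_empty d)
    rw [e1, e2]
    constructor
    · rw [Part.newTri_R, hR, Set.empty_union]
    · rw [Part.newTri_B, hB, Set.empty_union]
  obtain ⟨a1, a2⟩ := key h
  obtain ⟨b1, b2⟩ := key h'
  exact Part.le_ext h.1 h'.1 (a1.trans b1.symm) (a2.trans b2.symm)

private theorem cs_in {n g : ℕ} (hn : 1 ≤ n) {T : Tri (Fin (6 * n))} (hT : T ∈ Trn n g) {y : Fin (6 * n)} {S : Part (Fin (6 * n))}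
    (h : UP.Src Part.emp T y S) : In T S := by
  obtain ⟨S', h1, h2, -, -⟩ := src_ex hn hT y
  rw [cs_src h h1]
  exact h2

private theorem cs_adrs {P : Lev} {l : ℕ} {u : List ℕ} : u ∈ adrs P l ↔ Adr P 0 u ∧ u.length = l := by
  unfold adrs
  rw [Set.Finite.mem_toFinset]
  rfl

theorem all_fail {n g b W v N₀ V₀ R k : ℕ} {γ ε₁ γ₂ ε₂ : ℝ} {B : CH.Blk} (hB : BOk B x W v γ ε₁) {P : Lev} (hP : LevOk P W B.K b γ₂ ε₂ R k)
    (h0 : P.μ 0 = 0) {T : Tri (Fin (6 * n))} (hT : T ∈ Trn n g) (hg : 1 ≤ g) {y : Fin (6 * n)} {S : Part (Fin (6 * n))} (hS : OH S 3 (2 * n - 1))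
    (hST : In T S) (hA : ¬ AllS b T B W v P γ₂ ε₂ N₀ V₀ (R + k) y S) :
    Bad b T (canS N₀ S) S ∨
    (¬ Bad b T (canS N₀ S) S ∧ ¬ ∃ Z, Run b T (canS N₀ S) S Z Z ∧ NdOk W 0 (P.m 0) (iniNd W (P.m 0) y Z) ∧ (iniNd W (P.m 0) y Z).Z = Z ∧
      1 ≤ (iniNd W (P.m 0) y Z).c ∧ Z.R.ncard ≤ V₀) ∨
    (∃ u, Adr P 0 u ∧ u.length = R + k ∧ Bad b T (fulS B W v P N₀ y S u) S) ∨
    ∃ u, Adr P 0 u ∧ u.length < R + k ∧ ∃ Z nd, Run b T (canS N₀ S) S Z Z ∧ nd = iniNd W (P.m 0) y Z ∧ nd.Z = Z ∧ NdOk W 0 (P.m 0) nd ∧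
      ∃ nd', Suc b T B W v P γ₂ ε₂ 0 u nd nd' ∧ ∃ r Z', Run b T (nodeS B W v nd'.Z nd'.gts nd'.Z 0 0 0) nd'.Z r Z' ∧ Fai γ₂ ε₂ (P.m u.length) r := by
  have _ := hT
  have _ := hg
  have _ := hS
  have _ := hST
  by_cases hb : Bad b T (canS N₀ S) S
  · exact Or.inl hb
  right
  by_cases hZ : ∃ Z, Run b T (canS N₀ S) S Z Z ∧ NdOk W 0 (P.m 0) (iniNd W (P.m 0) y Z) ∧ (iniNd W (P.m 0) y Z).Z = Z ∧
      1 ≤ (iniNd W (P.m 0) y Z).c ∧ Z.R.ncard ≤ V₀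
  swap
  · exact Or.inl ⟨hb, hZ⟩
  right
  obtain ⟨Z, hR, hN, hNZ, hc, hV⟩ := hZ
  by_contra hcon
  rw [not_or] at hcon
  obtain ⟨n1, n2⟩ := hcon
  refine hA ⟨Z, iniNd W (P.m 0) y Z, hR, rfl, hN, hNZ, hc, hV, fun u hu hl => ?_⟩
  rcases suc_or (b := b) (T := T) (nd := iniNd W (P.m 0) y Z) (i := 0) (u := u) hB hP (by omega) hu (by rw [h0]; exact hN) with h1 | h1 | h1
  · exfalso
    refine n1 ⟨u, hu, hl, ?_⟩
    unfold fulS iniS
    rw [bad_bind]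
    refine Or.inr ⟨iniNd W (P.m 0) y Z, Z, ?_, ?_⟩
    · rw [run_bind]
      exact ⟨Z, Z, hR, rfl, rfl⟩
    · rw [hNZ] at h1
      exact h1
  · exfalso
    obtain ⟨j, hj, nd', h2, r, Z', h3, h4⟩ := h1
    have hlen : (u.take j).length = j := by
      rw [List.length_take]
      omega
    refine n2 ⟨u.take j, ?_, by omega, Z, _, hR, rfl, hNZ, hN, nd', h2, r, Z', h3, ?_⟩
    · intro i hi
      rw [List.getElem_take]
      exact hu i (by rw [List.length_take] at hi; omega)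
    · rw [hlen]
      rwa [zero_add] at h4
  · exact h1

/-- numbers of the addresses -/
private theorem cs_card {P : Lev} {W K b R k b₀ : ℕ} {γ₂ ε₂ : ℝ} (hP : LevOk P W K b γ₂ ε₂ R k) (hb : ∀ i < k, P.b (R + i) = b₀) :
    (∀ j ≤ R, (adrs P j).card = 1) ∧ ∀ i ≤ k, (adrs P (R + i)).card = b₀ ^ i := by
  have h1 : ∀ j ≤ R, (adrs P j).card = 1 := by
    intro j hj
    rw [card_adrs]
    refine Finset.prod_eq_one fun i hi => hP.bi i ?_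
    have := Finset.mem_range.1 hi
    omega
  refine ⟨h1, fun i hi => ?_⟩
  rw [card_adrs, Finset.prod_range_add, ← card_adrs P R, h1 R le_rfl, one_mul, Finset.prod_congr rfl (g := fun _ => b₀), Finset.prod_const,
    Finset.card_range]
  intro j hj
  have := Finset.mem_range.1 hj
  exact hb j (by omega)

/-- choice of the first parameters -/
private theorem cs_par {W K : ℕ} {d₀ C₂ c₂ K₃ c₃ η : ℝ} (hd : 0 < d₀) (hC : 0 < C₂) (hc : 0 < c₂) (hK : 0 < K₃) (hc' : 0 < c₃) (hη : 0 < η) :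
    ∃ m₀ N₀ : ℕ, 2 * W + 8 ≤ m₀ ∧ ((m₀ * (2 * W + 3) + 2 * (W + 2) + 4 : ℕ) : ℝ) ≤ d₀ * N₀ ∧ C₂ * Real.exp (-c₂ * N₀) ≤ η ∧
      ∀ R : ℕ, ∑ j ∈ Finset.range R, K₃ * (((N₀ + ∑ i ∈ Finset.range (j + 1), m₀ * 2 ^ i * K : ℕ) : ℝ) + 3) * Real.exp (-c₃ * ((m₀ * 2 ^ j : ℕ) : ℝ)) ≤ η := by
  set A₀ : ℝ := (2 * W + 4) / d₀ + 2 with hA₀
  have hA₀p : 0 < A₀ := by positivity
  obtain ⟨t₀, ht₀⟩ := cs_sum (c := c₃) (A := K₃ * (A₀ + 2 * K + 3)) (ε := η) hc' (by positivity) hη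
  obtain ⟨L₀, hL₀⟩ := cs_pow 0 (a := c₂) (ε := η / C₂) hc (by positivity)
  obtain ⟨m₀, hm₀⟩ : ∃ m₀ : ℕ, m₀ = max (max t₀ (2 * W + 8)) ⌈L₀⌉₊ := ⟨_, rfl⟩
  have g1 : t₀ ≤ m₀ := by omega
  have g2 : 2 * W + 8 ≤ m₀ := by omega
  have g3 : ⌈L₀⌉₊ ≤ m₀ := by omega
  have g2' : (2 * W + 8 : ℝ) ≤ m₀ := by exact_mod_cast g2
  obtain ⟨Y, hY⟩ : ∃ Y : ℝ, Y = ((m₀ * (2 * W + 3) + 2 * (W + 2) + 4 : ℕ) : ℝ) / d₀ := ⟨_, rfl⟩
  have hY0 : 0 ≤ Y := by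
    rw [hY]
    positivity
  obtain ⟨N₀, hN₀⟩ : ∃ N₀ : ℕ, N₀ = ⌈Y⌉₊ + m₀ := ⟨_, rfl⟩
  have g4 : Y + m₀ ≤ N₀ := by
    rw [hN₀, Nat.cast_add]
    linarith [Nat.le_ceil Y]
  have g5 : (N₀ : ℝ) ≤ A₀ * m₀ := by
    have h1 : (⌈Y⌉₊ : ℝ) < Y + 1 := Nat.ceil_lt_add_one hY0
    have h2 : Y ≤ (2 * W + 4) / d₀ * m₀ := by
      rw [hY]
      rw [div_mul_eq_mul_div]
      refine div_le_div_of_nonneg_right ?_ hd.le
      push_cast
      nlinarith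
    have h3 : (1 : ℝ) ≤ m₀ := by
      have : 1 ≤ m₀ := by omega
      exact_mod_cast this
    rw [hN₀, Nat.cast_add, hA₀, add_mul]
    linarith
  refine ⟨m₀, N₀, g2, ?_, ?_, fun R => ?_⟩
  · have h1 : Y ≤ N₀ := by
      have : (0 : ℝ) ≤ m₀ := Nat.cast_nonneg _
      linarith
    rw [hY, div_le_iff₀ hd] at h1
    linarith
  · have h1 : L₀ ≤ N₀ := by
      have h2 : L₀ ≤ m₀ := (Nat.le_ceil _).trans (by exact_mod_cast g3)
      have h3 : (m₀ : ℝ) ≤ N₀ := by linarith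
      linarith
    have h4 := hL₀ N₀ h1
    rw [pow_zero, one_mul, le_div_iff₀ hC] at h4
    rw [neg_mul]
    linarith
  · refine le_trans (Finset.sum_le_sum fun j _ => ?_) (ht₀ m₀ g1 R)
    have h1 : ((m₀ * 2 ^ j : ℕ) : ℝ) = (m₀ : ℝ) * 2 ^ j := by push_cast; rfl
    have h2 : (∑ i ∈ Finset.range (j + 1), m₀ * 2 ^ i * K) ≤ 2 * K * (m₀ * 2 ^ j) := by
      have h3 : ∑ i ∈ Finset.range (j + 1), m₀ * 2 ^ i * K = m₀ * K * ∑ i ∈ Finset.range (j + 1), 2 ^ i := by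
        rw [Finset.mul_sum]
        exact Finset.sum_congr rfl fun i _ => by ring
      have h4 : ∑ i ∈ Finset.range (j + 1), 2 ^ i ≤ 2 * 2 ^ j := by
        have h5 := Nat.geomSum_eq (m := 2) le_rfl (j + 1)
        rw [h5, pow_succ]
        omega
      rw [h3]
      calc m₀ * K * ∑ i ∈ Finset.range (j + 1), 2 ^ i ≤ m₀ * K * (2 * 2 ^ j) := Nat.mul_le_mul_left _ h4
        _ = 2 * K * (m₀ * 2 ^ j) := by ring
    have h6 : (1 : ℝ) ≤ 2 ^ j := one_le_pow₀ (by norm_num)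
    have h7 : (1 : ℝ) ≤ m₀ := by
      have : 1 ≤ m₀ := by omega
      exact_mod_cast this
    have h8 : (((N₀ + ∑ i ∈ Finset.range (j + 1), m₀ * 2 ^ i * K : ℕ) : ℝ) + 3) ≤ (A₀ + 2 * K + 3) * ((m₀ : ℝ) * 2 ^ j) := by
      have h9 : ((∑ i ∈ Finset.range (j + 1), m₀ * 2 ^ i * K : ℕ) : ℝ) ≤ 2 * K * ((m₀ : ℝ) * 2 ^ j) := by exact_mod_cast h2
      rw [Nat.cast_add]
      have h10 : A₀ * m₀ ≤ A₀ * ((m₀ : ℝ) * 2 ^ j) := by
        refine mul_le_mul_of_nonneg_left ?_ hA₀p.le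
        nlinarith
      have h11 : (3 : ℝ) ≤ 3 * ((m₀ : ℝ) * 2 ^ j) := by nlinarith
      linarith
    rw [h1, neg_mul]
    refine mul_le_mul_of_nonneg_right ?_ (Real.exp_pos _).le
    calc K₃ * (((N₀ + ∑ i ∈ Finset.range (j + 1), m₀ * 2 ^ i * K : ℕ) : ℝ) + 3) ≤ K₃ * ((A₀ + 2 * K + 3) * ((m₀ : ℝ) * 2 ^ j)) :=
          mul_le_mul_of_nonneg_left h8 hK.le
      _ = K₃ * (A₀ + 2 * K + 3) * ((m₀ : ℝ) * 2 ^ j) := by ring

private theorem cs_siz {N S K C P : ℝ} (h7 : S * K ≤ C * P * K) (h8 : N + 3 ≤ (N + 3) * P) :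
    N + 2 * S * K + 3 ≤ (N + 3 + 2 * K * C) * P := by
  have h9 : (N + 3 + 2 * K * C) * P = (N + 3) * P + 2 * (C * P * K) := by ring
  linarith

private theorem cs_lb {a L l : ℝ} (ha : 0 ≤ a) (hL : 1 ≤ L) (hl : 1 ≤ l) : (1 - a) * L ≤ L * l := by
  have h1 : 0 ≤ a * L := mul_nonneg ha (by linarith)
  have h2 : L * 1 ≤ L * l := mul_le_mul_of_nonneg_left hl (by linarith)
  linarith

private theorem cs_g {θ : ℝ} (hθ : 0 < θ) : ∀ᶠ q in Fth θ, 1 ≤ (q : ℕ × ℕ).2 := by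
  have h2 : ∀ᶠ q in Fth θ, |((q : ℕ × ℕ).2 : ℝ) / q.1 - θ| < θ := by
    have hh : Tendsto (fun q : ℕ × ℕ => (q.2 : ℝ) / q.1) (Fth θ) (nhds θ) := tendsto_inf_right tendsto_comap
    have := (Metric.tendsto_nhds.1 hh) θ hθ
    simpa [Real.dist_eq] using this
  filter_upwards [h2] with q hq
  by_contra hcon
  have h0 : q.2 = 0 := by omega
  rw [h0] at hq
  simp at hq
  rw [abs_of_pos hθ] at hq
  exact lt_irrefl _ hq

theorem cnt_all (h : Par θ x) {W v b₀ : ℕ} {γ ε₁ γ₂ ε₂ a : ℝ} {B : CH.Blk} (hB : BOk B x W v γ ε₁) (h0 : 0 ≤ γ₂) (h1 : 0 ≤ ε₁)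
    (h2 : γ₂ < γ - (1 + γ) * ε₁) (h3 : ε₁ < ε₂) (h4 : ε₂ ≤ 1 / 4) (hb : 3 ≤ b₀) (hγ : (b₀ : ℝ) * (2 * W + 4) ≤ γ₂) (ha : 0 < a) (ha' : a < 1) :
    ∃ C : ℝ, 0 < C ∧ ∀ η : ℝ, 0 < η → ∃ N₀ V₀ : ℕ, ∀ᶠ p in Fth θ, ∃ (b : ℕ) (P : Lev) (R k : ℕ), LevOk P W B.K b γ₂ ε₂ R k ∧ P.μ 0 = 0 ∧
      (R : ℝ) ≤ C * Real.log (Real.log p.1) ∧ (k : ℝ) ≤ (1 - a) * Real.log p.1 / Real.log b₀ + 1 ∧ (p.1 : ℝ) ^ (1 - a) ≤ (adrs P (R + k)).card ∧
      (({q : Tri (Fin (6 * p.1)) × Fin (6 * p.1) | q.1 ∈ Trn p.1 p.2 ∧ ∃ S, UP.Src Part.emp q.1 q.2 S ∧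
        (¬ AllS b q.1 B W v P γ₂ ε₂ N₀ V₀ (R + k) q.2 S ∨ (adrs P (R + k)).card <
          ((adrs P (R + k) ×ˢ adrs P (R + k)).filter fun z => z.1 ≠ z.2 ∧ Coi b q.1 B W v P γ₂ ε₂ N₀ q.2 S z.1 z.2).card)}.ncard : ℕ) : ℝ) ≤
        η * (6 * p.1) * ((Trn p.1 p.2).ncard : ℕ) := by
  obtain ⟨C₁, c₁, δ₁, hC₁, hc₁, hδ₁, e1⟩ := cnt_bad h
  obtain ⟨d₀, D₁, C₂, c₂, hd₀, hD₁, hC₂, hc₂, e2⟩ := cnt_ini h
  have hγ0 : 0 ≤ γ := by
    by_contra hcon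
    rw [not_le] at hcon
    nlinarith
  obtain ⟨K₃, c₃, δ₃, hK₃, hc₃, hδ₃, e3⟩ := cnt_node h hB hγ0 h0 h1 h2 h3
  obtain ⟨C₄, c₄, δ₄, hC₄, hc₄, hδ₄, e4⟩ := cnt_coi h hB (γ₂ := γ₂) (ε₂ := ε₂)
  obtain ⟨C₅, hC₅, e5⟩ := lev_ex (W := W) (K := B.K) (b₀ := b₀) (θ := θ) hb hγ (h1.trans_lt h3) h4 ha ha'
  refine ⟨C₅, hC₅, fun η hη => ?_⟩
  have hη5 : 0 < η / 5 := by positivity
  obtain ⟨m₀, N₀, hm₀, hmN, hini, hlow⟩ := cs_par (W := W) (K := B.K) hd₀ hC₂ hc₂ hK₃ hc₃ hη5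
  refine ⟨N₀, ⌈3 + 3 * D₁ * N₀⌉₊, ?_⟩
  set D : ℝ := N₀ + 3 + 2 * B.K * C₅ with hD
  have hDp : 0 < D := by positivity
  obtain ⟨n₁, hn₁⟩ := cs_big (C := C₁) (D := D) (E := 2 * C₅) (c := c₁) (a := a) (ε := η / 5) hC₁ hDp (by positivity) hc₁ ha hη5
  obtain ⟨n₂, hn₂⟩ := cs_lev (C := K₃) (D := D) (E := C₅) (c := c₃) (a := a) (ε := η / 5) hK₃ hDp hC₅ hc₃ ha hη5
  obtain ⟨n₃, hn₃⟩ := cs_big (C := C₄) (D := D) (E := C₅) (c := c₄) (a := a) (ε := η / 5) hC₄ hDp hC₅ hc₄ ha hη5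
  obtain ⟨n₄, hn₄⟩ := cs_dep (C := D) (δ := min δ₁ (min δ₃ δ₄)) hDp (by positivity)
  have hfst : Tendsto (fun p : ℕ × ℕ => (p.1 : ℝ)) (Fth θ) atTop :=
    tendsto_natCast_atTop_atTop.comp (tendsto_inf_left tendsto_comap)
  filter_upwards [e1, e2 N₀ W m₀ ⌈3 + 3 * D₁ * N₀⌉₊ hmN (Nat.le_ceil _), e3, e4, e5 m₀ hm₀, hfst.eventually_ge_atTop n₁, hfst.eventually_ge_atTop n₂,
    hfst.eventually_ge_atTop n₃, hfst.eventually_ge_atTop n₄, hfst.eventually_ge_atTop (Real.exp 1), cs_g h.1] with p f1 f2 f3 f4 f5 g1 g2 g3 g4 g5 g6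
  obtain ⟨P, R, k, hP, hm0, hμ, hPm, hPk, hPb, hsum, hR, hk1, hk2, hk3⟩ := f5
  have hp0 : (0 : ℝ) < p.1 := (Real.exp_pos 1).trans_le g5
  have hp1 : 1 ≤ p.1 := by exact_mod_cast hp0
  set n : ℝ := (p.1 : ℝ) with hn
  set L := Real.log n with hL
  have hL1 : 1 ≤ L := (Real.le_log_iff_exp_le hp0).2 g5
  obtain ⟨hca, hcb⟩ := cs_card hP hPb
  have hM : (adrs P (R + k)).card = b₀ ^ k := hcb k le_rfl
  have hMr : (((adrs P (R + k)).card : ℕ) : ℝ) = (b₀ : ℝ) ^ k := by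
    rw [hM]
    push_cast
    rfl
  set b := ⌈L ^ 2⌉₊ with hbb
  refine ⟨b, P, R, k, hP, hμ, hR, hk3, by rw [hMr]; exact hk1, ?_⟩
  -- the size
  obtain ⟨N, hN⟩ : ∃ N : ℕ, N = N₀ + 2 * ∑ j ∈ Finset.range (R + k), P.m j * B.K := ⟨_, rfl⟩
  have hb1 : L ^ 2 ≤ (b : ℝ) := Nat.le_ceil _
  have hb2 : (b : ℝ) ≤ L ^ 2 + 1 := (Nat.ceil_lt_add_one (by positivity)).le
  have hNr : (N : ℝ) + 3 ≤ D * L ^ 4 := by
    have h5 : (N : ℝ) = N₀ + 2 * (((∑ j ∈ Finset.range (R + k), P.m j : ℕ) : ℕ) : ℝ) * B.K := by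
      rw [hN, ← Finset.sum_mul]
      push_cast
      ring
    have h6 : (1 : ℝ) ≤ L ^ 4 := one_le_pow₀ hL1
    have h7 : (((∑ j ∈ Finset.range (R + k), P.m j : ℕ) : ℕ) : ℝ) * B.K ≤ C₅ * L ^ 4 * B.K := mul_le_mul_of_nonneg_right hsum (Nat.cast_nonneg _)
    have h8 : (N₀ + 3 : ℝ) ≤ (N₀ + 3) * L ^ 4 := le_mul_of_one_le_right (by positivity) h6
    rw [h5, hD]
    exact cs_siz h7 h8
  have hdep := hn₄ n g4 N b (Nat.cast_nonneg _) (Nat.cast_nonneg _) hb2 hNr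
  have hdep1 : ((N : ℝ) + 3) * (b + 1) ≤ δ₁ * n := hdep.trans (mul_le_mul_of_nonneg_right (min_le_left _ _) hp0.le)
  have hdep3 : ((N : ℝ) + 3) * (b + 1) ≤ δ₃ * n :=
    hdep.trans (mul_le_mul_of_nonneg_right ((min_le_right _ _).trans (min_le_left _ _)) hp0.le)
  have hdep4 : ((N : ℝ) + 3) * (b + 1) ≤ δ₄ * n :=
    hdep.trans (mul_le_mul_of_nonneg_right ((min_le_right _ _).trans (min_le_right _ _)) hp0.le)
  have hNle : ∀ j, j < R + k → N₀ + ∑ i ∈ Finset.range (j + 1), P.m i * B.K ≤ N := by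
    intro j hj
    have h5 : ∑ i ∈ Finset.range (j + 1), P.m i * B.K ≤ ∑ i ∈ Finset.range (R + k), P.m i * B.K :=
      Finset.sum_le_sum_of_subset (Finset.range_subset_range.2 (by omega))
    omega
  have hNle' : ∀ u : List ℕ, u.length = R + k → N₀ + ∑ i ∈ Finset.range u.length, P.m i * B.K ≤ N := by
    intro u hu
    rw [hu]
    omega
  -- the events
  set X : ℝ := (6 * n) * ((Trn p.1 p.2).ncard : ℕ) with hX
  have hX0 : 0 ≤ X := by positivity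
  set M : ℝ := (b₀ : ℝ) ^ k with hMM
  have hM1 : 1 ≤ M := one_le_pow₀ (by
    have : 1 ≤ b₀ := by omega
    exact_mod_cast this)
  set G0 : Set (Tri (Fin (6 * p.1)) × Fin (6 * p.1)) := {q | q.1 ∈ Trn p.1 p.2 ∧ ∃ S, UP.Src Part.emp q.1 q.2 S ∧ Bad b q.1 (canS N₀ S) S} with hG0
  set G1 : Set (Tri (Fin (6 * p.1)) × Fin (6 * p.1)) := {q | q.1 ∈ Trn p.1 p.2 ∧ ∃ S, UP.Src Part.emp q.1 q.2 S ∧ ¬ Bad b q.1 (canS N₀ S) S ∧
        ¬ ∃ Z, Run b q.1 (canS N₀ S) S Z Z ∧ NdOk W 0 m₀ (iniNd W m₀ q.2 Z) ∧ (iniNd W m₀ q.2 Z).Z = Z ∧ 1 ≤ (iniNd W m₀ q.2 Z).c ∧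
          Z.R.ncard ≤ ⌈3 + 3 * D₁ * N₀⌉₊} with hG1
  set F2 : List ℕ → Set (Tri (Fin (6 * p.1)) × Fin (6 * p.1)) := fun u => {q | q.1 ∈ Trn p.1 p.2 ∧ ∃ S, UP.Src Part.emp q.1 q.2 S ∧
    Bad b q.1 (fulS B W v P N₀ q.2 S u) S} with hF2
  set F3 : List ℕ → Set (Tri (Fin (6 * p.1)) × Fin (6 * p.1)) := fun u => {q | q.1 ∈ Trn p.1 p.2 ∧ ∃ S, UP.Src Part.emp q.1 q.2 S ∧
    ∃ Z nd, Run b q.1 (canS N₀ S) S Z Z ∧ nd = iniNd W (P.m 0) q.2 Z ∧ nd.Z = Z ∧ NdOk W 0 (P.m 0) nd ∧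
      ∃ nd', Suc b q.1 B W v P γ₂ ε₂ 0 u nd nd' ∧ ∃ r Z', Run b q.1 (nodeS B W v nd'.Z nd'.gts nd'.Z 0 0 0) nd'.Z r Z' ∧
        Fai γ₂ ε₂ (P.m u.length) r} with hF3
  set F4 : List ℕ × List ℕ → Set (Tri (Fin (6 * p.1)) × Fin (6 * p.1)) := fun z => {q | q.1 ∈ Trn p.1 p.2 ∧ ∃ S, UP.Src Part.emp q.1 q.2 S ∧
    Coi b q.1 B W v P γ₂ ε₂ N₀ q.2 S z.1 z.2} with hF4
  set G4 : Set (Tri (Fin (6 * p.1)) × Fin (6 * p.1)) := {q | q.1 ∈ Trn p.1 p.2 ∧ ∃ S, UP.Src Part.emp q.1 q.2 S ∧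
    (adrs P (R + k)).card < ((adrs P (R + k) ×ˢ adrs P (R + k)).filter fun z => z.1 ≠ z.2 ∧ Coi b q.1 B W v P γ₂ ε₂ N₀ q.2 S z.1 z.2).card} with hG4
  have k0 : ((G0.ncard : ℕ) : ℝ) ≤ C₁ * ((N : ℝ) + 3) ^ 4 * (1 / n + Real.exp (-c₁ * b)) * (6 * n) * ((Trn p.1 p.2).ncard : ℕ) := by
    refine f1 N b hdep1 (fun _ S => canS N₀ S) fun y S hS => ?_
    obtain ⟨a1, a2, a3, a4⟩ := can_lf (b := b) (Z := S) (Z' := S) hS N₀
    exact ⟨a1, dep_mono a3 (by omega)⟩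
  have k1 : ((G1.ncard : ℕ) : ℝ) ≤ C₂ * Real.exp (-c₂ * N₀) * (6 * n) * ((Trn p.1 p.2).ncard : ℕ) := f2 b
  have k2 : ∀ u ∈ adrs P (R + k), (((F2 u).ncard : ℕ) : ℝ) ≤
      C₁ * ((N : ℝ) + 3) ^ 4 * (1 / n + Real.exp (-c₁ * b)) * (6 * n) * ((Trn p.1 p.2).ncard : ℕ) := by
    intro u hu
    obtain ⟨hu1, hu2⟩ := cs_adrs.1 hu
    refine f1 N b hdep1 (fun y S => fulS B W v P N₀ y S u) fun y S hS => ?_
    obtain ⟨a1, a2, a3⟩ := ful_gat (b := b) (N₀ := N₀) hB hμ hS y u hu1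
    exact ⟨a1, dep_mono a2 (hNle' u hu2)⟩
  have k3 : ∀ j < R + k, ∀ u ∈ adrs P j, ∀ N' : ℕ, N₀ + ∑ i ∈ Finset.range (j + 1), P.m i * B.K ≤ N' → N' ≤ N → (((F3 u).ncard : ℕ) : ℝ) ≤
      K₃ * ((N' : ℝ) + 3) * Real.exp (-c₃ * P.m j) * (6 * n) * ((Trn p.1 p.2).ncard : ℕ) := by
    intro j hj u hu N' hN1 hN2
    obtain ⟨hu1, hu2⟩ := cs_adrs.1 hu
    have h5 : ((N' : ℝ) + 3) * (b + 1) ≤ δ₃ * n := by
      refine le_trans ?_ hdep3
      have h6 : (N' : ℝ) ≤ N := by exact_mod_cast hN2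
      exact mul_le_mul_of_nonneg_right (by linarith) (by positivity)
    have h6 := f3 b N₀ R k N' P u hP hμ hu1 (by omega) (by rw [hu2]; exact hN1) h5
    rw [hu2] at h6
    have h7 : F3 u = {q : Tri (Fin (6 * p.1)) × Fin (6 * p.1) | q.1 ∈ Trn p.1 p.2 ∧ ∃ S, UP.Src Part.emp q.1 q.2 S ∧ ∃ Z nd, Run b q.1 (canS N₀ S) S Z Z ∧
          nd = iniNd W (P.m 0) q.2 Z ∧ nd.Z = Z ∧ NdOk W 0 (P.m 0) nd ∧ ∃ nd', Suc b q.1 B W v P γ₂ ε₂ 0 u nd nd' ∧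
            ∃ r Z', Run b q.1 (nodeS B W v nd'.Z nd'.gts nd'.Z 0 0 0) nd'.Z r Z' ∧ Fai γ₂ ε₂ (P.m j) r} := by
      rw [hF3]
      simp only [hu2]
    rw [h7]
    exact h6
  have k4 : ∀ z ∈ (adrs P (R + k) ×ˢ adrs P (R + k)).filter (fun z => z.1 ≠ z.2), (((F4 z).ncard : ℕ) : ℝ) ≤
      C₄ * ((N : ℝ) + 3) ^ 4 * (1 / n + Real.exp (-c₄ * b)) * (6 * n) * ((Trn p.1 p.2).ncard : ℕ) := by
    intro z hz
    obtain ⟨hz1, hz2⟩ := Finset.mem_filter.1 hz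
    obtain ⟨hz3, hz4⟩ := Finset.mem_product.1 hz1
    obtain ⟨hu1, hu2⟩ := cs_adrs.1 hz3
    obtain ⟨hu3, hu4⟩ := cs_adrs.1 hz4
    exact f4 b N₀ R k N P z.1 z.2 hP hμ hu1 hu3 hu2 hu4 hz2 (by omega) hdep4
  -- sums
  have s2 : ((∑ u ∈ adrs P (R + k), (F2 u).ncard : ℕ) : ℝ) ≤
      M * (C₁ * ((N : ℝ) + 3) ^ 4 * (1 / n + Real.exp (-c₁ * b))) * X := by
    rw [Nat.cast_sum]
    refine (Finset.sum_le_card_nsmul _ _ _ k2).trans (le_of_eq ?_)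
    rw [nsmul_eq_mul, hMr, hX]
    ring
  have s3 : ((∑ j ∈ Finset.range (R + k), ∑ u ∈ adrs P j, (F3 u).ncard : ℕ) : ℝ) ≤ (η / 5 + η / 5) * X := by
    rw [Finset.sum_range_add, Nat.cast_add, add_mul]
    refine add_le_add ?_ ?_
    · rw [Nat.cast_sum]
      refine le_trans (Finset.sum_le_sum fun j hj => ?_) (le_trans (le_of_eq (Finset.sum_mul _ _ X).symm) (mul_le_mul_of_nonneg_right (hlow R) hX0))
      have hj' := Finset.mem_range.1 hj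
      have h6 : N₀ + ∑ i ∈ Finset.range (j + 1), P.m i * B.K = N₀ + ∑ i ∈ Finset.range (j + 1), m₀ * 2 ^ i * B.K := by
        congr 1
        refine Finset.sum_congr rfl fun i hi => ?_
        have := Finset.mem_range.1 hi
        rw [hPm i (by omega)]
      rw [Nat.cast_sum]
      refine (Finset.sum_le_card_nsmul _ _ _ fun u hu => k3 j (by omega) u hu _ le_rfl (hNle j (by omega))).trans (le_of_eq ?_)
      rw [hca j hj'.le, one_smul, h6, hPm j hj'.le, hX]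
      ring
    · have h6 : ∀ i ∈ Finset.range k, ((∑ u ∈ adrs P (R + i), (F3 u).ncard : ℕ) : ℝ) ≤ M * (K₃ * ((N : ℝ) + 3) * Real.exp (-c₃ * L ^ 3)) * X := by
        intro i hi
        have hi' := Finset.mem_range.1 hi
        rw [Nat.cast_sum]
        refine (Finset.sum_le_card_nsmul _ _ _ fun u hu => k3 (R + i) (by omega) u hu N (hNle _ (by omega)) le_rfl).trans ?_
        rw [hcb i hi'.le, nsmul_eq_mul]
        have h7 : ((b₀ ^ i : ℕ) : ℝ) ≤ M := by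
          push_cast
          refine pow_le_pow_right₀ ?_ hi'.le
          have : 1 ≤ b₀ := by omega
          exact_mod_cast this
        have h8 : Real.exp (-c₃ * P.m (R + i)) ≤ Real.exp (-c₃ * L ^ 3) := by
          rw [Real.exp_le_exp]
          have := mul_le_mul_of_nonneg_left (hPk i hi'.le) hc₃.le
          linarith
        calc ((b₀ ^ i : ℕ) : ℝ) * (K₃ * ((N : ℝ) + 3) * Real.exp (-c₃ * P.m (R + i)) * (6 * n) * ((Trn p.1 p.2).ncard : ℕ))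
            = ((b₀ ^ i : ℕ) : ℝ) * (K₃ * ((N : ℝ) + 3) * Real.exp (-c₃ * P.m (R + i))) * X := by rw [hX]; ring
          _ ≤ M * (K₃ * ((N : ℝ) + 3) * Real.exp (-c₃ * L ^ 3)) * X := by
              refine mul_le_mul_of_nonneg_right ?_ hX0
              refine mul_le_mul h7 ?_ (by positivity) (by positivity)
              exact mul_le_mul_of_nonneg_left h8 (by positivity)
      rw [Nat.cast_sum]
      refine (Finset.sum_le_card_nsmul _ _ _ h6).trans ?_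
      rw [Finset.card_range, nsmul_eq_mul]
      have h9 : (k : ℝ) ≤ 2 * L := by
        have h10 : 1 ≤ Real.log b₀ := by
          rw [Real.le_log_iff_exp_le (by
            have : 0 < b₀ := by omega
            exact_mod_cast this)]
          have h11 : (3 : ℝ) ≤ b₀ := by exact_mod_cast hb
          linarith [Real.exp_one_lt_d9]
        have h12 : (1 - a) * L / Real.log b₀ ≤ L := by
          rw [div_le_iff₀ (by linarith)]
          exact cs_lb ha.le hL1 h10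
        linarith
      have h10 := hn₂ n g2 N M k (L ^ 3) (Nat.cast_nonneg _) (by positivity) (Nat.cast_nonneg _) h9 le_rfl hNr hk2
      calc (k : ℝ) * (M * (K₃ * ((N : ℝ) + 3) * Real.exp (-c₃ * L ^ 3)) * X) = (k * (M * (K₃ * ((N : ℝ) + 3) * Real.exp (-c₃ * L ^ 3)))) * X := by ring
        _ ≤ η / 5 * X := mul_le_mul_of_nonneg_right h10 hX0
  have s4 : M * ((G4.ncard : ℕ) : ℝ) ≤ M ^ 2 * (C₄ * ((N : ℝ) + 3) ^ 4 * (1 / n + Real.exp (-c₄ * b))) * X := by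
    have h5 := cs_markov ((adrs P (R + k) ×ˢ adrs P (R + k)).filter fun z => z.1 ≠ z.2) F4 G4 (adrs P (R + k)).card (by
      rintro q ⟨hq1, S, hq2, hq3⟩
      refine ⟨_, ?_, hq3.le, fun z hz => ?_⟩
      · intro z hz
        obtain ⟨hz1, hz2, hz3⟩ := Finset.mem_filter.1 hz
        exact Finset.mem_filter.2 ⟨hz1, hz2⟩
      · obtain ⟨hz1, hz2, hz3⟩ := Finset.mem_filter.1 hz
        exact ⟨hq1, S, hq2, hz3⟩)
    have h6 : ((((adrs P (R + k)).card * G4.ncard : ℕ) : ℕ) : ℝ) ≤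
        ((∑ z ∈ (adrs P (R + k) ×ˢ adrs P (R + k)).filter (fun z => z.1 ≠ z.2), (F4 z).ncard : ℕ) : ℝ) := by exact_mod_cast h5
    rw [Nat.cast_mul, hMr, Nat.cast_sum] at h6
    refine h6.trans ((Finset.sum_le_card_nsmul _ _ _ k4).trans ?_)
    rw [nsmul_eq_mul]
    have h7 : ((((adrs P (R + k) ×ˢ adrs P (R + k)).filter fun z => z.1 ≠ z.2).card : ℕ) : ℝ) ≤ M ^ 2 := by
      have h8 : ((adrs P (R + k) ×ˢ adrs P (R + k)).filter fun z => z.1 ≠ z.2).card ≤ (adrs P (R + k)).card * (adrs P (R + k)).card := by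
        rw [← Finset.card_product]
        exact Finset.card_filter_le _ _
      have h9 : ((((adrs P (R + k) ×ˢ adrs P (R + k)).filter fun z => z.1 ≠ z.2).card : ℕ) : ℝ) ≤ (((adrs P (R + k)).card * (adrs P (R + k)).card : ℕ) : ℝ) := by
        exact_mod_cast h8
      rw [Nat.cast_mul, hMr] at h9
      rw [sq]
      exact h9
    calc ((((adrs P (R + k) ×ˢ adrs P (R + k)).filter fun z => z.1 ≠ z.2).card : ℕ) : ℝ) *
          (C₄ * ((N : ℝ) + 3) ^ 4 * (1 / n + Real.exp (-c₄ * b)) * (6 * n) * ((Trn p.1 p.2).ncard : ℕ)) =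
          ((((adrs P (R + k) ×ˢ adrs P (R + k)).filter fun z => z.1 ≠ z.2).card : ℕ) : ℝ) *
          (C₄ * ((N : ℝ) + 3) ^ 4 * (1 / n + Real.exp (-c₄ * b))) * X := by rw [hX]; ring
      _ ≤ M ^ 2 * (C₄ * ((N : ℝ) + 3) ^ 4 * (1 / n + Real.exp (-c₄ * b))) * X :=
          mul_le_mul_of_nonneg_right (mul_le_mul_of_nonneg_right h7 (by positivity)) hX0
  have t4 : ((G4.ncard : ℕ) : ℝ) ≤ η / 5 * X := by
    have h5 : ((G4.ncard : ℕ) : ℝ) ≤ M * (C₄ * ((N : ℝ) + 3) ^ 4 * (1 / n + Real.exp (-c₄ * b))) * X := by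
      refine le_of_mul_le_mul_left ?_ (by positivity : 0 < M)
      refine s4.trans (le_of_eq ?_)
      ring
    exact h5.trans (mul_le_mul_of_nonneg_right (hn₃ n g3 N M b (Nat.cast_nonneg _) (by positivity) hb1 hNr hk2) hX0)
  have t01 : ((G0.ncard : ℕ) : ℝ) + ((∑ u ∈ adrs P (R + k), (F2 u).ncard : ℕ) : ℝ) ≤ η / 5 * X := by
    have h5 := hn₁ n g1 N (2 * M) b (Nat.cast_nonneg _) (by positivity) hb1 hNr (by rw [mul_assoc]; exact mul_le_mul_of_nonneg_left hk2 (by norm_num))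
    have h6 : ((G0.ncard : ℕ) : ℝ) ≤ M * (C₁ * ((N : ℝ) + 3) ^ 4 * (1 / n + Real.exp (-c₁ * b))) * X := by
      refine k0.trans ?_
      have h7 : 0 ≤ (C₁ * ((N : ℝ) + 3) ^ 4 * (1 / n + Real.exp (-c₁ * b))) * X := by positivity
      calc C₁ * ((N : ℝ) + 3) ^ 4 * (1 / n + Real.exp (-c₁ * b)) * (6 * n) * ((Trn p.1 p.2).ncard : ℕ)
          = 1 * ((C₁ * ((N : ℝ) + 3) ^ 4 * (1 / n + Real.exp (-c₁ * b))) * X) := by rw [hX]; ring
        _ ≤ M * ((C₁ * ((N : ℝ) + 3) ^ 4 * (1 / n + Real.exp (-c₁ * b))) * X) := mul_le_mul_of_nonneg_right hM1 h7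
        _ = _ := by ring
    have h8 := mul_le_mul_of_nonneg_right h5 hX0
    linarith
  have t1 : ((G1.ncard : ℕ) : ℝ) ≤ η / 5 * X := by
    refine k1.trans ?_
    calc C₂ * Real.exp (-c₂ * N₀) * (6 * n) * ((Trn p.1 p.2).ncard : ℕ) = C₂ * Real.exp (-c₂ * N₀) * X := by rw [hX]; ring
      _ ≤ η / 5 * X := mul_le_mul_of_nonneg_right hini hX0
  -- the union
  have hu2 := cs_union (adrs P (R + k)) F2 (⋃ u ∈ adrs P (R + k), F2 u) (by
    intro q hq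
    simpa only [Set.mem_iUnion, exists_prop] using hq)
  have hu3 : (⋃ j ∈ Finset.range (R + k), ⋃ u ∈ adrs P j, F3 u).ncard ≤ ∑ j ∈ Finset.range (R + k), ∑ u ∈ adrs P j, (F3 u).ncard := by
    refine (cs_union (Finset.range (R + k)) (fun j => ⋃ u ∈ adrs P j, F3 u) _ (by
      intro q hq
      simpa only [Set.mem_iUnion, exists_prop] using hq)).trans (Finset.sum_le_sum fun j _ => ?_)
    refine cs_union (adrs P j) F3 _ (by
      intro q hq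
      simpa only [Set.mem_iUnion, exists_prop] using hq)
  have hsub : {q : Tri (Fin (6 * p.1)) × Fin (6 * p.1) | q.1 ∈ Trn p.1 p.2 ∧ ∃ S, UP.Src Part.emp q.1 q.2 S ∧
        (¬ AllS b q.1 B W v P γ₂ ε₂ N₀ ⌈3 + 3 * D₁ * N₀⌉₊ (R + k) q.2 S ∨ (adrs P (R + k)).card <
          ((adrs P (R + k) ×ˢ adrs P (R + k)).filter fun z => z.1 ≠ z.2 ∧ Coi b q.1 B W v P γ₂ ε₂ N₀ q.2 S z.1 z.2).card)} ⊆
      G0 ∪ (G1 ∪ ((⋃ u ∈ adrs P (R + k), F2 u) ∪ ((⋃ j ∈ Finset.range (R + k), ⋃ u ∈ adrs P j, F3 u) ∪ G4))) := by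
    rintro q ⟨hq1, S, hq2, hq3⟩
    rcases hq3 with hq3 | hq3
    · rcases all_fail hB hP hμ hq1 g6 (src_oh hp1 hq2).1 (cs_in hp1 hq1 hq2) hq3 with c1 | c1 | ⟨u, hu1, hu2', c1⟩ | ⟨u, hu1, hu2', c1⟩
      · exact Or.inl ⟨hq1, S, hq2, c1⟩
      · rw [hm0] at c1
        exact Or.inr (Or.inl ⟨hq1, S, hq2, c1⟩)
      · refine Or.inr (Or.inr (Or.inl ?_))
        simp only [Set.mem_iUnion, exists_prop]
        exact ⟨u, cs_adrs.2 ⟨hu1, hu2'⟩, hq1, S, hq2, c1⟩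
      · refine Or.inr (Or.inr (Or.inr (Or.inl ?_)))
        simp only [Set.mem_iUnion, exists_prop]
        exact ⟨u.length, Finset.mem_range.2 hu2', u, cs_adrs.2 ⟨hu1, rfl⟩, hq1, S, hq2, c1⟩
    · exact Or.inr (Or.inr (Or.inr (Or.inr ⟨hq1, S, hq2, hq3⟩)))
  have hcard := (Set.ncard_le_ncard hsub (Set.toFinite _)).trans ((Set.ncard_union_le _ _).trans (Nat.add_le_add_left
    ((Set.ncard_union_le _ _).trans (Nat.add_le_add_left ((Set.ncard_union_le _ _).trans (Nat.add_le_add hu2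
      ((Set.ncard_union_le _ _).trans (Nat.add_le_add_right hu3 _)))) _)) _))
  have hfin : (({q : Tri (Fin (6 * p.1)) × Fin (6 * p.1) | q.1 ∈ Trn p.1 p.2 ∧ ∃ S, UP.Src Part.emp q.1 q.2 S ∧
        (¬ AllS b q.1 B W v P γ₂ ε₂ N₀ ⌈3 + 3 * D₁ * N₀⌉₊ (R + k) q.2 S ∨ (adrs P (R + k)).card <
          ((adrs P (R + k) ×ˢ adrs P (R + k)).filter fun z => z.1 ≠ z.2 ∧ Coi b q.1 B W v P γ₂ ε₂ N₀ q.2 S z.1 z.2).card)}.ncard : ℕ) : ℝ) ≤
      ((G0.ncard : ℕ) : ℝ) + (((G1.ncard : ℕ) : ℝ) + (((∑ u ∈ adrs P (R + k), (F2 u).ncard : ℕ) : ℝ) +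
        (((∑ j ∈ Finset.range (R + k), ∑ u ∈ adrs P j, (F3 u).ncard : ℕ) : ℝ) + ((G4.ncard : ℕ) : ℝ)))) := by
    exact_mod_cast hcard
  refine hfin.trans ?_
  have hgoal : η * (6 * n) * ((Trn p.1 p.2).ncard : ℕ) = η * X := by rw [hX]; ring
  rw [hgoal]
  linarith

end SYS.GW
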