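import Pool.Agent.SYS.GW.CntP
import Pool.Agent.SYS.GW.FinY

/-!
# The union bound

The deterministic part of `cnt_all`: the number of the bad pairs is at most the sum of the numbers of `cnt_bad` (initial part and full strategies), `cnt_ini`, `cnt_node` and `cnt_coi` (Markov).
-/

namespace SYS.GW

open Classical SST SYS.Num SYS.XP Filter Str


private theorem nc_bU {α ι : Type} [Finite α] (s : Finset ι) (f : ι → Set α) :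
    ((⋃ i ∈ s, f i).ncard : ℝ) ≤ ∑ i ∈ s, ((f i).ncard : ℝ) := by
  induction s using Finset.induction with
  | empty => simp
  | insert a s ha ih =>
    rw [Finset.set_biUnion_insert, Finset.sum_insert ha]
    have h1 : (f a ∪ ⋃ i ∈ s, f i).ncard ≤ (f a).ncard + (⋃ i ∈ s, f i).ncard := Set.ncard_union_le _ _
    have h2 : ((f a ∪ ⋃ i ∈ s, f i).ncard : ℝ) ≤ ((f a).ncard : ℝ) + ((⋃ i ∈ s, f i).ncard : ℝ) := by exact_mod_cast h1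
    linarith

private theorem nc_mk {α ι : Type} [Finite α] (s : Finset ι) (f : ι → Set α) (E : Set α) (m : ℕ)
    (h : ∀ q ∈ E, m ≤ (s.filter fun i => q ∈ f i).card) : ((m : ℝ) * (E.ncard : ℝ)) ≤ ∑ i ∈ s, ((f i).ncard : ℝ) := by
  have hfin := Fintype.ofFinite α
  have e1 : ∀ F : Set α, F.ncard = ∑ q : α, if q ∈ F then 1 else 0 := by
    intro F
    rw [Set.ncard_eq_toFinset_card', Finset.card_eq_sum_ones, ← Finset.sum_filter]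
    congr 1
    ext q
    simp
  have e2 : ∑ i ∈ s, (f i).ncard = ∑ q : α, (s.filter fun i => q ∈ f i).card := by
    simp only [e1]
    rw [Finset.sum_comm]
    refine Finset.sum_congr rfl fun q _ => ?_
    rw [← Finset.sum_filter, Finset.card_eq_sum_ones]
  have e3 : m * E.ncard ≤ ∑ i ∈ s, (f i).ncard := by
    rw [e2, e1 E, Finset.mul_sum]
    refine Finset.sum_le_sum fun q _ => ?_
    by_cases hq : q ∈ E
    · rw [if_pos hq, mul_one]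
      exact h q hq
    · rw [if_neg hq, mul_zero]
      exact Nat.zero_le _
  exact_mod_cast e3

/-- the event of `all_fail` as a hypothesis, so that this file does not import `CntS` -/
theorem cnt_union {n g b W v N₀ V₀ R k : ℕ} {γ₂ ε₂ : ℝ} {B : CH.Blk} {P : Lev}
    (hfail : ∀ (T : Tri (Fin (6 * n))) (y : Fin (6 * n)) (S : Part (Fin (6 * n))), T ∈ Trn n g → UP.Src Part.emp T y S →
      ¬ AllS b T B W v P γ₂ ε₂ N₀ V₀ (R + k) y S →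
      Bad b T (canS N₀ S) S ∨
      (¬ Bad b T (canS N₀ S) S ∧ ¬ ∃ Z, Run b T (canS N₀ S) S Z Z ∧ NdOk W 0 (P.m 0) (iniNd W (P.m 0) y Z) ∧ (iniNd W (P.m 0) y Z).Z = Z ∧
        1 ≤ (iniNd W (P.m 0) y Z).c ∧ Z.R.ncard ≤ V₀) ∨
      (∃ u, Adr P 0 u ∧ u.length = R + k ∧ Bad b T (fulS B W v P N₀ y S u) S) ∨
      ∃ u, Adr P 0 u ∧ u.length < R + k ∧ ∃ Z nd, Run b T (canS N₀ S) S Z Z ∧ nd = iniNd W (P.m 0) y Z ∧ nd.Z = Z ∧ NdOk W 0 (P.m 0) nd ∧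
        ∃ nd', Suc b T B W v P γ₂ ε₂ 0 u nd nd' ∧ ∃ r Z', Run b T (nodeS B W v nd'.Z nd'.gts nd'.Z 0 0 0) nd'.Z r Z' ∧ Fai γ₂ ε₂ (P.m u.length) r)
    {Xb Xi Xf Xc : ℝ} {Xn : ℕ → ℝ} (hA : 1 ≤ (adrs P (R + k)).card) (hXc0 : 0 ≤ Xc)
    (hXb : (({q : Tri (Fin (6 * n)) × Fin (6 * n) | q.1 ∈ Trn n g ∧ ∃ S, UP.Src Part.emp q.1 q.2 S ∧ Bad b q.1 (canS N₀ S) S}.ncard : ℕ) : ℝ) ≤ Xb)
    (hXi : (({q : Tri (Fin (6 * n)) × Fin (6 * n) | q.1 ∈ Trn n g ∧ ∃ S, UP.Src Part.emp q.1 q.2 S ∧ ¬ Bad b q.1 (canS N₀ S) S ∧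
        ¬ ∃ Z, Run b q.1 (canS N₀ S) S Z Z ∧ NdOk W 0 (P.m 0) (iniNd W (P.m 0) q.2 Z) ∧ (iniNd W (P.m 0) q.2 Z).Z = Z ∧
          1 ≤ (iniNd W (P.m 0) q.2 Z).c ∧ Z.R.ncard ≤ V₀}.ncard : ℕ) : ℝ) ≤ Xi)
    (hXf : ∀ u, Adr P 0 u → u.length = R + k →
      (({q : Tri (Fin (6 * n)) × Fin (6 * n) | q.1 ∈ Trn n g ∧ ∃ S, UP.Src Part.emp q.1 q.2 S ∧ Bad b q.1 (fulS B W v P N₀ q.2 S u) S}.ncard : ℕ) : ℝ) ≤ Xf)
    (hXn : ∀ u, Adr P 0 u → u.length < R + k →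
      (({q : Tri (Fin (6 * n)) × Fin (6 * n) | q.1 ∈ Trn n g ∧ ∃ S, UP.Src Part.emp q.1 q.2 S ∧ ∃ Z nd, Run b q.1 (canS N₀ S) S Z Z ∧
          nd = iniNd W (P.m 0) q.2 Z ∧ nd.Z = Z ∧ NdOk W 0 (P.m 0) nd ∧ ∃ nd', Suc b q.1 B W v P γ₂ ε₂ 0 u nd nd' ∧
            ∃ r Z', Run b q.1 (nodeS B W v nd'.Z nd'.gts nd'.Z 0 0 0) nd'.Z r Z' ∧ Fai γ₂ ε₂ (P.m u.length) r}.ncard : ℕ) : ℝ) ≤ Xn u.length)
    (hXc : ∀ u u', Adr P 0 u → Adr P 0 u' → u.length = R + k → u'.length = R + k → u ≠ u' →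
      (({q : Tri (Fin (6 * n)) × Fin (6 * n) | q.1 ∈ Trn n g ∧ ∃ S, UP.Src Part.emp q.1 q.2 S ∧
          Coi b q.1 B W v P γ₂ ε₂ N₀ q.2 S u u'}.ncard : ℕ) : ℝ) ≤ Xc) :
    (({q : Tri (Fin (6 * n)) × Fin (6 * n) | q.1 ∈ Trn n g ∧ ∃ S, UP.Src Part.emp q.1 q.2 S ∧
        (¬ AllS b q.1 B W v P γ₂ ε₂ N₀ V₀ (R + k) q.2 S ∨ (adrs P (R + k)).card <
          ((adrs P (R + k) ×ˢ adrs P (R + k)).filter fun z => z.1 ≠ z.2 ∧ Coi b q.1 B W v P γ₂ ε₂ N₀ q.2 S z.1 z.2).card)}.ncard : ℕ) : ℝ) ≤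
      Xb + Xi + (adrs P (R + k)).card * Xf + (∑ j ∈ Finset.range (R + k), ((adrs P j).card : ℝ) * Xn j) + (adrs P (R + k)).card * Xc :=     by
  obtain ⟨l, hl⟩ : ∃ l, l = R + k := ⟨_, rfl⟩
  rw [← hl] at hfail hA hXf hXn hXc ⊢
  obtain ⟨Eb, hEb⟩ : ∃ E : Set (Tri (Fin (6 * n)) × Fin (6 * n)), E = {q | q.1 ∈ Trn n g ∧ ∃ S, UP.Src Part.emp q.1 q.2 S ∧ Bad b q.1 (canS N₀ S) S} := ⟨_, rfl⟩
  obtain ⟨Ei, hEi⟩ : ∃ E : Set (Tri (Fin (6 * n)) × Fin (6 * n)), E = {q | q.1 ∈ Trn n g ∧ ∃ S, UP.Src Part.emp q.1 q.2 S ∧ ¬ Bad b q.1 (canS N₀ S) S ∧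
        ¬ ∃ Z, Run b q.1 (canS N₀ S) S Z Z ∧ NdOk W 0 (P.m 0) (iniNd W (P.m 0) q.2 Z) ∧ (iniNd W (P.m 0) q.2 Z).Z = Z ∧
          1 ≤ (iniNd W (P.m 0) q.2 Z).c ∧ Z.R.ncard ≤ V₀} := ⟨_, rfl⟩
  obtain ⟨Ef, hEf⟩ : ∃ E : List ℕ → Set (Tri (Fin (6 * n)) × Fin (6 * n)), E = fun u => {q | q.1 ∈ Trn n g ∧ ∃ S, UP.Src Part.emp q.1 q.2 S ∧
      Bad b q.1 (fulS B W v P N₀ q.2 S u) S} := ⟨_, rfl⟩
  obtain ⟨En, hEn⟩ : ∃ E : List ℕ → Set (Tri (Fin (6 * n)) × Fin (6 * n)), E = fun u => {q | q.1 ∈ Trn n g ∧ ∃ S, UP.Src Part.emp q.1 q.2 S ∧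
      ∃ Z nd, Run b q.1 (canS N₀ S) S Z Z ∧
          nd = iniNd W (P.m 0) q.2 Z ∧ nd.Z = Z ∧ NdOk W 0 (P.m 0) nd ∧ ∃ nd', Suc b q.1 B W v P γ₂ ε₂ 0 u nd nd' ∧
            ∃ r Z', Run b q.1 (nodeS B W v nd'.Z nd'.gts nd'.Z 0 0 0) nd'.Z r Z' ∧ Fai γ₂ ε₂ (P.m u.length) r} := ⟨_, rfl⟩
  obtain ⟨Ec, hEc⟩ : ∃ E : List ℕ × List ℕ → Set (Tri (Fin (6 * n)) × Fin (6 * n)), E = fun z => {q | q.1 ∈ Trn n g ∧ ∃ S, UP.Src Part.emp q.1 q.2 S ∧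
          Coi b q.1 B W v P γ₂ ε₂ N₀ q.2 S z.1 z.2} := ⟨_, rfl⟩
  obtain ⟨EC, hEC⟩ : ∃ E : Set (Tri (Fin (6 * n)) × Fin (6 * n)), E = {q | q.1 ∈ Trn n g ∧ ∃ S, UP.Src Part.emp q.1 q.2 S ∧
      (adrs P l).card < ((adrs P l ×ˢ adrs P l).filter fun z => z.1 ≠ z.2 ∧ Coi b q.1 B W v P γ₂ ε₂ N₀ q.2 S z.1 z.2).card} := ⟨_, rfl⟩
  have hmem : ∀ (j : ℕ) (u : List ℕ), u ∈ adrs P j ↔ Adr P 0 u ∧ u.length = j := by
    intro j u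
    unfold adrs
    rw [Set.Finite.mem_toFinset]
    exact Iff.rfl
  have hsub : {q : Tri (Fin (6 * n)) × Fin (6 * n) | q.1 ∈ Trn n g ∧ ∃ S, UP.Src Part.emp q.1 q.2 S ∧
        (¬ AllS b q.1 B W v P γ₂ ε₂ N₀ V₀ l q.2 S ∨ (adrs P l).card <
          ((adrs P l ×ˢ adrs P l).filter fun z => z.1 ≠ z.2 ∧ Coi b q.1 B W v P γ₂ ε₂ N₀ q.2 S z.1 z.2).card)} ⊆
      (((Eb ∪ Ei) ∪ ⋃ u ∈ adrs P l, Ef u) ∪ ⋃ j ∈ Finset.range l, ⋃ u ∈ adrs P j, En u) ∪ EC := by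
    rintro q ⟨hq, S, hS, h | h⟩
    · refine Or.inl ?_
      rcases hfail q.1 q.2 S hq hS h with h | h | ⟨u, h1, h2, h3⟩ | ⟨u, h1, h2, h3⟩
      · refine Or.inl (Or.inl (Or.inl ?_))
        rw [hEb]
        exact ⟨hq, S, hS, h⟩
      · refine Or.inl (Or.inl (Or.inr ?_))
        rw [hEi]
        exact ⟨hq, S, hS, h⟩
      · refine Or.inl (Or.inr ?_)
        refine Set.mem_biUnion (x := u) ?_ ?_
        · exact (hmem l u).2 ⟨h1, h2⟩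
        · rw [hEf]
          exact ⟨hq, S, hS, h3⟩
      · refine Or.inr ?_
        refine Set.mem_biUnion (x := u.length) ?_ ?_
        · exact Finset.mem_coe.2 (Finset.mem_range.2 h2)
        · refine Set.mem_biUnion (x := u) ?_ ?_
          · exact (hmem u.length u).2 ⟨h1, rfl⟩
          · rw [hEn]
            exact ⟨hq, S, hS, h3⟩
    · refine Or.inr ?_
      rw [hEC]
      exact ⟨hq, S, hS, h⟩
  have b1 : (Eb.ncard : ℝ) ≤ Xb := by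
    rw [hEb]
    exact hXb
  have b2 : (Ei.ncard : ℝ) ≤ Xi := by
    rw [hEi]
    exact hXi
  have b3 : ((⋃ u ∈ adrs P l, Ef u).ncard : ℝ) ≤ (adrs P l).card * Xf := by
    refine (nc_bU _ _).trans ?_
    refine (Finset.sum_le_sum (g := fun _ => Xf) fun u hu => ?_).trans ?_
    · rw [hEf]
      exact hXf u ((hmem l u).1 hu).1 ((hmem l u).1 hu).2
    · rw [Finset.sum_const, nsmul_eq_mul]
  have b4 : ((⋃ j ∈ Finset.range l, ⋃ u ∈ adrs P j, En u).ncard : ℝ) ≤ ∑ j ∈ Finset.range l, ((adrs P j).card : ℝ) * Xn j := by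
    refine (nc_bU _ _).trans (Finset.sum_le_sum fun j hj => ?_)
    refine (nc_bU _ _).trans ?_
    refine (Finset.sum_le_sum (g := fun _ => Xn j) fun u hu => ?_).trans ?_
    · obtain ⟨h1, h2⟩ := (hmem j u).1 hu
      rw [hEn]
      have h3 := hXn u h1 (by rw [h2]; exact Finset.mem_range.1 hj)
      rw [h2] at h3
      rw [← h2] at h3 ⊢
      exact h3
    · rw [Finset.sum_const, nsmul_eq_mul]
  have b5 : (EC.ncard : ℝ) ≤ (adrs P l).card * Xc := by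
    have hpos : (0 : ℝ) < ((adrs P l).card : ℝ) := by exact_mod_cast hA
    have h1 := nc_mk ((adrs P l ×ˢ adrs P l).filter fun z => z.1 ≠ z.2) Ec EC (adrs P l).card (by
      intro q hq
      rw [hEC] at hq
      obtain ⟨h1, S, h2, h3⟩ := hq
      refine h3.le.trans (Finset.card_le_card fun z hz => ?_)
      rw [Finset.mem_filter] at hz
      rw [Finset.mem_filter, Finset.mem_filter, hEc]
      exact ⟨⟨hz.1, hz.2.1⟩, h1, S, h2, hz.2.2⟩)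
    have h2 : ∑ z ∈ (adrs P l ×ˢ adrs P l).filter (fun z => z.1 ≠ z.2), ((Ec z).ncard : ℝ) ≤ (adrs P l).card * ((adrs P l).card * Xc) := by
      refine (Finset.sum_le_sum (g := fun _ => Xc) fun z hz => ?_).trans ?_
      · rw [Finset.mem_filter, Finset.mem_product] at hz
        rw [hEc]
        exact hXc z.1 z.2 ((hmem l _).1 hz.1.1).1 ((hmem l _).1 hz.1.2).1 ((hmem l _).1 hz.1.1).2 ((hmem l _).1 hz.1.2).2 hz.2
      · rw [Finset.sum_const, nsmul_eq_mul]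
        have h5 : ((adrs P l ×ˢ adrs P l).filter (fun z => z.1 ≠ z.2)).card ≤ (adrs P l).card * (adrs P l).card := by
          refine (Finset.card_filter_le _ _).trans ?_
          rw [Finset.card_product]
        have h6 : (((adrs P l ×ˢ adrs P l).filter (fun z => z.1 ≠ z.2)).card : ℝ) ≤ (adrs P l).card * (adrs P l).card := by
          exact_mod_cast h5
        calc _ ≤ ((adrs P l).card * (adrs P l).card : ℝ) * Xc := mul_le_mul_of_nonneg_right h6 hXc0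
          _ = _ := by ring
    have h3 := h1.trans h2
    exact le_of_mul_le_mul_left h3 hpos
  have u1 := Set.ncard_union_le ((((Eb ∪ Ei) ∪ ⋃ u ∈ adrs P l, Ef u) ∪ ⋃ j ∈ Finset.range l, ⋃ u ∈ adrs P j, En u)) EC
  have u2 := Set.ncard_union_le ((Eb ∪ Ei) ∪ ⋃ u ∈ adrs P l, Ef u) (⋃ j ∈ Finset.range l, ⋃ u ∈ adrs P j, En u)
  have u3 := Set.ncard_union_le (Eb ∪ Ei) (⋃ u ∈ adrs P l, Ef u)
  have u4 := Set.ncard_union_le Eb Ei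
  have u0 := Set.ncard_le_ncard hsub (Set.toFinite _)
  have u5 : (({q : Tri (Fin (6 * n)) × Fin (6 * n) | q.1 ∈ Trn n g ∧ ∃ S, UP.Src Part.emp q.1 q.2 S ∧
        (¬ AllS b q.1 B W v P γ₂ ε₂ N₀ V₀ l q.2 S ∨ (adrs P l).card <
          ((adrs P l ×ˢ adrs P l).filter fun z => z.1 ≠ z.2 ∧ Coi b q.1 B W v P γ₂ ε₂ N₀ q.2 S z.1 z.2).card)}.ncard : ℕ) : ℝ) ≤
      (Eb.ncard : ℝ) + Ei.ncard + (⋃ u ∈ adrs P l, Ef u).ncard + (⋃ j ∈ Finset.range l, ⋃ u ∈ adrs P j, En u).ncard + EC.ncard := by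
    have : {q : Tri (Fin (6 * n)) × Fin (6 * n) | q.1 ∈ Trn n g ∧ ∃ S, UP.Src Part.emp q.1 q.2 S ∧
        (¬ AllS b q.1 B W v P γ₂ ε₂ N₀ V₀ l q.2 S ∨ (adrs P l).card <
          ((adrs P l ×ˢ adrs P l).filter fun z => z.1 ≠ z.2 ∧ Coi b q.1 B W v P γ₂ ε₂ N₀ q.2 S z.1 z.2).card)}.ncard ≤
      Eb.ncard + Ei.ncard + (⋃ u ∈ adrs P l, Ef u).ncard + (⋃ j ∈ Finset.range l, ⋃ u ∈ adrs P j, En u).ncard + EC.ncard := by
      omega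
    exact_mod_cast this
  linarith

end SYS.GW
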