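import Pool.Agent.SYS.PX.Defs
import Pool.Agent.SYS.CH.Defs
import Pool.Agent.SYS.VI.Uu
import Pool.Agent.SYS.BD.MgO

/-!
# Project SYS (MP_650813_pr, S*), block GRW (growth of a tree of regions from a source): definitions.  DO NOT CHANGE.

* `Sml b s`: small step (`k + a < b`).  `SS b Z d Z'`: `Z'` = `Z` after a small planar peeling step at the gate `d`.
* `OH Z p F`: connected planar region with one hole of perimeter `p`, `F` hidden faces.  `In T Z`: `Z` is a region of `T`, connected hidden part.
* `Str D A`: a peeling strategy with return values in `A` (`ret a` = stop with the value `a`; `peel d k` = peel the gate `d`, continue with `k Z'` if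
  the new region is `Z'`).  `bind`.  `Dep N s`: at most `N` steps.  `Gat b s Z`: all gates are boundary darts.
* `Lf b s Z a Z'`: the strategy started at `Z` can stop at `Z'` with the value `a` (small planar steps only).  `Run b T s Z a Z'`: it does so in `T`.
  `Bad b T s Z`: in `T` it meets a step which is not small and planar.
* `LS b ψ s Z`: sum of `ψ a Z'` over the possible ends.
* `Nm x p F`: weight of a region (one hole, perimeter `p`, `F` hidden faces), `PF x Z`: the same as a function of the region.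
* `clo b g p F`: number of the maps whose root edge is not a small planar step.  `VV b φ N p F`: sum over the words of at most `N` small steps
  of `φ (perimeter) (faces)` at the end.
-/

namespace SYS.GW

open Classical SST SYS.Num

/-- Small step. -/
def Sml (b : ℕ) : Stp → Prop
  | .T => True
  | .L k a => k + a < b
  | .R k a => k + a < b

section
variable {D : Type} [Finite D]

/-- Small planar peeling step. -/
def SS (b : ℕ) (Z : Part D) (d : D) (Z' : Part D) : Prop := ∃ (s : Stp) (z : D), Z.St d s Z' z ∧ Sml b s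

/-- One hole, planar. -/
def OH (Z : Part D) (p F : ℕ) : Prop := ∃ z, Z.Typ [z] [p] F 0

/-- Region of `T`. -/
def In (T : Tri D) (Z : Part D) : Prop := Z.Le T ∧ Z.HConn T

end

/-- Strategies. -/
inductive Str (D A : Type) : Type
  | ret : A → Str D A
  | peel : D → (Part D → Str D A) → Str D A

namespace Str

variable {D A A' : Type}

/-- First `s`, then `k` of the value. -/
def bind : Str D A → (A → Str D A') → Str D A'
  | ret a, k => k a
  | peel d f, k => peel d fun Z => (f Z).bind k

/-- At most `N` steps. -/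
def Dep : Str D A → ℕ → Prop
  | ret _, _ => True
  | peel _ f, N => ∃ M, N = M + 1 ∧ ∀ Z, (f Z).Dep M

end Str

section
variable {D A : Type} [Finite D]

/-- All gates are boundary darts. -/
def Gat (b : ℕ) : Str D A → Part D → Prop
  | .ret _, _ => True
  | .peel d f, Z => d ∈ Z.B ∧ ∀ Z', SS b Z d Z' → Gat b (f Z') Z'

/-- Possible ends. -/
def Lf (b : ℕ) : Str D A → Part D → A → Part D → Prop
  | .ret a, Z, a', Z' => a' = a ∧ Z' = Z
  | .peel d f, Z, a', Z' => ∃ Z₁, SS b Z d Z₁ ∧ Lf b (f Z₁) Z₁ a' Z'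

/-- The run in `T`. -/
def Run (b : ℕ) (T : Tri D) : Str D A → Part D → A → Part D → Prop
  | .ret a, Z, a', Z' => a' = a ∧ Z' = Z
  | .peel d f, Z, a', Z' => ∃ Z₁, SS b Z d Z₁ ∧ In T Z₁ ∧ Run b T (f Z₁) Z₁ a' Z'

/-- The run in `T` with the property `P` (region, gate, new region) at all steps. -/
def RunP (b : ℕ) (T : Tri D) (P : Part D → D → Part D → Prop) : Str D A → Part D → A → Part D → Prop
  | .ret a, Z, a', Z' => a' = a ∧ Z' = Z
  | .peel d f, Z, a', Z' => ∃ Z₁, SS b Z d Z₁ ∧ In T Z₁ ∧ P Z d Z₁ ∧ RunP b T P (f Z₁) Z₁ a' Z'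

/-- The run in `T` meets a step which is not small and planar. -/
def Bad (b : ℕ) (T : Tri D) : Str D A → Part D → Prop
  | .ret _, _ => False
  | .peel d f, Z => (¬ ∃ Z₁, SS b Z d Z₁ ∧ In T Z₁) ∨ ∃ Z₁, SS b Z d Z₁ ∧ In T Z₁ ∧ Bad b T (f Z₁) Z₁

/-- Sum over the possible ends. -/
noncomputable def LS (b : ℕ) (ψ : A → Part D → ℝ) : Str D A → Part D → ℝ
  | .ret a, Z => ψ a Z
  | .peel d f, Z => ∑ Z₁ : Part D, if SS b Z d Z₁ then LS b ψ (f Z₁) Z₁ else 0

end

/-- Weight of a region. -/
noncomputable def Nm (x : ℝ) (p F : ℕ) : ℝ := ((3 * F).factorial : ℝ) * AA x ^ p / √(yy x) ^ (F + p)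

/-- Hidden faces and perimeter of a region with one hole, as functions of the region. -/
noncomputable def fz {n : ℕ} (Z : Part (Fin (6 * n))) : ℕ := (6 * n - Z.R.ncard) / 3
noncomputable def pz {D : Type} (Z : Part D) : ℕ := Z.B.ncard
noncomputable def WZ {n : ℕ} (x : ℝ) (Z : Part (Fin (6 * n))) : ℝ := Nm x (pz Z) (fz Z)

/-- Steps which are not small and planar. -/
noncomputable def clo (b g p F : ℕ) : ℝ := NS p 0 F g + SEP p 0 F g +
  2 * ∑ k ∈ Finset.range (p - 2), ∑ a ∈ Finset.range (F + 1), if b ≤ k + a then W k a * muG {p - 2 - k} (F - a) g else 0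

/-- Sum over the words of exactly `N` small steps. -/
noncomputable def VE (b : ℕ) (φ : ℕ → ℕ → ℝ) : ℕ → ℕ → ℕ → ℝ
  | 0, p, F => φ p F
  | N + 1, p, F => (if F = 0 then 0 else VE b φ N (p + 1) (F - 1)) +
      2 * ∑ k ∈ Finset.range (p - 2), ∑ a ∈ Finset.range (F + 1), if k + a < b then W k a * VE b φ N (p - 2 - k) (F - a) else 0

/-- Sum over the words of less than `N` small steps. -/
noncomputable def VV (b : ℕ) (φ : ℕ → ℕ → ℝ) (N p F : ℕ) : ℝ := ∑ i ∈ Finset.range N, VE b φ i p F

/-- Words of small steps. -/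
def SmW (b : ℕ) (w : List Stp) : Prop := ∀ s ∈ w, Sml b s

end SYS.GW
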