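import Pool.Agent.SYS.GW.CntS
import Pool.Agent.SYS.RB.Win

/-!
# SYSS-GRW-Fin: block GRW, result (`cnt_all`, `fin_y`, comparison of the numbers)
-/

namespace SYS.GW

open Classical SST SYS.Num SYS.XP Filter Str

private theorem gf_link {D : Type} {T : Tri D} {x y : D} {m m' v v' : ℝ} (h : US.Link T x y m v) (h1 : m ≤ m') (h2 : v ≤ v') :
    US.Link T x y m' v' := by
  obtain ⟨Y, a1, a2, a3, a4, a5, a6⟩ := h
  exact ⟨Y, a1, a2, a3, a4, a5.trans h1, a6.trans h2⟩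

/-- `A + B log t + κ t ≤ β t` eventually if `κ < β` -/
private theorem gf_ev {A B κ β : ℝ} (h : κ < β) : ∀ᶠ t : ℝ in atTop, A + B * Real.log t + κ * t ≤ β * t := by
  have h1 : ∀ᶠ t : ℝ in atTop, ‖B * Real.log t‖ ≤ (β - κ) / 2 * ‖t‖ := by
    have h2 : (fun t : ℝ => B * Real.log t) =o[atTop] fun t : ℝ => t :=
      (Real.isLittleO_log_id_atTop).const_mul_left B
    exact h2.bound (by linarith)
  have h3 : ∀ᶠ t : ℝ in atTop, A ≤ (β - κ) / 2 * t :=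
    (tendsto_id.const_mul_atTop (by linarith : (0 : ℝ) < (β - κ) / 2)).eventually_ge_atTop A
  filter_upwards [h1, h3, eventually_ge_atTop 0] with t h4 h5 h6
  rw [Real.norm_eq_abs, Real.norm_eq_abs, abs_of_nonneg h6] at h4
  have h7 := (le_abs_self _).trans h4
  nlinarith

/-- Growth of a large connected set of faces with short links from almost every source. -/
theorem grw_main {θ x : ℝ} (h : Par θ x) {W v L V b₀ : ℕ} {γ ε₁ e β : ℝ} {B : CH.Blk} (hB : BOk B x W v γ ε₁) (hD : DOk B L V) (h1 : 0 ≤ ε₁)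
    (h1' : ε₁ < 1 / 4) (hb : 3 ≤ b₀) (hγ : (b₀ : ℝ) * (2 * W + 4) < γ - (1 + γ) * ε₁) (he : 0 < e) (he' : e < 1 / 2)
    (hβ : (1 - 19 / 10 * e) * L / Real.log b₀ < β) : US.Grw θ β (2 * V / Real.log b₀ + 1) e := by
  obtain ⟨a, ha⟩ : ∃ a : ℝ, a = 19 / 10 * e := ⟨_, rfl⟩
  rw [← ha] at hβ
  have ha0 : 0 < a := by rw [ha]; positivity
  have ha1 : a < 1 := by rw [ha]; linarith
  have hlb : 0 < Real.log b₀ := Real.log_pos (by exact_mod_cast (show 1 < b₀ by omega))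
  obtain ⟨C, hC, hcnt⟩ := cnt_all h (γ₂ := (b₀ : ℝ) * (2 * W + 4)) (ε₂ := 1 / 4) (a := a) hB (by positivity) h1 hγ h1' le_rfl
    hb le_rfl ha0 ha1
  intro η hη
  obtain ⟨N₀, V₀, hev⟩ := hcnt η hη
  have hlog : Tendsto (fun p : ℕ × ℕ => Real.log (p.1 : ℝ)) (Num.Fth θ) atTop :=
    Real.tendsto_log_atTop.comp (RB.fst_atTop θ)
  -- comparison for the perimeter
  have e1 : ∀ᶠ p : ℕ × ℕ in Num.Fth θ, ((V₀ : ℝ) + L) + C * L * Real.log (Real.log (p.1 : ℝ)) +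
      (1 - a) * L / Real.log b₀ * Real.log (p.1 : ℝ) ≤ β * Real.log (p.1 : ℝ) := hlog.eventually (gf_ev hβ)
  -- comparison for the volume
  have e2 : ∀ᶠ p : ℕ × ℕ in Num.Fth θ, ((V₀ : ℝ) + V) + C * V * Real.log (Real.log (p.1 : ℝ)) +
      2 * V / Real.log b₀ * Real.log (p.1 : ℝ) ≤ (2 * V / Real.log b₀ + 1) * Real.log (p.1 : ℝ) :=
    hlog.eventually (gf_ev (by linarith))
  -- comparison for the size
  have e3 : ∀ᶠ p : ℕ × ℕ in Num.Fth θ, 2 ≤ (p.1 : ℝ) ^ (e / 10) :=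
    ((tendsto_rpow_atTop (by positivity)).comp (RB.fst_atTop θ)).eventually_ge_atTop 2
  have e4 : ∀ᶠ p : ℕ × ℕ in Num.Fth θ, 0 ≤ Real.log (p.1 : ℝ) := hlog.eventually_ge_atTop 0
  have e5 : ∀ᶠ p : ℕ × ℕ in Num.Fth θ, 1 ≤ p.1 := RB.ge_ev θ 1
  have e6 : ∀ᶠ p : ℕ × ℕ in Num.Fth θ, 1 ≤ p.2 := RB.ge_ev' h.1 1
  filter_upwards [hev, e1, e2, e3, e4, e5, e6] with p hp q1 q2 q3 q4 q5 q6
  obtain ⟨b, P, R, k, hP, h0, hR, hk, hcard, hbound⟩ := hp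
  refine le_trans ?_ hbound
  refine Nat.cast_le.2 (Set.ncard_le_ncard ?_ (Set.toFinite _))
  rintro ⟨T, y⟩ ⟨hT, hno⟩
  obtain ⟨S, hsrc, hST, hS, hy⟩ := src_ex q5 hT y
  refine ⟨hT, S, hsrc, ?_⟩
  by_contra hcon
  rw [not_or, not_not, not_lt] at hcon
  obtain ⟨hA, hco⟩ := hcon
  obtain ⟨Y, y1, y2, y3, y4⟩ := fin_y hB hD hP h0 hT q6 hS hy hST hA hco
  apply hno
  have hn0 : (0 : ℝ) < p.1 := by exact_mod_cast q5
  have hRk : ((R : ℝ) + k) ≤ C * Real.log (Real.log (p.1 : ℝ)) + ((1 - a) * Real.log (p.1 : ℝ) / Real.log b₀ + 1) :=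
    add_le_add hR hk
  refine ⟨Y, y1, y2, ?_, fun d hd => gf_link (y4 d hd) ?_ ?_⟩
  · have c1 : (p.1 : ℝ) ^ (1 - a) ≤ 2 * (Y.ncard : ℝ) := hcard.trans (by exact_mod_cast y3)
    have c2 : (p.1 : ℝ) ^ (1 - a) = (p.1 : ℝ) ^ (1 - 2 * e) * (p.1 : ℝ) ^ (e / 10) := by
      rw [← Real.rpow_add hn0]
      congr 1
      rw [ha]
      ring
    have c3 : 0 < (p.1 : ℝ) ^ (1 - 2 * e) := Real.rpow_pos_of_pos hn0 _
    nlinarith
  · push_cast
    have c1 := mul_le_mul_of_nonneg_right hRk (Nat.cast_nonneg (α := ℝ) L)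
    have c2 : (C * Real.log (Real.log (p.1 : ℝ)) + ((1 - a) * Real.log (p.1 : ℝ) / Real.log b₀ + 1)) * (L : ℝ) =
        L + C * L * Real.log (Real.log (p.1 : ℝ)) + (1 - a) * L / Real.log b₀ * Real.log (p.1 : ℝ) := by
      field_simp
      ring
    linarith
  · push_cast
    have c1 := mul_le_mul_of_nonneg_right hRk (Nat.cast_nonneg (α := ℝ) V)
    have c2 : (C * Real.log (Real.log (p.1 : ℝ)) + ((1 - a) * Real.log (p.1 : ℝ) / Real.log b₀ + 1)) * (V : ℝ) =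
        V + C * V * Real.log (Real.log (p.1 : ℝ)) + (1 - a) * V / Real.log b₀ * Real.log (p.1 : ℝ) := by
      field_simp
      ring
    have c3 : (1 - a) * V / Real.log b₀ * Real.log (p.1 : ℝ) ≤ 2 * V / Real.log b₀ * Real.log (p.1 : ℝ) := by
      refine mul_le_mul_of_nonneg_right ?_ q4
      refine div_le_div_of_nonneg_right ?_ hlb.le
      have : (0 : ℝ) ≤ V := Nat.cast_nonneg _
      nlinarith
    linarith

end SYS.GW
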