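import Mathlib

/-!
# SYSS-GRW-GrpN: choice of separated groups in a finite set of integers
-/

namespace SYS.GW

private theorem gn_enum (E : Finset ℕ) : ∃ e : ℕ → ℕ, (∀ i < E.card, e i ∈ E) ∧
    ∀ i j, i ≤ j → j < E.card → e i + (j - i) ≤ e j := by
  classical
  refine ⟨fun i => if h : i < E.card then E.orderEmbOfFin rfl ⟨i, h⟩ else 0, ?_, ?_⟩
  · intro i hi
    show (if h : i < E.card then E.orderEmbOfFin rfl ⟨i, h⟩ else 0) ∈ E
    rw [dif_pos hi]
    exact E.orderEmbOfFin_mem rfl ⟨i, hi⟩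
  · intro i j hij
    induction j, hij using Nat.le_induction with
    | base =>
      intro _
      simp
    | succ j hij ih =>
      intro hj
      have h1 := ih (by omega)
      have h2 : (if h : j < E.card then E.orderEmbOfFin rfl ⟨j, h⟩ else 0) <
          (if h : j + 1 < E.card then E.orderEmbOfFin rfl ⟨j + 1, h⟩ else 0) := by
        rw [dif_pos (show j < E.card by omega), dif_pos hj]
        exact (E.orderEmbOfFin rfl).lt_iff_lt.2 (by
          show j < j + 1
          omega)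
      beta_reduce at h1 ⊢
      omega

theorem grp_idx (E : Finset ℕ) (b m q D lo₀ hi₀ : ℕ) (hD : 1 ≤ D) (hE : b * (m * D + 2 * (q + 1) + 2) ≤ E.card)
    (h0 : ∀ x ∈ E, lo₀ ≤ x ∧ x < hi₀) :
    ∃ (lo hi : ℕ → ℕ) (g : ℕ → List ℕ), ∀ j < b, lo₀ ≤ lo j ∧ lo j < hi j ∧ hi j ≤ hi₀ ∧ (∃ w, hi j - lo j = 2 * w + 1) ∧
      (∀ i < j, hi i ≤ lo j) ∧ (g j).length = m ∧ (∀ x ∈ g j, x ∈ E ∧ lo j + q ≤ x ∧ x + q < hi j) ∧
      (g j).Pairwise fun x y => x + D ≤ y := by
  classical
  obtain ⟨e, he, hm⟩ := gn_enum E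
  obtain ⟨L, hL⟩ : ∃ L, L = m * D + 2 * (q + 1) + 2 := ⟨_, rfl⟩
  rw [← hL] at hE
  have hjL : ∀ j < b, j * L + L ≤ E.card := by
    intro j hj
    have h1 : (j + 1) * L ≤ b * L := Nat.mul_le_mul_right L hj
    have h2 : (j + 1) * L = j * L + L := by ring
    omega
  obtain ⟨hi, hhi⟩ : ∃ hi : ℕ → ℕ, ∀ j, (e (j * L + L - 1) ≤ hi j ∧ hi j ≤ e (j * L + L - 1) + 1) ∧
      (e (j * L) + 3 ≤ e (j * L + L - 1) → ∃ w, hi j - e (j * L) = 2 * w + 1) := by
    refine ⟨fun j => if (e (j * L + L - 1) - e (j * L)) % 2 = 1 then e (j * L + L - 1) else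
      e (j * L + L - 1) + 1, fun j => ?_⟩
    beta_reduce
    split_ifs with h
    · refine ⟨⟨le_rfl, by omega⟩, fun h1 => ⟨(e (j * L + L - 1) - e (j * L)) / 2, by omega⟩⟩
    · refine ⟨⟨by omega, le_rfl⟩, fun h1 => ⟨(e (j * L + L - 1) - e (j * L)) / 2, by omega⟩⟩
  refine ⟨fun j => e (j * L), hi, fun j => (List.range m).map fun i => e (j * L + q + 1 + i * D), fun j hj => ?_⟩
  have h1 := hjL j hj
  obtain ⟨⟨h2, h3⟩, h4⟩ := hhi j
  have h5 : e (j * L) + (j * L + L - 1 - j * L) ≤ e (j * L + L - 1) := hm _ _ (by omega) (by omega)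
  have h6 : j * L + L - 1 - j * L = L - 1 := by omega
  rw [h6] at h5
  have h7 := h0 _ (he (j * L) (by omega))
  have h8 := h0 _ (he (j * L + L - 1) (by omega))
  beta_reduce
  refine ⟨h7.1, by omega, by omega, h4 (by omega), ?_, by rw [List.length_map, List.length_range], ?_, ?_⟩
  · intro i hij
    obtain ⟨⟨k2, k3⟩, k4⟩ := hhi i
    have k5 : (i + 1) * L ≤ j * L := Nat.mul_le_mul_right L hij
    have k6 : (i + 1) * L = i * L + L := by ring
    have k7 := hm (i * L + L - 1) (j * L) (by omega) (by omega)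
    omega
  · intro x hx
    obtain ⟨i, hi1, rfl⟩ := List.mem_map.1 hx
    rw [List.mem_range] at hi1
    have k1 : (i + 1) * D ≤ m * D := Nat.mul_le_mul_right D hi1
    have k2 : (i + 1) * D = i * D + D := by ring
    have k3 := hm (j * L) (j * L + q + 1 + i * D) (by omega) (by omega)
    have k4 := hm (j * L + q + 1 + i * D) (j * L + L - 1) (by omega) (by omega)
    exact ⟨he _ (by omega), by omega, by omega⟩
  · rw [List.pairwise_map]
    refine List.Pairwise.imp_of_mem ?_ List.pairwise_lt_range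
    intro i1 i2 hi1 hi2 h12
    rw [List.mem_range] at hi1 hi2
    have k1 : (i2 + 1) * D ≤ m * D := Nat.mul_le_mul_right D hi2
    have k2 : (i2 + 1) * D = i2 * D + D := by ring
    have k3 : (i1 + 1) * D ≤ i2 * D := Nat.mul_le_mul_right D h12
    have k4 : (i1 + 1) * D = i1 * D + D := by ring
    have k5 := hm (j * L + q + 1 + i1 * D) (j * L + q + 1 + i2 * D) (by omega) (by omega)
    omega

end SYS.GW
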