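import Pool.Agent.SYS.US.Grw

/-!
# SYSS-GRW-Lnk: links along chains of connected sets, and `Grw` from the number of linked darts

`link_ext`: a link from `x` to `f` and a connected set with `T.a f` and `e` give a link from `x` to `e`.
`grw_of`: the set of ALL darts with a link to `x` is connected, so only its size matters.  `image_ge`: few collisions, many values.
-/

namespace SYS.GW

open Classical SST Part Num XP US

variable {D : Type}

theorem fs_union {T : Tri D} {Y Z : Set D} (h : Fs T Y) (h' : Fs T Z) : Fs T (Y ∪ Z) := fun d => or_congr (h d) (h' d)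

/-- A connected family of connected sets which all contain `x`. -/
theorem dc_sUnion {T : Tri D} {F : Set (Set D)} (hF : ∀ Y ∈ F, Fs T Y ∧ DC T Y) {x : D} (hx : ∀ Y ∈ F, x ∈ Y) : DC T (⋃₀ F) := by
  intro Z hZ hne hf ha
  have key : ∀ Y ∈ F, (Z ∩ Y).Nonempty → Y ⊆ Z := by
    intro Y hY hn
    have h1 : Z ∩ Y = Y := by
      refine (hF Y hY).2 (Z ∩ Y) Set.inter_subset_right hn (fun d hd => ⟨hf d hd.1, ((hF Y hY).1 d).2 hd.2⟩) ?_
      exact fun d hd h2 => ⟨ha d hd.1 ⟨Y, hY, h2⟩, h2⟩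
    rw [← h1]
    exact Set.inter_subset_left
  obtain ⟨z, hz⟩ := hne
  obtain ⟨Y, hY, hzY⟩ := hZ hz
  have h2 : x ∈ Z := key Y hY ⟨z, hz, hzY⟩ (hx Y hY)
  refine Set.Subset.antisymm hZ ?_
  rintro d ⟨Y', hY', hd⟩
  exact key Y' hY' ⟨x, h2, hx Y' hY'⟩ hd

theorem dc_union {T : Tri D} {Y Z : Set D} (h : Fs T Y) (h' : Fs T Z) (hc : DC T Y) (hc' : DC T Z) {f : D} (h1 : f ∈ Y)
    (h2 : T.a f ∈ Z) : DC T (Y ∪ Z) := by
  intro X hX hne hf ha
  have k1 : (X ∩ Y).Nonempty → Y ⊆ X := by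
    intro hn
    have e1 : X ∩ Y = Y := hc (X ∩ Y) Set.inter_subset_right hn (fun d hd => ⟨hf d hd.1, (h d).2 hd.2⟩)
      fun d hd h3 => ⟨ha d hd.1 (Or.inl h3), h3⟩
    rw [← e1]
    exact Set.inter_subset_left
  have k2 : (X ∩ Z).Nonempty → Z ⊆ X := by
    intro hn
    have e1 : X ∩ Z = Z := hc' (X ∩ Z) Set.inter_subset_right hn (fun d hd => ⟨hf d hd.1, (h' d).2 hd.2⟩)
      fun d hd h3 => ⟨ha d hd.1 (Or.inr h3), h3⟩
    rw [← e1]
    exact Set.inter_subset_left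
  have both : Y ⊆ X ∧ Z ⊆ X := by
    obtain ⟨z, hz⟩ := hne
    rcases hX hz with h3 | h3
    · have h4 := k1 ⟨z, hz, h3⟩
      have h5 : T.a f ∈ X := ha f (h4 h1) (Or.inr h2)
      exact ⟨h4, k2 ⟨_, h5, h2⟩⟩
    · have h4 := k2 ⟨z, hz, h3⟩
      have h5 : f ∈ X := by
        have h6 := ha _ (h4 h2) (by rw [T.aa]; exact Or.inl h1)
        rwa [T.aa] at h6
      exact ⟨k1 ⟨_, h5, h1⟩, h4⟩
  exact Set.Subset.antisymm hX (Set.union_subset both.1 both.2)

theorem bdy_union [Finite D] (T : Tri D) (Y Z : Set D) : (bdy T (Y ∪ Z)).ncard ≤ (bdy T Y).ncard + (bdy T Z).ncard := by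
  refine (Set.ncard_le_ncard ?_ (Set.toFinite _)).trans (Set.ncard_union_le _ _)
  rintro d ⟨h1 | h1, h2⟩
  · exact Or.inl ⟨h1, fun h3 => h2 (Or.inl h3)⟩
  · exact Or.inr ⟨h1, fun h3 => h2 (Or.inr h3)⟩

/-- The face of `x`. -/
theorem link_refl [Finite D] (T : Tri D) (x : D) : Link T x x 3 3 := by
  have hc : ({x, T.f x, T.f (T.f x)} : Set D).ncard ≤ 3 := by
    have h1 := Set.ncard_insert_le x ({T.f x, T.f (T.f x)} : Set D)
    have h2 := Set.ncard_insert_le (T.f x) ({T.f (T.f x)} : Set D)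
    have h3 := Set.ncard_singleton (T.f (T.f x))
    omega
  have hfs : Fs T ({x, T.f x, T.f (T.f x)} : Set D) := by
    intro d
    constructor
    · rintro (h | h | h)
      · right; right
        show d = T.f (T.f x)
        rw [← h, T.fff]
      · left
        exact T.f.injective h
      · right; left
        exact T.f.injective h
    · rintro (h | h | h)
      · right; left
        rw [h]
      · right; right
        show T.f d = T.f (T.f x)
        rw [h]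
      · left
        rw [h, T.fff]
  refine ⟨{x, T.f x, T.f (T.f x)}, hfs, ?_, Or.inl rfl, Or.inl rfl, ?_, ?_⟩
  · intro Z hZ hne hf _
    have h1 : x ∈ Z := by
      obtain ⟨z, hz⟩ := hne
      rcases hZ hz with h | h | h
      · exact h ▸ hz
      · have h2 := hf _ (hf _ hz)
        rw [h, T.fff] at h2
        exact h2
      · have h2 := hf _ hz
        rw [h, T.fff] at h2
        exact h2
    refine Set.Subset.antisymm hZ ?_
    rintro d (rfl | rfl | rfl)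
    · exact h1
    · exact hf _ h1
    · exact hf _ (hf _ h1)
  · have h1 : (bdy T ({x, T.f x, T.f (T.f x)} : Set D)).ncard ≤ 3 :=
      (Set.ncard_le_ncard (fun d hd => hd.1) (Set.toFinite _)).trans hc
    exact_mod_cast h1
  · exact_mod_cast hc

theorem link_ext [Finite D] {T : Tri D} {x f e : D} {m v m' v' : ℝ} (h : Link T x f m v) {Z : Set D} (hf : Fs T Z)
    (hc : DC T Z) (h1 : T.a f ∈ Z) (h2 : e ∈ Z) (hm : ((bdy T Z).ncard : ℝ) ≤ m') (hv : (Z.ncard : ℝ) ≤ v') :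
    Link T x e (m + m') (v + v') := by
  obtain ⟨Y, y1, y2, y3, y4, y5, y6⟩ := h
  refine ⟨Y ∪ Z, fs_union y1 hf, dc_union y1 hf y2 hc y4 h1, Or.inl y3, Or.inr h2, ?_, ?_⟩
  · have h3 : ((bdy T (Y ∪ Z)).ncard : ℝ) ≤ (bdy T Y).ncard + (bdy T Z).ncard := by exact_mod_cast bdy_union T Y Z
    linarith
  · have h3 : ((Y ∪ Z).ncard : ℝ) ≤ Y.ncard + Z.ncard := by exact_mod_cast Set.ncard_union_le Y Z
    linarith

theorem link_mono {T : Tri D} {x y : D} {m v m' v' : ℝ} (h : Link T x y m v) (hm : m ≤ m') (hv : v ≤ v') :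
    Link T x y m' v' := by
  obtain ⟨Y, y1, y2, y3, y4, y5, y6⟩ := h
  exact ⟨Y, y1, y2, y3, y4, y5.trans hm, y6.trans hv⟩

/-- The darts with a link to `x`. -/
def lnk (T : Tri D) (x : D) (m v : ℝ) : Set D := {d | Link T x d m v}

theorem lnk_conn (T : Tri D) (x : D) (m v : ℝ) : Fs T (lnk T x m v) ∧ DC T (lnk T x m v) := by
  have h1 : lnk T x m v = ⋃₀ {Y : Set D | Fs T Y ∧ DC T Y ∧ x ∈ Y ∧ ((bdy T Y).ncard : ℝ) ≤ m ∧ (Y.ncard : ℝ) ≤ v} := by
    ext d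
    constructor
    · rintro ⟨Y, y1, y2, y3, y4, y5, y6⟩
      exact ⟨Y, ⟨y1, y2, y3, y5, y6⟩, y4⟩
    · rintro ⟨Y, ⟨y1, y2, y3, y5, y6⟩, y4⟩
      exact ⟨Y, y1, y2, y3, y4, y5, y6⟩
  rw [h1]
  refine ⟨?_, dc_sUnion (x := x) (fun Y hY => ⟨hY.1, hY.2.1⟩) fun Y hY => hY.2.2.1⟩
  intro d
  constructor
  · rintro ⟨Y, hY, hd⟩
    exact ⟨Y, hY, (hY.1 d).1 hd⟩
  · rintro ⟨Y, hY, hd⟩
    exact ⟨Y, hY, (hY.1 d).2 hd⟩

/-- `Grw` from the number of darts with a link to the source. -/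
theorem grw_of {θ β C e : ℝ} (h : ∀ η : ℝ, 0 < η → ∀ᶠ p in Num.Fth θ,
    (({q : Tri (Fin (6 * p.1)) × Fin (6 * p.1) | q.1 ∈ Trn p.1 p.2 ∧
      ((lnk q.1 q.2 (β * Real.log p.1) (C * Real.log p.1)).ncard : ℝ) < (p.1 : ℝ) ^ (1 - 2 * e)}.ncard : ℕ) : ℝ) ≤
      η * (6 * (p.1 : ℝ)) * ((Trn p.1 p.2).ncard : ℕ)) : Grw θ β C e := by
  intro η hη
  filter_upwards [h η hη] with p hp
  refine le_trans ?_ hp
  have h1 : {q : Tri (Fin (6 * p.1)) × Fin (6 * p.1) | q.1 ∈ Trn p.1 p.2 ∧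
      ¬ ∃ Y : Set (Fin (6 * p.1)), Fs q.1 Y ∧ DC q.1 Y ∧ (p.1 : ℝ) ^ (1 - 2 * e) ≤ Y.ncard ∧
        ∀ d ∈ Y, Link q.1 q.2 d (β * Real.log p.1) (C * Real.log p.1)} ⊆
      {q : Tri (Fin (6 * p.1)) × Fin (6 * p.1) | q.1 ∈ Trn p.1 p.2 ∧
        ((lnk q.1 q.2 (β * Real.log p.1) (C * Real.log p.1)).ncard : ℝ) < (p.1 : ℝ) ^ (1 - 2 * e)} := by
    rintro q ⟨h1, h2⟩
    refine ⟨h1, ?_⟩
    by_contra h3
    obtain ⟨h4, h5⟩ := lnk_conn q.1 q.2 (β * Real.log p.1) (C * Real.log p.1)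
    exact h2 ⟨_, h4, h5, not_lt.1 h3, fun d hd => hd⟩
  have h2 := Set.ncard_le_ncard h1 (Set.toFinite _)
  exact_mod_cast h2

/-- Few collisions, many values. -/
theorem image_ge {ι α : Type} [Fintype ι] [Finite α] (F : ι → α) (A : Set ι) (X : Set α) (hX : ∀ i ∈ A, F i ∈ X)
    (hc : ({p : ι × ι | p.1 ∈ A ∧ p.2 ∈ A ∧ p.1 ≠ p.2 ∧ F p.1 = F p.2}.ncard : ℕ) ≤ A.ncard) : A.ncard ≤ 2 * X.ncard := by
  have hsum : (A.ncard) ^ 2 ≤ X.ncard * {p : ι × ι | p.1 ∈ A ∧ p.2 ∈ A ∧ F p.1 = F p.2}.ncard := by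
    have e1 : A.ncard = ∑ y ∈ X.toFinite.toFinset, (A.toFinite.toFinset.filter fun i => F i = y).card := by
      rw [Set.ncard_eq_toFinset_card A A.toFinite]
      refine Finset.card_eq_sum_card_fiberwise fun i hi => ?_
      have h1 : i ∈ A := A.toFinite.mem_toFinset.1 hi
      exact Finset.mem_coe.2 (X.toFinite.mem_toFinset.2 (hX i h1))
    have e2 : {p : ι × ι | p.1 ∈ A ∧ p.2 ∈ A ∧ F p.1 = F p.2}.ncard =
        ∑ y ∈ X.toFinite.toFinset, (A.toFinite.toFinset.filter fun i => F i = y).card ^ 2 := by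
      have e3 : {p : ι × ι | p.1 ∈ A ∧ p.2 ∈ A ∧ F p.1 = F p.2} =
          (((A.toFinite.toFinset ×ˢ A.toFinite.toFinset).filter fun p => F p.1 = F p.2 : Finset (ι × ι)) : Set (ι × ι)) := by
        ext p
        simp only [Set.mem_ofPred_eq, Finset.coe_filter, Finset.mem_product, Set.Finite.mem_toFinset]
        tauto
      rw [e3, Set.ncard_coe_finset]
      rw [Finset.card_eq_sum_card_fiberwise (f := fun p : ι × ι => F p.1) (t := X.toFinite.toFinset)]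
      · refine Finset.sum_congr rfl fun y _ => ?_
        rw [pow_two, ← Finset.card_product]
        congr 1
        ext p
        simp only [Finset.mem_filter, Finset.mem_product]
        constructor
        · rintro ⟨⟨⟨h1, h2⟩, h3⟩, h4⟩
          exact ⟨⟨h1, h4⟩, h2, h3.symm.trans h4⟩
        · rintro ⟨⟨h1, h4⟩, h2, h3⟩
          exact ⟨⟨⟨h1, h2⟩, h4.trans h3.symm⟩, h4⟩
      · intro p hp
        have h1 := Finset.mem_filter.1 (Finset.mem_coe.1 hp)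
        have h2 := Finset.mem_product.1 h1.1
        exact Finset.mem_coe.2 (X.toFinite.mem_toFinset.2 (hX _ (A.toFinite.mem_toFinset.1 h2.1)))
    have e4 : X.ncard = (X.toFinite.toFinset).card := Set.ncard_eq_toFinset_card X X.toFinite
    rw [e2, e1, e4]
    exact sq_sum_le_card_mul_sum_sq
  have hle : {p : ι × ι | p.1 ∈ A ∧ p.2 ∈ A ∧ F p.1 = F p.2}.ncard ≤ A.ncard + A.ncard := by
    have h1 : {p : ι × ι | p.1 ∈ A ∧ p.2 ∈ A ∧ F p.1 = F p.2} ⊆ ((fun i => (i, i)) '' A) ∪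
        {p : ι × ι | p.1 ∈ A ∧ p.2 ∈ A ∧ p.1 ≠ p.2 ∧ F p.1 = F p.2} := by
      rintro ⟨i, j⟩ ⟨h1, h2, h3⟩
      by_cases h4 : i = j
      · left
        exact ⟨i, h1, by rw [h4]⟩
      · right
        exact ⟨h1, h2, h4, h3⟩
    refine (Set.ncard_le_ncard h1 (Set.toFinite _)).trans ((Set.ncard_union_le _ _).trans ?_)
    exact Nat.add_le_add (Set.ncard_image_le (Set.toFinite _)) hc
  rcases Nat.eq_zero_or_pos A.ncard with h0 | h0
  · omega
  · have h1 : A.ncard * A.ncard ≤ (2 * X.ncard) * A.ncard := by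
      calc A.ncard * A.ncard = A.ncard ^ 2 := by ring
        _ ≤ X.ncard * {p : ι × ι | p.1 ∈ A ∧ p.2 ∈ A ∧ F p.1 = F p.2}.ncard := hsum
        _ ≤ X.ncard * (A.ncard + A.ncard) := Nat.mul_le_mul le_rfl hle
        _ = (2 * X.ncard) * A.ncard := by ring
    exact Nat.le_of_mul_le_mul_right h1 h0

end SYS.GW
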