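import Pool.Agent.SYS.GW.DefC
import Pool.Agent.SYS.Reg.SimT
import Pool.Agent.SYS.Reg.SimR
import Pool.Agent.SYS.Reg.SimL
import Pool.Agent.SYS.Reg.SimX
import Pool.Agent.SYS.PX.HcM
import Pool.Agent.SYS.GW.StrT

/-!
# SYSS-GRW-MirA: one step of the mirror exploration

The window and the new part are the same over the base `E` and over `U`, so a step at a deep gate is the same step in both regions.
-/

namespace SYS.GW

open Classical SST SYS.Num Str

variable {n g b w p F p' F' : ℕ} {T : Tri (Fin (6 * n))} {E U V V' J : Part (Fin (6 * n))} {y d : Fin (6 * n)} {nd : Nd (Fin (6 * n))}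

/-- The centre of the arc. -/
noncomputable def cen (w : ℕ) (nd : Nd (Fin (6 * n))) : Fin (6 * n) := nd.ps (nd.cor.length + w)

private theorem mi_pc {S₁ S₂ : Part (Fin (6 * n))} : Part.pc S₁ S₂ (id : Fin (6 * n) → Fin (6 * n)) id = id := by
  funext e
  unfold Part.pc
  split_ifs <;> rfl

private theorem mi_nw {y : Fin (6 * n)} (hs : Part.Sim E V y U J y w id) : Part.NW U J y w = Part.NW E V y w := by
  rw [← Part.sim_image hs, Set.image_id]

private theorem mi_symm {y : Fin (6 * n)} (hs : Part.Sim E V y U J y w id) : Part.Sim U J y E V y w id := by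
  obtain ⟨θ', h1, h2, -⟩ := Part.sim_symm hs
  refine Part.sim_congr h1 fun e he => ?_
  rw [mi_nw hs] at he
  exact h2 e he

private theorem mi_R {y : Fin (6 * n)} (hU : E.Sub U) (hs : Part.Sim E V y U J y w id) : V.R ⊆ J.R := by
  intro e he
  by_cases h1 : e ∈ E.R
  · exact hs.sub'.R_sub (hU.R_sub h1)
  · have h2 : e ∈ J.R \ U.R := by
      rw [← hs.new, Set.image_id]
      exact ⟨he, h1⟩
    exact h2.1

/-- a dart not in the window and not revealed differently -/
private theorem mi_a {y : Fin (6 * n)} (hs : Part.Sim E V y U J y w id) {e : Fin (6 * n)} (h : V.a e ≠ e) :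
    E.a e ≠ e ∨ e ∈ Part.NW E V y w := by
  by_contra hcon
  push Not at hcon
  obtain ⟨h1, h2⟩ := hcon
  by_cases h3 : e ∈ E.R
  · exact h (hs.off e ⟨h3, h1⟩ h2)
  · by_cases h4 : e ∈ V.R
    · exact h2 (Or.inl ⟨h4, h3⟩)
    · have h5 : V.f e = e := by
        by_contra h6
        exact h4 h6
      exact h (V.af e h5)

private theorem mi_sub {y : Fin (6 * n)} (hU : E.Sub U) (hs : Part.Sim E V y U J y w id) : V.Sub J := by
  refine ⟨fun e he => ?_, fun e he => ?_⟩
  · by_cases h1 : e ∈ E.R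
    · have h2 : V.f e = E.f e := hs.sub.1 e h1
      have h3 : U.f e = E.f e := hU.1 e h1
      have h4 : J.f e = U.f e := hs.sub'.1 e (by rw [h3]; exact h1)
      rw [h4, h3, h2]
    · exact (hs.f e ⟨he, h1⟩).symm
  · rcases mi_a hs he with h1 | h1
    · have h2 : V.a e = E.a e := hs.sub.2 e h1
      have h3 : U.a e = E.a e := hU.2 e h1
      have h4 : J.a e = U.a e := hs.sub'.2 e (by rw [h3]; exact h1)
      rw [h4, h3, h2]
    · exact (hs.a e h1).2.symm

/-- the smaller region is a region of `T` if the larger one is -/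
private theorem mi_le {y : Fin (6 * n)} (hU : E.Sub U) (hs : Part.Sim E V y U J y w id) (hJ : J.Le T) : V.Le T :=
  Part.sub_le (mi_sub hU hs) hJ

private theorem mi_bs {S : Part (Fin (6 * n))} {o e : Fin (6 * n)} {c w : ℕ} (hc : c + (2 * w + 1) = (S.hw o).length)
    (he : e ∈ (S.hw o).drop c) : ∃ m : ℤ, |m| ≤ w ∧ e = S.bs ((S.nx ^ (c + w)) o) m := by
  obtain ⟨i, hi, rfl⟩ := List.mem_iff_getElem.1 he
  rw [List.length_drop] at hi
  refine ⟨(i : ℤ) - w, abs_le.2 ⟨by omega, by omega⟩, ?_⟩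
  rw [List.getElem_drop]
  unfold Part.hw Part.bs
  rw [List.getElem_map, List.getElem_range, ← Equiv.Perm.mul_apply, ← zpow_natCast, ← zpow_natCast, ← zpow_add]
  congr 2
  push_cast
  ring

private theorem mi_deep {nd : Nd (Fin (6 * n))} (hE : OH nd.Z p F) (ho : nd.o ∈ nd.Z.B) (hw : nd.arc.length = 2 * w + 1)
    (hs : nd.Z.Sub V) (hoV : nd.o ∈ V.B) {t : List (Fin (6 * n))} (ht : V.hw nd.o = nd.cor ++ t) {q : ℕ}
    (h1 : nd.cor.length ≤ q) (h2 : q < V.per nd.o) : (V.nx ^ q) nd.o ∈ Part.NW nd.Z V (cen w nd) w := by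
  have hn := V.hw_nodup hoV
  have hl := V.hw_length hoV
  have hq : q < (V.hw nd.o).length := by rw [hl]; exact h2
  have hge : (V.hw nd.o)[q] = (V.nx ^ q) nd.o := by
    unfold Part.hw
    rw [List.getElem_map, List.getElem_range]
  have hmem : (V.nx ^ q) nd.o ∈ V.hw nd.o := by
    rw [← hge]
    exact List.getElem_mem hq
  have hB : (V.nx ^ q) nd.o ∈ V.B := ((V.mem_hw hoV).1 hmem).1
  have hnc : (V.nx ^ q) nd.o ∉ nd.cor := by
    intro h3
    obtain ⟨i, hi, hi2⟩ := List.mem_iff_getElem.1 h3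
    have hi' : i < (V.hw nd.o).length := by omega
    have h4 : (V.hw nd.o)[i] = (V.hw nd.o)[q] := by
      rw [hge, ← hi2]
      simp only [ht]
      rw [List.getElem_append_left hi]
    have h5 := (List.Nodup.getElem_inj_iff hn).1 h4
    omega
  by_cases h3 : (V.nx ^ q) nd.o ∈ nd.Z.R
  · right
    have h4 : (V.nx ^ q) nd.o ∈ nd.Z.B := by
      refine ⟨h3, ?_⟩
      by_contra h5
      exact h5 ((hs.2 _ h5).symm.trans hB.2)
    have h5 : (V.nx ^ q) nd.o ∈ nd.Z.hw nd.o := by
      rw [nd.Z.mem_hw ho]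
      refine ⟨h4, ?_⟩
      have h6 := (oh_typ hE ho).hl.2.2 _ h4
      obtain ⟨x, hx, hx2⟩ := h6
      rw [List.mem_singleton] at hx
      rw [hx] at hx2
      exact hx2
    have hlen : nd.c + (2 * w + 1) = (nd.Z.hw nd.o).length := by
      have h6 : ((nd.Z.hw nd.o).drop nd.c).length = 2 * w + 1 := hw
      rw [List.length_drop] at h6
      omega
    have hcl : nd.cor.length = nd.c := by
      unfold Nd.cor
      rw [List.length_take]
      omega
    rw [← List.take_append_drop nd.c (nd.Z.hw nd.o), List.mem_append] at h5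
    have h7 : (V.nx ^ q) nd.o ∈ (nd.Z.hw nd.o).drop nd.c := h5.resolve_left hnc
    obtain ⟨m, hm1, hm2⟩ := mi_bs hlen h7
    refine ⟨m, hm1, ?_⟩
    rw [hm2]
    unfold cen Nd.ps
    rw [hcl]
  · exact Or.inl ⟨hB.1, h3⟩

private theorem mi_pos {y : Fin (6 * n)} (hs : Part.Sim E V y U J y w id) (hdB : d ∈ V.B) {N : ℕ}
    (h : ∀ j : ℕ, j ≤ N → (V.nx ^ j) d ∈ Part.NW E V y w) : ∀ j : ℕ, j ≤ N → (J.nx ^ j) d = (V.nx ^ j) d := by
  intro j
  induction j with
  | zero => exact fun _ => rfl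
  | succ j ih =>
    intro hj
    have hB : ∀ i : ℕ, (V.nx ^ i) d ∈ V.B := by
      intro i
      induction i with
      | zero => exact hdB
      | succ i ih =>
        rw [pow_succ', Equiv.Perm.mul_apply, V.nx_mem]
        exact ih
    have h1 := h (j + 1) hj
    rw [pow_succ', Equiv.Perm.mul_apply] at h1
    have h2 := Part.sim_nx hs (h j (by omega)) (hB j) h1
    rw [pow_succ', pow_succ', Equiv.Perm.mul_apply, Equiv.Perm.mul_apply, ih (by omega)]
    exact h2

private theorem mi_neg {y : Fin (6 * n)} (hs : Part.Sim E V y U J y w id) (hdB : d ∈ V.B) {N : ℕ}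
    (h : ∀ j : ℕ, j ≤ N → (V.nx⁻¹ ^ j) d ∈ Part.NW E V y w) : ∀ j : ℕ, j ≤ N → (J.nx⁻¹ ^ j) d = (V.nx⁻¹ ^ j) d := by
  intro j
  induction j with
  | zero => exact fun _ => rfl
  | succ j ih =>
    intro hj
    have hB : ∀ i : ℕ, (V.nx⁻¹ ^ i) d ∈ V.B := by
      intro i
      induction i with
      | zero => exact hdB
      | succ i ih =>
        rw [pow_succ', Equiv.Perm.mul_apply, ← V.nx_mem]
        have h3 : V.nx ((V.nx⁻¹) ((V.nx⁻¹ ^ i) d)) = (V.nx⁻¹ ^ i) d := Equiv.apply_symm_apply _ _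
        rw [h3]
        exact ih
    have h1 := h (j + 1) hj
    rw [pow_succ', Equiv.Perm.mul_apply] at h1
    have h2 := Part.sim_nx_symm hs (h j (by omega)) (hB j) h1
    rw [pow_succ', pow_succ', Equiv.Perm.mul_apply, Equiv.Perm.mul_apply, ih (by omega)]
    exact h2

/-- a local step is transported to the smaller region -/
private theorem mi_step {y z : Fin (6 * n)} {J' : Part (Fin (6 * n))} {s : Stp} (hU : E.Sub U)
    (hs : Part.Sim E V y U J y w id) (hd : d ∈ Part.NW E V y w) (hst : Part.LSt U J y w d s J' z) :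
    ∃ (V'' : Part (Fin (6 * n))) (z' : Fin (6 * n)), V.St d s V'' z' ∧ Part.Sim E V'' y U J' y w id := by
  have h1 := mi_symm hs
  have hd' : d ∈ Part.NW U J y w := by
    rw [mi_nw hs]
    exact hd
  have hψ : Set.InjOn (id : Fin (6 * n) → Fin (6 * n)) (J'.R \ J.R) := Set.injOn_id _
  have hn : ∀ e ∈ J'.R \ J.R, (id e : Fin (6 * n)) ∉ V.R := fun e he h2 => he.2 (mi_R hU hs h2)
  cases s with
  | T =>
    obtain ⟨V'', z', k1, -, k3, -, -⟩ := Part.sim_T h1 hd' hst hψ hn
    rw [mi_pc] at k3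
    exact ⟨V'', z', k1.1, mi_symm k3⟩
  | L k a =>
    obtain ⟨V'', z', k1, -, k3, -, -⟩ := Part.sim_L h1 hd' hst hψ hn
    rw [mi_pc] at k3
    exact ⟨V'', z', k1.1, mi_symm k3⟩
  | R k a =>
    obtain ⟨V'', z', k1, -, k3, -, -⟩ := Part.sim_R h1 hd' hst hψ hn
    rw [mi_pc] at k3
    exact ⟨V'', z', k1.1, mi_symm k3⟩

theorem mir_fwd (hT : T ∈ Trn n g) (hg : 1 ≤ g) (hE : OH nd.Z p F) (ho : nd.o ∈ nd.Z.B) (hc : 1 ≤ nd.c) (hw : nd.arc.length = 2 * w + 1)
    (hV : ∃ p F, OH V p F) (hJ : ∃ p F, OH J p F) (hVT : In T V) (hJT : In T J) (hU : nd.Z.Sub U) (hUT : In T U)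
    (hs : Part.Sim nd.Z V (cen w nd) U J (cen w nd) w id) (hd : Dp b nd V d V') (hst : SS b V d V') (hV' : In T V') :
    d ∈ J.B ∧ ((¬ ∃ J', SS b J d J' ∧ In T J') ∨
      ∃ J', SS b J d J' ∧ In T J' ∧ vst b V d J' = V' ∧ Part.Sim nd.Z V' (cen w nd) U J' (cen w nd) w id) := by
  obtain ⟨hoV, t₁, t₂, ht, hl1, hl2⟩ := hd
  obtain ⟨pV, FV, hVo⟩ := hV
  have hdB : d ∈ V.B := by
    obtain ⟨s, z, h1, -⟩ := hst
    exact (Part.st_sub h1).2.1
  -- the gate in the word of the hole
  have hlen : V.per nd.o = nd.cor.length + (t₁.length + (1 + t₂.length)) := by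
    rw [← V.hw_length hoV, ht]
    simp only [List.length_append, List.length_cons]
    omega
  have hdq : d = (V.nx ^ (nd.cor.length + t₁.length)) nd.o := by
    have hq : nd.cor.length + t₁.length < (V.hw nd.o).length := by
      rw [V.hw_length hoV]
      omega
    have h1 : (V.hw nd.o)[nd.cor.length + t₁.length] = (V.nx ^ (nd.cor.length + t₁.length)) nd.o := by
      unfold Part.hw
      rw [List.getElem_map, List.getElem_range]
    rw [← h1]
    simp only [ht]
    rw [List.getElem_append_right (by omega)]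
    have h2 : nd.cor.length + t₁.length - nd.cor.length = t₁.length := by omega
    simp only [h2]
    rw [List.getElem_append_right (by omega)]
    simp
  have hdeep : ∀ q : ℕ, nd.cor.length ≤ q → q < V.per nd.o → (V.nx ^ q) nd.o ∈ Part.NW nd.Z V (cen w nd) w :=
    fun q h1 h2 => mi_deep hE ho hw hs.sub hoV ht h1 h2
  have hp : ∀ j : ℕ, j ≤ b + 2 → (V.nx ^ j) d ∈ Part.NW nd.Z V (cen w nd) w := by
    intro j hj
    rw [hdq, ← Equiv.Perm.mul_apply, ← pow_add]
    exact hdeep _ (by omega) (by omega)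
  have hm : ∀ j : ℕ, j ≤ b + 2 → (V.nx⁻¹ ^ j) d ∈ Part.NW nd.Z V (cen w nd) w := by
    intro j hj
    have h1 : (V.nx⁻¹ ^ j) d = (V.nx ^ (nd.cor.length + t₁.length - j)) nd.o := by
      rw [inv_pow, Equiv.Perm.inv_eq_iff_eq, ← Equiv.Perm.mul_apply, ← pow_add, hdq]
      congr 2
      omega
    rw [h1]
    exact hdeep _ (by omega) (by omega)
  have hdN : d ∈ Part.NW nd.Z V (cen w nd) w := hp 0 (by omega)
  have hJB : d ∈ J.B := (Part.sim_B hs hdN).2 hdB
  refine ⟨hJB, ?_⟩
  by_cases hex : ∃ J', SS b J d J' ∧ In T J'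
  · right
    obtain ⟨J', hJ', hJT'⟩ := hex
    have hJ'0 := hJ'
    obtain ⟨s, z, hs1, hs2⟩ := hJ'
    have hpJ := mi_pos hs hdB hp
    have hmJ := mi_neg hs hdB hm
    have hloc : Part.LocS U J (cen w nd) w d s := by
      cases s with
      | T => exact trivial
      | L k a =>
        have hka : k + a < b := hs2
        refine ⟨?_, fun i hi => ?_⟩
        · have h1 := hpJ 1 (by omega)
          rw [pow_one, pow_one] at h1
          rw [h1, mi_nw hs]
          exact hp 1 (by omega)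
        · rw [hmJ i (by omega), mi_nw hs]
          exact hm i (by omega)
      | R k a =>
        have hka : k + a < b := hs2
        intro i hi
        rw [hpJ i (by omega), mi_nw hs]
        exact hp i (by omega)
    obtain ⟨V'', z', k1, k2⟩ := mi_step hU hs hdN ⟨hs1, hloc⟩
    have hle : V''.Le T := mi_le hU k2 hJT'.1
    have hin : In T V'' := ⟨hle, Part.st_fwd k1 hle hVT.2⟩
    have heq : V'' = V' := ss_unique hT hg hVo ⟨s, z', k1, hs2⟩ hin hst hV'
    subst heq
    refine ⟨J', hJ'0, hJT', ?_, k2⟩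
    have hsub : V''.Sub J' := mi_sub hU k2
    have hh : ∃ V', SS b V d V' ∧ V'.Sub J' := ⟨V'', hst, hsub⟩
    unfold vst
    rw [dif_pos hh]
    have h1 := hh.choose_spec
    have h2 : hh.choose.Le T := Part.sub_le h1.2 hJT'.1
    obtain ⟨s₁, z₁, g1, -⟩ := h1.1
    exact ss_unique hT hg hVo h1.1 ⟨h2, Part.st_fwd g1 h2 hVT.2⟩ hst hV'
  · exact Or.inl hex

end SYS.GW
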