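import Pool.Agent.SYS.GW.BlkC
import Pool.Agent.SYS.PL.LawB

/-!
# SYSS-GRW-Mom: exponential moments of a block
-/

namespace SYS.GW

open Classical SST SYS.Num Str

/-- Ends of a block are prefix-free. -/
private theorem mo_pf {D : Type} [Finite D] {S : Part D} {x : D} {b : Part D → Option D}
    (Q : Finset (List Stp × Part D × D)) (hQ : ∀ q ∈ Q, Part.BEnd b S x q) :
    (∀ q ∈ Q, Part.RchG (Part.rb b) [] S (Part.rb b [] S x) q.1 q.2.1 q.2.2) ∧
      ∀ q ∈ Q, ∀ q' ∈ Q, Part.Anc (Part.rb b) [] q q' → q = q' := by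
  have h0 : ∀ q ∈ Q, Part.RchG (Part.rb b) [] S (Part.rb b [] S x) q.1 q.2.1 q.2.2 := by
    intro q hq
    obtain ⟨h1, h2⟩ := hQ q hq
    have h3 := Part.br_rchg (h := []) h1
    rw [Part.rb_none h2] at h3
    exact h3
  refine ⟨h0, ?_⟩
  rintro ⟨u, U, y⟩ hq ⟨u', U', y'⟩ hq' ⟨v, hv, hr⟩
  change u' = u ++ v at hv
  subst hv
  change Part.RchG (Part.rb b) ([] ++ u) U y v U' y' at hr
  obtain ⟨h1, h2⟩ := hQ _ hq
  obtain ⟨h3, h4⟩ := hQ _ hq'
  change Part.BR b S x u U y at h1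
  change b U = none at h2
  change Part.BR b S x (u ++ v) U' y' at h3
  change b U' = none at h4
  obtain ⟨V, z, h5, h6⟩ := Part.br_append.1 h3
  have h7 := h0 _ hq
  change Part.RchG (Part.rb b) [] S (Part.rb b [] S x) u U y at h7
  have h8 := Part.br_rchg (h := []) h5
  obtain ⟨rfl, h9⟩ := Part.rchg_unique h7 h8 (Part.rchg_sub hr) (Part.br_sub h6)
  cases v with
  | nil =>
    obtain ⟨h10, h11⟩ := hr
    change U' = U at h10
    change y' = y at h11
    rw [List.append_nil, h10, h11]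
  | cons s v =>
    obtain ⟨d, _, _, h10, -⟩ := h6
    rw [h2] at h10
    exact absurd h10 (by simp)

private theorem mo_len {D : Type} [Finite D] {x γ ε₁ : ℝ} {W v : ℕ} {B : CH.Blk} (hB : BOk B x W v γ ε₁) {Z : Part D}
    {f : D} (hf : f ∈ Z.B) {q : List Stp × Part D × D} (hq : Part.BEnd (B.nxt Z f) Z f q) : q.1.length ≤ B.K := by
  obtain ⟨w, Y, y⟩ := q
  rcases List.eq_nil_or_concat' w with rfl | ⟨u, s, rfl⟩
  · exact Nat.zero_le _
  · obtain ⟨V, z, h5, d, Z₁, z₁, h6, h7, h8, -⟩ := Part.br_append.1 hq.1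
    have h9 := hB.len Z f (u, V, z) d hf ⟨h5, h6, h7, h8⟩
    show (u ++ [s]).length ≤ B.K
    rw [List.length_append, List.length_singleton]
    exact h9

private theorem mo_start {D : Type} [Finite D] {x γ ε₁ : ℝ} {W v : ℕ} {B : CH.Blk} (hB : BOk B x W v γ ε₁) {Z : Part D}
    {f : D} (hf : f ∈ Z.B) : Part.rb (B.nxt Z f) [] Z f = f :=
  Part.rb_of (hB.st Z f hf) hf (Equiv.Perm.SameCycle.refl _ _)

theorem blk_mass {n p F W v : ℕ} {x γ ε₁ : ℝ} {B : CH.Blk} (hx : 0 < x) (hB : BOk B x W v γ ε₁) {Z : Part (Fin (6 * n))} {f : Fin (6 * n)}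
    (h : OH Z p F) (hf : f ∈ Z.B) (Q : Finset (List Stp × Part (Fin (6 * n)) × Fin (6 * n))) (hQ : ∀ q ∈ Q, Part.BEnd (B.nxt Z f) Z f q) :
    ∑ q ∈ Q, Part.nwt x F q.1 ≤ 1 := by
  obtain ⟨h1, h2⟩ := mo_pf Q hQ
  rw [mo_start hB hf] at h1
  exact Part.tree_mass hx (Part.rb_rul (B.nxt Z f)) (oh_typ h hf) Q h1 h2

/-- The exponent of a letter. -/
private noncomputable def mo_e (ε : ℝ) (w : List Stp) : ℝ :=
  Real.exp (ε * ((w.length : ℝ) + Part.wk w + wvol w))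

private theorem mo_app (ε : ℝ) (u : List Stp) (s : Stp) : mo_e ε (u ++ [s]) = mo_e ε u * mo_e ε [s] := by
  unfold mo_e Part.wk
  rw [← Real.exp_add, wvol_append, List.length_append, List.map_append, List.sum_append]
  congr 1
  push_cast
  ring

private theorem mo_tot {x : ℝ} (hx : 0 < x) : ∃ ε R : ℝ, 0 < ε ∧ 1 ≤ R ∧
    Tot (fun s => s.wt (AA x) (qq x) * mo_e ε [s]) R := by
  obtain ⟨δ, hδ, hs⟩ := expm hx
  have hA : 0 ≤ AA x := by
    have := AA_gt x
    linarith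
  have hs' : Summable fun t : ℕ × ℕ => Real.exp (3 * δ) * (qq x t.1 t.2 * Real.exp (δ * (t.1 + t.2))) :=
    hs.mul_left _
  have hval : ∀ k a : ℕ, Real.exp (δ * ((1 : ℝ) + ((k + 2 : ℕ) : ℝ) + (a : ℝ))) =
      Real.exp (3 * δ) * Real.exp (δ * (k + a)) := by
    intro k a
    rw [← Real.exp_add]
    congr 1
    push_cast
    ring
  have hLR : ∀ k a : ℕ, qq x k a * Real.exp (δ * ((1 : ℝ) + ((k + 2 : ℕ) : ℝ) + (a : ℝ))) =
      Real.exp (3 * δ) * (qq x k a * Real.exp (δ * (k + a))) := by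
    intro k a
    rw [hval]
    ring
  have hwL : ∀ k a : ℕ, Part.wk [Stp.L k a] = k + 2 := fun k a => rfl
  have hwR : ∀ k a : ℕ, Part.wk [Stp.R k a] = k + 2 := fun k a => rfl
  have hvL : ∀ k a : ℕ, wvol [Stp.L k a] = a := fun k a => by
    rw [wvol_cons, wvol_nil, add_zero]
    rfl
  have hvR : ∀ k a : ℕ, wvol [Stp.R k a] = a := fun k a => by
    rw [wvol_cons, wvol_nil, add_zero]
    rfl
  refine ⟨δ, max 1 (AA x * mo_e δ [Stp.T] +
    ∑' t : ℕ × ℕ, Real.exp (3 * δ) * (qq x t.1 t.2 * Real.exp (δ * (t.1 + t.2))) +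
    ∑' t : ℕ × ℕ, Real.exp (3 * δ) * (qq x t.1 t.2 * Real.exp (δ * (t.1 + t.2)))), hδ, le_max_left _ _, ?_⟩
  refine tot_of (α := AA x * mo_e δ [Stp.T])
    (β := fun t => Real.exp (3 * δ) * (qq x t.1 t.2 * Real.exp (δ * (t.1 + t.2))))
    (γ := fun t => Real.exp (3 * δ) * (qq x t.1 t.2 * Real.exp (δ * (t.1 + t.2)))) rfl
    (fun k a => ?_) (fun k a => ?_) (fun s => mul_nonneg (s.wt_nonneg hA (qq_nonneg x)) (Real.exp_pos _).le)
    hs' hs' (le_max_right _ _)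
  · show qq x k a * Real.exp (δ * ((([Stp.L k a].length : ℕ) : ℝ) + Part.wk [Stp.L k a] + wvol [Stp.L k a])) = _
    rw [hwL, hvL, List.length_singleton, Nat.cast_one]
    exact hLR k a
  · show qq x k a * Real.exp (δ * ((([Stp.R k a].length : ℕ) : ℝ) + Part.wk [Stp.R k a] + wvol [Stp.R k a])) = _
    rw [hwR, hvR, List.length_singleton, Nat.cast_one]
    exact hLR k a

theorem blk_mom {x : ℝ} (hx : 0 < x) (K : ℕ) : ∃ ε R : ℝ, 0 < ε ∧ 0 < R ∧ ∀ (n p F W v : ℕ) (γ ε₁ : ℝ) (B : CH.Blk), BOk B x W v γ ε₁ → B.K = K →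
    ∀ (Z : Part (Fin (6 * n))) (f : Fin (6 * n)), OH Z p F → f ∈ Z.B →
      ∀ Q : Finset (List Stp × Part (Fin (6 * n)) × Fin (6 * n)), (∀ q ∈ Q, Part.BEnd (B.nxt Z f) Z f q) →
        ∑ q ∈ Q, Part.nwt x F q.1 * Real.exp (ε * ((q.1.length : ℝ) + Part.wk q.1 + wvol q.1)) ≤ R := by
  obtain ⟨ε, R, hε, hR, hT⟩ := mo_tot hx
  refine ⟨ε, R ^ K, hε, by positivity, ?_⟩
  intro n p F W v γ ε₁ B hB hK Z f h hf Q hQ
  obtain ⟨h1, h2⟩ := mo_pf Q hQ
  rw [mo_start hB hf] at h1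
  have hlen : ∀ q ∈ Q, q.1.length ≤ K := fun q hq => by
    have := mo_len hB hf (hQ q hq)
    rwa [hK] at this
  have key := Part.tree_le hx (Part.rb_rul (B.nxt Z f)) (oh_typ h hf) Q h1 h2
    (fun u _ _ => mo_e ε u * R ^ (K - u.length)) (fun u _ _ => by
      unfold mo_e
      positivity) (by
    intro u S' x' hr hnot hex C hC
    obtain ⟨q, hq, v', hv', hr'⟩ := hex
    change q.1 = u ++ v' at hv'
    have hlt : u.length + 1 ≤ K := by
      have h3 := hlen q hq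
      rw [hv', List.length_append] at h3
      have h4 : v' ≠ [] := by
        rintro rfl
        obtain ⟨h5, h6⟩ := hr'
        apply hnot
        rw [List.append_nil] at hv'
        have h7 : (u, S', x') = q := Prod.ext hv'.symm (Prod.ext h5.symm h6.symm)
        rw [h7]
        exact hq
      have h5 := List.length_pos_iff.2 h4
      omega
    obtain ⟨hok, F', hF', hTy⟩ := Part.rchg_typ (Part.rb_rul (B.nxt Z f)) (oh_typ h hf) hr
    have hFF : F - wvol u = F' := by omega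
    rw [hFF]
    have h3 : ∀ c ∈ C, Part.nwt x F' [c.1] * (mo_e ε (u ++ [c.1]) * R ^ (K - (u ++ [c.1]).length)) =
        mo_e ε u * R ^ (K - (u.length + 1)) * (Part.nwt x F' [c.1] * mo_e ε [c.1]) := by
      intro c _
      rw [mo_app, List.length_append, List.length_singleton]
      ring
    show ∑ c ∈ C, Part.nwt x F' [c.1] * (mo_e ε (u ++ [c.1]) * R ^ (K - (u ++ [c.1]).length)) ≤
      mo_e ε u * R ^ (K - u.length)
    rw [Finset.sum_congr rfl h3, ← Finset.mul_sum]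
    have h4 : ∑ c ∈ C, Part.nwt x F' [c.1] * mo_e ε [c.1] ≤ R :=
      Part.step_le hx hTy C hC (fun s => mo_e ε [s]) (fun s => (Real.exp_pos _).le) (fun G _ => hT.2 G)
    have h5 : K - u.length = K - (u.length + 1) + 1 := by omega
    rw [h5, pow_succ, ← mul_assoc]
    refine mul_le_mul_of_nonneg_left h4 ?_
    unfold mo_e
    positivity)
  refine le_trans (Finset.sum_le_sum fun q hq => ?_) (key.trans (le_of_eq ?_))
  · show Part.nwt x F q.1 * mo_e ε q.1 ≤ Part.nwt x F q.1 * (mo_e ε q.1 * R ^ (K - q.1.length))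
    refine mul_le_mul_of_nonneg_left ?_ (Part.nwt_nonneg hx _ _)
    exact le_mul_of_one_le_right (Real.exp_pos _).le (one_le_pow₀ hR)
  · show mo_e ε [] * R ^ (K - ([] : List Stp).length) = R ^ K
    unfold mo_e Part.wk
    rw [wvol_nil]
    simp

end SYS.GW
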