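import Pool.Agent.SYS.GW.NumW
import Pool.Agent.SYS.VI.ExB
import Pool.Agent.SYS.UP.Inp
import Pool.Agent.SYS.UP.Nus

/-!
# SYSS-GRW-NumNS: gluings with a connected hidden part after less than `N` steps from a source
-/

namespace SYS.GW

open Classical SST SYS.Num Filter

variable {θ x : ℝ}

theorem src3 {n : ℕ} (hn : 1 ≤ n) (g : ℕ) : muG {3} (2 * n - 1) g = 6 * n * SST.nu n g := by
  show muG (3 ::ₘ 0) (2 * n - 1) g = 6 * n * SST.nu n g
  rw [muG_three, show 2 * n - 1 + 1 = 2 * n by omega, muG_nu n g hn]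
  have h1 : ((2 * n - 1 : ℕ) : ℝ) + 1 = 2 * n := by
    have h2 : 2 * n - 1 + 1 = 2 * n := by omega
    exact_mod_cast h2
  rw [h1]
  ring

private theorem ns_eq (e F g N : ℕ) (he : e ≤ N + 2) (hg : g ≠ 0) :
    NS e 0 F g = ∑ y ∈ (Finset.range (N + 1) ×ˢ Finset.range (N + 1)).filter
      (fun y => 1 ≤ y.1 ∧ 1 ≤ y.2 ∧ y.1 + y.2 ≤ N),
      if e = y.1 + y.2 + 2 then muG (y.1 ::ₘ y.2 ::ₘ 0) F (g - 1) else 0 := by
  have hz : ∀ a b : ℕ, a = 0 ∨ b = 0 → muG (a ::ₘ b ::ₘ 0) F (g - 1) = 0 := by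
    intro a b hab
    rcases hab with rfl | rfl
    · rw [tutG_zero, if_neg]
      rintro ⟨h, _⟩
      exact Multiset.cons_ne_zero h
    · rw [Multiset.cons_swap, tutG_zero, if_neg]
      rintro ⟨h, _⟩
      exact Multiset.cons_ne_zero h
  rw [NS, if_neg hg, ← Finset.sum_filter]
  symm
  apply Finset.sum_subset
  · intro y hy
    have h1 := (Finset.mem_filter.1 hy).2
    rw [Finset.HasAntidiagonal.mem_antidiagonal]
    omega
  · intro y hy hy2
    rw [Finset.HasAntidiagonal.mem_antidiagonal] at hy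
    apply hz
    by_contra hc
    rw [not_or] at hc
    apply hy2
    rw [Finset.mem_filter, Finset.mem_filter, Finset.mem_product, Finset.mem_range,
      Finset.mem_range]
    omega

theorem ns_le (h : Par θ x) : ∃ C δ : ℝ, 0 < C ∧ 0 < δ ∧ ∀ᶠ p in Fth θ, ∀ (N : ℕ) (S : Finset (List Stp)),
    (N : ℝ) + 3 ≤ δ * p.1 → (∀ w ∈ S, WOk 3 w ∧ w.length < N ∧ wvol w ≤ 2 * p.1 - 1) →
      ∑ w ∈ S, wwt 1 W w * NS (wend 3 w) 0 (2 * p.1 - 1 - wvol w) p.2 ≤ C * ((N : ℝ) + 3) ^ 2 * SST.nu p.1 p.2 := by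
  obtain ⟨C, δ, M, hC, hδ, hcoll⟩ := coll_rev h
  refine ⟨12 * C * (|UP.chi x| + 1), δ, by positivity, hδ, ?_⟩
  have h1 := (UP.nu_rat_g h).eventually_lt_const
    (show UP.chi x < |UP.chi x| + 1 by linarith [le_abs_self (UP.chi x)])
  have h2 : ∀ᶠ p in Fth θ, dist (((p : ℕ × ℕ).2 : ℝ) / (p.1 : ℝ)) θ < δ / 2 :=
    Metric.tendsto_nhds.mp (RB.div_lim θ) (δ / 2) (by linarith)
  have h3 : ∀ᶠ p in Fth θ, max M 1 ≤ (p : ℕ × ℕ).1 := RB.ge_ev θ (max M 1)
  have h4 : ∀ᶠ p in Fth θ, 2 / δ + 1 ≤ ((p : ℕ × ℕ).1 : ℝ) :=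
    (RB.fst_atTop θ).eventually_ge_atTop (2 / δ + 1)
  filter_upwards [h1, UP.nu_pos_ev h, h2, h3, h4] with p q1 q2 q3 q4 q5
  intro N S hN hS
  have hp1 : 1 ≤ p.1 := (le_max_right _ _).trans q4
  have hpM : M ≤ p.1 := (le_max_left _ _).trans q4
  have hp1' : (1 : ℝ) ≤ (p.1 : ℝ) := by exact_mod_cast hp1
  have hp0 : (0 : ℝ) < (p.1 : ℝ) := by linarith
  have hch : 0 ≤ |UP.chi x| := abs_nonneg _
  rcases Nat.eq_zero_or_pos p.2 with hg | hg
  · have hz : ∑ w ∈ S, wwt 1 W w * NS (wend 3 w) 0 (2 * p.1 - 1 - wvol w) p.2 = 0 :=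
      Finset.sum_eq_zero (fun w _ => by rw [NS, if_pos hg, mul_zero])
    rw [hz]
    exact mul_nonneg (by positivity) q2.le
  · have hend : ∀ w ∈ S, wend 3 w ≤ N + 2 := by
      intro w hw
      have e1 := wend_len (p := 3) w
      have e2 := (hS w hw).2.1
      omega
    have hcast : ((2 * p.1 - 1 : ℕ) : ℝ) = 2 * (p.1 : ℝ) - 1 := by
      rw [Nat.cast_sub (by omega)]
      push_cast
      ring
    have hcg : ((p.2 - 1 : ℕ) : ℝ) = (p.2 : ℝ) - 1 := by
      rw [Nat.cast_sub (by omega)]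
      push_cast
      ring
    have hwin : ∀ e : ℕ, 1 ≤ e → e ≤ N + 2 → Win θ δ M (e ::ₘ 0) (2 * p.1 - 1) (p.2 - 1) := by
      intro e he1 he2
      refine ⟨by omega, ?_, ?_, ?_⟩
      · rw [hcast, hcg]
        rw [Real.dist_eq, abs_lt] at q3
        have r1 : (p.2 : ℝ) - θ * p.1 < δ / 2 * p.1 := by
          have := mul_lt_mul_of_pos_right q3.2 hp0
          rw [sub_mul, div_mul_cancel₀ _ hp0.ne'] at this
          exact this
        have r2 : -(δ / 2 * (p.1 : ℝ)) < (p.2 : ℝ) - θ * p.1 := by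
          have := mul_lt_mul_of_pos_right q3.1 hp0
          rw [sub_mul, div_mul_cancel₀ _ hp0.ne'] at this
          linarith
        have r3 : 2 + δ ≤ δ * p.1 := by
          have := mul_le_mul_of_nonneg_left q5 hδ.le
          rw [mul_add, mul_div_cancel₀ _ hδ.ne'] at this
          linarith
        have hθ1 := h.1
        have hθ2 := h.2.1
        rw [abs_le]
        constructor <;> nlinarith
      · rw [Multiset.sum_cons, Multiset.sum_zero, add_zero, hcast]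
        have r1 : (e : ℝ) ≤ N + 2 := by exact_mod_cast he2
        have r2 : δ * (p.1 : ℝ) ≤ δ * (2 * p.1 - 1) := mul_le_mul_of_nonneg_left (by linarith) hδ.le
        linarith
      · intro q hq
        rw [Multiset.mem_cons] at hq
        rcases hq with rfl | hq
        · exact he1
        · exact absurd hq (Multiset.notMem_zero _)
    obtain ⟨P, hP⟩ : ∃ P : Finset (ℕ × ℕ), P = (Finset.range (N + 1) ×ˢ Finset.range (N + 1)).filter
      (fun y => 1 ≤ y.1 ∧ 1 ≤ y.2 ∧ y.1 + y.2 ≤ N) := ⟨_, rfl⟩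
    have hPc : (P.card : ℝ) ≤ ((N : ℝ) + 3) ^ 2 := by
      have e1 : P.card ≤ (N + 1) * (N + 1) := by
        rw [hP]
        refine (Finset.card_filter_le _ _).trans ?_
        rw [Finset.card_product, Finset.card_range]
      have e2 : (P.card : ℝ) ≤ ((N : ℝ) + 1) * (N + 1) := by exact_mod_cast e1
      have e3 : (0 : ℝ) ≤ N := Nat.cast_nonneg N
      nlinarith
    have hnn := RB.nu_nn p.1 (p.2 - 1)
    have hmain : ∑ w ∈ S, wwt 1 W w * NS (wend 3 w) 0 (2 * p.1 - 1 - wvol w) p.2 ≤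
        ∑ _y ∈ P, C * ((2 * p.1 - 1 : ℕ) : ℝ) * muG (3 ::ₘ 0) (2 * p.1 - 1) (p.2 - 1) := by
      calc ∑ w ∈ S, wwt 1 W w * NS (wend 3 w) 0 (2 * p.1 - 1 - wvol w) p.2
          = ∑ w ∈ S, ∑ y ∈ P, (if wend 3 w = y.1 + y.2 + 2 then
              wwt 1 W w * muG (y.1 ::ₘ y.2 ::ₘ 0) (2 * p.1 - 1 - wvol w) (p.2 - 1) else 0) := by
            refine Finset.sum_congr rfl (fun w hw => ?_)
            rw [ns_eq _ _ _ N (hend w hw) (by omega), Finset.mul_sum, hP]
            refine Finset.sum_congr rfl (fun y _ => ?_)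
            rw [mul_ite, mul_zero]
        _ = ∑ y ∈ P, ∑ w ∈ S.filter (fun w => wend 3 w = y.1 + y.2 + 2),
              wwt 1 W w * muG (y.1 ::ₘ y.2 ::ₘ 0) (2 * p.1 - 1 - wvol w) (p.2 - 1) := by
            rw [Finset.sum_comm]
            refine Finset.sum_congr rfl (fun y _ => ?_)
            rw [Finset.sum_filter]
        _ ≤ _ := by
            refine Finset.sum_le_sum (fun y hy => ?_)
            rw [hP] at hy
            obtain ⟨y1, y2, y3⟩ := (Finset.mem_filter.1 hy).2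
            refine hcoll 0 (2 * p.1 - 1) (p.2 - 1) 3 y.1 y.2 _ (by norm_num) (by omega) y1 y2
              (hwin _ (by omega) (by omega)) ?_
            intro w hw
            obtain ⟨w1, w2⟩ := Finset.mem_filter.1 hw
            exact ⟨(hS w w1).1, w2, (hS w w1).2.2⟩
    have hsrc : muG (3 ::ₘ 0) (2 * p.1 - 1) (p.2 - 1) = 6 * p.1 * SST.nu p.1 (p.2 - 1) :=
      src3 hp1 (p.2 - 1)
    rw [Finset.sum_const, nsmul_eq_mul, hsrc, hcast] at hmain
    rw [div_lt_iff₀ q2] at q1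
    have hq : C * (2 * (p.1 : ℝ) - 1) * (6 * p.1 * SST.nu p.1 (p.2 - 1)) ≤
        12 * C * (|UP.chi x| + 1) * SST.nu p.1 p.2 := by
      calc C * (2 * (p.1 : ℝ) - 1) * (6 * p.1 * SST.nu p.1 (p.2 - 1))
          ≤ C * (2 * (p.1 : ℝ)) * (6 * p.1 * SST.nu p.1 (p.2 - 1)) :=
            mul_le_mul_of_nonneg_right (mul_le_mul_of_nonneg_left (by linarith) hC.le)
              (by positivity)
        _ = 12 * C * ((p.1 : ℝ) ^ 2 * SST.nu p.1 (p.2 - 1)) := by ring
        _ ≤ 12 * C * ((|UP.chi x| + 1) * SST.nu p.1 p.2) :=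
            mul_le_mul_of_nonneg_left q1.le (by positivity)
        _ = 12 * C * (|UP.chi x| + 1) * SST.nu p.1 p.2 := by ring
    refine hmain.trans ?_
    calc (P.card : ℝ) * (C * (2 * (p.1 : ℝ) - 1) * (6 * p.1 * SST.nu p.1 (p.2 - 1)))
        ≤ (P.card : ℝ) * (12 * C * (|UP.chi x| + 1) * SST.nu p.1 p.2) :=
          mul_le_mul_of_nonneg_left hq (Nat.cast_nonneg _)
      _ ≤ ((N : ℝ) + 3) ^ 2 * (12 * C * (|UP.chi x| + 1) * SST.nu p.1 p.2) :=
          mul_le_mul_of_nonneg_right hPc (mul_nonneg (by positivity) q2.le)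
      _ = 12 * C * (|UP.chi x| + 1) * ((N : ℝ) + 3) ^ 2 * SST.nu p.1 p.2 := by ring

end SYS.GW
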