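import Pool.Agent.SYS.GW.NumNS
import Pool.Agent.SYS.SL.Oth

/-!
# SYSS-GRW-NumSep: separations after less than `N` steps from a source
-/

namespace SYS.GW

open Classical SST SYS.Num Filter

variable {θ x : ℝ}

/-- One hole, positive genus. -/
private noncomputable def m1 (k F g : ℕ) : ℝ := if g = 0 then 0 else muG (k ::ₘ 0) F g

/-- Pairs. -/
private noncomputable def PP (a b F g : ℕ) : ℝ :=
  ∑ y ∈ Finset.HasAntidiagonal.antidiagonal F, ∑ z ∈ Finset.HasAntidiagonal.antidiagonal g, m1 a y.1 z.1 * m1 b y.2 z.2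

private theorem m1_nn (k F g : ℕ) : 0 ≤ m1 k F g := by
  unfold m1
  split_ifs
  · exact le_rfl
  · exact muG_nonneg _ _ _

private theorem m1_zero (F g : ℕ) : m1 0 F g = 0 := by
  unfold m1
  by_cases h : g = 0
  · rw [if_pos h]
  · rw [if_neg h, tutG_zero, if_neg (fun h1 => h h1.2.2)]

private theorem m1_one {k : ℕ} (hk : 1 ≤ k) (F g : ℕ) : m1 k F g ≤ m1 (k + 1) (F + 1) g := by
  unfold m1
  split_ifs
  · exact le_rfl
  · exact one k hk 0 F g

private theorem m1_two (k F g : ℕ) : m1 k F g ≤ m1 (k + 2) F g := by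
  unfold m1
  split_ifs
  · exact le_rfl
  · exact two k 0 F g

private theorem m1_step {k : ℕ} (hk : 1 ≤ k) (F g : ℕ) : m1 k F g ≤ m1 k (F + 2) g := by
  unfold m1
  split_ifs
  · exact le_rfl
  · exact step k hk 0 F g

private theorem pf_len {S : Finset (List Stp)} {j : ℕ} (h : ∀ w ∈ S, w.length = j) : PF S := by
  intro u hu w hw huw
  exact huw.eq_of_length ((h u hu).trans (h w hw).symm)

/-- Words of bounded length. -/
private theorem m1_hist {p a N : ℕ} (hp : 1 ≤ p) (S : Finset (List Stp))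
    (hS : ∀ w ∈ S, WOk p w ∧ wend p w = a ∧ w.length < N) (G g : ℕ) :
    ∑ w ∈ S, (if wvol w ≤ G then wwt 1 W w * m1 a (G - wvol w) g else 0) ≤ N * m1 p G g := by
  rw [← Finset.sum_fiberwise_of_maps_to (g := List.length) (t := Finset.range N)
    (fun w hw => Finset.mem_range.2 (hS w hw).2.2)]
  have key : ∀ j ∈ Finset.range N, ∑ w ∈ S.filter (fun w => w.length = j),
      (if wvol w ≤ G then wwt 1 W w * m1 a (G - wvol w) g else 0) ≤ m1 p G g := by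
    intro j _
    by_cases hg : g = 0
    · refine le_trans (le_of_eq ?_) (m1_nn p G g)
      refine Finset.sum_eq_zero fun w _ => ?_
      split_ifs
      · unfold m1
        rw [if_pos hg, mul_zero]
      · rfl
    rw [← Finset.sum_filter]
    have h1 := hist p hp 0 G g (Or.inr hg) ((S.filter (fun w => w.length = j)).filter fun w => wvol w ≤ G)
      (pf_len (j := j) fun w hw => (Finset.mem_filter.1 (Finset.mem_filter.1 hw).1).2)
      (fun w hw => ⟨(hS w (Finset.mem_filter.1 (Finset.mem_filter.1 hw).1).1).1, (Finset.mem_filter.1 hw).2⟩)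
    unfold m1
    rw [if_neg hg]
    refine le_trans (le_of_eq ?_) h1
    refine Finset.sum_congr rfl fun w hw => ?_
    rw [if_neg hg, (hS w (Finset.mem_filter.1 (Finset.mem_filter.1 hw).1).1).2.1]
  calc _ ≤ ∑ _j ∈ Finset.range N, m1 p G g := Finset.sum_le_sum key
    _ = N * m1 p G g := by rw [Finset.sum_const, Finset.card_range, nsmul_eq_mul]

private theorem PP_nn (a b F g : ℕ) : 0 ≤ PP a b F g :=
  Finset.sum_nonneg fun _ _ => Finset.sum_nonneg fun _ _ => mul_nonneg (m1_nn _ _ _) (m1_nn _ _ _)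

private theorem PP_comm (a b F g : ℕ) : PP a b F g = PP b a F g := by
  unfold PP
  rw [← Finset.Nat.sum_antidiagonal_swap]
  refine Finset.sum_congr rfl fun y _ => ?_
  rw [← Finset.Nat.sum_antidiagonal_swap]
  refine Finset.sum_congr rfl fun z _ => ?_
  exact mul_comm _ _

private theorem PP_zero_left (b F g : ℕ) : PP 0 b F g = 0 :=
  Finset.sum_eq_zero fun _ _ => Finset.sum_eq_zero fun _ _ => by rw [m1_zero, zero_mul]

private theorem PP_zero_right (a F g : ℕ) : PP a 0 F g = 0 := by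
  rw [PP_comm]
  exact PP_zero_left a F g

private theorem PP_mono {a b a' b' : ℕ} (ha : ∀ F g, m1 a F g ≤ m1 a' F g)
    (hb : ∀ F g, m1 b F g ≤ m1 b' F g) (F g : ℕ) : PP a b F g ≤ PP a' b' F g :=
  Finset.sum_le_sum fun _ _ => Finset.sum_le_sum fun _ _ =>
    mul_le_mul (ha _ _) (hb _ _) (m1_nn _ _ _) (m1_nn _ _ _)

/-- Shift of the numbers of triangles. -/
private theorem anti_shift (φ : ℕ → ℕ → ℝ) (hφ : ∀ a b, 0 ≤ φ a b) (u v F : ℕ) :
    ∑ y ∈ Finset.HasAntidiagonal.antidiagonal F, φ (y.1 + u) (y.2 + v) ≤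
      ∑ y ∈ Finset.HasAntidiagonal.antidiagonal (F + u + v), (if u ≤ y.1 ∧ v ≤ y.2 then φ y.1 y.2 else 0) := by
  rw [← Finset.sum_filter]
  have h1 : ∑ y ∈ Finset.HasAntidiagonal.antidiagonal F, φ (y.1 + u) (y.2 + v) =
      ∑ y ∈ (Finset.HasAntidiagonal.antidiagonal F).image (fun y => (y.1 + u, y.2 + v)), φ y.1 y.2 := by
    rw [Finset.sum_image]
    intro y _ z _ hyz
    simp only [Prod.mk.injEq] at hyz
    exact Prod.ext (by omega) (by omega)
  rw [h1]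
  refine Finset.sum_le_sum_of_subset_of_nonneg ?_ fun _ _ _ => hφ _ _
  intro y hy
  obtain ⟨z, hz, rfl⟩ := Finset.mem_image.1 hy
  have hz' := Finset.HasAntidiagonal.mem_antidiagonal.1 hz
  refine Finset.mem_filter.2 ⟨Finset.HasAntidiagonal.mem_antidiagonal.2 ?_, ?_⟩
  · show z.1 + u + (z.2 + v) = F + u + v
    omega
  · exact ⟨Nat.le_add_left _ _, Nat.le_add_left _ _⟩

private theorem PP_up {a b : ℕ} (ha : 1 ≤ a) (hb : 1 ≤ b) (F g : ℕ) :
    PP a b F g ≤ PP (a + 1) (b + 1) (F + 2) g := by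
  have hnn : ∀ s t : ℕ, 0 ≤ ∑ z ∈ Finset.HasAntidiagonal.antidiagonal g, m1 (a + 1) s z.1 * m1 (b + 1) t z.2 :=
    fun s t => Finset.sum_nonneg fun _ _ => mul_nonneg (m1_nn _ _ _) (m1_nn _ _ _)
  calc PP a b F g ≤ ∑ y ∈ Finset.HasAntidiagonal.antidiagonal F, ∑ z ∈ Finset.HasAntidiagonal.antidiagonal g,
        m1 (a + 1) (y.1 + 1) z.1 * m1 (b + 1) (y.2 + 1) z.2 :=
        Finset.sum_le_sum fun _ _ => Finset.sum_le_sum fun _ _ =>
          mul_le_mul (m1_one ha _ _) (m1_one hb _ _) (m1_nn _ _ _) (m1_nn _ _ _)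
    _ ≤ ∑ y ∈ Finset.HasAntidiagonal.antidiagonal (F + 1 + 1), (if 1 ≤ y.1 ∧ 1 ≤ y.2 then
        ∑ z ∈ Finset.HasAntidiagonal.antidiagonal g, m1 (a + 1) y.1 z.1 * m1 (b + 1) y.2 z.2 else 0) :=
        anti_shift (fun s t => ∑ z ∈ Finset.HasAntidiagonal.antidiagonal g, m1 (a + 1) s z.1 * m1 (b + 1) t z.2) hnn 1 1 F
    _ ≤ PP (a + 1) (b + 1) (F + 2) g := by
        refine Finset.sum_le_sum fun y _ => ?_
        split_ifs
        · exact le_rfl
        · exact hnn _ _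

private theorem PP_step (F g : ℕ) : PP 3 1 F g ≤ PP 3 1 (F + 2) g := by
  have hnn : ∀ s t : ℕ, 0 ≤ ∑ z ∈ Finset.HasAntidiagonal.antidiagonal g, m1 3 s z.1 * m1 1 t z.2 :=
    fun s t => Finset.sum_nonneg fun _ _ => mul_nonneg (m1_nn _ _ _) (m1_nn _ _ _)
  calc PP 3 1 F g ≤ ∑ y ∈ Finset.HasAntidiagonal.antidiagonal F, ∑ z ∈ Finset.HasAntidiagonal.antidiagonal g,
        m1 3 (y.1 + 2) z.1 * m1 1 (y.2 + 0) z.2 :=
        Finset.sum_le_sum fun _ _ => Finset.sum_le_sum fun _ _ =>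
          mul_le_mul (m1_step (by norm_num) _ _) le_rfl (m1_nn _ _ _) (m1_nn _ _ _)
    _ ≤ ∑ y ∈ Finset.HasAntidiagonal.antidiagonal (F + 2 + 0), (if 2 ≤ y.1 ∧ 0 ≤ y.2 then
        ∑ z ∈ Finset.HasAntidiagonal.antidiagonal g, m1 3 y.1 z.1 * m1 1 y.2 z.2 else 0) :=
        anti_shift (fun s t => ∑ z ∈ Finset.HasAntidiagonal.antidiagonal g, m1 3 s z.1 * m1 1 t z.2) hnn 2 0 F
    _ ≤ PP 3 1 (F + 2) g := by
        refine Finset.sum_le_sum fun y _ => ?_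
        split_ifs
        · exact le_rfl
        · exact hnn _ _

private theorem sep_PP (e F g : ℕ) : SEP e 0 F g = ∑ x ∈ Finset.HasAntidiagonal.antidiagonal (e - 2), PP x.1 x.2 F g := by
  unfold SEP PP
  refine Finset.sum_congr rfl fun x _ => Finset.sum_congr rfl fun y _ => Finset.sum_congr rfl fun z _ => ?_
  rw [SYS.A.conv_zero]
  unfold muN m1
  simp only [true_and]

private theorem PP_LL (F g : ℕ) : PP 3 1 F g = LL 1 {3} {1} F g := by
  unfold PP LL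
  refine Finset.sum_congr rfl fun y _ => Finset.sum_congr rfl fun z _ => ?_
  rw [Multiset.card_singleton, Multiset.card_singleton]
  unfold m1
  by_cases h1 : z.1 = 0
  · rw [if_pos h1, zero_mul, if_neg (fun h => by omega)]
  · by_cases h2 : z.2 = 0
    · rw [if_pos h2, mul_zero, if_neg (fun h => by omega)]
    · rw [if_neg h1, if_neg h2, if_pos (by omega)]
      rfl

/-- The main estimate. -/
private theorem core {a b N K g : ℕ} (ha : 3 ≤ a) (hb : 1 ≤ b) (S : Finset (List Stp))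
    (hS : ∀ w ∈ S, WOk 3 w ∧ wend 3 w = a + b ∧ w.length < N ∧ wvol w ≤ K + 1) :
    ∑ w ∈ S, wwt 1 W w * PP a b (K + 1 - wvol w) g ≤ (N : ℝ) ^ 2 * PP 3 1 K g := by
  have hex : ∀ w : List Stp, ∃ p : List Stp × List Stp, w ∈ S → w = p.1 ++ Stp.T :: p.2 ∧
      WOk 3 p.1 ∧ wend 3 p.1 = a ∧ WOk 1 p.2 ∧ wend 1 p.2 + a = a + b := by
    intro w
    by_cases hw : w ∈ S
    · obtain ⟨h1, h2, _⟩ := hS w hw
      obtain ⟨w₁, w₂, e1, e2, e3, e4, e5⟩ := last_visit h1 ha (by rw [h2]; omega)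
      exact ⟨(w₁, w₂), fun _ => ⟨e1, e2, e3, e4, by rw [e5, h2]⟩⟩
    · exact ⟨([], []), fun h => absurd h hw⟩
  choose c hc using hex
  obtain ⟨S₁, hS₁⟩ : ∃ S₁ : Finset (List Stp), S₁ = S.image fun w => (c w).1 := ⟨_, rfl⟩
  obtain ⟨S₂, hS₂⟩ : ∃ S₂ : Finset (List Stp), S₂ = S.image fun w => (c w).2 := ⟨_, rfl⟩
  have h1 : ∀ w ∈ S₁, WOk 3 w ∧ wend 3 w = a ∧ w.length < N := by
    intro w hw
    rw [hS₁] at hw
    obtain ⟨v, hv, rfl⟩ := Finset.mem_image.1 hw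
    obtain ⟨e1, e2, e3, _, _⟩ := hc v hv
    refine ⟨e2, e3, ?_⟩
    have h2 := (hS v hv).2.2.1
    rw [e1, List.length_append, List.length_cons] at h2
    omega
  have h2 : ∀ w ∈ S₂, WOk 1 w ∧ wend 1 w = b ∧ w.length < N := by
    intro w hw
    rw [hS₂] at hw
    obtain ⟨v, hv, rfl⟩ := Finset.mem_image.1 hw
    obtain ⟨e1, _, _, e4, e5⟩ := hc v hv
    refine ⟨e4, by omega, ?_⟩
    have h2 := (hS v hv).2.2.1
    rw [e1, List.length_append, List.length_cons] at h2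
    omega
  obtain ⟨H, hH⟩ : ∃ H : List Stp × List Stp → ℝ, H = fun p => if wvol p.1 + wvol p.2 ≤ K then
    wwt 1 W p.1 * (wwt 1 W p.2 * PP a b (K - (wvol p.1 + wvol p.2)) g) else 0 := ⟨_, rfl⟩
  have hw0 : ∀ w : List Stp, 0 ≤ wwt 1 W w := fun w => wwt_nonneg zero_le_one W_nonneg w
  have hH0 : ∀ p, 0 ≤ H p := by
    intro p
    rw [hH]
    dsimp only
    split_ifs
    · exact mul_nonneg (hw0 _) (mul_nonneg (hw0 _) (PP_nn _ _ _ _))
    · exact le_rfl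
  have h3 : ∑ w ∈ S, wwt 1 W w * PP a b (K + 1 - wvol w) g = ∑ w ∈ S, H (c w) := by
    refine Finset.sum_congr rfl fun w hw => ?_
    obtain ⟨e1, _⟩ := hc w hw
    have e2 : wvol w = wvol (c w).1 + (1 + wvol (c w).2) := by
      conv_lhs => rw [e1]
      rw [wvol_append, wvol_cons]
      rfl
    have e3 : wwt 1 W w = wwt 1 W (c w).1 * wwt 1 W (c w).2 := by
      conv_lhs => rw [e1]
      rw [wwt_append, wwt_cons]
      show _ * (1 * _) = _
      rw [one_mul]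
    have e4 := (hS w hw).2.2.2
    have e5 : K + 1 - wvol w = K - (wvol (c w).1 + wvol (c w).2) := by omega
    rw [hH]
    dsimp only
    rw [if_pos (by omega), e5, e3]
    ring
  have h4 : ∑ w ∈ S, H (c w) = ∑ p ∈ S.image c, H p := by
    rw [Finset.sum_image]
    intro v hv w hw hvw
    rw [(hc v hv).1, (hc w hw).1, hvw]
  have h5 : ∑ p ∈ S.image c, H p ≤ ∑ p ∈ S₁ ×ˢ S₂, H p := by
    refine Finset.sum_le_sum_of_subset_of_nonneg ?_ fun p _ _ => hH0 p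
    intro p hp
    obtain ⟨w, hw, rfl⟩ := Finset.mem_image.1 hp
    rw [hS₁, hS₂]
    exact Finset.mem_product.2 ⟨Finset.mem_image_of_mem _ hw, Finset.mem_image_of_mem _ hw⟩
  -- the two words separately
  obtain ⟨A, hA⟩ : ∃ A : List Stp → ℕ → ℕ → ℝ, A = fun w G g₁ =>
    if wvol w ≤ G then wwt 1 W w * m1 a (G - wvol w) g₁ else 0 := ⟨_, rfl⟩
  obtain ⟨B, hB⟩ : ∃ B : List Stp → ℕ → ℕ → ℝ, B = fun w G g₁ =>
    if wvol w ≤ G then wwt 1 W w * m1 b (G - wvol w) g₁ else 0 := ⟨_, rfl⟩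
  have hA0 : ∀ w G g₁, 0 ≤ A w G g₁ := by
    intro w G g₁
    rw [hA]
    dsimp only
    split_ifs
    · exact mul_nonneg (hw0 _) (m1_nn _ _ _)
    · exact le_rfl
  have hB0 : ∀ w G g₁, 0 ≤ B w G g₁ := by
    intro w G g₁
    rw [hB]
    dsimp only
    split_ifs
    · exact mul_nonneg (hw0 _) (m1_nn _ _ _)
    · exact le_rfl
  have h6 : ∀ p : List Stp × List Stp, H p ≤ ∑ G ∈ Finset.HasAntidiagonal.antidiagonal K, ∑ z ∈ Finset.HasAntidiagonal.antidiagonal g,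
      A p.1 G.1 z.1 * B p.2 G.2 z.2 := by
    intro p
    by_cases hp : wvol p.1 + wvol p.2 ≤ K
    · rw [hH]
      dsimp only
      rw [if_pos hp]
      have e1 := anti_shift (fun s t => ∑ z ∈ Finset.HasAntidiagonal.antidiagonal g, A p.1 s z.1 * B p.2 t z.2)
        (fun s t => Finset.sum_nonneg fun _ _ => mul_nonneg (hA0 _ _ _) (hB0 _ _ _))
        (wvol p.1) (wvol p.2) (K - (wvol p.1 + wvol p.2))
      have e2 : K - (wvol p.1 + wvol p.2) + wvol p.1 + wvol p.2 = K := by omega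
      rw [e2] at e1
      refine le_trans (le_of_eq ?_) (e1.trans ?_)
      · unfold PP
        rw [Finset.mul_sum, Finset.mul_sum]
        refine Finset.sum_congr rfl fun y _ => ?_
        rw [Finset.mul_sum, Finset.mul_sum]
        refine Finset.sum_congr rfl fun z _ => ?_
        rw [hA, hB]
        dsimp only
        rw [if_pos (Nat.le_add_left _ _), if_pos (Nat.le_add_left _ _), Nat.add_sub_cancel, Nat.add_sub_cancel]
        ring
      · refine Finset.sum_le_sum fun y _ => ?_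
        split_ifs
        · exact le_rfl
        · exact Finset.sum_nonneg fun _ _ => mul_nonneg (hA0 _ _ _) (hB0 _ _ _)
    · have : H p = 0 := by
        rw [hH]
        dsimp only
        rw [if_neg hp]
      rw [this]
      exact Finset.sum_nonneg fun _ _ => Finset.sum_nonneg fun _ _ => mul_nonneg (hA0 _ _ _) (hB0 _ _ _)
  have h7 : ∑ p ∈ S₁ ×ˢ S₂, H p ≤ ∑ G ∈ Finset.HasAntidiagonal.antidiagonal K, ∑ z ∈ Finset.HasAntidiagonal.antidiagonal g,
      (∑ w ∈ S₁, A w G.1 z.1) * (∑ w ∈ S₂, B w G.2 z.2) := by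
    calc _ ≤ ∑ p ∈ S₁ ×ˢ S₂, ∑ G ∈ Finset.HasAntidiagonal.antidiagonal K, ∑ z ∈ Finset.HasAntidiagonal.antidiagonal g,
          A p.1 G.1 z.1 * B p.2 G.2 z.2 := Finset.sum_le_sum fun p _ => h6 p
      _ = ∑ G ∈ Finset.HasAntidiagonal.antidiagonal K, ∑ p ∈ S₁ ×ˢ S₂, ∑ z ∈ Finset.HasAntidiagonal.antidiagonal g,
          A p.1 G.1 z.1 * B p.2 G.2 z.2 := Finset.sum_comm
      _ = _ := by
          refine Finset.sum_congr rfl fun G _ => ?_
          rw [Finset.sum_comm]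
          refine Finset.sum_congr rfl fun z _ => ?_
          rw [Finset.sum_product, Finset.sum_mul_sum]
  have h8 : ∀ G ∈ Finset.HasAntidiagonal.antidiagonal K, ∀ z ∈ Finset.HasAntidiagonal.antidiagonal g,
      (∑ w ∈ S₁, A w G.1 z.1) * (∑ w ∈ S₂, B w G.2 z.2) ≤ (N : ℝ) ^ 2 * (m1 3 G.1 z.1 * m1 1 G.2 z.2) := by
    intro G _ z _
    have e1 : ∑ w ∈ S₁, A w G.1 z.1 ≤ N * m1 3 G.1 z.1 := by
      rw [hA]
      exact m1_hist (by norm_num) S₁ h1 G.1 z.1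
    have e2 : ∑ w ∈ S₂, B w G.2 z.2 ≤ N * m1 1 G.2 z.2 := by
      rw [hB]
      exact m1_hist le_rfl S₂ h2 G.2 z.2
    refine (mul_le_mul e1 e2 (Finset.sum_nonneg fun _ _ => hB0 _ _ _)
      (mul_nonneg (Nat.cast_nonneg _) (m1_nn _ _ _))).trans (le_of_eq ?_)
    ring
  rw [h3, h4]
  refine h5.trans (h7.trans ?_)
  unfold PP
  rw [Finset.mul_sum]
  refine Finset.sum_le_sum fun G hG => ?_
  rw [Finset.mul_sum]
  exact Finset.sum_le_sum fun z hz => h8 G hG z hz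

/-- One pair of perimeters. -/
private theorem pair_le {q₁ q₂ n N g : ℕ} (hn : 1 ≤ n) (h₁ : 1 ≤ q₁) (h₂ : 1 ≤ q₂) (S : Finset (List Stp))
    (hS : ∀ w ∈ S, WOk 3 w ∧ wend 3 w = q₁ + q₂ + 2 ∧ w.length < N ∧ wvol w ≤ 2 * n - 1) :
    ∑ w ∈ S, wwt 1 W w * PP q₁ q₂ (2 * n - 1 - wvol w) g ≤ (N : ℝ) ^ 2 * PP 3 1 (2 * n) g := by
  have hw0 : ∀ w : List Stp, 0 ≤ wwt 1 W w := fun w => wwt_nonneg zero_le_one W_nonneg w
  have main : ∀ a b : ℕ, 2 ≤ a → 1 ≤ b → a + b = q₁ + q₂ →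
      ∑ w ∈ S, wwt 1 W w * PP a b (2 * n - 1 - wvol w) g ≤ (N : ℝ) ^ 2 * PP 3 1 (2 * n) g := by
    intro a b ha hb hab
    refine le_trans ?_ (core (a := a + 1) (b := b + 1) (N := N) (K := 2 * n) (g := g) (by omega) (by omega) S
      fun w hw => ?_)
    · refine Finset.sum_le_sum fun w hw => mul_le_mul_of_nonneg_left ?_ (hw0 w)
      have e1 := (hS w hw).2.2.2
      have e2 : 2 * n + 1 - wvol w = 2 * n - 1 - wvol w + 2 := by omega
      rw [e2]
      exact PP_up (by omega) hb _ _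
    · obtain ⟨e1, e2, e3, e4⟩ := hS w hw
      exact ⟨e1, by omega, e3, by omega⟩
  rcases Nat.lt_or_ge q₁ 2 with h3 | h3
  · rcases Nat.lt_or_ge q₂ 2 with h4 | h4
    · have e1 : q₁ = 1 := by omega
      have e2 : q₂ = 1 := by omega
      subst e1 e2
      obtain ⟨m, rfl⟩ : ∃ m, n = m + 1 := ⟨n - 1, by omega⟩
      have e3 := core (a := 3) (b := 1) (N := N) (K := 2 * m) (g := g) le_rfl le_rfl S fun w hw => by
        obtain ⟨e1, e2, e3, e4⟩ := hS w hw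
        exact ⟨e1, by omega, e3, by omega⟩
      calc _ ≤ ∑ w ∈ S, wwt 1 W w * PP 3 1 (2 * m + 1 - wvol w) g := by
            refine Finset.sum_le_sum fun w hw => mul_le_mul_of_nonneg_left ?_ (hw0 w)
            have e4 : 2 * (m + 1) - 1 - wvol w = 2 * m + 1 - wvol w := by omega
            rw [e4]
            exact PP_mono (fun F g => m1_two 1 F g) (fun _ _ => le_rfl) _ _
        _ ≤ (N : ℝ) ^ 2 * PP 3 1 (2 * m) g := e3
        _ ≤ (N : ℝ) ^ 2 * PP 3 1 (2 * (m + 1)) g :=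
            mul_le_mul_of_nonneg_left (PP_step (2 * m) g) (by positivity)
    · have e1 := main q₂ q₁ h4 h₁ (by omega)
      refine le_trans (le_of_eq ?_) e1
      exact Finset.sum_congr rfl fun w _ => by rw [PP_comm]
  · exact main q₁ q₂ h3 h₂ rfl

private theorem sep_all {n N g : ℕ} (hn : 1 ≤ n) (S : Finset (List Stp))
    (hS : ∀ w ∈ S, WOk 3 w ∧ w.length < N ∧ wvol w ≤ 2 * n - 1) :
    ∑ w ∈ S, wwt 1 W w * SEP (wend 3 w) 0 (2 * n - 1 - wvol w) g ≤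
      ((N : ℝ) + 3) ^ 4 * PP 3 1 (2 * n) g := by
  have hw0 : ∀ w : List Stp, 0 ≤ wwt 1 W w := fun w => wwt_nonneg zero_le_one W_nonneg w
  have hP := PP_nn 3 1 (2 * n) g
  have e1 : ∀ w ∈ S, wwt 1 W w * SEP (wend 3 w) 0 (2 * n - 1 - wvol w) g ≤
      ∑ q ∈ Finset.Icc 1 (N + 2) ×ˢ Finset.Icc 1 (N + 2),
        (if wend 3 w = q.1 + q.2 + 2 then wwt 1 W w * PP q.1 q.2 (2 * n - 1 - wvol w) g else 0) := by
    intro w hw
    obtain ⟨h1, h2, _⟩ := hS w hw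
    have h3 := wend_len (p := 3) w
    rw [sep_PP, Finset.mul_sum, ← Finset.sum_filter]
    have h4 : ∑ q ∈ Finset.HasAntidiagonal.antidiagonal (wend 3 w - 2), wwt 1 W w * PP q.1 q.2 (2 * n - 1 - wvol w) g =
        ∑ q ∈ (Finset.HasAntidiagonal.antidiagonal (wend 3 w - 2)).filter (fun q => 1 ≤ q.1 ∧ 1 ≤ q.2),
          wwt 1 W w * PP q.1 q.2 (2 * n - 1 - wvol w) g := by
      rw [Finset.sum_filter_of_ne]
      intro q _ hq
      constructor
      · by_contra h5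
        have h6 : q.1 = 0 := by omega
        rw [h6, PP_zero_left, mul_zero] at hq
        exact hq rfl
      · by_contra h5
        have h6 : q.2 = 0 := by omega
        rw [h6, PP_zero_right, mul_zero] at hq
        exact hq rfl
    rw [h4]
    refine Finset.sum_le_sum_of_subset_of_nonneg ?_ fun _ _ _ => mul_nonneg (hw0 _) (PP_nn _ _ _ _)
    intro q hq
    obtain ⟨h5, h6, h7⟩ := Finset.mem_filter.1 hq
    have h8 := Finset.HasAntidiagonal.mem_antidiagonal.1 h5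
    refine Finset.mem_filter.2 ⟨Finset.mem_product.2 ⟨Finset.mem_Icc.2 ⟨h6, by omega⟩,
      Finset.mem_Icc.2 ⟨h7, by omega⟩⟩, by omega⟩
  refine (Finset.sum_le_sum e1).trans ?_
  rw [Finset.sum_comm]
  have e2 : ∀ q ∈ Finset.Icc 1 (N + 2) ×ˢ Finset.Icc 1 (N + 2),
      ∑ w ∈ S, (if wend 3 w = q.1 + q.2 + 2 then wwt 1 W w * PP q.1 q.2 (2 * n - 1 - wvol w) g else 0) ≤
        (N : ℝ) ^ 2 * PP 3 1 (2 * n) g := by
    intro q hq
    obtain ⟨h1, h2⟩ := Finset.mem_product.1 hq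
    rw [← Finset.sum_filter]
    refine pair_le hn (Finset.mem_Icc.1 h1).1 (Finset.mem_Icc.1 h2).1 _ fun w hw => ?_
    obtain ⟨h3, h4⟩ := Finset.mem_filter.1 hw
    obtain ⟨h5, h6, h7⟩ := hS w h3
    exact ⟨h5, h4, h6, h7⟩
  refine (Finset.sum_le_card_nsmul _ _ _ e2).trans ?_
  rw [Finset.card_product, Nat.card_Icc, nsmul_eq_mul]
  have h1 : N + 2 + 1 - 1 = N + 2 := by omega
  rw [h1]
  push_cast
  have hN : (0 : ℝ) ≤ N := Nat.cast_nonneg N
  have h2 : ((N : ℝ) + 2) * ((N : ℝ) + 2) ≤ ((N : ℝ) + 3) ^ 2 := by nlinarith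
  have h3 : (N : ℝ) ^ 2 ≤ ((N : ℝ) + 3) ^ 2 := by nlinarith
  calc ((N : ℝ) + 2) * ((N : ℝ) + 2) * ((N : ℝ) ^ 2 * PP 3 1 (2 * n) g)
      ≤ ((N : ℝ) + 3) ^ 2 * (((N : ℝ) + 3) ^ 2 * PP 3 1 (2 * n) g) :=
        mul_le_mul h2 (mul_le_mul_of_nonneg_right h3 hP) (by positivity) (by positivity)
    _ = ((N : ℝ) + 3) ^ 4 * PP 3 1 (2 * n) g := by ring

theorem sep_le (h : Par θ x) : ∃ C δ : ℝ, 0 < C ∧ 0 < δ ∧ ∀ᶠ p in Fth θ, ∀ (N : ℕ) (S : Finset (List Stp)),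
    (N : ℝ) + 3 ≤ δ * p.1 → (∀ w ∈ S, WOk 3 w ∧ w.length < N ∧ wvol w ≤ 2 * p.1 - 1) →
      ∑ w ∈ S, wwt 1 W w * SEP (wend 3 w) 0 (2 * p.1 - 1 - wvol w) p.2 ≤ C * ((N : ℝ) + 3) ^ 4 * SST.nu p.1 p.2 := by
  obtain ⟨K, δ, M, hK, hδ, H⟩ := oth_le h one_pos
  have hgam : 0 < gam x := by
    unfold gam
    have h1 := AA_gt x
    exact div_pos (by linarith) (Real.sqrt_pos.2 (yy_pos x))
  refine ⟨K * Real.exp (1 * (4 : ℕ)) * gam x ^ 4, 1, by positivity, one_pos, ?_⟩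
  obtain ⟨M', hM'⟩ := exists_nat_ge (6 / (2 * δ))
  have hlim : ∀ᶠ p : ℕ × ℕ in Fth θ, |(p.2 : ℝ) / p.1 - θ| < δ := by
    have h1 := Metric.tendsto_nhds.1 (SYS.RB.div_lim θ) δ hδ
    filter_upwards [h1] with p hp
    rwa [Real.dist_eq] at hp
  filter_upwards [SYS.RB.ge_ev θ (M + M' + 1), hlim] with p hp1 hp2
  intro N S _ hS
  have hn : 1 ≤ p.1 := by omega
  have hn0 : (0 : ℝ) < p.1 := by exact_mod_cast hn
  have hwin : Win θ δ M {4 + 2} (2 * p.1) p.2 := by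
    refine ⟨by omega, ?_, ?_, ?_⟩
    · have h1 : 2 * (p.2 : ℝ) - θ * ((2 * p.1 : ℕ) : ℝ) = (2 * p.1) * ((p.2 : ℝ) / p.1 - θ) := by
        push_cast
        field_simp
      rw [h1, abs_mul, abs_of_pos (by positivity)]
      push_cast
      have h2 : (2 * (p.1 : ℝ)) * |(p.2 : ℝ) / p.1 - θ| ≤ (2 * (p.1 : ℝ)) * δ :=
        mul_le_mul_of_nonneg_left hp2.le (by positivity)
      linarith
    · rw [Multiset.sum_singleton]
      have h1 : (M' : ℝ) ≤ p.1 := by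
        have : M' ≤ p.1 := by omega
        exact_mod_cast this
      have h2 : 6 / (2 * δ) ≤ p.1 := hM'.trans h1
      rw [div_le_iff₀ (by positivity)] at h2
      push_cast
      linarith
    · intro q hq
      rw [Multiset.mem_singleton] at hq
      omega
  have h1 := H 4 (2 * p.1) p.2 hwin
  have e1 : (2 * p.1 + 1) / 2 = p.1 := by omega
  rw [e1] at h1
  have h2 : LL 1 {3} {1} (2 * p.1) p.2 ≤ ∑ z ∈ Finset.HasAntidiagonal.antidiagonal 4, LL 1 {z.1} {z.2} (2 * p.1) p.2 := by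
    refine Finset.single_le_sum (f := fun z : ℕ × ℕ => LL 1 {z.1} {z.2} (2 * p.1) p.2) (a := (3, 1))
      (fun z _ => ?_) (Finset.HasAntidiagonal.mem_antidiagonal.2 rfl)
    unfold LL
    refine Finset.sum_nonneg fun _ _ => Finset.sum_nonneg fun _ _ => ?_
    split_ifs
    · exact mul_nonneg (muG_nonneg _ _ _) (muG_nonneg _ _ _)
    · exact le_rfl
  have h3 : 0 ≤ ∑ z ∈ Finset.HasAntidiagonal.antidiagonal 4, muG {z.1, z.2} (2 * p.1) (p.2 - 1) :=
    Finset.sum_nonneg fun _ _ => muG_nonneg _ _ _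
  have h4 : PP 3 1 (2 * p.1) p.2 ≤ K * Real.exp (1 * (4 : ℕ)) * gam x ^ 4 * SST.nu p.1 p.2 := by
    rw [PP_LL]
    linarith
  calc _ ≤ ((N : ℝ) + 3) ^ 4 * PP 3 1 (2 * p.1) p.2 := sep_all hn S hS
    _ ≤ ((N : ℝ) + 3) ^ 4 * (K * Real.exp (1 * (4 : ℕ)) * gam x ^ 4 * SST.nu p.1 p.2) :=
        mul_le_mul_of_nonneg_left h4 (by positivity)
    _ = _ := by ring

end SYS.GW
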