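import Pool.Agent.SYS.GW.Defs

/-!
# SYSS-GRW-NumW: the sums `VE`, `VV` as sums over words
-/

namespace SYS.GW

open Classical SST SYS.Num

private lemma numw_letters (b p F : ℕ) : ∃ G : Finset Stp,
    (∀ s ∈ G, s.Ok p ∧ s.vol ≤ F ∧ Sml b s) ∧
      ∀ h : Stp → ℝ, ∑ s ∈ G, h s = (if F = 0 then 0 else h Stp.T) +
        ∑ k ∈ Finset.range (p - 2), ∑ a ∈ Finset.range (F + 1),
          if k + a < b then h (Stp.L k a) + h (Stp.R k a) else 0 := by
  obtain ⟨P, hP⟩ : ∃ P : Finset (ℕ × ℕ), P = (Finset.range (p - 2) ×ˢ Finset.range (F + 1)).filter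
    fun z => z.1 + z.2 < b := ⟨_, rfl⟩
  have hPm : ∀ z ∈ P, z.1 + 3 ≤ p ∧ z.2 ≤ F ∧ z.1 + z.2 < b := by
    intro z hz
    rw [hP, Finset.mem_filter, Finset.mem_product, Finset.mem_range, Finset.mem_range] at hz
    omega
  obtain ⟨G0, hG0⟩ : ∃ G0 : Finset Stp, G0 = if F = 0 then ∅ else {Stp.T} := ⟨_, rfl⟩
  have hG0m : ∀ s ∈ G0, s = Stp.T ∧ F ≠ 0 := by
    intro s hs
    rw [hG0] at hs
    by_cases hF : F = 0
    · rw [if_pos hF] at hs
      exact absurd hs (Finset.notMem_empty s)
    · rw [if_neg hF, Finset.mem_singleton] at hs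
      exact ⟨hs, hF⟩
  have hd1 : Disjoint (P.image fun z => Stp.L z.1 z.2) (P.image fun z => Stp.R z.1 z.2) := by
    rw [Finset.disjoint_left]
    intro s hs hs'
    obtain ⟨z, _, rfl⟩ := Finset.mem_image.1 hs
    obtain ⟨z', _, h⟩ := Finset.mem_image.1 hs'
    cases h
  have hd2 : Disjoint G0 ((P.image fun z => Stp.L z.1 z.2) ∪ (P.image fun z => Stp.R z.1 z.2)) := by
    rw [Finset.disjoint_left]
    intro s hs hs'
    obtain ⟨rfl, _⟩ := hG0m s hs
    rcases Finset.mem_union.1 hs' with h | h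
    · obtain ⟨z', _, h⟩ := Finset.mem_image.1 h
      cases h
    · obtain ⟨z', _, h⟩ := Finset.mem_image.1 h
      cases h
  refine ⟨G0 ∪ ((P.image fun z => Stp.L z.1 z.2) ∪ (P.image fun z => Stp.R z.1 z.2)), fun s hs => ?_,
    fun h => ?_⟩
  · rcases Finset.mem_union.1 hs with hs | hs
    · obtain ⟨rfl, hF⟩ := hG0m s hs
      exact ⟨trivial, Nat.one_le_iff_ne_zero.2 hF, trivial⟩
    · rcases Finset.mem_union.1 hs with hs | hs
      · obtain ⟨z, hz, rfl⟩ := Finset.mem_image.1 hs
        exact hPm z hz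
      · obtain ⟨z, hz, rfl⟩ := Finset.mem_image.1 hs
        exact hPm z hz
  · rw [Finset.sum_union hd2, Finset.sum_union hd1]
    have h0 : ∑ s ∈ G0, h s = if F = 0 then 0 else h Stp.T := by
      rw [hG0]
      by_cases hF : F = 0
      · rw [if_pos hF, if_pos hF, Finset.sum_empty]
      · rw [if_neg hF, if_neg hF, Finset.sum_singleton]
    have h1 : ∑ s ∈ P.image (fun z => Stp.L z.1 z.2), h s = ∑ z ∈ P, h (Stp.L z.1 z.2) := by
      refine Finset.sum_image ?_
      rintro ⟨k, a⟩ _ ⟨k', a'⟩ _ hh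
      cases hh
      rfl
    have h2 : ∑ s ∈ P.image (fun z => Stp.R z.1 z.2), h s = ∑ z ∈ P, h (Stp.R z.1 z.2) := by
      refine Finset.sum_image ?_
      rintro ⟨k, a⟩ _ ⟨k', a'⟩ _ hh
      cases hh
      rfl
    rw [h0, h1, h2, ← Finset.sum_add_distrib, hP, Finset.sum_filter, Finset.sum_product]

private lemma numw_bi (G : Finset Stp) (T : Stp → Finset (List Stp)) (f : List Stp → ℝ) :
    ∑ w ∈ G.biUnion (fun s => (T s).image (List.cons s)), f w = ∑ s ∈ G, ∑ w ∈ T s, f (s :: w) := by
  rw [Finset.sum_biUnion]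
  · refine Finset.sum_congr rfl fun s _ => Finset.sum_image ?_
    intro w _ w' _ h
    exact (List.cons.inj h).2
  · intro s _ s' _ hne
    rw [Function.onFun, Finset.disjoint_left]
    intro w hw hw'
    obtain ⟨u, _, rfl⟩ := Finset.mem_image.1 hw
    obtain ⟨u', _, h⟩ := Finset.mem_image.1 hw'
    exact hne (List.cons.inj h).1.symm

theorem ve_words (b : ℕ) (φ : ℕ → ℕ → ℝ) (N p F : ℕ) : ∃ S : Finset (List Stp),
    (∀ w ∈ S, WOk p w ∧ w.length = N ∧ wvol w ≤ F ∧ SmW b w) ∧
      VE b φ N p F = ∑ w ∈ S, wwt 1 W w * φ (wend p w) (F - wvol w) := by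
  induction N generalizing p F with
  | zero =>
    refine ⟨{[]}, fun w hw => ?_, ?_⟩
    · rw [Finset.mem_singleton] at hw
      subst hw
      exact ⟨trivial, rfl, Nat.zero_le _, fun s hs => absurd hs List.not_mem_nil⟩
    · rw [Finset.sum_singleton, wwt_nil, wend_nil, wvol_nil, Nat.sub_zero, one_mul]
      rfl
  | succ N ih =>
    choose S hS hsum using ih
    obtain ⟨G, hG, hGs⟩ := numw_letters b p F
    refine ⟨G.biUnion (fun s => (S (s.nx p) (F - s.vol)).image (List.cons s)), fun w hw => ?_, ?_⟩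
    · rw [Finset.mem_biUnion] at hw
      obtain ⟨s, hs, hw⟩ := hw
      obtain ⟨u, hu, rfl⟩ := Finset.mem_image.1 hw
      obtain ⟨h1, h2, h3⟩ := hG s hs
      obtain ⟨h4, h5, h6, h7⟩ := hS _ _ u hu
      refine ⟨⟨h1, h4⟩, by rw [List.length_cons, h5], ?_, ?_⟩
      · rw [wvol_cons]
        omega
      · intro t ht
        rcases List.mem_cons.1 ht with rfl | ht
        · exact h3
        · exact h7 t ht
    · rw [numw_bi]
      have h1 : ∑ s ∈ G, ∑ w ∈ S (s.nx p) (F - s.vol),
          wwt 1 W (s :: w) * φ (wend p (s :: w)) (F - wvol (s :: w)) =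
          ∑ s ∈ G, s.wt 1 W * VE b φ N (s.nx p) (F - s.vol) := by
        refine Finset.sum_congr rfl fun s _ => ?_
        rw [hsum, Finset.mul_sum]
        refine Finset.sum_congr rfl fun w _ => ?_
        rw [wwt_cons, wend_cons, wvol_cons, Nat.sub_sub, mul_assoc]
      rw [h1, hGs fun s => s.wt 1 W * VE b φ N (s.nx p) (F - s.vol)]
      show (if F = 0 then 0 else VE b φ N (p + 1) (F - 1)) +
        2 * ∑ k ∈ Finset.range (p - 2), ∑ a ∈ Finset.range (F + 1),
          (if k + a < b then W k a * VE b φ N (p - 2 - k) (F - a) else 0) = _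
      congr 1
      · by_cases hF : F = 0
        · rw [if_pos hF, if_pos hF]
        · rw [if_neg hF, if_neg hF]
          exact (one_mul _).symm
      · rw [Finset.mul_sum]
        refine Finset.sum_congr rfl fun k _ => ?_
        rw [Finset.mul_sum]
        refine Finset.sum_congr rfl fun a _ => ?_
        by_cases hk : k + a < b
        · rw [if_pos hk, if_pos hk]
          have h2 : p - 2 - k = p - (k + 2) := by omega
          rw [h2]
          show 2 * (W k a * VE b φ N (p - (k + 2)) (F - a)) =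
            W k a * VE b φ N (p - (k + 2)) (F - a) + W k a * VE b φ N (p - (k + 2)) (F - a)
          ring
        · rw [if_neg hk, if_neg hk, mul_zero]

theorem vv_words (b : ℕ) (φ : ℕ → ℕ → ℝ) (N p F : ℕ) : ∃ S : Finset (List Stp),
    (∀ w ∈ S, WOk p w ∧ w.length < N ∧ wvol w ≤ F ∧ SmW b w) ∧
      VV b φ N p F = ∑ w ∈ S, wwt 1 W w * φ (wend p w) (F - wvol w) := by
  have h := fun i => ve_words b φ i p F
  choose S hS hsum using h
  refine ⟨(Finset.range N).biUnion S, fun w hw => ?_, ?_⟩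
  · rw [Finset.mem_biUnion] at hw
    obtain ⟨i, hi, hw⟩ := hw
    obtain ⟨h1, h2, h3, h4⟩ := hS i w hw
    rw [Finset.mem_range] at hi
    exact ⟨h1, by omega, h3, h4⟩
  · rw [Finset.sum_biUnion]
    · exact Finset.sum_congr rfl fun i _ => hsum i
    · intro i _ j _ hne
      rw [Function.onFun, Finset.disjoint_left]
      intro w hw hw'
      exact hne ((hS i w hw).2.1.symm.trans (hS j w hw').2.1)

theorem wend_len {p : ℕ} (w : List Stp) : wend p w ≤ p + w.length := by
  induction w generalizing p with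
  | nil => exact Nat.le_add_right _ _
  | cons s w ih =>
    rw [wend_cons, List.length_cons]
    have h1 := @ih (s.nx p)
    have h2 : s.nx p ≤ p + 1 := by
      cases s with
      | T => exact le_rfl
      | L k a => exact (Nat.sub_le _ _).trans (Nat.le_succ p)
      | R k a => exact (Nat.sub_le _ _).trans (Nat.le_succ p)
    omega

theorem wvol_len {b : ℕ} {w : List Stp} (h : SmW b w) : wvol w ≤ w.length * (b + 1) := by
  induction w with
  | nil => exact Nat.zero_le _
  | cons s w ih =>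
    rw [wvol_cons, List.length_cons, Nat.succ_mul]
    have h1 := ih fun t ht => h t (List.mem_cons_of_mem s ht)
    have h2 : s.vol ≤ b + 1 := by
      have h3 := h s List.mem_cons_self
      cases s with
      | T => exact Nat.succ_le_succ (Nat.zero_le b)
      | L k a =>
        have h4 : k + a < b := h3
        show a ≤ b + 1
        omega
      | R k a =>
        have h4 : k + a < b := h3
        show a ≤ b + 1
        omega
    omega

end SYS.GW
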