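import Pool.Agent.SYS.GW.StrT

/-!
# SYSS-GRW-RegL: sums over the regions of a strategy depend only on the numeric word
-/

namespace SYS.GW

open Classical SST SYS.Num Str

variable {n g b N p F : ℕ} {A : Type} {s : Str (Fin (6 * n)) A} {Z : Part (Fin (6 * n))} {d : Fin (6 * n)} {φ ψ : ℕ → ℕ → ℝ}

/-- Exactly `N` steps. -/
def DepE {D A : Type} : Str D A → ℕ → Prop
  | .ret _, N => N = 0
  | .peel _ f, N => ∃ M, N = M + 1 ∧ ∀ Z, DepE (f Z) M

private theorem regl_W (k a : ℕ) : 0 ≤ W k a := muG_nonneg _ _ _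

theorem VE_nn (hφ : ∀ p F, 0 ≤ φ p F) (N p F : ℕ) : 0 ≤ VE b φ N p F := by
  induction N generalizing p F with
  | zero => exact hφ p F
  | succ N ih =>
    show 0 ≤ (if F = 0 then 0 else VE b φ N (p + 1) (F - 1)) +
      2 * ∑ k ∈ Finset.range (p - 2), ∑ a ∈ Finset.range (F + 1), if k + a < b then W k a * VE b φ N (p - 2 - k) (F - a) else 0
    refine add_nonneg ?_ (mul_nonneg zero_le_two (Finset.sum_nonneg fun k _ => Finset.sum_nonneg fun a _ => ?_))
    · split_ifs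
      · exact le_refl _
      · exact ih _ _
    · split_ifs
      · exact mul_nonneg (regl_W k a) (ih _ _)
      · exact le_refl _

theorem VE_le (h : ∀ p F, φ p F ≤ ψ p F) (N p F : ℕ) : VE b φ N p F ≤ VE b ψ N p F := by
  induction N generalizing p F with
  | zero => exact h p F
  | succ N ih =>
    show (if F = 0 then 0 else VE b φ N (p + 1) (F - 1)) +
      2 * (∑ k ∈ Finset.range (p - 2), ∑ a ∈ Finset.range (F + 1),
        if k + a < b then W k a * VE b φ N (p - 2 - k) (F - a) else 0) ≤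
      (if F = 0 then 0 else VE b ψ N (p + 1) (F - 1)) +
      2 * ∑ k ∈ Finset.range (p - 2), ∑ a ∈ Finset.range (F + 1), if k + a < b then W k a * VE b ψ N (p - 2 - k) (F - a) else 0
    refine add_le_add ?_ (mul_le_mul_of_nonneg_left (Finset.sum_le_sum fun k _ => Finset.sum_le_sum fun a _ => ?_)
      zero_le_two)
    · split_ifs
      · exact le_refl _
      · exact ih _ _
    · split_ifs
      · exact mul_le_mul_of_nonneg_left (ih _ _) (regl_W k a)
      · exact le_refl _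

theorem VE_one (φ : ℕ → ℕ → ℝ) (N p F : ℕ) : VE b φ (N + 1) p F = VE b (VE b φ N) 1 p F := rfl

private theorem regl_add (φ ψ : ℕ → ℕ → ℝ) (p F : ℕ) :
    VE b (fun p F => φ p F + ψ p F) 1 p F = VE b φ 1 p F + VE b ψ 1 p F := by
  show (if F = 0 then 0 else φ (p + 1) (F - 1) + ψ (p + 1) (F - 1)) +
      2 * (∑ k ∈ Finset.range (p - 2), ∑ a ∈ Finset.range (F + 1),
        if k + a < b then W k a * (φ (p - 2 - k) (F - a) + ψ (p - 2 - k) (F - a)) else 0) =
      ((if F = 0 then 0 else φ (p + 1) (F - 1)) +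
      2 * ∑ k ∈ Finset.range (p - 2), ∑ a ∈ Finset.range (F + 1), if k + a < b then W k a * φ (p - 2 - k) (F - a) else 0) +
      ((if F = 0 then 0 else ψ (p + 1) (F - 1)) +
      2 * ∑ k ∈ Finset.range (p - 2), ∑ a ∈ Finset.range (F + 1), if k + a < b then W k a * ψ (p - 2 - k) (F - a) else 0)
  have h1 : ∀ k a : ℕ, (if k + a < b then W k a * (φ (p - 2 - k) (F - a) + ψ (p - 2 - k) (F - a)) else 0) =
      (if k + a < b then W k a * φ (p - 2 - k) (F - a) else 0) + (if k + a < b then W k a * ψ (p - 2 - k) (F - a) else 0) := by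
    intro k a
    split_ifs
    · ring
    · ring
  rw [Finset.sum_congr rfl fun k _ => (Finset.sum_congr rfl fun a _ => h1 k a).trans Finset.sum_add_distrib,
    Finset.sum_add_distrib]
  split_ifs
  · ring
  · ring

private theorem regl_zero (p F : ℕ) : VE b (fun _ _ => 0) 1 p F = 0 := by
  show (if F = 0 then (0 : ℝ) else 0) +
      2 * (∑ k ∈ Finset.range (p - 2), ∑ a ∈ Finset.range (F + 1), if k + a < b then W k a * 0 else 0) = 0
  simp

private theorem regl_VV (φ : ℕ → ℕ → ℝ) (N : ℕ) :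
    VV b φ (N + 1) = fun p F => VV b φ N p F + VE b φ N p F := by
  funext p F
  exact Finset.sum_range_succ _ _

private theorem regl_sum (φ : ℕ → ℕ → ℝ) (N p F : ℕ) :
    VE b (VV b φ N) 1 p F = ∑ i ∈ Finset.range N, VE b φ (i + 1) p F := by
  induction N with
  | zero => exact regl_zero p F
  | succ N ih => rw [regl_VV, regl_add, ih, Finset.sum_range_succ, ← VE_one]

theorem VV_succ (φ : ℕ → ℕ → ℝ) (N p F : ℕ) : VV b φ (N + 1) p F = φ p F + VE b (VV b φ N) 1 p F := by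
  rw [regl_sum]
  show ∑ i ∈ Finset.range (N + 1), VE b φ i p F = _
  rw [Finset.sum_range_succ', add_comm]
  rfl

private theorem regl_VV_nn (hφ : ∀ p F, 0 ≤ φ p F) (N p F : ℕ) : 0 ≤ VV b φ N p F :=
  Finset.sum_nonneg fun i _ => VE_nn hφ i p F

/-- the contribution of a letter -/
private noncomputable def rlv (φ : ℕ → ℕ → ℝ) (p F : ℕ) (s : Stp) : ℝ :=
  ((3 * (F - s.vol)).factorial : ℝ) * φ (s.nx p) (F - s.vol)

private noncomputable def rlh (φ : ℕ → ℕ → ℝ) (p F : ℕ) (Z : Part (Fin (6 * n))) (d : Fin (6 * n)) (s : Stp)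
    (Z₁ : Part (Fin (6 * n))) : ℝ := ∑ z : Fin (6 * n), if Z.St d s Z₁ z then rlv φ p F s else 0

private noncomputable def rlA (b : ℕ) (φ : ℕ → ℕ → ℝ) (p F : ℕ) (Z : Part (Fin (6 * n))) (d : Fin (6 * n))
    (Z₁ : Part (Fin (6 * n))) : ℝ :=
  (if F = 0 then 0 else rlh φ p F Z d .T Z₁) + ∑ k ∈ Finset.range (p - 2), ∑ a ∈ Finset.range (F + 1),
    (if k + a < b then rlh φ p F Z d (.L k a) Z₁ + rlh φ p F Z d (.R k a) Z₁ else 0)

private theorem rlv_nn (hφ : ∀ p F, 0 ≤ φ p F) (s : Stp) : 0 ≤ rlv φ p F s :=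
  mul_nonneg (Nat.cast_nonneg _) (hφ _ _)

private theorem rlh_nn (hφ : ∀ p F, 0 ≤ φ p F) (s : Stp) (Z₁ : Part (Fin (6 * n))) : 0 ≤ rlh φ p F Z d s Z₁ := by
  refine Finset.sum_nonneg fun z _ => ?_
  split_ifs
  · exact rlv_nn hφ s
  · exact le_refl _

private theorem rlh_ge (hφ : ∀ p F, 0 ≤ φ p F) {s : Stp} {Z₁ : Part (Fin (6 * n))} {z : Fin (6 * n)}
    (h : Z.St d s Z₁ z) : rlv φ p F s ≤ rlh φ p F Z d s Z₁ := by
  have h1 := Finset.single_le_sum (f := fun z : Fin (6 * n) => if Z.St d s Z₁ z then rlv φ p F s else 0)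
    (s := Finset.univ) (fun z _ => by
      show 0 ≤ if Z.St d s Z₁ z then rlv φ p F s else 0
      split_ifs
      · exact rlv_nn hφ s
      · exact le_refl _) (Finset.mem_univ z)
  have h2 : (if Z.St d s Z₁ z then rlv φ p F s else 0) ≤ rlh φ p F Z d s Z₁ := h1
  rwa [if_pos h] at h2

private theorem rlA_term_nn (hφ : ∀ p F, 0 ≤ φ p F) (Z₁ : Part (Fin (6 * n))) (k a : ℕ) :
    0 ≤ (if k + a < b then rlh φ p F Z d (.L k a) Z₁ + rlh φ p F Z d (.R k a) Z₁ else 0) := by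
  split_ifs
  · exact add_nonneg (rlh_nn hφ _ _) (rlh_nn hφ _ _)
  · exact le_refl _

private theorem rlA_T_nn (hφ : ∀ p F, 0 ≤ φ p F) (Z₁ : Part (Fin (6 * n))) :
    0 ≤ (if F = 0 then 0 else rlh φ p F Z d .T Z₁) := by
  split_ifs
  · exact le_refl _
  · exact rlh_nn hφ _ _

private theorem rlA_sum_nn (hφ : ∀ p F, 0 ≤ φ p F) (Z₁ : Part (Fin (6 * n))) :
    0 ≤ ∑ k ∈ Finset.range (p - 2), ∑ a ∈ Finset.range (F + 1),
      (if k + a < b then rlh φ p F Z d (.L k a) Z₁ + rlh φ p F Z d (.R k a) Z₁ else 0) :=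
  Finset.sum_nonneg fun k _ => Finset.sum_nonneg fun a _ => rlA_term_nn hφ Z₁ k a

private theorem rlA_ge (hφ : ∀ p F, 0 ≤ φ p F) (Z₁ : Part (Fin (6 * n))) {k a : ℕ} (hk : k + 3 ≤ p) (ha : a ≤ F)
    (hb : k + a < b) : rlh φ p F Z d (.L k a) Z₁ + rlh φ p F Z d (.R k a) Z₁ ≤ rlA b φ p F Z d Z₁ := by
  have h1 := Finset.single_le_sum (f := fun k => ∑ a ∈ Finset.range (F + 1),
      (if k + a < b then rlh φ p F Z d (.L k a) Z₁ + rlh φ p F Z d (.R k a) Z₁ else 0)) (s := Finset.range (p - 2))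
    (fun k _ => Finset.sum_nonneg fun a _ => rlA_term_nn hφ Z₁ k a) (Finset.mem_range.2 (show k < p - 2 by omega))
  have h2 := Finset.single_le_sum (f := fun a =>
      (if k + a < b then rlh φ p F Z d (.L k a) Z₁ + rlh φ p F Z d (.R k a) Z₁ else 0)) (s := Finset.range (F + 1))
    (fun a _ => rlA_term_nn hφ Z₁ k a) (Finset.mem_range.2 (show a < F + 1 by omega))
  have h3 : (if k + a < b then rlh φ p F Z d (.L k a) Z₁ + rlh φ p F Z d (.R k a) Z₁ else 0) ≤
      ∑ a ∈ Finset.range (F + 1), (if k + a < b then rlh φ p F Z d (.L k a) Z₁ + rlh φ p F Z d (.R k a) Z₁ else 0) := h2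
  rw [if_pos hb] at h3
  have h4 := rlA_T_nn (p := p) (F := F) (Z := Z) (d := d) hφ Z₁
  unfold rlA
  have h5 : (∑ a ∈ Finset.range (F + 1), (if k + a < b then rlh φ p F Z d (.L k a) Z₁ + rlh φ p F Z d (.R k a) Z₁ else 0)) ≤
    ∑ k ∈ Finset.range (p - 2), ∑ a ∈ Finset.range (F + 1),
      (if k + a < b then rlh φ p F Z d (.L k a) Z₁ + rlh φ p F Z d (.R k a) Z₁ else 0) := h1
  linarith

private theorem rl_child (h : OH Z p F) (hφ : ∀ p F, 0 ≤ φ p F) (Z₁ : Part (Fin (6 * n))) :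
    (if SS b Z d Z₁ then ((3 * fz Z₁).factorial : ℝ) * φ (pz Z₁) (fz Z₁) else 0) ≤ rlA b φ p F Z d Z₁ := by
  by_cases hs : SS b Z d Z₁
  · rw [if_pos hs]
    obtain ⟨s, z, hst, hsm⟩ := hs
    have hd : d ∈ Z.B := (Part.st_sub hst).2.1
    obtain ⟨hok, F', hF', hT⟩ := Part.st_typ (oh_typ h hd) hst
    obtain ⟨e1, e2, -⟩ := oh_pz ⟨z, hT⟩
    have e3 : F' = F - s.vol := by omega
    have e4 : ((3 * fz Z₁).factorial : ℝ) * φ (pz Z₁) (fz Z₁) = rlv φ p F s := by
      unfold rlv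
      rw [e1, e2, e3]
    rw [e4]
    cases s with
    | T =>
      have h1 : F ≠ 0 := by
        have h2 : Stp.vol Stp.T = 1 := rfl
        omega
      have h2 := rlh_ge (p := p) (F := F) hφ hst
      have h3 := rlA_sum_nn (b := b) (p := p) (F := F) (Z := Z) (d := d) hφ Z₁
      unfold rlA
      rw [if_neg h1]
      linarith
    | L k a =>
      have h1 : Stp.vol (Stp.L k a) = a := rfl
      have h2 := rlh_ge (p := p) (F := F) hφ hst
      have h3 := rlh_nn (p := p) (F := F) (Z := Z) (d := d) hφ (Stp.R k a) Z₁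
      have h4 := rlA_ge (b := b) (Z := Z) (d := d) hφ Z₁ (k := k) (a := a) hok (by omega : a ≤ F) hsm
      linarith
    | R k a =>
      have h1 : Stp.vol (Stp.R k a) = a := rfl
      have h2 := rlh_ge (p := p) (F := F) hφ hst
      have h3 := rlh_nn (p := p) (F := F) (Z := Z) (d := d) hφ (Stp.L k a) Z₁
      have h4 := rlA_ge (b := b) (Z := Z) (d := d) hφ Z₁ (k := k) (a := a) hok (by omega : a ≤ F) hsm
      linarith
  · rw [if_neg hs]
    exact add_nonneg (rlA_T_nn hφ Z₁) (rlA_sum_nn hφ Z₁)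

private theorem rl_fact {F v : ℕ} (hv : v ≤ F) :
    (((3 * F).descFactorial (3 * v) : ℕ) : ℝ) * ((3 * (F - v)).factorial : ℝ) = ((3 * F).factorial : ℝ) := by
  have h1 := Nat.factorial_mul_descFactorial (n := 3 * F) (k := 3 * v) (by omega)
  have h2 : 3 * F - 3 * v = 3 * (F - v) := by omega
  rw [h2] at h1
  rw [← h1]
  push_cast
  ring

private theorem rl_count (h : OH Z p F) (hd : d ∈ Z.B) {s : Stp} (hs : s.Ok p) (hv : s.vol ≤ F) :
    ∑ Z₁ : Part (Fin (6 * n)), rlh φ p F Z d s Z₁ = ((3 * F).factorial : ℝ) * (s.wt 1 W * φ (s.nx p) (F - s.vol)) := by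
  have h1 := Part.st_card (oh_typ h hd) hs
  have h2 : ∑ Z₁ : Part (Fin (6 * n)), rlh φ p F Z d s Z₁ =
      (({q : Part (Fin (6 * n)) × Fin (6 * n) | Z.St d s q.1 q.2}.ncard : ℕ) : ℝ) * rlv φ p F s := by
    unfold rlh
    rw [← Finset.sum_product' (Finset.univ : Finset (Part (Fin (6 * n)))) (Finset.univ : Finset (Fin (6 * n)))
      (fun Z₁ z => if Z.St d s Z₁ z then rlv φ p F s else 0), ← Finset.sum_filter, Finset.sum_const, nsmul_eq_mul]
    congr 2
    rw [← Set.ncard_coe_finset]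
    congr 1
    ext q
    rw [Finset.mem_coe, Finset.mem_filter]
    constructor
    · rintro ⟨_, h3⟩
      exact h3
    · intro h3
      exact ⟨Finset.mem_product.2 ⟨Finset.mem_univ _, Finset.mem_univ _⟩, h3⟩
  rw [h2, h1]
  unfold rlv
  rw [← rl_fact hv]
  ring

theorem one_num (h : OH Z p F) (hd : d ∈ Z.B) (hφ : ∀ p F, 0 ≤ φ p F) :
    ∑ Z₁ : Part (Fin (6 * n)), (if SS b Z d Z₁ then ((3 * fz Z₁).factorial : ℝ) * φ (pz Z₁) (fz Z₁) else 0) ≤
      ((3 * F).factorial : ℝ) * VE b φ 1 p F := by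
  refine (Finset.sum_le_sum fun Z₁ _ => rl_child (b := b) h hφ Z₁).trans (le_of_eq ?_)
  have hT : ∑ Z₁ : Part (Fin (6 * n)), (if F = 0 then 0 else rlh φ p F Z d .T Z₁) =
      ((3 * F).factorial : ℝ) * (if F = 0 then 0 else φ (p + 1) (F - 1)) := by
    by_cases hF : F = 0
    · simp only [if_pos hF]
      rw [Finset.sum_const_zero, mul_zero]
    · simp only [if_neg hF]
      have h1 := rl_count (φ := φ) h hd (s := .T) trivial (show 1 ≤ F by omega)
      rw [h1]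
      show _ * (1 * φ (p + 1) (F - 1)) = _
      rw [one_mul]
  have hK : ∀ k ∈ Finset.range (p - 2), ∀ a ∈ Finset.range (F + 1), ∑ Z₁ : Part (Fin (6 * n)),
      (if k + a < b then rlh φ p F Z d (.L k a) Z₁ + rlh φ p F Z d (.R k a) Z₁ else 0) =
      ((3 * F).factorial : ℝ) * (2 * if k + a < b then W k a * φ (p - 2 - k) (F - a) else 0) := by
    intro k hk a ha
    rw [Finset.mem_range] at hk ha
    have e1 : p - (k + 2) = p - 2 - k := by omega
    by_cases hb : k + a < b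
    · simp only [if_pos hb]
      have h1 := rl_count (φ := φ) h hd (s := .L k a) (show k + 3 ≤ p by omega) (show a ≤ F by omega)
      have h2 := rl_count (φ := φ) h hd (s := .R k a) (show k + 3 ≤ p by omega) (show a ≤ F by omega)
      rw [Finset.sum_add_distrib, h1, h2]
      show _ * (W k a * φ (p - (k + 2)) (F - a)) + _ * (W k a * φ (p - (k + 2)) (F - a)) = _
      rw [e1]
      ring
    · simp only [if_neg hb]
      rw [Finset.sum_const_zero, mul_zero, mul_zero]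
  unfold rlA
  rw [Finset.sum_add_distrib, hT, Finset.sum_comm]
  have h3 : ∑ k ∈ Finset.range (p - 2), ∑ Z₁ : Part (Fin (6 * n)), ∑ a ∈ Finset.range (F + 1),
      (if k + a < b then rlh φ p F Z d (.L k a) Z₁ + rlh φ p F Z d (.R k a) Z₁ else 0) =
      ((3 * F).factorial : ℝ) * (2 * ∑ k ∈ Finset.range (p - 2), ∑ a ∈ Finset.range (F + 1),
        if k + a < b then W k a * φ (p - 2 - k) (F - a) else 0) := by
    rw [Finset.mul_sum, Finset.mul_sum]
    refine Finset.sum_congr rfl fun k hk => ?_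
    rw [Finset.sum_comm, Finset.mul_sum, Finset.mul_sum]
    exact Finset.sum_congr rfl fun a ha => hK k hk a ha
  rw [h3, ← mul_add]
  rfl

private theorem rl_peel {φ ψ : ℕ → ℕ → ℝ} (h : OH Z p F) (hd : d ∈ Z.B) (hψ : ∀ p F, 0 ≤ ψ p F)
    {f : Part (Fin (6 * n)) → Str (Fin (6 * n)) A} (hG : ∀ Z', SS b Z d Z' → Gat b (f Z') Z')
    (ih : ∀ (Z' : Part (Fin (6 * n))) (p' F' : ℕ), OH Z' p' F' → Gat b (f Z') Z' →
      LS b (fun _ Z' => ((3 * fz Z').factorial : ℝ) * φ (pz Z') (fz Z')) (f Z') Z' ≤ ((3 * F').factorial : ℝ) * ψ p' F') :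
    LS b (fun _ Z' => ((3 * fz Z').factorial : ℝ) * φ (pz Z') (fz Z')) (.peel d f) Z ≤
      ((3 * F).factorial : ℝ) * VE b ψ 1 p F := by
  refine le_trans ?_ (one_num h hd hψ)
  show ∑ Z₁ : Part (Fin (6 * n)), (if SS b Z d Z₁ then
    LS b (fun _ Z' => ((3 * fz Z').factorial : ℝ) * φ (pz Z') (fz Z')) (f Z₁) Z₁ else 0) ≤ _
  refine Finset.sum_le_sum fun Z₁ _ => ?_
  by_cases hs : SS b Z d Z₁
  · rw [if_pos hs, if_pos hs]
    obtain ⟨p', F', h1, -⟩ := ss_oh h hs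
    obtain ⟨e1, e2, -⟩ := oh_pz h1
    rw [e1, e2]
    exact ih Z₁ p' F' h1 (hG Z₁ hs)
  · rw [if_neg hs, if_neg hs]

theorem ls_num (h : OH Z p F) (hG : Gat b s Z) (hN : s.Dep N) (hφ : ∀ p F, 0 ≤ φ p F) :
    LS b (fun _ Z' => ((3 * fz Z').factorial : ℝ) * φ (pz Z') (fz Z')) s Z ≤ ((3 * F).factorial : ℝ) * VV b φ (N + 1) p F := by
  induction s generalizing Z p F N with
  | ret a =>
    obtain ⟨e1, e2, -⟩ := oh_pz h
    show ((3 * fz Z).factorial : ℝ) * φ (pz Z) (fz Z) ≤ _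
    rw [e1, e2, VV_succ]
    refine mul_le_mul_of_nonneg_left ?_ (Nat.cast_nonneg _)
    have h1 := VE_nn (b := b) (φ := VV b φ N) (fun p F => regl_VV_nn hφ N p F) 1 p F
    linarith
  | peel d f ih =>
    obtain ⟨M, rfl, hM⟩ := hN
    obtain ⟨hd, hG'⟩ := hG
    refine (rl_peel (ψ := VV b φ (M + 1)) h hd (fun p F => regl_VV_nn hφ (M + 1) p F) hG'
      fun Z' p' F' h1 h2 => ih Z' h1 h2 (hM Z')).trans ?_
    refine mul_le_mul_of_nonneg_left ?_ (Nat.cast_nonneg _)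
    rw [VV_succ φ (M + 1)]
    have h1 := hφ p F
    linarith

theorem ls_numE (h : OH Z p F) (hG : Gat b s Z) (hN : DepE s N) (hφ : ∀ p F, 0 ≤ φ p F) :
    LS b (fun _ Z' => ((3 * fz Z').factorial : ℝ) * φ (pz Z') (fz Z')) s Z ≤ ((3 * F).factorial : ℝ) * VE b φ N p F := by
  induction s generalizing Z p F N with
  | ret a =>
    obtain ⟨e1, e2, -⟩ := oh_pz h
    have h0 : N = 0 := hN
    subst h0
    show ((3 * fz Z).factorial : ℝ) * φ (pz Z) (fz Z) ≤ _
    rw [e1, e2]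
    exact le_refl _
  | peel d f ih =>
    obtain ⟨M, rfl, hM⟩ := hN
    obtain ⟨hd, hG'⟩ := hG
    rw [VE_one]
    exact rl_peel (ψ := VE b φ M) h hd (fun p F => VE_nn hφ M p F) hG'
      fun Z' p' F' h1 h2 => ih Z' h1 h2 (hM Z')

end SYS.GW
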