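import Pool.Agent.SYS.GW.StrT
import Pool.Agent.SYS.UP.EvD
import Pool.Agent.SYS.BD.MgT

/-!
# SYSS-GRW-Src: from the source to all pairs (triangulation, dart)
-/

namespace SYS.GW

open Classical SST SYS.Num Str

variable {n g : ℕ} {T : Tri (Fin (6 * n))}

private theorem sr_emp_hconn {D : Type} [Finite D] {T : Tri D} (hT : T.Conn) : (Part.emp : Part D).HConn T := by
  intro d _ e _
  have hX : ∀ d : D, d ∈ (Part.emp : Part D).X := fun d => Or.inl (fun h => h rfl)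
  have hR : ∀ d : D, d ∉ (Part.emp : Part D).R := fun d h => h rfl
  have h1 := hT {e | (Part.emp : Part D).Hc T d e} ⟨d, Relation.EqvGen.refl d⟩ (by
    intro e he
    exact ⟨Part.hc_trans he (Part.hc_a (hX e)), Part.hc_trans he (Part.hc_f (hR e))⟩)
  have h2 : e ∈ (Set.univ : Set D) := Set.mem_univ e
  rw [← h1] at h2
  exact h2

private theorem sr_hconn {D : Type} [Finite D] {S : Part D} {T : Tri D} {t : D} (h0 : t ∉ S.R) (h1 : T.f t ∉ S.R)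
    (h2 : T.f (T.f t) ∉ S.R) (h01 : t ≠ T.f t) (h12 : T.f t ≠ T.f (T.f t)) (h20 : T.f (T.f t) ≠ t) (hS : S.Le T)
    (hh : S.HConn T) : (S.newTri t (T.f t) (T.f (T.f t)) h0 h1 h2 h01 h12 h20).HConn T := by
  have hX : ∀ d, d ∈ (S.newTri t (T.f t) (T.f (T.f t)) h0 h1 h2 h01 h12 h20).X → d ∈ S.X := by
    intro d
    show (d ∉ (S.newTri t (T.f t) (T.f (T.f t)) h0 h1 h2 h01 h12 h20).R ∨
      d ∈ (S.newTri t (T.f t) (T.f (T.f t)) h0 h1 h2 h01 h12 h20).B) → (d ∉ S.R ∨ d ∈ S.B)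
    rw [Part.newTri_R, Part.newTri_B]
    rintro (h3 | h3 | h3)
    · exact Or.inl fun h4 => h3 (Or.inl h4)
    · exact Or.inr h3
    · left
      rw [Set.mem_insert_iff, Set.mem_insert_iff, Set.mem_singleton_iff] at h3
      rcases h3 with rfl | rfl | rfl
      · exact h0
      · exact h1
      · exact h2
  intro d hd e he
  exact (Part.hc_newTri hS h0 h1 h2 d e).2 (hh d (hX d hd) e (hX e he))

private theorem sr_typ (hn : 1 ≤ n) {t0 t1 t2 : Fin (6 * n)} (h0 : t0 ∉ (Part.emp : Part (Fin (6 * n))).R)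
    (h1 : t1 ∉ (Part.emp : Part (Fin (6 * n))).R) (h2 : t2 ∉ (Part.emp : Part (Fin (6 * n))).R) (h01 : t0 ≠ t1)
    (h12 : t1 ≠ t2) (h20 : t2 ≠ t0) :
    (Part.emp.newTri t0 t1 t2 h0 h1 h2 h01 h12 h20).Typ [t0] [3] (2 * n - 1) 0 ∧
      t0 ∈ (Part.emp.newTri t0 t1 t2 h0 h1 h2 h01 h12 h20).B := by
  have h3 := Part.typ_emp hn
  have h4 : 2 * n = (2 * n - 1) + 1 := by omega
  rw [h4] at h3
  refine ⟨Part.typ_newTri h3 h0 h1 h2 h01 h12 h20, ?_⟩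
  rw [Part.newTri_B]
  exact Or.inr (Or.inl rfl)

theorem src_ex (hn : 1 ≤ n) (hT : T ∈ Trn n g) (y : Fin (6 * n)) :
    ∃ S, UP.Src Part.emp T y S ∧ In T S ∧ OH S 3 (2 * n - 1) ∧ y ∈ S.B := by
  have hR : ∀ d : Fin (6 * n), d ∉ (Part.emp : Part (Fin (6 * n))).R := fun d h => h rfl
  have h01 : y ≠ T.f y := (T.fne y).symm
  have h12 : T.f y ≠ T.f (T.f y) := (T.fne _).symm
  have h20 : T.f (T.f y) ≠ y := by
    intro h
    have h3 := T.fff y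
    rw [h] at h3
    exact T.fne y h3
  have hL := Part.newTri_le _ (hR _) (hR _) (hR _) h01 h12 h20 (Part.emp_le T) rfl rfl
  have hS : UP.Src Part.emp T y (Part.emp.newTri y (T.f y) (T.f (T.f y)) (hR _) (hR _) (hR _) h01 h12 h20) :=
    ⟨hL, _, _, hR _, hR _, hR _, h01, h12, h20, rfl⟩
  obtain ⟨a1, a2⟩ := sr_typ hn (hR y) (hR (T.f y)) (hR (T.f (T.f y))) h01 h12 h20
  exact ⟨_, hS, ⟨hL, sr_hconn (hR _) (hR _) (hR _) h01 h12 h20 (Part.emp_le T) (sr_emp_hconn hT.1)⟩, ⟨y, a1⟩, a2⟩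

theorem src_oh (hn : 1 ≤ n) {y : Fin (6 * n)} {S : Part (Fin (6 * n))} (h : UP.Src Part.emp T y S) : OH S 3 (2 * n - 1) ∧ y ∈ S.B := by
  obtain ⟨_, t1, t2, h0, h1, h2, h01, h12, h20, rfl⟩ := h
  obtain ⟨a1, a2⟩ := sr_typ hn h0 h1 h2 h01 h12 h20
  exact ⟨⟨y, a1⟩, a2⟩

private theorem sr_all (hn : 1 ≤ n) :
    ((6 * n : ℕ) : ℝ) * ((Trn n g).ncard : ℕ) = ((6 * n).factorial : ℝ) * Num.muG (([3] : List ℕ) : Multiset ℕ) (2 * n - 1) g := by
  have h3 := Part.typ_emp hn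
  have h4 : 2 * n = (2 * n - 1) + 1 := by omega
  rw [h4] at h3
  have h5 := Part.src_eq (g := g) h3 (fun _ _ _ => True)
    (c := Num.muG (([3] : List ℕ) : Multiset ℕ) (2 * n - 1) g) ?_
  · have h6 : 3 * (2 * n - 1 + 1) = 6 * n := by omega
    rw [h6] at h5
    rw [← h5]
    have h7 : {q : Tri (Fin (6 * n)) × Fin (6 * n) | q.1 ∈ (Part.emp : Part (Fin (6 * n))).Ext g ∧
        (Part.emp : Part (Fin (6 * n))).HConn q.1 ∧ ∃ S' : Part (Fin (6 * n)), S'.Le q.1 ∧ True ∧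
        ∃ t1 t2 h0 h1 h2 h01 h12 h20, S' = (Part.emp : Part (Fin (6 * n))).newTri q.2 t1 t2 h0 h1 h2 h01 h12 h20} =
        (Trn n g) ×ˢ (Set.univ : Set (Fin (6 * n))) := by
      ext ⟨T, y⟩
      constructor
      · rintro ⟨h, -⟩
        exact ⟨h.1, Set.mem_univ _⟩
      · rintro ⟨h, -⟩
        have hT : T ∈ Trn n g := h
        obtain ⟨S, ⟨hL, hS⟩, -⟩ := src_ex hn hT y
        exact ⟨⟨hT, Part.emp_le T⟩, sr_emp_hconn hT.1, S, hL, trivial, hS⟩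
    rw [h7, Set.ncard_prod, Set.ncard_univ, Nat.card_fin]
    push_cast
    ring
  · intro t0 t1 t2 h0 h1 h2 h01 h12 h20
    have h8 := Part.typ_card (h := g) (sr_typ hn h0 h1 h2 h01 h12 h20).1
    rw [add_zero] at h8
    simp only [and_true]
    exact h8

theorem src_cnt (hn : 1 ≤ n) (P : Tri (Fin (6 * n)) → Fin (6 * n) → Part (Fin (6 * n)) → Prop) {c : ℝ} (hc : 0 ≤ c)
    (hP : ∀ y S, OH S 3 (2 * n - 1) → y ∈ S.B → (({T | T ∈ S.Ext g ∧ S.HConn T ∧ P T y S}.ncard : ℕ) : ℝ) ≤ c * ex g S) :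
    (({q : Tri (Fin (6 * n)) × Fin (6 * n) | q.1 ∈ Trn n g ∧ ∃ S, UP.Src Part.emp q.1 q.2 S ∧ P q.1 q.2 S}.ncard : ℕ) : ℝ) ≤
      c * (6 * n) * ((Trn n g).ncard : ℕ) := by
  have h3 := Part.typ_emp hn
  have h4 : 2 * n = (2 * n - 1) + 1 := by omega
  rw [h4] at h3
  have hnn : 0 ≤ Num.muG (([3] : List ℕ) : Multiset ℕ) (2 * n - 1) g := Num.muG_nonneg _ _ _
  have h5 := Part.src_le (g := g) h3 (fun T S y => P T y S)
    (c := c * Num.muG (([3] : List ℕ) : Multiset ℕ) (2 * n - 1) g) (mul_nonneg hc hnn) ?_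
  · have h6 : 3 * (2 * n - 1 + 1) = 6 * n := by omega
    rw [h6] at h5
    have h7 : c * (6 * n) * ((Trn n g).ncard : ℕ) =
        ((6 * n).factorial : ℝ) * (c * Num.muG (([3] : List ℕ) : Multiset ℕ) (2 * n - 1) g) := by
      have h8 := sr_all (g := g) hn
      rw [Nat.cast_mul, Nat.cast_ofNat] at h8
      calc c * (6 * n) * ((Trn n g).ncard : ℕ) = c * ((6 * n) * ((Trn n g).ncard : ℕ)) := by ring
        _ = _ := by rw [h8]; ring
    rw [h7]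
    refine le_trans ?_ h5
    refine Nat.cast_le.2 (Set.ncard_le_ncard ?_ (Set.toFinite _))
    rintro ⟨T, y⟩ ⟨hT, S, ⟨hL, hS⟩, hPS⟩
    exact ⟨⟨hT, Part.emp_le T⟩, sr_emp_hconn hT.1, S, hL, hPS, hS⟩
  · intro t0 t1 t2 h0 h1 h2 h01 h12 h20
    obtain ⟨b1, b2⟩ := sr_typ hn h0 h1 h2 h01 h12 h20
    have h8 := Part.typ_card (h := g) b1
    rw [add_zero] at h8
    refine (hP t0 _ ⟨t0, b1⟩ b2).trans (le_of_eq ?_)
    unfold ex
    rw [h8]
    ring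

end SYS.GW
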