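import Pool.Agent.SYS.GW.Defs

/-!
# SYSS-GRW-StrA: the laws of the strategies

Structural inductions on the strategy.
-/

namespace SYS.GW

open Classical SST SYS.Num Str

variable {D A A' : Type} [Finite D] {b N M : ℕ} {T : Tri D} {s : Str D A} {k : A → Str D A'} {Z Z' Z'' : Part D} {a a' : A} {c : A'}
  {P P' : Part D → D → Part D → Prop} {ψ φ : A → Part D → ℝ}

omit [Finite D] in
theorem dep_mono (h : s.Dep N) (hN : N ≤ M) : s.Dep M := by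
  induction s generalizing N M with
  | ret a => trivial
  | peel d f ih =>
    obtain ⟨K, rfl, hK⟩ := h
    exact ⟨M - 1, by omega, fun Z => ih Z (hK Z) (by omega)⟩

omit [Finite D] in
theorem dep_bind (h : s.Dep N) (hk : ∀ a, (k a).Dep M) : (s.bind k).Dep (N + M) := by
  induction s generalizing N with
  | ret a => exact dep_mono (hk a) (by omega)
  | peel d f ih =>
    obtain ⟨K, rfl, hK⟩ := h
    exact ⟨K + M, by omega, fun Z => ih Z (hK Z)⟩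

theorem lf_bind : Lf b (s.bind k) Z c Z'' ↔ ∃ a Z', Lf b s Z a Z' ∧ Lf b (k a) Z' c Z'' := by
  induction s generalizing Z with
  | ret a =>
    constructor
    · intro h
      exact ⟨a, Z, ⟨rfl, rfl⟩, h⟩
    · rintro ⟨a', Z', ⟨rfl, rfl⟩, h⟩
      exact h
  | peel d f ih =>
    constructor
    · rintro ⟨Z₁, h1, h2⟩
      obtain ⟨a, Z', h3, h4⟩ := (ih Z₁).1 h2
      exact ⟨a, Z', ⟨Z₁, h1, h3⟩, h4⟩
    · rintro ⟨a, Z', ⟨Z₁, h1, h3⟩, h4⟩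
      exact ⟨Z₁, h1, (ih Z₁).2 ⟨a, Z', h3, h4⟩⟩

theorem gat_bind : Gat b (s.bind k) Z ↔ Gat b s Z ∧ ∀ a Z', Lf b s Z a Z' → Gat b (k a) Z' := by
  induction s generalizing Z with
  | ret a =>
    constructor
    · intro h
      refine ⟨trivial, ?_⟩
      rintro a' Z' ⟨rfl, rfl⟩
      exact h
    · rintro ⟨-, h⟩
      exact h a Z ⟨rfl, rfl⟩
  | peel d f ih =>
    constructor
    · rintro ⟨h1, h2⟩
      refine ⟨⟨h1, fun Z' h3 => ((ih Z').1 (h2 Z' h3)).1⟩, ?_⟩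
      rintro a Z' ⟨Z₁, h3, h4⟩
      exact ((ih Z₁).1 (h2 Z₁ h3)).2 a Z' h4
    · rintro ⟨⟨h1, h2⟩, h3⟩
      exact ⟨h1, fun Z' h4 => (ih Z').2 ⟨h2 Z' h4, fun a Z'' h5 => h3 a Z'' ⟨Z', h4, h5⟩⟩⟩

theorem run_bind : Run b T (s.bind k) Z c Z'' ↔ ∃ a Z', Run b T s Z a Z' ∧ Run b T (k a) Z' c Z'' := by
  induction s generalizing Z with
  | ret a =>
    constructor
    · intro h
      exact ⟨a, Z, ⟨rfl, rfl⟩, h⟩
    · rintro ⟨a', Z', ⟨rfl, rfl⟩, h⟩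
      exact h
  | peel d f ih =>
    constructor
    · rintro ⟨Z₁, h1, h1', h2⟩
      obtain ⟨a, Z', h3, h4⟩ := (ih Z₁).1 h2
      exact ⟨a, Z', ⟨Z₁, h1, h1', h3⟩, h4⟩
    · rintro ⟨a, Z', ⟨Z₁, h1, h1', h3⟩, h4⟩
      exact ⟨Z₁, h1, h1', (ih Z₁).2 ⟨a, Z', h3, h4⟩⟩

theorem runP_bind : RunP b T P (s.bind k) Z c Z'' ↔ ∃ a Z', RunP b T P s Z a Z' ∧ RunP b T P (k a) Z' c Z'' := by
  induction s generalizing Z with
  | ret a =>
    constructor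
    · intro h
      exact ⟨a, Z, ⟨rfl, rfl⟩, h⟩
    · rintro ⟨a', Z', ⟨rfl, rfl⟩, h⟩
      exact h
  | peel d f ih =>
    constructor
    · rintro ⟨Z₁, h1, h1', h1'', h2⟩
      obtain ⟨a, Z', h3, h4⟩ := (ih Z₁).1 h2
      exact ⟨a, Z', ⟨Z₁, h1, h1', h1'', h3⟩, h4⟩
    · rintro ⟨a, Z', ⟨Z₁, h1, h1', h1'', h3⟩, h4⟩
      exact ⟨Z₁, h1, h1', h1'', (ih Z₁).2 ⟨a, Z', h3, h4⟩⟩

theorem bad_bind : Bad b T (s.bind k) Z ↔ Bad b T s Z ∨ ∃ a Z', Run b T s Z a Z' ∧ Bad b T (k a) Z' := by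
  induction s generalizing Z with
  | ret a =>
    constructor
    · intro h
      exact Or.inr ⟨a, Z, ⟨rfl, rfl⟩, h⟩
    · rintro (h | ⟨a', Z', ⟨rfl, rfl⟩, h⟩)
      · exact h.elim
      · exact h
  | peel d f ih =>
    constructor
    · rintro (h | ⟨Z₁, h1, h1', h2⟩)
      · exact Or.inl (Or.inl h)
      · rcases (ih Z₁).1 h2 with h3 | ⟨a, Z', h3, h4⟩
        · exact Or.inl (Or.inr ⟨Z₁, h1, h1', h3⟩)
        · exact Or.inr ⟨a, Z', ⟨Z₁, h1, h1', h3⟩, h4⟩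
    · rintro ((h | ⟨Z₁, h1, h1', h2⟩) | ⟨a, Z', ⟨Z₁, h1, h1', h3⟩, h4⟩)
      · exact Or.inl h
      · exact Or.inr ⟨Z₁, h1, h1', (ih Z₁).2 (Or.inl h2)⟩
      · exact Or.inr ⟨Z₁, h1, h1', (ih Z₁).2 (Or.inr ⟨a, Z', h3, h4⟩)⟩

theorem run_lf (h : Run b T s Z a Z') : Lf b s Z a Z' := by
  induction s generalizing Z with
  | ret a => exact h
  | peel d f ih =>
    obtain ⟨Z₁, h1, -, h2⟩ := h
    exact ⟨Z₁, h1, ih Z₁ h2⟩

theorem runP_run (h : RunP b T P s Z a Z') : Run b T s Z a Z' := by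
  induction s generalizing Z with
  | ret a => exact h
  | peel d f ih =>
    obtain ⟨Z₁, h1, h1', -, h2⟩ := h
    exact ⟨Z₁, h1, h1', ih Z₁ h2⟩

theorem runP_mono (h : RunP b T P s Z a Z') (hP : ∀ Y d Y', P Y d Y' → P' Y d Y') : RunP b T P' s Z a Z' := by
  induction s generalizing Z with
  | ret a => exact h
  | peel d f ih =>
    obtain ⟨Z₁, h1, h1', h3, h2⟩ := h
    exact ⟨Z₁, h1, h1', hP _ _ _ h3, ih Z₁ h2⟩

theorem run_or_bad (b : ℕ) (T : Tri D) (s : Str D A) (Z : Part D) : Bad b T s Z ∨ ∃ a Z', Run b T s Z a Z' := by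
  induction s generalizing Z with
  | ret a => exact Or.inr ⟨a, Z, rfl, rfl⟩
  | peel d f ih =>
    by_cases h : ∃ Z₁, SS b Z d Z₁ ∧ In T Z₁
    · obtain ⟨Z₁, h1, h2⟩ := h
      rcases ih Z₁ Z₁ with h3 | ⟨a, Z', h3⟩
      · exact Or.inl (Or.inr ⟨Z₁, h1, h2, h3⟩)
      · exact Or.inr ⟨a, Z', Z₁, h1, h2, h3⟩
    · exact Or.inl (Or.inl h)

theorem ls_bind (b : ℕ) (ψ : A' → Part D → ℝ) (s : Str D A) (k : A → Str D A') (Z : Part D) :
    LS b ψ (s.bind k) Z = LS b (fun a Z' => LS b ψ (k a) Z') s Z := by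
  induction s generalizing Z with
  | ret a => rfl
  | peel d f ih =>
    show (∑ Z₁ : Part D, if SS b Z d Z₁ then LS b ψ ((f Z₁).bind k) Z₁ else 0) =
      ∑ Z₁ : Part D, if SS b Z d Z₁ then LS b (fun a Z' => LS b ψ (k a) Z') (f Z₁) Z₁ else 0
    refine Finset.sum_congr rfl fun Z₁ _ => ?_
    rw [ih]

theorem ls_nn (h : ∀ a Z', Lf b s Z a Z' → 0 ≤ ψ a Z') : 0 ≤ LS b ψ s Z := by
  induction s generalizing Z with
  | ret a => exact h a Z ⟨rfl, rfl⟩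
  | peel d f ih =>
    show 0 ≤ ∑ Z₁ : Part D, if SS b Z d Z₁ then LS b ψ (f Z₁) Z₁ else 0
    refine Finset.sum_nonneg fun Z₁ _ => ?_
    split_ifs with h1
    · exact ih Z₁ fun a Z' h2 => h a Z' ⟨Z₁, h1, h2⟩
    · exact le_refl 0

theorem ls_le (h : ∀ a Z', Lf b s Z a Z' → ψ a Z' ≤ φ a Z') : LS b ψ s Z ≤ LS b φ s Z := by
  induction s generalizing Z with
  | ret a => exact h a Z ⟨rfl, rfl⟩
  | peel d f ih =>
    show (∑ Z₁ : Part D, if SS b Z d Z₁ then LS b ψ (f Z₁) Z₁ else 0) ≤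
      ∑ Z₁ : Part D, if SS b Z d Z₁ then LS b φ (f Z₁) Z₁ else 0
    refine Finset.sum_le_sum fun Z₁ _ => ?_
    split_ifs with h1
    · exact ih Z₁ fun a Z' h2 => h a Z' ⟨Z₁, h1, h2⟩
    · exact le_refl 0

theorem ls_mul (b : ℕ) (r : ℝ) (ψ : A → Part D → ℝ) (s : Str D A) (Z : Part D) :
    LS b (fun a Z' => r * ψ a Z') s Z = r * LS b ψ s Z := by
  induction s generalizing Z with
  | ret a => rfl
  | peel d f ih =>
    show (∑ Z₁ : Part D, if SS b Z d Z₁ then LS b (fun a Z' => r * ψ a Z') (f Z₁) Z₁ else 0) =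
      r * ∑ Z₁ : Part D, if SS b Z d Z₁ then LS b ψ (f Z₁) Z₁ else 0
    rw [Finset.mul_sum]
    refine Finset.sum_congr rfl fun Z₁ _ => ?_
    rw [ih, mul_ite, mul_zero]

theorem ls_add (b : ℕ) (ψ φ : A → Part D → ℝ) (s : Str D A) (Z : Part D) :
    LS b (fun a Z' => ψ a Z' + φ a Z') s Z = LS b ψ s Z + LS b φ s Z := by
  induction s generalizing Z with
  | ret a => rfl
  | peel d f ih =>
    show (∑ Z₁ : Part D, if SS b Z d Z₁ then LS b (fun a Z' => ψ a Z' + φ a Z') (f Z₁) Z₁ else 0) =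
      (∑ Z₁ : Part D, if SS b Z d Z₁ then LS b ψ (f Z₁) Z₁ else 0) +
        ∑ Z₁ : Part D, if SS b Z d Z₁ then LS b φ (f Z₁) Z₁ else 0
    rw [← Finset.sum_add_distrib]
    refine Finset.sum_congr rfl fun Z₁ _ => ?_
    rw [ih]
    split_ifs
    · rfl
    · exact (add_zero 0).symm

theorem ls_sum {ι : Type} (b : ℕ) (I : Finset ι) (ψ : ι → A → Part D → ℝ) (s : Str D A) (Z : Part D) :
    LS b (fun a Z' => ∑ i ∈ I, ψ i a Z') s Z = ∑ i ∈ I, LS b (ψ i) s Z := by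
  induction s generalizing Z with
  | ret a => rfl
  | peel d f ih =>
    show (∑ Z₁ : Part D, if SS b Z d Z₁ then LS b (fun a Z' => ∑ i ∈ I, ψ i a Z') (f Z₁) Z₁ else 0) =
      ∑ i ∈ I, ∑ Z₁ : Part D, if SS b Z d Z₁ then LS b (ψ i) (f Z₁) Z₁ else 0
    rw [Finset.sum_comm]
    refine Finset.sum_congr rfl fun Z₁ _ => ?_
    rw [ih]
    split_ifs
    · rfl
    · exact Finset.sum_const_zero.symm

end SYS.GW
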