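import Pool.Agent.SYS.Reg.SimT
import Pool.Agent.SYS.Reg.SimR
import Pool.Agent.SYS.Reg.SimL
import Pool.Agent.SYS.Reg.SimX

/-!
# SYSS-GRW-Tp: the same step over a smaller base (same darts)

`S` = base of the joint exploration (region of the first branch), `T` = base of the second branch alone, the same darts in both
(`Sim ... id`).  `tp_step`: a local step over `S` is a local step over `T`; `tp_le`: the region over `T` is a part of the triangulation.
-/

namespace SYS
namespace Part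

open Classical SST

variable {D : Type} [Finite D] {S S₁ S₂ T T₁ : Part D} {x y d z : D} {W : ℕ} {s : Stp} {X : Tri D}

private theorem pc_id : pc S₁ S₂ (id : D → D) id = id := by
  funext e
  unfold pc
  split_ifs <;> rfl

private theorem tp_aux {s : Stp}
    (h : ∃ (T₂ : Part D) (z' : D), LSt T T₁ y W (id d) s T₂ z' ∧ T₂.R \ T₁.R = id '' (S₂.R \ S₁.R) ∧
      Sim S S₂ x T T₂ y W (pc S₁ S₂ id id) ∧ z ∈ NW S S₂ x W ∧ z' = pc S₁ S₂ id id z) :
    ∃ T₂, LSt T T₁ y W d s T₂ z ∧ T₂.R \ T₁.R = S₂.R \ S₁.R ∧ Sim S S₂ x T T₂ y W id ∧ z ∈ NW S S₂ x W := by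
  obtain ⟨T₂, z', h1, h2, h3, h4, h5⟩ := h
  rw [pc_id] at h3 h5
  rw [Set.image_id] at h2
  have h6 : z' = z := h5
  subst h6
  exact ⟨T₂, h1, h2, h3, h4⟩

/-- A local step over `S` is a local step over `T`. -/
theorem tp_step (h : Sim S S₁ x T T₁ y W id) (hd : d ∈ NW S S₁ x W) (hst : LSt S S₁ x W d s S₂ z)
    (hn : ∀ e ∈ S₂.R \ S₁.R, e ∉ T₁.R) :
    ∃ T₂, LSt T T₁ y W d s T₂ z ∧ T₂.R \ T₁.R = S₂.R \ S₁.R ∧ Sim S S₂ x T T₂ y W id ∧ z ∈ NW S S₂ x W := by
  have hi : Set.InjOn (id : D → D) (S₂.R \ S₁.R) := Function.injective_id.injOn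
  cases s with
  | T => exact tp_aux (sim_T h hd hst hi hn)
  | L k a => exact tp_aux (sim_L h hd hst hi hn)
  | R k a => exact tp_aux (sim_R h hd hst hi hn)

/-- The region over `T` is a part of the triangulation. -/
theorem tp_le (h : Sim S S₁ x T T₁ y W id) (h1 : S₁.Le X) (h2 : T.Le X) : T₁.Le X := by
  have hnew : T₁.R \ T.R = S₁.R \ S.R := by
    rw [← h.new, Set.image_id]
  have him : NW T T₁ y W = NW S S₁ x W := by
    rw [← sim_image h, Set.image_id]
  refine ⟨fun e he => ?_, fun e he => ?_⟩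
  · by_cases h3 : T.f e = e
    · have h4 : e ∈ T₁.R \ T.R := ⟨he, fun h5 => h5 h3⟩
      rw [hnew] at h4
      have h5 := h.f e h4
      simp only [id] at h5
      rw [h1.1 e h4.1, h5]
    · rw [h2.1 e h3, h.sub'.1 e h3]
  · by_cases h3 : T.a e = e
    · have hR : e ∈ T₁.R := fun h4 => he (T₁.af e h4)
      have h4 : e ∈ NW T T₁ y W := by
        by_cases h5 : e ∈ T.R
        · by_contra h6
          exact he (h.off' e ⟨h5, h3⟩ h6)
        · exact Or.inl ⟨hR, h5⟩
      rw [him] at h4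
      have h5 := (h.a e h4).2
      simp only [id] at h5
      rw [← h5] at he ⊢
      exact h1.2 e he
    · rw [h2.2 e h3, h.sub'.2 e h3]

end Part
end SYS
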