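import Pool.Agent.SYS.GW.DefC

/-!
# SYSS-GRW-WordS: effect of a step at a gate inside the territory on the word of the boundary

Rotation of the boundary word to the gate, `hw_face`, `st_word_R`, `st_word_L`, rotation back.
-/

namespace SYS.GW

open Classical SST SYS.Num Str

variable {n b p F : ℕ} {V V' : Part (Fin (6 * n))} {o d : Fin (6 * n)} {C t₁ t₂ : List (Fin (6 * n))}

private theorem ws_rot {D : Type} [Finite D] {V : Part D} {z o : D} (hz : z ∈ V.B) {A t : List D}
    (h : V.hw z = A ++ o :: t) : o ∈ V.B ∧ V.hw o = o :: (t ++ A) := by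
  refine ⟨?_, Part.hw_rot V hz h⟩
  have h1 : o ∈ V.hw z := by
    rw [h]
    exact List.mem_append.2 (Or.inr List.mem_cons_self)
  exact ((Part.mem_hw V hz).1 h1).1

/-- One small step at a gate which is deep in the territory. -/
theorem step_word (h : OH V p F) (ho : o ∈ V.B) (hC : C ≠ []) (hw : V.hw o = C ++ (t₁ ++ d :: t₂)) (h1 : b + 2 ≤ t₁.length)
    (h2 : b + 2 ≤ t₂.length) (hs : SS b V d V') : o ∈ V'.B ∧
      ((∃ z₁ z₂, z₁ ∉ V.R ∧ z₂ ∉ V.R ∧ V'.hw o = C ++ (t₁ ++ z₁ :: z₂ :: t₂)) ∨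
        (∃ k, k < b ∧ V'.hw o = C ++ (t₁ ++ t₂.drop (k + 1))) ∨ ∃ k, k < b ∧ V'.hw o = C ++ (t₁.take (t₁.length - (k + 1)) ++ t₂)) := by
  have _ := h
  obtain ⟨C', rfl⟩ : ∃ C', C = o :: C' := by
    obtain ⟨u, hu⟩ := Part.hw_cons V ho
    obtain ⟨c, C', rfl⟩ := List.exists_cons_of_ne_nil hC
    rw [hu, List.cons_append, List.cons.injEq] at hw
    exact ⟨C', by rw [hw.1]⟩
  have hd : V.hw d = d :: (t₂ ++ ((o :: C') ++ t₁)) :=
    Part.hw_rot V ho (u := (o :: C') ++ t₁) (v := t₂) (by rw [hw, List.append_assoc])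
  obtain ⟨s, z, hst, hsm⟩ := hs
  have hz : z ∈ V'.B := (Part.st_sub hst).2.2
  cases s with
  | T =>
    obtain ⟨t0, x1, x2, hx, g0, g1, g2, h01, h12, h20, rfl, rfl⟩ := hst
    have h3 := Part.hw_face V hx g0 g1 g2 h01 h12 h20 hd
    obtain ⟨h4, h5⟩ := ws_rot (A := z :: x2 :: t₂) (t := C' ++ t₁) hz (by rw [h3]; rfl)
    refine ⟨h4, Or.inl ⟨z, x2, g1, g2, ?_⟩⟩
    rw [h5]
    simp
  | R k a =>
    have hk : k + a < b := hsm
    obtain ⟨y, u, v, h3, h4, h5⟩ := Part.st_word_R hst
    rw [hd, List.cons.injEq] at h3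
    have h6 := congrArg (List.drop (k + 1)) h3.2
    rw [List.drop_append_of_le_length (by omega)] at h6
    have h7 : (u ++ y :: v).drop (k + 1) = v := by
      rw [← h4, List.drop_append, List.drop_of_length_le (by omega)]
      simp
    rw [h7] at h6
    obtain ⟨h8, h9⟩ := ws_rot (A := t₂.drop (k + 1)) (t := C' ++ t₁) hz (by rw [h5, ← h6]; rfl)
    refine ⟨h8, Or.inr (Or.inl ⟨k, by omega, ?_⟩)⟩
    rw [h9]
    simp
  | L k a =>
    have hk : k + a < b := hsm
    obtain ⟨y, u, v, h3, h4, h5⟩ := Part.st_word_L hst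
    rw [hd, List.cons.injEq] at h3
    have hlen := congrArg List.length h3.2
    simp only [List.length_append, List.length_cons] at hlen
    have h6 := congrArg (List.take u.length) h3.2
    rw [List.take_left, ← List.append_assoc, List.take_append, List.take_of_length_le (by
      rw [List.length_append, List.length_cons]; omega)] at h6
    have h7 : u.length - (t₂ ++ o :: C').length = t₁.length - (k + 1) := by
      rw [List.length_append, List.length_cons]
      omega
    rw [h7] at h6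
    obtain ⟨h8, h9⟩ := ws_rot (o := o) (A := t₂) (t := C' ++ t₁.take (t₁.length - (k + 1))) hz
      (by rw [h5, ← h6]; simp)
    refine ⟨h8, Or.inr (Or.inr ⟨k, by omega, ?_⟩)⟩
    rw [h9]
    simp

/-- The same with marked ends `l`, `r` of the territory: the gate is in the middle part `s`. -/
theorem step_marg (h : OH V p F) (ho : o ∈ V.B) (hC : C ≠ []) {l s₁ s₂ r : List (Fin (6 * n))} (hw : V.hw o = C ++ (l ++ (s₁ ++ d :: s₂) ++ r))
    (h1 : b + 2 ≤ l.length) (h2 : b + 2 ≤ r.length) (hs : SS b V d V') : o ∈ V'.B ∧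
      ∃ l' s' r', V'.hw o = C ++ (l' ++ s' ++ r') ∧ l' <+: l ∧ r' <:+ r ∧ l.length ≤ l'.length + b ∧ r.length ≤ r'.length + b ∧
        ∀ e ∈ s', e ∈ s₁ ∨ e ∈ s₂ ∨ e ∉ V.R := by
  have hw' : V.hw o = C ++ ((l ++ s₁) ++ d :: (s₂ ++ r)) := by
    rw [hw]
    simp
  obtain ⟨h3, h4⟩ := step_word h ho hC hw' (by rw [List.length_append]; omega)
    (by rw [List.length_append]; omega) hs
  refine ⟨h3, ?_⟩
  rcases h4 with ⟨z₁, z₂, g1, g2, h5⟩ | ⟨k, hk, h5⟩ | ⟨k, hk, h5⟩
  · refine ⟨l, s₁ ++ z₁ :: z₂ :: s₂, r, ?_, List.prefix_refl _, List.suffix_refl _, by omega,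
      by omega, ?_⟩
    · rw [h5]
      simp
    · intro e he
      rw [List.mem_append, List.mem_cons, List.mem_cons] at he
      rcases he with he | rfl | rfl | he
      · exact Or.inl he
      · exact Or.inr (Or.inr g1)
      · exact Or.inr (Or.inr g2)
      · exact Or.inr (Or.inl he)
  · refine ⟨l, s₁ ++ s₂.drop (k + 1), r.drop (k + 1 - s₂.length), ?_, List.prefix_refl _,
      List.drop_suffix _ _, by omega, ?_, ?_⟩
    · rw [h5, List.drop_append]
      simp
    · rw [List.length_drop]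
      omega
    · intro e he
      rw [List.mem_append] at he
      rcases he with he | he
      · exact Or.inl he
      · exact Or.inr (Or.inl (List.mem_of_mem_drop he))
  · refine ⟨l.take ((l ++ s₁).length - (k + 1)),
      s₁.take ((l ++ s₁).length - (k + 1) - l.length) ++ s₂, r, ?_, List.take_prefix _ _,
      List.suffix_refl _, ?_, by omega, ?_⟩
    · rw [h5, List.take_append]
      simp
    · rw [List.length_take, List.length_append]
      omega
    · intro e he
      rw [List.mem_append] at he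
      rcases he with he | he
      · exact Or.inl (List.mem_of_mem_take he)
      · exact Or.inr (Or.inl he)

end SYS.GW
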